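import Pool.Agent.Lib.MP_242fd5_gt.Cu.M5

set_option autoImplicit false

open MeasureTheory Set Metric Filter Topology
open scoped RealInnerProductSpace

namespace Pool.Agent.Lib.MP_242fd5_gt.Cu

open Ty

variable {q k : ℕ}

namespace E6

lemma tay (m : ℕ) {x y : ℝ} (hx : 0 ≤ x) (hy : 0 ≤ y) :
    0 ≤ y ^ (m + 2) + (m + 1) * x ^ (m + 2) - (m + 2) * (x ^ (m + 1) * y) ∧
      y ^ (m + 2) + (m + 1) * x ^ (m + 2) - (m + 2) * (x ^ (m + 1) * y) ≤
        (m + 2) ^ 2 * ((x + y) ^ m * (x - y) ^ 2) := by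
  induction m with
  | zero => constructor <;> simp <;> nlinarith [sq_nonneg (x - y)]
  | succ m ih =>
    have e : y ^ (m + 1 + 2) + ((m + 1 : ℕ) + 1) * x ^ (m + 1 + 2) -
        ((m + 1 : ℕ) + 2) * (x ^ (m + 1 + 1) * y) =
        y * (y ^ (m + 2) + (m + 1) * x ^ (m + 2) - (m + 2) * (x ^ (m + 1) * y)) +
          (m + 2) * (x ^ (m + 1) * (x - y) ^ 2) := by push_cast; ring
    rw [e]
    refine ⟨add_nonneg (mul_nonneg hy ih.1) (by positivity), ?_⟩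
    have h1 := mul_le_mul (show y ≤ x + y by linarith) ih.2 ih.1 (by linarith)
    have h2 : x ^ (m + 1) * (x - y) ^ 2 ≤ (x + y) ^ (m + 1) * (x - y) ^ 2 :=
      mul_le_mul_of_nonneg_right (pow_le_pow_left₀ hx (by linarith) _) (sq_nonneg _)
    have h3 : 0 ≤ (x + y) ^ (m + 1) * (x - y) ^ 2 := by positivity
    have h4 : (x + y) * ((m + 2) ^ 2 * ((x + y) ^ m * (x - y) ^ 2)) =
        (m + 2) ^ 2 * ((x + y) ^ (m + 1) * (x - y) ^ 2) := by ring
    have h5 := mul_le_mul_of_nonneg_left h2 (show (0 : ℝ) ≤ m + 2 by positivity)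
    have h6 : (0 : ℝ) ≤ m := m.cast_nonneg
    push_cast
    linarith [mul_nonneg h6 h3]

lemma sq_le_of {a c : ℝ} (h0 : 0 ≤ a) (h1 : a ≤ c) (h2 : c ≤ 1) : a ^ 2 ≤ c := by nlinarith

/-- the remainder in the inequality of Young -/
noncomputable def Rm (φ ψ : X q) : ℝ :=
  I (ψ ^ (q + 3)) + (q + 2) * I (φ ^ (q + 3)) - (q + 3) * I (φ ^ (q + 2) * ψ)

lemma Rm_eq (φ ψ : X q) : Rm φ ψ =
    I (ψ ^ (q + 3) + ((q : ℝ) + 2) • φ ^ (q + 3) - ((q : ℝ) + 3) • (φ ^ (q + 2) * ψ)) := by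
  simp only [Rm, map_add, map_sub, map_smul, smul_eq_mul]

lemma Rm_nonneg {φ ψ : X q} (hφ : 0 ≤ φ) (hψ : 0 ≤ ψ) : 0 ≤ Rm φ ψ := by
  rw [Rm_eq]
  refine I_nonneg fun u => ?_
  have := (tay (q + 1) (x := φ u) (y := ψ u) (hφ u) (hψ u)).1
  push_cast at this
  change 0 ≤ ψ u ^ (q + 3) + (q + 2) * φ u ^ (q + 3) - (q + 3) * (φ u ^ (q + 2) * ψ u)
  linarith

/-- the constant of the second order term -/
def Kc (q : ℕ) (B : ℝ) : ℝ := (q + 3) ^ 2 * (2 ^ (q + 3) * (B + B) ^ (q + 1))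

lemma Kc_pos (q : ℕ) {B : ℝ} (h : 0 < B) : 0 < Kc q B := by unfold Kc; positivity

lemma Rm_le {φ ψ : X q} (hφ : 0 ≤ φ) (hψ : 0 ≤ ψ) {B e : ℝ} (h1 : z φ ≤ B) (h2 : z ψ ≤ B)
    (h3 : z (φ - ψ) ≤ e) : Rm φ ψ ≤ Kc q B * e ^ 2 := by
  have a1 : Rm φ ψ ≤ ((q : ℝ) + 3) ^ 2 * I ((φ + ψ) ^ (q + 1) * (φ - ψ) ^ 2) := by
    rw [Rm_eq, ← smul_eq_mul (((q : ℝ) + 3) ^ 2), ← map_smul]
    refine I_mono fun u => ?_
    have := (tay (q + 1) (x := φ u) (y := ψ u) (hφ u) (hψ u)).2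
    push_cast at this
    change ψ u ^ (q + 3) + (q + 2) * φ u ^ (q + 3) - (q + 3) * (φ u ^ (q + 2) * ψ u) ≤
      (q + 3) ^ 2 * ((φ u + ψ u) ^ (q + 1) * (φ u - ψ u) ^ 2)
    have e : ((q : ℝ) + 1 + 2) = q + 3 := by ring
    rw [e] at this
    linarith
  have a2 := (z_add_le φ ψ).trans (add_le_add h1 h2)
  have a3 := z_nonneg (φ + ψ)
  have a4 := z_nonneg (φ - ψ)
  have a5 := a3.trans a2
  refine a1.trans ?_
  rw [Kc, mul_assoc]
  refine mul_le_mul_of_nonneg_left ((H2 (add_nonneg hφ hψ) _).trans ?_) (by positivity)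
  gcongr

lemma key_lo {f G : X q} (hf : 0 ≤ f) (hG : 0 ≤ G) (F0 : 0 < I (f ^ (q + 3)))
    (P0 : 0 < I (G ^ (q + 3))) : Ph G - Rm f (N G) / I (G ^ (q + 3)) ^ (q + 2) ≤ Ph f := by
  have h := Rm_nonneg (smul_nonneg (div_pos F0 P0).le hG) (N_nonneg hf)
  rw [Rm, smul_pow, smul_pow, smul_mul_assoc, map_smul, map_smul, mul_comm (G ^ _), I_N_symm,
    smul_eq_mul, smul_eq_mul] at h
  rw [Ph, Ph, Rm, ← sub_div, div_le_div_iff₀ (by positivity) (by positivity)]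
  generalize I (f ^ (q + 3)) = F at *
  generalize I (G ^ (q + 3)) = P at *
  have e1 : (F / P) ^ (q + 3) * P = (F / P) ^ (q + 2) * F := by
    rw [pow_succ, mul_assoc, div_mul_cancel₀ _ P0.ne']
  have e2 : (F / P) ^ (q + 2) * P ^ (q + 2) = F ^ (q + 2) := by
    rw [← mul_pow, div_mul_cancel₀ _ P0.ne']
  rw [e1] at h
  rw [← e2]
  linarith [mul_nonneg h (pow_pos P0 (q + 2)).le]

lemma sum_jac_ge (hk : 1 ≤ k) {g : Cf q k} (h : ∀ i, |jac (g i) - 1| ≤ 1 / 2) :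
    1 / 2 ≤ ∑ i, jac (g i) :=
  le_trans (by linarith [(abs_le.1 (h ⟨0, hk⟩)).1])
    (Finset.single_le_sum (f := fun i => jac (g i)) (fun i _ => (jac_pos _).le)
      (Finset.mem_univ ⟨0, hk⟩))

lemma vol_f (q k : ℕ) : ∃ L : ℝ, 1 ≤ L ∧ ∀ (g : Cf q k), (∀ i, |jac (g i) - 1| ≤ 1 / 2) →
    z (b g) + 1 ≤ L ∧ ∀ (f : X q) (w : ℝ), 0 ≤ f → z (f - b g) ≤ w → w ≤ 1 →
      z f ≤ L ∧ |I (f ^ (q + 3)) - ∑ i, jac (g i)| ≤ L * (w + la g) := by
  obtain ⟨C, C1, hC⟩ := M4 q k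
  obtain ⟨D, D1, hD⟩ := I_b q k
  have p1 : 0 ≤ ((q + 3 : ℕ) : ℝ) * (C + 1) ^ (q + 2) := by positivity
  refine ⟨C + 1 + D + (q + 3 : ℕ) * (C + 1) ^ (q + 2), by linarith, fun g hg =>
    ⟨by linarith [(hC g hg).1], fun f w hf hw w1 => ?_⟩⟩
  have a0 := (hC g hg).1
  have a1 : z f ≤ z (b g) + w := by
    have := z_add_le (f - b g) (b g)
    rw [sub_add_cancel] at this
    linarith
  have a2 : z (b g) ≤ z f + w := by
    have := z_add_le (b g - f) f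
    rw [sub_add_cancel, z_sub_comm] at this
    linarith
  have w0 := (z_nonneg _).trans hw
  have a3 : |z f ^ (q + 3) - z (b g) ^ (q + 3)| ≤ w * (q + 3 : ℕ) * (C + 1) ^ (q + 2) := by
    refine (abs_pow_sub_pow_le _ _ _).trans ?_
    rw [abs_of_nonneg (z_nonneg f), abs_of_nonneg (z_nonneg (b g))]
    have b1 : |z f - z (b g)| ≤ w := abs_le.2 ⟨by linarith, by linarith⟩
    have b2 : max (z f) (z (b g)) ≤ C + 1 := max_le (by linarith) (by linarith)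
    have b3 : 0 ≤ max (z f) (z (b g)) := le_max_of_le_left (z_nonneg f)
    rw [show q + 3 - 1 = q + 2 from rfl]
    gcongr
  rw [z_pow' hf, z_pow' (b_nonneg g), abs_le] at a3
  obtain ⟨a4, a5⟩ := hD g
  have l0 := la_nonneg g
  have a6 : 0 ≤ ((q : ℝ) + 3) * la g := by positivity
  refine ⟨by linarith, abs_le.2 ⟨?_, ?_⟩⟩ <;>
    linarith [mul_nonneg p1 l0, mul_nonneg (by linarith : 0 ≤ C + 1 + D) w0,
      mul_nonneg (by linarith : 0 ≤ C + 1) l0, mul_nonneg (by linarith : 0 ≤ D) l0]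

lemma la_JJ {g : Cf q k} (h : ∀ i, jac (g i) ≤ 2) : la (JJ g) ≤ 2 ^ (q + 1) * la g := by
  rw [la, la, Finset.sum_comm' (t' := Finset.univ) (s' := fun j => Finset.univ.erase j)
    (by simp [ne_comm]), Finset.mul_sum]
  refine Finset.sum_le_sum fun i _ => ?_
  rw [Finset.mul_sum]
  refine Finset.sum_le_sum fun j _ => ?_
  rw [JJ, JJ, io_J]
  exact mul_le_mul_of_nonneg_right (pow_le_pow_left₀ (jac_pos _).le (h j) _) (io_nonneg _ _)

/-- the lower bound through the preimage configuration -/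
lemma lo (q : ℕ) (hk : 1 ≤ k) : ∃ c K δ : ℝ, 0 < c ∧ 0 < K ∧ 0 < δ ∧ δ ≤ 1 / 2 ∧
    ∀ (g : Cf q k) (f : X q) (w : ℝ), Ad δ g → 0 ≤ f → z (f - b g) ≤ w → w ≤ δ →
      ∃ h : Cf q k, JJ h = g ∧ (∀ i, |jac (h i) - 1| ≤ 1 / 2) ∧
        lv q k * (1 + c * (la h + ∑ i, (jac (h i) - (∑ j, jac (h j)) / k) ^ 2) - K * w ^ 2) ≤
          Ph f := by
  obtain ⟨C, C1, hC⟩ := chain q k
  obtain ⟨c, δp, c0, p0, hp⟩ := pure_lo q hk
  obtain ⟨L, L1, hL⟩ := vol_f q k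
  obtain ⟨D, -, hD⟩ := I_b q k
  have l0 := lv_pos q hk
  obtain ⟨K, hK⟩ : ∃ K, K = Kc q L * 2 ^ (q + 2) := ⟨_, rfl⟩
  have K0 : 0 < K := by rw [hK]; exact mul_pos (Kc_pos q (by linarith)) (by positivity)
  obtain ⟨κ, κ0, κ1, κ2⟩ : ∃ κ : ℝ, 0 < κ ∧ κ ≤ 1 ∧ 4 * K * κ ≤ lv q k * c :=
    ⟨min 1 (lv q k * c / (4 * K)), by positivity, min_le_left _ _, by
      rw [← le_div_iff₀' (by positivity)]; exact min_le_right _ _⟩
  obtain ⟨δ5, d5, h5⟩ := M5 q k κ0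
  obtain ⟨ε, ε0, ε1, ε2, ε3⟩ : ∃ ε : ℝ, 0 < ε ∧ ε ≤ δp ∧ ε ≤ δ5 ∧ 8 * L * ε ≤ 1 :=
    ⟨min (min δp δ5) (1 / (8 * L)), by positivity, (min_le_left _ _).trans (min_le_left _ _),
      (min_le_left _ _).trans (min_le_right _ _), by
        rw [← le_div_iff₀' (by positivity)]; exact min_le_right _ _⟩
  have ε4 : ε ≤ 1 / 2 := by linarith [mul_le_mul_of_nonneg_right L1 ε0.le]
  have δ1 : ε / C ≤ ε := div_le_self ε0.le C1
  have δ0 : 0 < ε / C := by positivity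
  refine ⟨c / 2, 2 * K / lv q k, ε / C, by positivity, by positivity, δ0, δ1.trans ε4,
    fun g f w hg hf hw w1 => ?_⟩
  obtain ⟨e, e0, he⟩ := hC _ g δ0.le (δ1.trans ε4) hg
  have e1 : JJ (e 1) = g := e0 ▸ (he 0).1
  obtain ⟨-, e2⟩ := he 1
  rw [mul_div_cancel₀ _ (by linarith : C ≠ 0)] at e2
  have v1 : ∀ i, |jac (e 1 i) - 1| ≤ 1 / 2 := fun i => (e2.vol i).trans ε4
  have v2 : ∀ i, |jac (g i) - 1| ≤ 1 / 2 := fun i => (hg.vol i).trans (δ1.trans ε4)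
  refine ⟨e 1, e1, v1, ?_⟩
  generalize e 1 = h at e1 e2 v1
  have w0 := (z_nonneg _).trans hw
  have n0 := la_nonneg h
  have n1 : la h ≤ ε := e2.sep.trans (sq_le_of ε0.le le_rfl (by linarith))
  obtain ⟨b1, b2⟩ := hL g v2
  obtain ⟨b3, b4⟩ := b2 f w hf hw (by linarith)
  have n2 : la g ≤ ε := hg.sep.trans (sq_le_of δ0.le δ1 (by linarith))
  have F0 : 0 < I (f ^ (q + 3)) := by
    have := mul_le_mul_of_nonneg_left (add_le_add (w1.trans δ1) n2) (by linarith : 0 ≤ L)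
    linarith [(abs_le.1 b4).1, sum_jac_ge hk v2]
  have P0 : 1 / 2 ≤ I (b h ^ (q + 3)) := by
    have : 0 ≤ ((q : ℝ) + 3) * la h := by positivity
    linarith [(hD h).1, sum_jac_ge hk v1]
  have x1 := h5 h √(la h) (Real.sqrt_nonneg _) (n1.trans ε2) (Real.sq_sqrt n0).ge
  have x2 : κ * √(la h) ≤ 1 :=
    mul_le_one₀ κ1 (Real.sqrt_nonneg _) (Real.sqrt_le_one.2 (by linarith))
  have x3 : N (b h) = b g + Xc h := by rw [Xc, e1, add_sub_cancel]
  have x4 : z (N (b h)) ≤ L := by rw [x3]; linarith [z_add_le (b g) (Xc h)]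
  have x5 : z (f - N (b h)) ≤ w + κ * √(la h) := by
    rw [x3, ← sub_sub]; linarith [z_sub_le (f - b g) (Xc h)]
  have r0 := Rm_nonneg hf (N_nonneg (b_nonneg h))
  have r1 := Rm_le hf (N_nonneg (b_nonneg h)) b3 x4 x5
  have r2 : Rm f (N (b h)) / I (b h ^ (q + 3)) ^ (q + 2) ≤ K * (w + κ * √(la h)) ^ 2 := by
    rw [div_le_iff₀ (by positivity), hK]
    have y1 : 1 ≤ 2 ^ (q + 2) * I (b h ^ (q + 3)) ^ (q + 2) := by
      rw [← mul_pow]; exact one_le_pow₀ (by linarith)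
    linarith [mul_le_mul_of_nonneg_left y1 (r0.trans r1)]
  have r3 : (w + κ * √(la h)) ^ 2 ≤ 2 * w ^ 2 + 2 * (κ * la h) := by
    have y1 : (κ * √(la h)) ^ 2 ≤ κ * la h := by
      rw [mul_pow, Real.sq_sqrt n0]
      exact mul_le_mul_of_nonneg_right (sq_le_of κ0.le le_rfl κ1) n0
    linarith [sq_nonneg (w - κ * √(la h))]
  have r4 := key_lo hf (b_nonneg h) F0 (by linarith)
  have r5 := hp h (e2.mono ε0.le ε1)
  have r6 : 0 ≤ ∑ i, (jac (h i) - (∑ j, jac (h j)) / k) ^ 2 :=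
    Finset.sum_nonneg fun _ _ => sq_nonneg _
  have r7 : lv q k * (2 * K / lv q k * w ^ 2) = 2 * K * w ^ 2 := by field_simp
  rw [mul_sub, r7]
  linarith [mul_le_mul_of_nonneg_left r3 K0.le, mul_le_mul_of_nonneg_right κ2 n0,
    mul_nonneg (mul_pos l0 c0).le r6]

lemma cross (g : Cf q k) : ∃ ψ : X q, 0 ≤ ψ ∧ b g ^ (q + 2) = ∑ i, rh (g i) ^ (q + 2) + ψ ^ (q + 2) ∧
    I (ψ ^ (q + 3)) ≤ I (b g ^ (q + 3)) - ∑ i, jac (g i) := by
  have h1 : ∀ m, ∑ i, rh (g i) ^ (m + 1) ≤ b g ^ (m + 1) := fun m => by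
    rw [pow_succ' (b g)]
    conv_rhs => enter [1]; rw [b]
    rw [Finset.sum_mul]
    refine Finset.sum_le_sum fun i _ => ?_
    rw [pow_succ']
    exact mul_le_mul_of_nonneg_left (pow_le_pow_left₀ (rh_nonneg _) (rh_le_b g i) _) (rh_nonneg _)
  obtain ⟨ψ, p0, p1⟩ := exists_root (sub_nonneg.2 (h1 (q + 1))) (q + 1)
  have h2 : 0 ≤ ∑ i, rh (g i) ^ (q + 2) := Finset.sum_nonneg fun i _ => pow_nonneg (rh_nonneg _) _
  have h3 : ψ ≤ b g := fun u => le_of_pow_le_pow_left₀ (n := q + 2) (by omega) (b_nonneg g u)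
    ((p1.le.trans (sub_le_self _ h2)) u)
  refine ⟨ψ, p0, by rw [p1, add_sub_cancel], ?_⟩
  simp only [← I_rh, ← map_sum, ← map_sub]
  refine I_mono ?_
  rw [pow_succ' ψ]
  refine (mul_le_mul_of_nonneg_right h3 (pow_nonneg p0 _)).trans ?_
  rw [p1, mul_sub, ← pow_succ', Finset.mul_sum]
  refine sub_le_sub_left (Finset.sum_le_sum fun i _ => ?_) _
  rw [pow_succ' (rh (g i)) (q + 2)]
  exact mul_le_mul_of_nonneg_right (rh_le_b g i) (pow_nonneg (rh_nonneg _) _)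

lemma own {h : Cf q k} (j2 : ∀ i, jac (h i) ≤ 2) :
    I ((∑ i, rh (JJ h i) ^ (q + 2)) * Xc h) ≤ 2 ^ (q + 1) * (I (b h ^ (q + 3)) - ∑ i, jac (h i)) := by
  have e : I (b h ^ (q + 3)) = ∑ i, I (rh (h i) * b h ^ (q + 2)) := by
    rw [← map_sum, ← Finset.sum_mul, pow_succ' (b h)]; rfl
  rw [e, ← Finset.sum_sub_distrib, Finset.sum_mul, map_sum, Finset.mul_sum]
  refine Finset.sum_le_sum fun i _ => ?_
  have a1 : jac (h i) ≤ I (rh (h i) * b h ^ (q + 2)) := by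
    rw [← I_rh, pow_succ']
    exact I_mono (mul_le_mul_of_nonneg_left
      (pow_le_pow_left₀ (rh_nonneg _) (rh_le_b h i) _) (rh_nonneg _))
  have a2 : jac (h i) ^ (q + 1) * jac (h i) ≤ I (rh (JJ h i) ^ (q + 2) * b (JJ h)) := by
    rw [← pow_succ, ← jac_J, ← I_rh, pow_succ]
    exact I_mono (mul_le_mul_of_nonneg_left (rh_le_b (JJ h) i) (pow_nonneg (rh_nonneg _) _))
  rw [Xc, mul_sub, map_sub, ← I_N_symm, N_rh, JJ, rh_J_J, smul_mul_assoc, map_smul, smul_eq_mul]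
  have a3 := mul_le_mul_of_nonneg_right (pow_le_pow_left₀ (jac_pos _).le (j2 i) (q + 1))
    (sub_nonneg.2 a1)
  rw [JJ] at a2
  linarith

lemma NG_up (q k : ℕ) : ∃ C δ : ℝ, 0 < C ∧ 0 < δ ∧ ∀ (h : Cf q k) (a : ℝ), 0 ≤ a → a ≤ δ → Ad a h →
    I (N (b h) ^ (q + 3)) ≤ ∑ i, jac (h i) ^ (q + 2) + C * a ^ 2 := by
  obtain ⟨C, C1, hC⟩ := Ad_JJ q k
  obtain ⟨L, L1, hL⟩ := vol_f q k
  obtain ⟨D, D1, hD⟩ := I_b q k
  obtain ⟨δ5, d5, h5⟩ := M5 q k one_pos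
  have K0 := Kc_pos q (show 0 < L by linarith)
  obtain ⟨E, hE⟩ : ∃ E, E = D * C ^ 2 := ⟨_, rfl⟩
  have E1 : 1 ≤ E := by rw [hE]; exact one_le_mul_of_one_le_of_one_le D1 (one_le_pow₀ C1)
  refine ⟨E + (q + 3) * (2 ^ (q + 1) * D + 2 ^ (q + 3) * E) + Kc q L, min δ5 (1 / (2 * C)),
    by positivity, by positivity, fun h a a0 a1 hh => ?_⟩
  have a2 : C * a ≤ 1 / 2 := by
    have := a1.trans (min_le_right _ _)
    rw [le_div_iff₀ (by positivity)] at this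
    linarith
  have a3 : a ≤ 1 / 2 := by linarith [mul_le_mul_of_nonneg_right C1 a0]
  have hJ := hC a h a0 (by linarith) hh
  have x1 := h5 h a a0 (hh.sep.trans ((sq_le_of a0 le_rfl (by linarith)).trans
    (a1.trans (min_le_left _ _)))) hh.sep
  rw [one_mul] at x1
  have x3 : N (b h) = b (JJ h) + Xc h := by rw [Xc, add_sub_cancel]
  obtain ⟨b1, -⟩ := hL (JJ h) fun i => (hJ.vol i).trans a2
  have r1 := Rm_le (b_nonneg (JJ h)) (N_nonneg (b_nonneg h)) (B := L) (e := a) (by linarith)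
    (by rw [x3]; linarith [z_add_le (b (JJ h)) (Xc h)])
    (by rw [z_sub_comm]; exact x1)
  have r2 : I (b (JJ h) ^ (q + 2) * N (b h)) =
      I (b (JJ h) ^ (q + 3)) + I (b (JJ h) ^ (q + 2) * Xc h) := by
    rw [x3, mul_add, map_add, ← pow_succ]
  have r3 : D * la (JJ h) ≤ E * a ^ 2 := by
    rw [hE, mul_assoc, ← mul_pow]; exact mul_le_mul_of_nonneg_left hJ.sep (by linarith)
  obtain ⟨ψ, p0, p1, p2⟩ := cross (JJ h)
  have p3 : z ψ ^ (q + 3) ≤ E * a ^ 2 := by rw [z_pow' p0]; linarith [(hD (JJ h)).2]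
  have p4 : z ψ ^ (q + 2) ≤ E * a := by
    refine le_of_pow_le_pow_left₀ (n := q + 3) (by omega) (by positivity) ?_
    rw [← pow_mul, mul_comm (q + 2), pow_mul]
    refine (pow_le_pow_left₀ (pow_nonneg (z_nonneg _) _) p3 _).trans ?_
    rw [mul_pow, mul_pow, ← pow_mul]
    exact mul_le_mul (pow_le_pow_right₀ E1 (by omega))
      (pow_le_pow_of_le_one a0 (by linarith) (by omega)) (by positivity) (by positivity)
  have p5 : I (ψ ^ (q + 2) * Xc h) ≤ 2 ^ (q + 3) * E * a ^ 2 := by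
    have := H1 p0 (Xc h)
    rw [abs_of_nonneg (Xc_nonneg h)] at this
    have z0 := z_nonneg (Xc h)
    calc _ ≤ 2 ^ (q + 3) * (E * a) * a := this.trans (by gcongr)
      _ = _ := by ring
  have p6 := own (h := h) fun i => by linarith [(abs_le.1 (hh.vol i)).2]
  have p7 : 2 ^ (q + 1) * (I (b h ^ (q + 3)) - ∑ i, jac (h i)) ≤ 2 ^ (q + 1) * (D * a ^ 2) :=
    mul_le_mul_of_nonneg_left (by
      linarith [(hD h).2, mul_le_mul_of_nonneg_left hh.sep (by linarith : 0 ≤ D)]) (by positivity)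
  have p8 : I (b (JJ h) ^ (q + 2) * Xc h) ≤ (2 ^ (q + 1) * D + 2 ^ (q + 3) * E) * a ^ 2 := by
    rw [p1, add_mul, map_add]; linarith
  have p9 := mul_le_mul_of_nonneg_left p8 (show (0 : ℝ) ≤ q + 3 by positivity)
  have p10 := (hD (JJ h)).2
  simp only [JJ, jac_J] at p10
  rw [Rm, r2] at r1
  change I (b (JJ h) ^ (q + 3)) ≤ _ + D * la (JJ h) at p10
  linarith

end E6

open E6

theorem M6lo (q : ℕ) (hk : 1 ≤ k) : ∃ C δ : ℝ, 1 ≤ C ∧ 0 < δ ∧ ∀ (g : Cf q k) (f : X q) (w : ℝ),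
    Ad δ g → 0 ≤ f → z (f - b g) ≤ w → w ≤ δ → lv q k * (1 - C * w ^ 2) ≤ Ph f ∧
      ∀ η : ℝ, w ≤ η → η ≤ δ → Ph f ≤ lv q k * (1 + η ^ 2) → |I (f ^ (q + 3)) - k| ≤ η →
        Ad (C * η) g := by
  obtain ⟨c, K, δ, c0, K0, δ0, δ1, h⟩ := lo q hk
  obtain ⟨L, L1, hL⟩ := vol_f q k
  have l0 := lv_pos q hk
  obtain ⟨T, hT⟩ : ∃ T, T = (1 + K) / c + 1 := ⟨_, rfl⟩
  have T1 : 1 ≤ T := by rw [hT]; exact le_add_of_nonneg_left (by positivity)
  obtain ⟨U, hU⟩ : ∃ U, U = 2 ^ (q + 1) * T := ⟨_, rfl⟩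
  have U1 : 1 ≤ U := by rw [hU]; exact one_le_mul_of_one_le_of_one_le (one_le_pow₀ one_le_two) T1
  obtain ⟨W, hW⟩ : ∃ W, W = 2 * T * (q + 2 : ℕ) * 2 ^ (q + 1) := ⟨_, rfl⟩
  have W0 : 0 ≤ W := by rw [hW]; positivity
  have LU : 0 ≤ L * (1 + U) := by positivity
  refine ⟨K + U + W + (L * (1 + U) + 1), δ, by linarith, δ0, fun g f w hg hf hw w1 => ?_⟩
  obtain ⟨e, e1, v1, e2⟩ := h g f w hg hf hw w1
  have n0 := la_nonneg e
  have r6 : 0 ≤ ∑ i, (jac (e i) - (∑ j, jac (e j)) / k) ^ 2 :=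
    Finset.sum_nonneg fun _ _ => sq_nonneg _
  have w0 := (z_nonneg _).trans hw
  refine ⟨le_trans (mul_le_mul_of_nonneg_left ?_ l0.le) e2, fun η η1 η2 h1 h2 => ?_⟩
  · linarith [mul_nonneg c0.le (add_nonneg n0 r6),
      mul_nonneg (by linarith : 0 ≤ U + W + (L * (1 + U) + 1)) (sq_nonneg w)]
  have η0 := w0.trans η1
  have η3 : η ^ 2 ≤ η := sq_le_of η0 le_rfl (by linarith)
  have a1 := le_of_mul_le_mul_left (e2.trans h1) l0
  have a2 : la e + ∑ i, (jac (e i) - (∑ j, jac (e j)) / k) ^ 2 ≤ T * η ^ 2 := by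
    refine le_of_mul_le_mul_left ?_ c0
    have y1 : c * (T * η ^ 2) = (1 + K) * η ^ 2 + c * η ^ 2 := by rw [hT]; field_simp
    have y2 : w ^ 2 ≤ η ^ 2 := pow_le_pow_left₀ w0 η1 2
    linarith [mul_le_mul_of_nonneg_left y2 K0.le, mul_nonneg c0.le (sq_nonneg η)]
  have j2 : ∀ i, jac (e i) ≤ 2 := fun i => by linarith [(abs_le.1 (v1 i)).2]
  have a3 : la g ≤ U * η ^ 2 := by
    rw [← e1, hU, mul_assoc]
    exact (la_JJ j2).trans (mul_le_mul_of_nonneg_left (by linarith) (by positivity))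
  have a4 : ∀ i, |jac (e i) - (∑ j, jac (e j)) / k| ≤ T * η := fun i => by
    refine abs_le_of_sq_le_sq ?_ (by positivity)
    have y1 := Finset.single_le_sum (f := fun i => (jac (e i) - (∑ j, jac (e j)) / k) ^ 2)
      (fun _ _ => sq_nonneg _) (Finset.mem_univ i)
    linarith [mul_nonneg (mul_nonneg (by linarith : 0 ≤ T) (by linarith : 0 ≤ T - 1))
      (sq_nonneg η)]
  have a5 : ∀ i j, |jac (g i) - jac (g j)| ≤ W * η := fun i j => by
    rw [← e1, JJ, JJ, jac_J, jac_J]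
    refine (abs_pow_sub_pow_le _ _ _).trans ?_
    rw [abs_of_pos (jac_pos _), abs_of_pos (jac_pos _), show q + 2 - 1 = q + 1 from rfl]
    have y1 : |jac (e i) - jac (e j)| ≤ 2 * T * η := by
      have := abs_le.1 (a4 i)
      have := abs_le.1 (a4 j)
      exact abs_le.2 ⟨by linarith, by linarith⟩
    have y2 : max (jac (e i)) (jac (e j)) ≤ 2 := max_le (j2 i) (j2 j)
    have y3 : 0 ≤ max (jac (e i)) (jac (e j)) := le_max_of_le_left (jac_pos _).le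
    calc _ ≤ 2 * T * η * (q + 2 : ℕ) * 2 ^ (q + 1) := by gcongr
      _ = _ := by rw [hW]; ring
  have a6 : |∑ i, jac (g i) - k| ≤ (L * (1 + U) + 1) * η := by
    have y1 := abs_le.1 ((hL g fun i => (hg.vol i).trans δ1).2 f w hf hw (by linarith)).2
    have y2 := abs_le.1 h2
    have y3 : L * (w + la g) ≤ L * (η + U * η) := mul_le_mul_of_nonneg_left (by
      linarith [mul_le_mul_of_nonneg_left η3 (by linarith : 0 ≤ U)]) (by linarith)
    exact abs_le.2 ⟨by linarith, by linarith⟩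
  have k1 : (1 : ℝ) ≤ k := by exact_mod_cast hk
  refine ⟨fun i => ?_, a3.trans ?_⟩
  · have y1 : (k : ℝ) * (jac (g i) - 1) = ∑ j, (jac (g i) - jac (g j)) + (∑ j, jac (g j) - k) := by
      rw [Finset.sum_sub_distrib]; simp; ring
    have y2 : |∑ j, (jac (g i) - jac (g j))| ≤ k * (W * η) :=
      (Finset.abs_sum_le_sum_abs _ _).trans
        ((Finset.sum_le_sum fun j _ => a5 i j).trans_eq (by simp))
    have y3 : (k : ℝ) * |jac (g i) - 1| ≤ k * (W * η) + (L * (1 + U) + 1) * η := by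
      rw [← abs_of_pos (by linarith : (0 : ℝ) < k), ← abs_mul, y1, abs_of_pos (by linarith : (0 : ℝ) < k)]
      exact (abs_add_le _ _).trans (add_le_add y2 a6)
    have y4 : 0 ≤ (L * (1 + U) + 1) * η := by positivity
    refine le_of_mul_le_mul_left (y3.trans ?_) (by linarith : (0 : ℝ) < k)
    linarith [mul_le_mul_of_nonneg_right k1 y4,
      mul_nonneg (by linarith : (0 : ℝ) ≤ k) (mul_nonneg (by linarith : 0 ≤ K + U) η0)]
  · rw [mul_pow]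
    refine mul_le_mul_of_nonneg_right ((le_self_pow₀ U1 two_ne_zero).trans ?_) (sq_nonneg η)
    exact pow_le_pow_left₀ (by linarith) (by linarith) 2

theorem M6up (q : ℕ) (hk : 1 ≤ k) : ∃ C δ : ℝ, 1 ≤ C ∧ 0 < δ ∧ ∀ (g : Cf q k) (f : X q) (a : ℝ),
    a ≤ δ → Ad a g → 0 ≤ f → z (f - b g) ≤ a →
      Ph f ≤ lv q k * (1 + C * a ^ 2) ∧ |I (f ^ (q + 3)) - k| ≤ C * a := by
  obtain ⟨C, C1, hC⟩ := Ad_JJ q k
  obtain ⟨L, L1, hL⟩ := vol_f q k
  obtain ⟨D, -, hD⟩ := I_b q k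
  obtain ⟨U, δu, U0, u0, hU⟩ := NG_up q k
  obtain ⟨δ5, d5, h5⟩ := M5 q k one_pos
  have l0 := lv_pos q hk
  have K0 := Kc_pos q (show 0 < L by linarith)
  obtain ⟨M, hM⟩ : ∃ M, M = (q + 2) * 2 ^ (q + 2) * (L + L) ^ (q + 1) + 1 := ⟨_, rfl⟩
  have M1 : 1 ≤ M := by rw [hM]; exact le_add_of_nonneg_left (by positivity)
  obtain ⟨W, hW⟩ : ∃ W, W = Kc q L * M ^ 2 + U * C ^ 2 + k * ((q + 2) ^ 2 * (3 ^ q * C ^ 2)) :=
    ⟨_, rfl⟩
  have W0 : 0 ≤ W := by rw [hW]; positivity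
  have W1 : 0 ≤ W * 4 ^ (q + 2) / lv q k := by positivity
  have k1 : (1 : ℝ) ≤ k := by exact_mod_cast hk
  obtain ⟨ε, ε0, ε1, ε2, ε3, ε4⟩ : ∃ ε : ℝ, 0 < ε ∧ ε ≤ δu ∧ ε ≤ δ5 ∧ 8 * L * ε ≤ 1 ∧ M * ε ≤ 1 :=
    ⟨min (min δu δ5) (min (1 / (8 * L)) (1 / M)), by positivity,
      (min_le_left _ _).trans (min_le_left _ _), (min_le_left _ _).trans (min_le_right _ _), by
        rw [← le_div_iff₀' (by positivity)]; exact (min_le_right _ _).trans (min_le_left _ _), by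
        rw [← le_div_iff₀' (by positivity)]; exact (min_le_right _ _).trans (min_le_right _ _)⟩
  refine ⟨W * 4 ^ (q + 2) / lv q k + (2 * L + k), ε / C, by linarith, by positivity,
    fun g f a a1 hg hf hw => ?_⟩
  have a0 := (z_nonneg _).trans hw
  have a2 : C * a ≤ ε := by rwa [le_div_iff₀' (by positivity)] at a1
  have a3 : a ≤ ε := by linarith [mul_le_mul_of_nonneg_right C1 a0]
  have ε5 : ε ≤ 1 / 2 := by linarith [mul_le_mul_of_nonneg_right L1 ε0.le]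
  have hJ := hC a g a0 (by linarith) hg
  have v2 : ∀ i, |jac (g i) - 1| ≤ 1 / 2 := fun i => (hg.vol i).trans (by linarith)
  obtain ⟨b1, b2⟩ := hL g v2
  obtain ⟨b3, b4⟩ := b2 f a hf hw (by linarith)
  obtain ⟨b5, -⟩ := hL (JJ g) fun i => (hJ.vol i).trans (by linarith)
  have n2 : la g ≤ a := hg.sep.trans (sq_le_of a0 le_rfl (by linarith))
  have b6 : L * (a + la g) ≤ L * (a + a) := mul_le_mul_of_nonneg_left (by linarith) (by linarith)
  have b7 := abs_le.1 (b4.trans b6)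
  refine ⟨?_, ?_⟩
  · have F0 : 1 / 4 ≤ I (f ^ (q + 3)) := by
      linarith [sum_jac_ge hk v2, mul_le_mul_of_nonneg_left a3 (by linarith : 0 ≤ L)]
    have x1 := h5 g a a0 (by linarith) hg.sep
    have x2 : z (N f - b (JJ g)) ≤ M * a := by
      have y1 := z_tri (N f) (N (b g)) (b (JJ g))
      have y2 : z (N f - N (b g)) ≤ (q + 2) * 2 ^ (q + 2) * (L + L) ^ (q + 1) * a := by
        have := z_nonneg f
        have := z_nonneg (b g)
        have := z_nonneg (f - b g)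
        have : z (b g) ≤ L := by linarith
        exact (N_lip hf (b_nonneg g)).trans (by gcongr)
      rw [hM, add_mul]
      exact y1.trans (add_le_add y2 x1)
    have x3 : z (N f) ≤ L := by
      have := z_add_le (N f - b (JJ g)) (b (JJ g))
      rw [sub_add_cancel] at this
      linarith [mul_le_mul_of_nonneg_left a3 (by linarith : 0 ≤ M)]
    have r1 := Rm_le (b_nonneg (JJ g)) (N_nonneg hf) (B := L) (e := M * a) (by linarith) x3
      (by rw [z_sub_comm]; exact x2)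
    have r2 := Rm_nonneg hf (N_nonneg (b_nonneg (JJ g)))
    have r3 := hU (JJ g) (C * a) (by positivity) (by linarith) hJ
    have r4 : ∑ i, jac (JJ g i) ≤ I (b (JJ g) ^ (q + 3)) :=
      le_trans (le_add_of_nonneg_right (mul_nonneg (by positivity) (la_nonneg _))) (hD _).1
    have r5 : ∑ i, jac (JJ g i) ^ (q + 2) + k * (q + 1) - (q + 2) * ∑ i, jac (JJ g i) ≤
        k * ((q + 2) ^ 2 * (3 ^ q * (C * a) ^ 2)) := by
      have y1 : ∀ i, jac (JJ g i) ^ (q + 2) + (q + 1) - (q + 2) * jac (JJ g i) ≤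
          (q + 2) ^ 2 * (3 ^ q * (C * a) ^ 2) := fun i => by
        have t1 := (tay q zero_le_one (jac_pos (JJ g i)).le).2
        simp only [one_pow, mul_one, one_mul] at t1
        have t2 := abs_le.1 (hJ.vol i)
        have t3 : (1 - jac (JJ g i)) ^ 2 ≤ (C * a) ^ 2 := sq_le_sq' (by linarith) (by linarith)
        have t4 : (1 + jac (JJ g i)) ^ q ≤ 3 ^ q :=
          pow_le_pow_left₀ (by linarith) (by linarith) _
        exact t1.trans (by gcongr)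
      have y2 := Finset.sum_le_sum fun i (_ : i ∈ Finset.univ) => y1 i
      simp only [Finset.sum_sub_distrib, Finset.sum_add_distrib, ← Finset.mul_sum, Finset.sum_const,
        Finset.card_univ, Fintype.card_fin, nsmul_eq_mul] at y2
      linarith
    have r6 : (q + 2) * I (f ^ (q + 3)) - k * (q + 1) ≤ lv q k * I (f ^ (q + 3)) ^ (q + 2) := by
      have t1 := (tay q (by linarith : (0 : ℝ) ≤ k) (by linarith : 0 ≤ I (f ^ (q + 3)))).1
      rw [lv, le_inv_mul_iff₀ (by positivity)]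
      rw [pow_succ (k : ℝ) (q + 1)] at t1
      linarith
    have r7 : I (N f ^ (q + 3)) ≤ lv q k * I (f ^ (q + 3)) ^ (q + 2) + W * a ^ 2 := by
      rw [Rm, mul_comm (b _ ^ _), I_N_symm] at r1
      rw [Rm] at r2
      have := mul_le_mul_of_nonneg_left r4 (show (0 : ℝ) ≤ q + 2 by positivity)
      rw [hW]
      linarith
    have r8 : 1 ≤ 4 ^ (q + 2) * I (f ^ (q + 3)) ^ (q + 2) := by
      rw [← mul_pow]; exact one_le_pow₀ (by linarith)
    have r9 : lv q k * (W * 4 ^ (q + 2) / lv q k) = W * 4 ^ (q + 2) := by field_simp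
    have P0 : 0 < I (f ^ (q + 3)) ^ (q + 2) := by positivity
    rw [Ph, div_le_iff₀ P0]
    have s1 := mul_le_mul_of_nonneg_left r8 (mul_nonneg W0 (sq_nonneg a))
    have s2 : 0 ≤ lv q k * ((2 * L + k) * a ^ 2) * I (f ^ (q + 3)) ^ (q + 2) := by positivity
    calc _ ≤ lv q k * I (f ^ (q + 3)) ^ (q + 2) + lv q k * (W * 4 ^ (q + 2) / lv q k) * a ^ 2 *
          I (f ^ (q + 3)) ^ (q + 2) + lv q k * ((2 * L + k) * a ^ 2) * I (f ^ (q + 3)) ^ (q + 2) := by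
          rw [r9]; linarith
      _ = _ := by ring
  · have y2 : |∑ j, (jac (g j) - 1)| ≤ k * a := (Finset.abs_sum_le_sum_abs _ _).trans
      ((Finset.sum_le_sum fun j _ => hg.vol j).trans_eq (by simp))
    rw [Finset.sum_sub_distrib, abs_le] at y2
    simp only [Finset.sum_const, Finset.card_univ, Fintype.card_fin, nsmul_eq_mul, mul_one] at y2
    have y3 := mul_nonneg W1 a0
    exact abs_le.2 ⟨by linarith, by linarith⟩

end Pool.Agent.Lib.MP_242fd5_gt.Cu
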