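import Pool.Agent.Lib.MP_242fd5_gt.Cu.M3

set_option autoImplicit false

open MeasureTheory Set Metric Filter Topology
open scoped RealInnerProductSpace

namespace Pool.Agent.Lib.MP_242fd5_gt.Cu

open Ty

variable {q k : ℕ}

lemma ps_pt1 {x y κ : ℝ} (x0 : 0 ≤ x) (y0 : 0 ≤ y) (hκ : 0 < κ) (m : ℕ) :
    x ^ (m + 1) * y ≤ κ * (x ^ (m + 2) + y ^ (m + 2)) +
      (κ⁻¹ ^ (m + 1) + κ⁻¹) * min x y ^ (m + 2) := by
  have i0 : 0 < κ⁻¹ := inv_pos.2 hκ
  have a1 : 0 ≤ κ * x ^ (m + 2) := by positivity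
  have a2 : 0 ≤ κ * y ^ (m + 2) := by positivity
  have m0 : 0 ≤ min x y := le_min x0 y0
  have a3 : 0 ≤ κ⁻¹ ^ (m + 1) * min x y ^ (m + 2) := by positivity
  have a4 : 0 ≤ κ⁻¹ * min x y ^ (m + 2) := by positivity
  rw [mul_add, add_mul]
  rcases le_total y x with h | h
  · rw [min_eq_right h] at *
    rcases le_total y (κ * x) with e | e
    · have : x ^ (m + 1) * y ≤ κ * x ^ (m + 2) :=
        (mul_le_mul_of_nonneg_left e (by positivity)).trans (le_of_eq (by ring))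
      linarith
    · have e' : x ≤ κ⁻¹ * y := by rwa [le_inv_mul_iff₀ hκ]
      have : x ^ (m + 1) * y ≤ κ⁻¹ ^ (m + 1) * y ^ (m + 2) :=
        (mul_le_mul_of_nonneg_right (pow_le_pow_left₀ x0 e' _) y0).trans (le_of_eq (by ring))
      linarith
  · rw [min_eq_left h] at *
    rcases le_total x (κ * y) with e | e
    · have : x ^ (m + 1) * y ≤ κ * y ^ (m + 2) := by
        calc x ^ (m + 1) * y = x * x ^ m * y := by ring
          _ ≤ κ * y * y ^ m * y := by gcongr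
          _ = _ := by ring
      linarith
    · have e' : y ≤ κ⁻¹ * x := by rwa [le_inv_mul_iff₀ hκ]
      have : x ^ (m + 1) * y ≤ κ⁻¹ * x ^ (m + 2) :=
        (mul_le_mul_of_nonneg_left e' (by positivity)).trans (le_of_eq (by ring))
      linarith

lemma ps_pt2 {x y : ℝ} (x0 : 0 ≤ x) (y0 : 0 ≤ y) (m : ℕ) :
    x ^ (m + 1) * y ^ 2 ≤ x ^ (m + 2) * y + y ^ (m + 2) * x := by
  have a1 : 0 ≤ x ^ (m + 2) * y := by positivity
  have a2 : 0 ≤ y ^ (m + 2) * x := by positivity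
  rcases le_total y x with h | h
  · have : x ^ (m + 1) * y ^ 2 ≤ x ^ (m + 2) * y := by
      calc x ^ (m + 1) * y ^ 2 = x ^ (m + 1) * y * y := by ring
        _ ≤ x ^ (m + 1) * x * y := by gcongr
        _ = _ := by ring
    linarith
  · have : x ^ (m + 1) * y ^ 2 ≤ y ^ (m + 2) * x := by
      calc x ^ (m + 1) * y ^ 2 = x ^ m * (x * y ^ 2) := by ring
        _ ≤ y ^ m * (x * y ^ 2) := by gcongr
        _ = _ := by ring
    linarith

theorem io_le_ov (q : ℕ) {κ : ℝ} (hκ : 0 < κ) : ∃ C : ℝ, 0 < C ∧ ∀ g h : G q,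
    io g h ≤ κ * (jac g + jac h) + C * I ((rh g ⊓ rh h) ^ (q + 3)) := by
  refine ⟨κ⁻¹ ^ (q + 2) + κ⁻¹, by positivity, fun g h => ?_⟩
  rw [← I_rh, ← I_rh, ← map_add, ← smul_eq_mul, ← smul_eq_mul, ← map_smul, ← map_smul, ← map_add]
  exact I_mono fun u => ps_pt1 (rh_pos g u).le (rh_pos h u).le hκ (q + 1)

theorem ov_le_io (g h : G q) : I ((rh g ⊓ rh h) ^ (q + 3)) ≤ io g h := by
  refine I_mono fun u => ?_
  show min (rh g u) (rh h u) ^ (q + 3) ≤ rh g u ^ (q + 2) * rh h u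
  have m0 : 0 ≤ min (rh g u) (rh h u) := le_min (rh_pos g u).le (rh_pos h u).le
  rw [pow_succ]
  exact mul_le_mul (pow_le_pow_left₀ m0 (min_le_left _ _) _) (min_le_right _ _) m0
    (pow_nonneg (rh_pos g u).le _)

/-- interacting ellipsoids of normal volume are comparable -/
theorem cmp_of_io (q : ℕ) {c : ℝ} (hc : 0 < c) : ∃ Λ : ℝ, 1 ≤ Λ ∧ ∀ g h : G q, jac g ≤ 2 →
    jac h ≤ 2 → c ≤ io g h → Cmp Λ g h := by
  obtain ⟨C, C0, hC⟩ := io_le_ov q (κ := c / 8) (by positivity)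
  have o1 := om_pos (q + 2)
  have o2 := om_pos (q + 3)
  obtain ⟨κ, hκ⟩ : ∃ κ : ℝ, κ = om (q + 3) * (c / (2 * C)) := ⟨_, rfl⟩
  have κ0 : 0 < κ := by rw [hκ]; positivity
  refine ⟨1 + 4 * om (q + 2) / κ, le_add_of_nonneg_right (by positivity), fun g h hg hh H => ?_⟩
  have a1 : κ ≤ ov g h := by
    rw [ov_eq, hκ]
    refine mul_le_mul_of_nonneg_left ?_ o2.le
    rw [div_le_iff₀ (by positivity)]
    have := hC g h
    nlinarith
  have key : ∀ g h : G q, jac g ≤ 2 → κ ≤ ov g h → ∀ x,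
      ‖h.symm x‖ ≤ (1 + 4 * om (q + 2) / κ) * ‖g.symm x‖ := fun g h hg a1 x => by
    have b1 := ov_half g h x
    have b2 : ‖h.symm x‖ ≤ 4 * om (q + 2) / κ * ‖g.symm x‖ := by
      rw [div_mul_eq_mul_div, le_div_iff₀ κ0]
      nlinarith [mul_le_mul_of_nonneg_right a1 (norm_nonneg (h.symm x)),
        mul_le_mul_of_nonneg_right hg (mul_nonneg o1.le (norm_nonneg (g.symm x)))]
    nlinarith [norm_nonneg (g.symm x)]
  exact fun x => ⟨key h g hh (by rwa [ov_comm]) x, key g h hg a1 x⟩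

/-- comparable ellipsoids interact -/
theorem jac_le_io {Λ : ℝ} {g h : G q} (H : Cmp Λ g h) : jac g ≤ Λ * io g h := by
  rw [← I_rh, io, ← smul_eq_mul, ← map_smul]
  refine I_mono fun u => ?_
  have := ((cmp_iff g h).1 H).2 u
  show rh g u ^ (q + 3) ≤ Λ * (rh g u ^ (q + 2) * rh h u)
  rw [pow_succ, mul_left_comm]
  exact mul_le_mul_of_nonneg_left this (pow_nonneg (rh_pos g u).le _)

theorem l2_cross' {Λ : ℝ} {w g h : G q} (hw : 1 / 2 ≤ jac w) (H : Cmp Λ w g) :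
    l2 (act 1 w (rh h)) ^ 2 ≤ 2 * Λ ^ (q + 1) * (io g h + io h g) := by
  have h1 : I (rh w ^ (q + 1) * rh h ^ 2) ≤ Λ ^ (q + 1) * (io g h + io h g) := by
    rw [io, io, ← map_add, ← smul_eq_mul (Λ ^ (q + 1)), ← map_smul]
    refine I_mono fun u => ?_
    have a1 : rh w u ≤ Λ * rh g u := ((cmp_iff w g).1 H).2 u
    have Λ0 : 0 ≤ Λ := by
      by_contra hc
      nlinarith [rh_pos w u, rh_pos g u]
    show rh w u ^ (q + 1) * rh h u ^ 2 ≤
      Λ ^ (q + 1) * (rh g u ^ (q + 2) * rh h u + rh h u ^ (q + 2) * rh g u)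
    refine le_trans (mul_le_mul_of_nonneg_right (pow_le_pow_left₀ (rh_pos w u).le a1 _)
      (sq_nonneg _)) ?_
    rw [mul_pow, mul_assoc]
    exact mul_le_mul_of_nonneg_left (ps_pt2 (rh_pos g u).le (rh_pos h u).le q) (by positivity)
  have h2 : (jac w)⁻¹ ≤ 2 := by
    rw [inv_le_comm₀ (jac_pos w) two_pos]
    linarith
  rw [l2_act, mul_assoc]
  exact mul_le_mul h2 h1 (I_nonneg fun u =>
    mul_nonneg (pow_nonneg (rh_pos w u).le _) (sq_nonneg _)) zero_le_two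

/-- comparable ellipsoids that are close in the mean are close -/
theorem cmp_of_l2 (q : ℕ) {Λ ω : ℝ} (Λ1 : 1 ≤ Λ) (hω : 0 < ω) : ∃ η : ℝ, 0 < η ∧ ∀ g h : G q,
    Cmp Λ g h → l2 (act 1 g (rh h) - 1) ≤ η → Cmp (Real.exp ω) g h := by
  obtain ⟨C, C1, hC⟩ := Q_sup q
  have e1 : Real.exp (-ω) < 1 := Real.exp_lt_one_iff.2 (by linarith)
  have e0 := Real.exp_pos (-ω)
  have e2 := Real.add_one_le_exp (-ω)
  have e3 := Real.add_one_le_exp ω
  have e4 : Real.exp ω * Real.exp (-ω) = 1 := by rw [← Real.exp_add]; simp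
  refine ⟨(1 - Real.exp (-ω)) / (C * (Λ ^ 2 * (1 + Λ))), div_pos (by linarith) (by positivity),
    fun g h H hl => ?_⟩
  rw [act_rh] at hl
  set w := h.trans g.symm with hw
  have H' : Cmp Λ (ContinuousLinearEquiv.refl ℝ (V (q + 3))) w := by
    have := H.post g.symm
    rwa [ContinuousLinearEquiv.self_trans_symm] at this
  suffices hs : Cmp (Real.exp ω) (ContinuousLinearEquiv.refl ℝ (V (q + 3))) w by
    intro x
    simpa [hw] using hs (g.symm x)
  rw [cmp_iff, rh_refl] at H' ⊢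
  obtain ⟨p, hp, e⟩ := inv_sq_mem w
  have ept : ∀ u, rh w u ^ 2 * p u = 1 := fun u => congrArg (fun φ : X q => φ u) e
  have lo : ∀ u, 1 ≤ Λ * rh w u := fun u => H'.2 u
  have up' : ∀ u, rh w u ≤ Λ := fun u => by simpa using H'.1 u
  have h1 : l2 (p - 1) ≤ Λ ^ 2 * (1 + Λ) * l2 (rh w - 1) := by
    rw [← abs_of_pos (show 0 < Λ ^ 2 * (1 + Λ) by positivity), ← l2_smul]
    refine l2_mono fun u => ?_
    show |p u - 1| ≤ |Λ ^ 2 * (1 + Λ) * (rh w u - 1)|
    have r0 := rh_pos w u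
    have p0 : 0 < p u := by
      by_contra hc
      nlinarith [ept u, mul_nonneg (sq_nonneg (rh w u)) (neg_nonneg.2 (not_lt.1 hc))]
    have p1 : p u ≤ Λ ^ 2 := by
      have : 1 ≤ (Λ * rh w u) ^ 2 := one_le_pow₀ (lo u)
      calc p u ≤ (Λ * rh w u) ^ 2 * p u := le_mul_of_one_le_left p0.le this
        _ = Λ ^ 2 * (rh w u ^ 2 * p u) := by ring
        _ = _ := by rw [ept, mul_one]
    have : p u - 1 = -(p u * (1 + rh w u) * (rh w u - 1)) := by linear_combination ept u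
    rw [this, abs_neg, abs_mul, abs_mul (Λ ^ 2 * (1 + Λ)), abs_of_pos (by positivity),
      abs_of_pos (show 0 < Λ ^ 2 * (1 + Λ) by positivity)]
    have := up' u
    gcongr
  have h2 : ‖p - 1‖ ≤ 1 - Real.exp (-ω) := by
    refine (hC _ ((Q q).sub_mem hp one_mem_Q)).trans ?_
    rw [le_div_iff₀ (by positivity)] at hl
    nlinarith [mul_le_mul_of_nonneg_left h1 (zero_le_one.trans C1)]
  have h3 : ∀ u, |p u - 1| ≤ 1 - Real.exp (-ω) := fun u => ((p - 1).norm_coe_le_norm u).trans h2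
  have x1 : 1 ≤ Real.exp ω := by linarith
  constructor
  · intro u
    show rh w u ≤ Real.exp ω * 1
    have a1 : Real.exp (-ω) ≤ p u := by linarith [(abs_le.1 (h3 u)).1]
    have a2 : rh w u ^ 2 ≤ Real.exp ω := by
      calc rh w u ^ 2 = Real.exp ω * (rh w u ^ 2 * Real.exp (-ω)) := by
            linear_combination (-rh w u ^ 2) * e4
        _ ≤ Real.exp ω * (rh w u ^ 2 * p u) := by gcongr
        _ = _ := by rw [ept, mul_one]
    nlinarith [rh_pos w u]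
  · intro u
    show 1 ≤ Real.exp ω * rh w u
    have a1 : p u ≤ Real.exp ω ^ 2 := by nlinarith [(abs_le.1 (h3 u)).2]
    have a2 : 1 ≤ (Real.exp ω * rh w u) ^ 2 := by
      calc (1 : ℝ) = rh w u ^ 2 * p u := (ept u).symm
        _ ≤ rh w u ^ 2 * Real.exp ω ^ 2 := by gcongr
        _ = _ := by ring
    exact (one_le_sq_iff₀ (mul_pos (Real.exp_pos ω) (rh_pos w u)).le).1 a2

/-- stability of the parameters -/
theorem PS (q k : ℕ) {ω : ℝ} (hω : 0 < ω) : ∃ δ : ℝ, 0 < δ ∧ ∀ g h : Cf q k, Ad δ g → Ad δ h →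
    z (b g - b h) ≤ δ → ∃ σ : Equiv.Perm (Fin k), Cm ω g (h ∘ σ) := by
  have k0 : (0 : ℝ) ≤ k := Nat.cast_nonneg k
  obtain ⟨Λ, Λ1, hΛ⟩ := cmp_of_io q (c := 1 / (4 * (k + 1))) (by positivity)
  obtain ⟨η, η0, hη⟩ := cmp_of_l2 q Λ1 hω
  obtain ⟨B, hB⟩ : ∃ B : ℝ, B = 2 * Λ ^ (q + 1) := ⟨_, rfl⟩
  have B2 : 2 ≤ B := by
    have : 1 ≤ Λ ^ (q + 1) := one_le_pow₀ Λ1
    linarith
  obtain ⟨D, hD⟩ : ∃ D : ℝ, D = 2 ^ (q + 3) * 2 ^ (q + 2) := ⟨_, rfl⟩
  have D0 : 0 < D := by rw [hD]; positivity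
  refine ⟨min (min (1 / 2) (1 / (4 * D))) (min (1 / (2 * (Λ * Λ))) (η / (2 + 2 * k * B))),
    by positivity, fun g h hg hh hz => ?_⟩
  set δ := min (min (1 / 2) (1 / (4 * D))) (min (1 / (2 * (Λ * Λ))) (η / (2 + 2 * k * B)))
    with hδ
  have δ0 : 0 < δ := by positivity
  have d1 : δ ≤ 1 / 2 := (min_le_left _ _).trans (min_le_left _ _)
  have d2 : δ * (4 * D) ≤ 1 := by
    rw [← le_div_iff₀ (by positivity)]
    exact (min_le_left _ _).trans (min_le_right _ _)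
  have d3 : δ * (2 * (Λ * Λ)) ≤ 1 := by
    rw [← le_div_iff₀ (by positivity)]
    exact (min_le_right _ _).trans (min_le_left _ _)
  have d4 : δ * (2 + 2 * k * B) ≤ η := by
    rw [← le_div_iff₀ (by positivity)]
    exact (min_le_right _ _).trans (min_le_right _ _)
  clear_value δ
  have j1 : ∀ {g : Cf q k}, Ad δ g → ∀ i, 1 / 2 ≤ jac (g i) := fun H i => by
    linarith [(abs_le.1 (H.vol i)).1]
  have j2 : ∀ {g : Cf q k}, Ad δ g → ∀ i, jac (g i) ≤ 2 := fun H i => by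
    linarith [(abs_le.1 (H.vol i)).2]
  have s1 : ∀ i, ∃ j, Cmp Λ (g i) (h j) := fun i => by
    have a1 : jac (g i) ≤ I (rh (g i) ^ (q + 2) * b h) + I (rh (g i) ^ (q + 2) * |b g - b h|) := by
      rw [← I_rh, ← map_add]
      refine I_mono fun u => ?_
      show rh (g i) u ^ (q + 3) ≤
        rh (g i) u ^ (q + 2) * b h u + rh (g i) u ^ (q + 2) * |b g u - b h u|
      rw [pow_succ, ← mul_add]
      refine mul_le_mul_of_nonneg_left ?_ (pow_nonneg (rh_pos _ u).le _)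
      have : rh (g i) u ≤ b g u := rh_le_b g i u
      linarith [le_abs_self (b g u - b h u)]
    have a2 : I (rh (g i) ^ (q + 2) * |b g - b h|) ≤ D * δ := by
      refine (H1 (rh_nonneg _) _).trans ?_
      rw [hD]
      have := z_rh_le (j2 hg i)
      have := z_nonneg (rh (g i))
      have := z_nonneg (b g - b h)
      gcongr
    have a3 : I (rh (g i) ^ (q + 2) * b h) = ∑ j, io (g i) (h j) := by
      rw [b, Finset.mul_sum, map_sum]; rfl
    by_contra hc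
    have a4 : ∑ j, io (g i) (h j) ≤ ∑ _j : Fin k, 1 / (4 * ((k : ℝ) + 1)) :=
      Finset.sum_le_sum fun j _ => le_of_not_ge fun e => hc ⟨j, hΛ _ _ (j2 hg i) (j2 hh j) e⟩
    rw [Finset.sum_const, Finset.card_univ, Fintype.card_fin, nsmul_eq_mul] at a4
    have a5 : (k : ℝ) * (1 / (4 * ((k : ℝ) + 1))) < 1 / 4 := by
      rw [mul_one_div, div_lt_iff₀ (by positivity)]
      linarith
    linarith [j1 hg i]
  choose s hs using s1
  have inj : Function.Injective s := fun i i' e => by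
    by_contra hc
    have a1 := jac_le_io ((hs i).trans (by linarith) (by linarith) (e ▸ (hs i').symm))
    have a2 := (io_le_la g hc).trans hg.sep
    have a3 := io_nonneg (g i') (g i)
    have a4 : io (g i) (g i') ≤ δ ^ 2 := by linarith
    have a5 := mul_le_mul_of_nonneg_left a4 (mul_self_nonneg Λ)
    nlinarith [j1 hg i]
  obtain ⟨σ, hσ⟩ : ∃ σ : Equiv.Perm (Fin k), ∀ i, Cmp Λ (g i) ((h ∘ σ) i) :=
    ⟨Equiv.ofBijective s (Finite.injective_iff_bijective.1 inj), hs⟩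
  have hh' := hh.perm σ
  rw [← b_perm h σ] at hz
  refine ⟨σ, ?_⟩
  generalize h ∘ σ = h' at hσ hh' hz ⊢
  refine fun i => hη _ _ (hσ i) ?_
  have cr : ∀ {g' : Cf q k}, Ad δ g' → Cmp Λ (g i) (g' i) →
      l2 (∑ j ∈ Finset.univ.erase i, act 1 (g i) (rh (g' j))) ≤ k * (B * δ) := fun {g'} H H' => by
    refine (l2_sum_le _ _).trans ((Finset.sum_le_card_nsmul _ _ (B * δ) fun j hj => ?_).trans ?_)
    · have a1 := l2_cross' (h := g' j) (j1 hg i) H'
      have a2 := (io_le_la g' (Finset.ne_of_mem_erase hj).symm).trans H.sep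
      rw [← hB] at a1
      refine (pow_le_pow_iff_left₀ (l2_nonneg _) (by positivity) two_ne_zero).1 (a1.trans ?_)
      nlinarith [mul_le_mul_of_nonneg_left a2 (show 0 ≤ B by linarith), sq_nonneg δ,
        mul_nonneg (sq_nonneg δ) (show 0 ≤ B * (B - 1) by nlinarith)]
    · rw [nsmul_eq_mul]
      refine mul_le_mul_of_nonneg_right ?_ (by positivity)
      exact_mod_cast (Finset.card_le_univ _).trans_eq (Fintype.card_fin k)
  have sp : ∀ g' : Cf q k, act 1 (g i) (b g') = act 1 (g i) (rh (g' i)) +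
      ∑ j ∈ Finset.univ.erase i, act 1 (g i) (rh (g' j)) := fun g' => by
    rw [b, map_sum, Finset.add_sum_erase _ (fun j => act 1 (g i) (rh (g' j))) (Finset.mem_univ i)]
  have e : act 1 (g i) (rh (h' i)) - 1 =
      ((∑ j ∈ Finset.univ.erase i, act 1 (g i) (rh (g j))) -
        ∑ j ∈ Finset.univ.erase i, act 1 (g i) (rh (h' j))) - act 1 (g i) (b g - b h') := by
    rw [map_sub, sp g, sp h', act_rh_self]
    ring
  have a1 := (l2_le_z _).trans (z_act_le (j1 hg i) (b g - b h'))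
  have a2 := cr hg (Cmp.refl Λ1 _)
  have a3 := cr hh' (hσ i)
  rw [e]
  refine (l2_sub_le _ _).trans ((add_le_add (l2_sub_le _ _) le_rfl).trans ?_)
  linarith

end Pool.Agent.Lib.MP_242fd5_gt.Cu
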