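import Pool.Agent.Lib.MP_242fd5_gt.Cu.Step
import Pool.Agent.Lib.MP_242fd5_gt.Cu.PS
import Pool.Agent.Lib.MP_242fd5_gt.Cu.M6

set_option autoImplicit false

open MeasureTheory Set Metric Filter Topology
open scoped RealInnerProductSpace

namespace Pool.Agent.Lib.MP_242fd5_gt.Cu

open Ty

variable {q k : ℕ}

lemma norm_back {x y β ρ e : ℝ} (p : ℕ) (h : x = β * y ^ (p + 2)) (y0 : 0 ≤ y) (hβ : |β - 1| ≤ ρ)
    (h1 : 2 * ρ ≤ e) (h2 : e ≤ 1 / 2) (hx : |x - 1| ≤ e) : |y - 1| ≤ e := by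
  obtain ⟨b1, b2⟩ := abs_le.1 hβ
  obtain ⟨x1, x2⟩ := abs_le.1 hx
  have r0 : 0 ≤ ρ := (abs_nonneg _).trans hβ
  refine abs_le.2 ⟨?_, ?_⟩ <;> by_contra! hy
  · have : y ^ (p + 2) ≤ y ^ 2 := pow_le_pow_of_le_one y0 (by linarith) (by omega)
    have h3 : y ^ 2 < (1 - e) ^ 2 := pow_lt_pow_left₀ (by linarith) y0 two_ne_zero
    have h4 : x ≤ (1 + ρ) * y ^ 2 := by
      rw [h]; exact mul_le_mul (by linarith) this (by positivity) (by linarith)
    have h5 : (1 + ρ) * y ^ 2 < (1 + ρ) * (1 - e) ^ 2 := by gcongr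
    have h6 : (1 + ρ) * (1 - e) ≤ 1 := by nlinarith
    nlinarith
  · have : y ^ 2 ≤ y ^ (p + 2) := pow_le_pow_right₀ (by linarith) (by omega)
    have h3 : (1 + e) ^ 2 < y ^ 2 := pow_lt_pow_left₀ (by linarith) (by linarith) two_ne_zero
    have h4 : (1 - ρ) * y ^ 2 ≤ x := by
      rw [h]; exact mul_le_mul (by linarith) this (by positivity) (by linarith)
    have h5 : (1 - ρ) * (1 + e) ^ 2 < (1 - ρ) * y ^ 2 := by
      have : 0 < 1 - ρ := by linarith
      gcongr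
    have e0 : 0 ≤ e := by linarith
    have h6 : 1 ≤ (1 - ρ) * (1 + e) := by nlinarith
    have h7 : 1 * (1 + e) ≤ (1 - ρ) * (1 + e) * (1 + e) := by gcongr
    nlinarith

lemma norm_step (hk : 1 ≤ k) {f : X q} (hf : 0 ≤ f) {ρ η : ℝ} (h1 : lv q k * (1 - ρ) ≤ Ph f)
    (h2 : Ph f ≤ lv q k * (1 + ρ)) (h3 : 2 * k * ρ ≤ η) (h4 : η ≤ 1 / 2)
    (h : |I (N f ^ (q + 3)) - k| ≤ η) : |I (f ^ (q + 3)) - k| ≤ η := by
  have k1 : (1:ℝ) ≤ k := by exact_mod_cast hk
  have l0 := lv_pos q hk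
  have η0 : 0 ≤ η := (abs_nonneg _).trans h
  have r0 : 0 ≤ ρ := by nlinarith
  have r1 : ρ ≤ 1 / 4 := by nlinarith
  have y0 : I (f ^ (q + 3)) ≠ 0 := fun e => by
    rw [Ph, e, zero_pow (by omega), div_zero] at h1
    nlinarith
  have dv : ∀ x : ℝ, |x / k - 1| ≤ η / k ↔ |x - k| ≤ η := fun x => by
    rw [show x / k - 1 = (x - k) / k by field_simp, abs_div, abs_of_pos (show (0:ℝ) < k by linarith),
      div_le_div_iff_of_pos_right (by linarith)]
  refine (dv _).1 (norm_back (β := Ph f / lv q k) (ρ := ρ) q ?_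
    (div_nonneg (I_nonneg (pow_nonneg hf _)) (by linarith)) (abs_le.2 ⟨?_, ?_⟩) ?_
    ((div_le_self η0 k1).trans h4) ((dv _).2 h))
  · have k0 : (k:ℝ) ≠ 0 := by positivity
    rw [Ph, lv, div_pow]
    generalize I (N f ^ (q + 3)) = u at *
    generalize I (f ^ (q + 3)) = v at *
    field_simp
    try ring
  · rw [le_sub_iff_add_le, le_div_iff₀ l0]; linarith
  · rw [sub_le_iff_le_add, div_le_iff₀ l0]; linarith
  · rw [le_div_iff₀ (by linarith)]; linarith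

lemma Orb.norm (hk : 1 ≤ k) {M : ℕ} {f : ℕ → X q} (O : Orb M f) {ρ η : ℝ}
    (h1 : lv q k * (1 - ρ) ≤ Ph (f M)) (h2 : Ph (f 0) ≤ lv q k * (1 + ρ)) (h3 : 2 * k * ρ ≤ η)
    (h4 : η ≤ 1 / 2) (h : |I (f 0 ^ (q + 3)) - k| ≤ η) (j : ℕ) :
    j ≤ M → |I (f j ^ (q + 3)) - k| ≤ η := by
  induction j with
  | zero => exact fun _ => h
  | succ j ih =>
    intro hj
    refine norm_step hk (O.nn _ hj) (h1.trans (O.Ph_le hj le_rfl))
      ((O.Ph_le (Nat.zero_le _) hj).trans h2) h3 h4 ?_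
    rw [O.step j hj]
    exact ih (by omega)

/-- a function close to a configuration `h` that is close to `E` -/
lemma improve (q k : ℕ) : ∃ C δ : ℝ, 1 ≤ C ∧ 0 < δ ∧ ∀ (E h : Cf q k) (f : X q) (x : ℝ), Ad δ E →
    Cm δ E h → 0 ≤ x → Mo E (f - b E) x → z (f - b E) ≤ C * (x + z (f - b h)) := by
  obtain ⟨C3, c3, h3⟩ := M3 q k
  obtain ⟨C4, c4, h4⟩ := M4 q k
  obtain ⟨d, d0, h3⟩ := h3 (1 / 4) (by norm_num)
  have k0 : (0:ℝ) ≤ k := by positivity
  have s0 : 0 ≤ C3 * (8 * k * C4) := by positivity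
  refine ⟨C3 * (8 * k * C4) + 1, min d (1 / 2), by linarith, by positivity,
    fun E h f x hE hm x0 ho => ?_⟩
  obtain ⟨τ, τ0, t1, t2, t3, -⟩ := h3 E h (hE.mono (by positivity) (min_le_left _ _))
    (hm.mono (min_le_left _ _))
  have z0 := z_nonneg (f - b h)
  have t4 := (h4 E (hE.half (min_le_right _ _))).2 (f - b h)
  have t5 := ho.add (Mo_t E (f - b h)).neg
  rw [show f - b E + -(f - b h) = b h - b E by abel] at t5
  have t6 := t_le_of (add_nonneg x0 (t_nonneg _ _)) t3 t5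
  have t7 : x + t E (f - b h) ≤ C4 * (x + z (f - b h)) := by nlinarith
  have t8 : τ ≤ 8 * k * (C4 * (x + z (f - b h))) := by nlinarith
  have t9 : C3 * τ ≤ C3 * (8 * k * (C4 * (x + z (f - b h)))) := by gcongr
  have := z_tri f (b h) (b E)
  linarith

/-- the a priori estimate -/
theorem AP (q : ℕ) (hk : 1 ≤ k) : ∃ δ0 C : ℝ, 0 < δ0 ∧ δ0 ≤ 1 / 2 ∧ 1 ≤ C ∧
    ∀ κ δ : ℝ, 0 < κ → κ ≤ 1 → 0 < δ → ∃ a0 : ℝ, 0 < a0 ∧ ∀ (a : ℝ) (M : ℕ) (f : ℕ → X q)
      (gM E : Cf q k), 0 < a → a ≤ a0 → Orb M f → Ad δ0 gM → z (f M - b gM) ≤ κ * a → Ad a E →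
      z (f 0 - b E) ≤ a → Ad (C * a) gM ∧ Ph (f 0) ≤ lv q k * (1 + C * a ^ 2) ∧
        (∃ (g : ℕ → Cf q k) (σ : Equiv.Perm (Fin k)), g M = gM ∧ Trk δ M f g ∧
          Cm δ (g 0) (E ∘ σ)) ∧
        ∀ x, 0 ≤ x → Mo E (f 0 - b E) x → z (f 0 - b E) ≤ C * (x + κ * a) := by
  obtain ⟨A0, Cs, a1, cs, hs⟩ := step q k
  obtain ⟨Cl, dl, cl, dl0, hl⟩ := M6lo q hk
  obtain ⟨Cu, du, cu, du0, hu⟩ := M6up q hk
  obtain ⟨C2, c2, h2⟩ := M2 q k
  obtain ⟨C4, c4, h4⟩ := M4 q k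
  obtain ⟨C5, c5, h5⟩ := Ad_JJ q k
  obtain ⟨Ci, di, ci, di0, hi⟩ := improve q k
  have l0 := lv_pos q hk
  have k1 : (1:ℝ) ≤ k := by exact_mod_cast hk
  obtain ⟨B, b1, b2, b3⟩ : ∃ B : ℝ, 1 ≤ B ∧ Cu ≤ B ∧ A0 * (C4 + 1) ≤ B :=
    ⟨max Cu (A0 * (C4 + 1)), cu.trans (le_max_left _ _), le_max_left _ _, le_max_right _ _⟩
  have cb : 1 ≤ Cl * B := one_le_mul_of_one_le_of_one_le cl b1
  have ib : 1 ≤ Ci * B := one_le_mul_of_one_le_of_one_le ci b1
  refine ⟨min dl (1 / 2), Cl * B + Ci * B, by positivity, min_le_right _ _, by linarith,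
    fun κ δ κ0 κ1 δ0 => ?_⟩
  obtain ⟨ds, ds0, hs⟩ := hs (κ / (10 * (Cl * B))) (by positivity)
  obtain ⟨dp, dp0, hp⟩ := PS q k (lt_min δ0 di0)
  obtain ⟨m, m0, m1, m2, m3, m4, m5, m6, m7⟩ : ∃ m : ℝ, 0 < m ∧ m ≤ dl / 2 ∧ m ≤ du ∧ m ≤ ds ∧
      m ≤ dp / 2 ∧ m ≤ δ ∧ m ≤ di ∧ m ≤ 1 / 2 :=
    ⟨min (min (min (dl / 2) du) (min ds (dp / 2))) (min δ (min di (1 / 2))), by positivity, by simp,
      by simp, by simp, by simp, by simp, by simp, by simp⟩
  obtain ⟨K, K1, K2, K3⟩ : ∃ K : ℝ, C5 * (Cl * B) ≤ K ∧ C2 * (Cs * (2 * B)) ≤ K ∧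
      2 * k * (Cl * B) ≤ K := ⟨max (C5 * (Cl * B)) (max (C2 * (Cs * (2 * B))) (2 * k * (Cl * B))),
    by simp, by simp, by simp⟩
  have K4 : Cl * B ≤ K := (le_mul_of_one_le_left (by positivity) c5).trans K1
  have K5 : B ≤ Cl * B := le_mul_of_one_le_left (by positivity) cl
  have K6 : Cs * (2 * B) ≤ K := (le_mul_of_one_le_left (by positivity) c2).trans K2
  refine ⟨m / K, div_pos m0 (by linarith), fun a M f gM E a0 ha O hg hz hE hz0 => ?_⟩
  have hm : ∀ {c : ℝ}, c ≤ K → c * a ≤ m := fun hc =>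
    (mul_le_mul_of_nonneg_right hc a0.le).trans (by
      rwa [le_div_iff₀ (by linarith), mul_comm] at ha)
  have n1 : Cl * (B * a) ≤ m := by rw [← mul_assoc]; exact hm K4
  have n2 : B * a ≤ Cl * (B * a) := le_mul_of_one_le_left (by positivity) cl
  have n3 : a ≤ B * a := le_mul_of_one_le_left a0.le b1
  have n4 : κ * a ≤ a := mul_le_of_le_one_left a0.le κ1
  have ka : 0 < κ * a := by positivity
  obtain ⟨w, ew⟩ : ∃ w, w = (C4 + 1) * (κ * a) := ⟨_, rfl⟩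
  have w1 : κ * a ≤ w := by rw [ew]; exact le_mul_of_one_le_left ka.le (by linarith)
  have w2 : w ≤ A0 * w := le_mul_of_one_le_left (by linarith) a1
  have w3 : A0 * w ≤ B * (κ * a) := by rw [ew, ← mul_assoc]; gcongr
  have w4 : B * (κ * a) ≤ B * a := by gcongr
  obtain ⟨u1, u2⟩ := hu E (f 0) a (by linarith) hE (O.nn 0 (Nat.zero_le _)) hz0
  have u3 : Ph (f 0) ≤ lv q k * (1 + (B * a) ^ 2) := by
    refine u1.trans (mul_le_mul_of_nonneg_left (add_le_add_right ?_ 1) l0.le)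
    rw [mul_pow]
    exact mul_le_mul_of_nonneg_right (b2.trans (le_self_pow₀ b1 two_ne_zero)) (sq_nonneg a)
  have gl : Ad dl gM := hg.mono (by positivity) (min_le_left _ _)
  obtain ⟨v1, v2⟩ := hl gM (f M) (κ * a) gl (O.nn M le_rfl) hz (by linarith)
  have nm : ∀ j ≤ M, |I (f j ^ (q + 3)) - k| ≤ B * a := by
    refine O.norm hk (ρ := Cl * (B * a) ^ 2) (le_trans ?_ v1) (u3.trans ?_) ?_ (by linarith)
      (u2.trans (by gcongr))
    · have : κ * a ≤ B * a := by linarith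
      gcongr
    · have : (B * a) ^ 2 ≤ Cl * (B * a) ^ 2 := le_mul_of_one_le_left (sq_nonneg _) cl
      gcongr
    · have : 2 * k * (Cl * B) * a ≤ 1 := (hm K3).trans (by linarith)
      calc 2 * k * (Cl * (B * a) ^ 2) = 2 * k * (Cl * B) * a * (B * a) := by ring
        _ ≤ 1 * (B * a) := by gcongr
        _ = B * a := one_mul _
  have up : ∀ j ≤ M, ∀ g : Cf q k, Ad dl g → z (f j - b g) ≤ A0 * w → Ad (Cl * (B * a)) g :=
    fun j hj g hg hz => (hl g (f j) _ hg (O.nn j hj) hz (by linarith)).2 _ (by linarith)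
      (by linarith) ((O.Ph_le (Nat.zero_le _) hj).trans u3) (nm j hj)
  have ek : κ / (10 * (Cl * B)) * (Cl * (B * a)) = κ * a / 10 := by field_simp
  obtain ⟨h, h0, hh⟩ := exists_chain (fun s (x : Cf q k) => s ≤ M → Ad (Cl * (B * a)) x ∧
      t x (f (M - s) - b x) ≤ w ∧ z (f (M - s) - b x) ≤ A0 * w)
    (fun s x y => s < M → Cm δ (JJ x) y) (x0 := gM) (fun _ => ⟨up M le_rfl gM gl (by linarith), by
      refine ((h4 gM (hg.half (min_le_right _ _))).2 _).trans ?_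
      have : C4 * z (f M - b gM) ≤ C4 * (κ * a) := by gcongr
      rw [ew, Nat.sub_zero]; linarith, by rw [Nat.sub_zero]; linarith⟩) fun s x hx => by
    by_cases e : s < M
    · obtain ⟨x1, x2, x3⟩ := hx e.le
      obtain ⟨y, y1, y2, y3⟩ := hs x _ w _ (by positivity) (by linarith) x1
        (O.nn _ (Nat.sub_le _ _)) x2 x3 (by linarith)
      rw [ek] at y1 y2 y3
      have e1 : N (f (M - s)) = f (M - (s + 1)) := by
        rw [← O.step (M - (s + 1)) (by omega), show M - (s + 1) + 1 = M - s by omega]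
      rw [e1] at y2 y3
      have y4 : Cm (Cs * (2 * B) * a) (JJ x) y := y1.mono (by
        rw [mul_assoc]; exact mul_le_mul_of_nonneg_left (by linarith) (by linarith))
      have y5 : z (f (M - (s + 1)) - b y) ≤ A0 * w :=
        y3.trans (mul_le_mul_of_nonneg_left (by linarith) (by linarith))
      have y6 : C5 * (Cl * (B * a)) ≤ m := by
        have := hm K1
        rwa [mul_assoc, mul_assoc] at this
      have y7 := (h2 _ _ _ (by positivity) ((hm K6).trans (by linarith)) y4).2.2.2.2 _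
        (by positivity) (by linarith) (h5 _ x (by positivity) (by linarith) x1)
      have y8 : C2 * (Cs * (2 * B) * a) ≤ m := by
        have := hm K2
        rwa [mul_assoc] at this
      exact ⟨y, fun _ => ⟨up _ (Nat.sub_le _ _) y (y7.mono (by positivity) (by linarith)) y5,
        by linarith, y5⟩, fun _ => y4.mono ((hm K6).trans m5)⟩
    · exact ⟨x, fun h => absurd h (by omega), fun h => absurd h e⟩
  have hj : ∀ j ≤ M, Ad (Cl * (B * a)) (h (M - j)) ∧ z (f j - b (h (M - j))) ≤ A0 * w :=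
    fun j hj => by
      have := (hh (M - j)).1 (Nat.sub_le _ _)
      rw [show M - (M - j) = j by omega] at this
      exact ⟨this.1, this.2.2⟩
  obtain ⟨g1, g2⟩ := hj 0 (Nat.zero_le _)
  obtain ⟨σ, hσ⟩ := hp (h (M - 0)) E (g1.mono (by positivity) (by linarith))
    (hE.mono a0.le (by linarith)) (by
      have := z_tri (b (h (M - 0))) (f 0) (b E)
      rw [z_sub_comm (b _) (f 0)] at this
      linarith)
  refine ⟨?_, u1.trans ?_, ⟨fun j => h (M - j), σ, by simp [h0], ⟨O, fun j e =>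
    (hj j e).1.mono (by positivity) (by linarith), fun j e => (hj j e).2.trans (by linarith),
    fun j e => ?_⟩, hσ.mono (min_le_left _ _)⟩, fun x x0 ho => ?_⟩
  · have := (hj M le_rfl).1
    rw [Nat.sub_self, h0] at this
    refine this.mono (by positivity) ?_
    rw [← mul_assoc]
    exact mul_le_mul_of_nonneg_right (by linarith) a0.le
  · have : Cu ≤ Cl * B + Ci * B := by linarith
    gcongr
  · have := (hh (M - (j + 1))).2 (by omega)
    rwa [show M - (j + 1) + 1 = M - j by omega] at this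
  · have := hi (E ∘ σ) (h (M - 0)) (f 0) x ((hE.perm σ).mono a0.le (by linarith))
      (hσ.symm.mono (min_le_right _ _)) x0 (by rw [b_perm]; exact (mo_perm σ).2 ho)
    rw [b_perm] at this
    refine this.trans ?_
    have s1 : x + z (f 0 - b (h (M - 0))) ≤ B * (x + κ * a) := by
      have : x ≤ B * x := le_mul_of_one_le_left x0 b1
      linarith
    calc Ci * (x + z (f 0 - b (h (M - 0)))) ≤ Ci * (B * (x + κ * a)) := by gcongr
      _ = Ci * B * (x + κ * a) := by ring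
      _ ≤ (Cl * B + Ci * B) * (x + κ * a) :=
        mul_le_mul_of_nonneg_right (by linarith) (by positivity)

end Pool.Agent.Lib.MP_242fd5_gt.Cu
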