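import Pool.Agent.Lib.MP_242fd5_gt.Cu.Defs

set_option autoImplicit false

open MeasureTheory Set Metric Filter Topology
open scoped RealInnerProductSpace

namespace Pool.Agent.Lib.MP_242fd5_gt.Cu

open Ty

variable {q k : ℕ}

theorem up_coe (φ : X q) (u : Sp q) : up φ u = φ u := by rw [up, un u, inv_one, one_mul, ext_coe]

theorem up_unit (φ : X q) {x : V (q + 3)} (hx : ‖x‖ = 1) : up φ x = φ (mkS x hx) :=
  up_coe φ (mkS x hx)

theorem int_up (φ : X q) {h : V (q + 3) → ℝ} (e : ∀ u : Sp q, h u = φ u) :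
    ∫ x, h x ∂mu (q + 3) = om (q + 3) * I φ := by
  rw [I_apply, mul_inv_cancel_left₀ (om_pos _).ne']
  exact int_mu_congr fun x hx => (e (mkS x hx)).trans (ext_unit φ hx).symm

theorem R_up (φ : X q) {h : V (q + 3) → ℝ} (e : ∀ u : Sp q, h u = φ u) (u : Sp q) :
    R h u = om (q + 2) * A φ u := by
  rw [A_apply, mul_inv_cancel_left₀ (om_pos _).ne']
  exact R_congr (fun x hx => (e (mkS x hx)).trans (ext_unit φ hx).symm) (une u)

theorem I_one : I (1 : X q) = 1 := by
  have := int_up (1 : X q) (h := fun _ => 1) fun _ => rfl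
  rw [integral_const, mu_real_univ, smul_eq_mul] at this
  exact (mul_left_cancel₀ (om_pos _).ne' this).symm

theorem I_mono {φ ψ : X q} (h : φ ≤ ψ) : I φ ≤ I ψ := by
  rw [I_apply, I_apply]
  exact mul_le_mul_of_nonneg_left (int_mu_mono (bm_ext φ) (bm_ext ψ) fun x hx => by
    rw [ext_unit _ hx, ext_unit _ hx]; exact h _) (inv_pos.2 (om_pos _)).le

theorem I_nonneg {φ : X q} (h : 0 ≤ φ) : 0 ≤ I φ := by simpa using I_mono h

theorem ext_nonneg {φ : X q} (h : 0 ≤ φ) (x : V (q + 3)) : 0 ≤ ext φ x := by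
  unfold ext; split_ifs
  · exact le_rfl
  · exact h _

theorem eq_zero_of_I {φ : X q} (h : 0 ≤ φ) (e : I φ = 0) : φ = 0 := by
  rw [I_apply, mul_eq_zero, or_iff_right (inv_pos.2 (om_pos _)).ne',
    integral_eq_zero_iff_of_nonneg (ext_nonneg h) (bm_ext φ).int_mu] at e
  ext u
  rw [← ext_coe]
  exact eq_of_ae_eq (contOn_ext φ) continuousOn_const e (un u)

theorem A_one : A (1 : X q) = 1 := by
  ext u
  have := R_up (1 : X q) (h := fun _ => 1) (fun _ => rfl) u
  rw [R_const _ (une u)] at this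
  exact (mul_left_cancel₀ (om_pos _).ne' this).symm

theorem A_mono_at {φ ψ : X q} (u : Sp q)
    (h : ∀ v : Sp q, ⟪(v : V (q + 3)), (u : V (q + 3))⟫ = 0 → φ v ≤ ψ v) : A φ u ≤ A ψ u := by
  rw [A_apply, A_apply]
  refine mul_le_mul_of_nonneg_left (integral_mono_ae ((bm_ext φ).int_kap (une u))
    ((bm_ext ψ).int_kap (une u)) ((kap_sphere (une u)).mono fun x hx => ?_))
    (inv_pos.2 (om_pos _)).le
  rw [ext_unit _ hx.1, ext_unit _ hx.1]
  exact h _ hx.2

theorem A_mono {φ ψ : X q} (h : φ ≤ ψ) : A φ ≤ A ψ := fun u => A_mono_at u fun v _ => h v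

theorem A_nonneg {φ : X q} (h : 0 ≤ φ) : 0 ≤ A φ := by simpa using A_mono h

theorem abs_A_le (φ : X q) : |A φ| ≤ A |φ| := by
  refine abs_le'.2 ⟨A_mono (le_abs_self φ), ?_⟩
  rw [← map_neg]
  exact A_mono (neg_le_abs φ)

theorem A_symm (φ ψ : X q) : I (φ * A ψ) = I (A φ * ψ) := by
  have o := om_pos (q + 2)
  have h1 : ∀ φ ψ : X q, ∫ x, ext φ x * R (ext ψ) x ∂mu (q + 3) =
      om (q + 3) * I (om (q + 2) • (φ * A ψ)) := fun φ ψ => int_up _ fun u => by
    rw [R_up ψ (ext_coe ψ), ext_coe]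
    simp only [ContinuousMap.smul_apply, ContinuousMap.mul_apply, smul_eq_mul]
    ring
  have := R_symm (bm_ext φ) (bm_ext ψ)
  rw [h1, h1, map_smul, map_smul, smul_eq_mul, smul_eq_mul] at this
  rw [mul_comm (A φ)]
  exact mul_left_cancel₀ o.ne' (mul_left_cancel₀ (om_pos _).ne' this)

theorem I_A (φ : X q) : I (A φ) = I φ := by simpa [A_one] using A_symm 1 φ

theorem pr_coe (g : G q) (u : Sp q) : (pr g u : V (q + 3)) = nrm (g u) := rfl

theorem pr_iso (g : V (q + 3) ≃ₗᵢ[ℝ] V (q + 3)) (u : Sp q) :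
    (pr g.toContinuousLinearEquiv u : V (q + 3)) = g u :=
  nrm_unit (x := g u) (by rw [g.norm_map, un u])

theorem A_iso (g : V (q + 3) ≃ₗᵢ[ℝ] V (q + 3)) (φ : X q) :
    A (φ.comp (pr g.toContinuousLinearEquiv)) = (A φ).comp (pr g.toContinuousLinearEquiv) := by
  ext u
  refine mul_left_cancel₀ (om_pos (q + 2)).ne' ?_
  rw [← R_up _ (h := fun x => ext φ (g x)) (fun v => by
    rw [ContinuousMap.comp_apply, ← ext_coe, pr_iso]), R_iso g _ (une u), ContinuousMap.comp_apply,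
    ← R_up φ (ext_coe φ), pr_iso]

theorem rh_apply (g : G q) (u : Sp q) : rh g u = rho g u := rfl
theorem rh_pos (g : G q) (u : Sp q) : 0 < rh g u := rho_pos g (une u)
theorem rh_nonneg (g : G q) : 0 ≤ rh g := fun u => (rh_pos g u).le
theorem b_nonneg (g : Cf q k) : 0 ≤ b g := Finset.sum_nonneg fun i _ => rh_nonneg (g i)
theorem rh_le_b (g : Cf q k) (i : Fin k) : rh (g i) ≤ b g :=
  Finset.single_le_sum (f := fun i => rh (g i)) (fun i _ => rh_nonneg (g i)) (Finset.mem_univ i)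

theorem rh_refl : rh (ContinuousLinearEquiv.refl ℝ (V (q + 3))) = 1 := by
  ext u
  show ‖(u : V (q + 3))‖⁻¹ = 1
  rw [un u, inv_one]

theorem rh_hom {s : ℝ} (hs : 0 < s) (g : G q) :
    rh (g.trans (hom (q + 3) s hs.ne')) = s • rh g := by
  ext u
  exact rho_hom hs g u

theorem ext_nrm (φ : X q) (x : V (q + 3)) : ext φ (nrm x) = ext φ x := by
  by_cases h : x = 0
  · subst h; simp [nrm]
  · rw [ext_unit φ (norm_nrm h), ext, dif_neg h]

theorem adm_up {φ : X q} (h : 0 ≤ φ) : Adm (up φ) := by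
  have := adm_ext (bm_ext φ) (ext_nonneg h)
  simp only [ext_nrm] at this
  exact this

theorem contOn_up (φ : X q) : ContinuousOn (up φ) {0}ᶜ :=
  (continuous_norm.continuousOn.inv₀ fun _ hx => norm_ne_zero_iff.2 hx).mul (contOn_ext φ)

theorem up_smul_arg (φ : X q) {s : ℝ} (hs : 0 < s) (x : V (q + 3)) :
    up φ (s • x) = s⁻¹ * up φ x := by
  rw [up, up, ← ext_nrm, nrm_smul hs, ext_nrm, norm_smul, Real.norm_eq_abs, abs_of_pos hs]
  ring

theorem up_nrm (φ : X q) (x : V (q + 3)) : up φ x = ‖x‖⁻¹ * up φ (nrm x) := by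
  by_cases h : x = 0
  · subst h; simp [up]
  · rw [up, up, norm_nrm h, ext_nrm]; ring

theorem act_one_apply (g : G q) (φ : X q) (u : Sp q) : act 1 g φ u = up φ (g u) := by
  rw [act_apply, pow_one, ContinuousMap.mul_apply, ContinuousMap.comp_apply, up, ← ext_coe φ,
    pr_coe, ext_nrm]
  rfl

theorem up_act (g : G q) (φ : X q) : up (act 1 g φ) = fun x => up φ (g x) := by
  funext x
  by_cases h : x = 0
  · subst h; simp [up]
  · have hn := norm_pos_iff.2 h
    rw [up_nrm, up_unit _ (norm_nrm h), act_one_apply]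
    show ‖x‖⁻¹ * up φ (g (‖x‖⁻¹ • x)) = _
    rw [map_smul, up_smul_arg _ (inv_pos.2 hn)]
    field_simp

theorem up_rh (g : G q) : up (rh g) = rho g :=
  (adm_up (rh_nonneg g)).ext (adm_rho g) fun _ hx => up_unit _ hx

theorem up_smul (c : ℝ) (φ : X q) : up (c • φ) = fun x => c * up φ x := by
  funext x
  rw [up, up, ext_smul]
  ring

theorem T_up (φ : X q) : T (up φ) = fun x => om (q + 2) * up (N φ) x := by
  funext x
  by_cases h : x = 0
  · subst h; simp [T_eq, up]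
  · have := R_up (φ ^ (q + 2)) (h := fun v => up φ v ^ (q + 2)) (fun u => by rw [up_coe]; rfl)
      (mkS (nrm x) (norm_nrm h))
    rw [T_eq, ← R_nrm, up_nrm (N φ), up_unit _ (norm_nrm h), mul_left_comm]
    exact congrArg _ this

theorem Nn_up (φ : X q) : Nn (up φ) = om (q + 3) * I (φ ^ (q + 3)) :=
  int_up _ fun u => by rw [up_coe]; rfl

theorem Phi_up (φ : X q) : Phi (up φ) = PhiB (q + 2) * Ph φ := by
  have o := om_pos (q + 3)
  rw [Phi, T_up, Nn_smul, Nn_up, Nn_up, PhiB, Ph, show q + 2 - 1 = q + 1 from rfl, mul_pow]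
  rcases eq_or_ne (I (φ ^ (q + 3))) 0 with e | e
  · simp [e]
  · field_simp
    ring

theorem lev_lv (q k : ℕ) : lev (q + 2) k = PhiB (q + 2) * lv q k := by
  rw [lev, lv, div_eq_mul_inv]; rfl

theorem ov_eq (g h : G q) : ov g h = om (q + 3) * I ((rh g ⊓ rh h) ^ (q + 3)) :=
  int_up _ fun _ => rfl

theorem act_mul (p p' : ℕ) (g : G q) (φ ψ : X q) :
    act (p + p') g (φ * ψ) = act p g φ * act p' g ψ := by
  simp only [act_apply, ContinuousMap.mul_comp]; ring

theorem act_pow (m : ℕ) (g : G q) (φ : X q) : act m g (φ ^ m) = act 1 g φ ^ m := by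
  simp only [act_apply, ContinuousMap.pow_comp]; ring

theorem pr_pr (g h : G q) (u : Sp q) : pr h (pr g u) = pr (g.trans h) u := by
  refine Subtype.ext ?_
  show nrm (h (‖g u‖⁻¹ • g u)) = nrm (h (g u))
  rw [map_smul, nrm_smul (inv_pos.2 (norm_pos_iff.2 (gne g u)))]

theorem rh_pr (g h : G q) (u : Sp q) : rh g.symm u * rh h (pr g u) = rh (h.trans g.symm) u := by
  have := (adm_rho h).eq_nrm (g u)
  exact this.symm

theorem act_act (p : ℕ) (g h : G q) (φ : X q) :
    act p g (act p h φ) = act p (g.trans h) φ := by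
  ext u
  simp only [act_apply, ContinuousMap.mul_apply, ContinuousMap.comp_apply, ContinuousMap.pow_apply]
  rw [pr_pr, ← mul_assoc, ← mul_pow, rh_pr]
  rfl

theorem act_refl (p : ℕ) (φ : X q) :
    act p (ContinuousLinearEquiv.refl ℝ (V (q + 3))) φ = φ := by
  ext u
  rw [act_apply, ContinuousLinearEquiv.refl_symm, rh_refl, one_pow, one_mul,
    ContinuousMap.comp_apply]
  congr 1
  exact Subtype.ext (nrm_unit (un u))

theorem act_rh (g h : G q) : act 1 g (rh h) = rh (h.trans g.symm) := by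
  ext u
  rw [act_one_apply, up_rh]
  rfl

theorem act_rh_self (g : G q) : act 1 g (rh g) = 1 := by
  rw [act_rh, ContinuousLinearEquiv.self_trans_symm, rh_refl]

theorem act_mono (p : ℕ) (g : G q) {φ ψ : X q} (h : φ ≤ ψ) : act p g φ ≤ act p g ψ := fun u =>
  mul_le_mul_of_nonneg_left (h _) (pow_nonneg (rh_pos _ u).le p)

theorem act_nonneg (p : ℕ) (g : G q) {φ : X q} (h : 0 ≤ φ) : 0 ≤ act p g φ := by
  simpa using act_mono p g h

theorem act_abs (p : ℕ) (g : G q) (φ : X q) : act p g |φ| = |act p g φ| := by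
  ext u
  simp only [act_apply, ContinuousMap.mul_apply, ContinuousMap.comp_apply, ContinuousMap.pow_apply,
    ContinuousMap.abs_apply, abs_mul, abs_of_nonneg (pow_nonneg (rh_pos _ u).le p)]

theorem exists_root {φ : X q} (h : 0 ≤ φ) (m : ℕ) : ∃ ψ : X q, 0 ≤ ψ ∧ ψ ^ (m + 1) = φ :=
  ⟨⟨fun u => φ u ^ (((m + 1 : ℕ) : ℝ)⁻¹), φ.continuous.rpow_const fun _ => Or.inr (by positivity)⟩,
    fun u => Real.rpow_nonneg (h u) _, by
      ext u
      exact Real.rpow_inv_natCast_pow (h u) (Nat.succ_ne_zero m)⟩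

theorem ext_of_pow {F : Type} [AddCommGroup F] {S S' : X q → F} (m : ℕ)
    (hS : ∀ φ ψ, S (φ - ψ) = S φ - S ψ) (hS' : ∀ φ ψ, S' (φ - ψ) = S' φ - S' ψ)
    (h : ∀ ψ, 0 ≤ ψ → S (ψ ^ (m + 1)) = S' (ψ ^ (m + 1))) (φ : X q) : S φ = S' φ := by
  obtain ⟨a, a0, ea⟩ := exists_root (posPart_nonneg φ) m
  obtain ⟨c, c0, ec⟩ := exists_root (negPart_nonneg φ) m
  rw [← posPart_sub_negPart φ, ← ea, ← ec, hS, hS', h a a0, h c c0]

theorem I_act (g : G q) (φ : X q) : I (act (q + 3) g φ) = (jac g)⁻¹ * I φ := by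
  refine ext_of_pow (S := fun φ => I (act (q + 3) g φ)) (S' := fun φ => (jac g)⁻¹ * I φ) (q + 2)
    (fun _ _ => by simp) (fun _ _ => by simp [mul_sub]) (fun ψ h => ?_) φ
  have := Nn_comp (adm_up h) g
  rw [← up_act, Nn_up, Nn_up, ← act_pow, mul_left_comm] at this
  exact mul_left_cancel₀ (om_pos _).ne' this

theorem A_act (g : G q) (φ : X q) :
    A (act (q + 2) g φ) = (jac g)⁻¹ • act 1 (dual g) (A φ) := by
  refine ext_of_pow (S := fun φ => A (act (q + 2) g φ))
    (S' := fun φ => (jac g)⁻¹ • act 1 (dual g) (A φ)) (q + 1)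
    (fun _ _ => by simp) (fun _ _ => by simp [smul_sub]) (fun ψ h => ?_) φ
  ext u
  have := T_comp (adm_up h) g u
  rw [← up_act, T_up, T_up] at this
  simp only [up_coe] at this
  rw [mul_left_comm, N, ← act_pow] at this
  rw [ContinuousMap.smul_apply, act_one_apply, smul_eq_mul]
  exact mul_left_cancel₀ (om_pos _).ne' this

theorem act_J (g : G q) (φ : X q) : act 1 (J g) φ = (jac g)⁻¹ • act 1 (dual g) φ := by
  ext u
  rw [ContinuousMap.smul_apply, act_one_apply, act_one_apply, smul_eq_mul,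
    ← up_smul_arg _ (jac_pos g)]
  rfl

theorem lin_act (g : G q) (d : X q) :
    act 1 (J g) (((q : ℝ) + 2) • A (rh g ^ (q + 1) * d)) = L1 (act 1 g d) := by
  rw [map_smul, act_J, ← A_act, act_mul (q + 1) 1, act_pow, act_rh_self, one_pow, one_mul, L1]

theorem rh_J (g : G q) : rh (J g) = jac g • rh (dual g) := rh_hom (jac_pos g) _

theorem N_rh (g : G q) : N (rh g) = rh (J g) := by
  ext u
  have := T_rho g (u : V (q + 3))
  rw [← up_rh, T_up] at this
  simp only [up_coe] at this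
  rw [rh_J, ContinuousMap.smul_apply, smul_eq_mul, rh_apply]
  exact mul_left_cancel₀ (om_pos (q + 2)).ne' (this.trans (by ring))

theorem jac_J (g : G q) : jac (J g) = jac g ^ (q + 2) := by
  have := jac_pos g
  rw [J, jac_trans, jac_dual, jac_hom, abs_of_pos this]
  field_simp
  ring

theorem rh_J_J (g : G q) : rh (J (J g)) = jac g ^ (q + 1) • rh g := by
  have := jac_pos g
  rw [rh_J, jac_J, J, dual_trans, dual_dual, dual_hom, rh_hom (inv_pos.2 this), smul_smul]
  congr 1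
  field_simp
  ring

theorem J_surj (h : G q) : ∃ g, J g = h := by
  obtain ⟨c, c0, e⟩ : ∃ c : ℝ, 0 < c ∧ c ^ (q + 2) = jac h :=
    ⟨jac h ^ (((q + 2 : ℕ) : ℝ)⁻¹), Real.rpow_pos_of_pos (jac_pos h) _,
      Real.rpow_inv_natCast_pow (jac_pos h).le (Nat.succ_ne_zero _)⟩
  have hj : jac ((dual h).trans (hom (q + 3) c c0.ne')) = c := by
    rw [jac_trans, jac_dual, jac_hom, abs_of_pos c0, ← e]
    field_simp
    ring
  refine ⟨(dual h).trans (hom (q + 3) c c0.ne'), ?_⟩
  ext1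
  ext1 x
  show jac ((dual h).trans (hom (q + 3) c c0.ne')) •
    dual ((dual h).trans (hom (q + 3) c c0.ne')) x = h x
  rw [hj, dual_trans, dual_dual, dual_hom]
  show c • c⁻¹ • h x = h x
  rw [smul_inv_smul₀ c0.ne']

theorem I_rh (g : G q) : I (rh g ^ (q + 3)) = jac g := by
  have := Nn_rho g
  rw [← up_rh, Nn_up, mul_comm] at this
  exact mul_right_cancel₀ (om_pos _).ne' this

theorem io_nonneg (g h : G q) : 0 ≤ io g h :=
  I_nonneg (mul_nonneg (pow_nonneg (rh_nonneg g) _) (rh_nonneg h))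

theorem io_J (g h : G q) : io (J g) (J h) = jac g ^ (q + 1) * io h g := by
  rw [io, ← N_rh h, N, A_symm, ← N, N_rh, rh_J_J, smul_mul_assoc, map_smul, io, mul_comm (rh g)]
  rfl

theorem io_le_la (g : Cf q k) {i j : Fin k} (h : i ≠ j) :
    io (g i) (g j) + io (g j) (g i) ≤ la g := by
  have h1 : ∀ i j : Fin k, i ≠ j → io (g i) (g j) ≤ ∑ l ∈ Finset.univ.erase i, io (g i) (g l) :=
    fun i j h => Finset.single_le_sum (f := fun l => io (g i) (g l)) (fun _ _ => io_nonneg _ _)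
      (Finset.mem_erase.2 ⟨h.symm, Finset.mem_univ _⟩)
  refine (add_le_add (h1 i j h) (h1 j i h.symm)).trans ?_
  rw [← Finset.sum_pair (f := fun i => ∑ l ∈ Finset.univ.erase i, io (g i) (g l)) h]
  exact Finset.sum_le_sum_of_subset_of_nonneg (Finset.subset_univ _) fun _ _ _ =>
    Finset.sum_nonneg fun _ _ => io_nonneg _ _

theorem la_nonneg (g : Cf q k) : 0 ≤ la g :=
  Finset.sum_nonneg fun _ _ => Finset.sum_nonneg fun _ _ => io_nonneg _ _

theorem half_iff {C : ℝ} (g h : G q) :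
    (∀ x, ‖g.symm x‖ ≤ C * ‖h.symm x‖) ↔ rh h ≤ C • rh g := by
  have key : ∀ u : Sp q, rh h u ≤ C * rh g u ↔ ‖g.symm u‖ ≤ C * ‖h.symm u‖ := fun u => by
    have h1 := norm_pos_iff.2 (gne g.symm u)
    have h2 := norm_pos_iff.2 (gne h.symm u)
    show ‖h.symm u‖⁻¹ ≤ C * ‖g.symm u‖⁻¹ ↔ _
    rw [← div_eq_mul_inv, inv_eq_one_div, div_le_div_iff₀ h2 h1, one_mul]
  refine ⟨fun H u => (key u).2 (H u), fun H x => ?_⟩
  by_cases hx : x = 0
  · subst hx; simp
  · have := (key (mkS (nrm x) (norm_nrm hx))).1 (H _)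
    rw [← norm_smul_nrm x, map_smul, map_smul, norm_smul, norm_smul, mul_left_comm]
    exact mul_le_mul_of_nonneg_left this (norm_nonneg _)

theorem cmp_iff {C : ℝ} (g h : G q) : Cmp C g h ↔ rh h ≤ C • rh g ∧ rh g ≤ C • rh h := by
  rw [← half_iff, ← half_iff]
  exact forall_and

end Pool.Agent.Lib.MP_242fd5_gt.Cu
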