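import Pool.Agent.Lib.MP_242fd5_gt.Cu.B1

set_option autoImplicit false

open MeasureTheory Set Metric Filter Topology
open scoped RealInnerProductSpace

namespace Pool.Agent.Lib.MP_242fd5_gt.Cu

open Ty

variable {q k : ℕ}

theorem I_abs_pow_nonneg (φ : X q) (m : ℕ) : 0 ≤ I (|φ| ^ m) :=
  I_nonneg (pow_nonneg (abs_nonneg φ) m)

theorem I_smul (c : ℝ) (φ : X q) : I (c • φ) = c * I φ := map_smul I c φ

theorem I_const (c : ℝ) : I (c • (1 : X q)) = c := by rw [I_smul, I_one, mul_one]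

theorem abs_smul' (c : ℝ) (φ : X q) : |c • φ| = |c| • |φ| := by
  ext u
  simp only [ContinuousMap.abs_apply, ContinuousMap.smul_apply, smul_eq_mul, abs_mul]

theorem z_nonneg (φ : X q) : 0 ≤ z φ := Real.rpow_nonneg (I_abs_pow_nonneg φ _) _

theorem z_pow (φ : X q) : z φ ^ (q + 3) = I (|φ| ^ (q + 3)) :=
  Real.rpow_inv_natCast_pow (I_abs_pow_nonneg φ _) (Nat.succ_ne_zero _)

theorem z_pow' {φ : X q} (h : 0 ≤ φ) : z φ ^ (q + 3) = I (φ ^ (q + 3)) := by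
  rw [z_pow, abs_of_nonneg h]

theorem z_le_of_pow {φ : X q} {c : ℝ} (hc : 0 ≤ c) (h : I (|φ| ^ (q + 3)) ≤ c ^ (q + 3)) :
    z φ ≤ c :=
  le_of_pow_le_pow_left₀ (Nat.succ_ne_zero _) hc (by rwa [z_pow])

theorem z_le_of_pow' {φ : X q} {c : ℝ} (hc : 0 ≤ c) (h : z φ ^ (q + 3) ≤ c ^ (q + 3)) :
    z φ ≤ c :=
  le_of_pow_le_pow_left₀ (Nat.succ_ne_zero _) hc h

theorem z_zero : z (0 : X q) = 0 := le_antisymm (z_le_of_pow le_rfl (by simp)) (z_nonneg _)

theorem z_neg (φ : X q) : z (-φ) = z φ := by rw [z, abs_neg, z]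

theorem z_abs (φ : X q) : z |φ| = z φ := by rw [z, abs_abs, z]

theorem z_smul (c : ℝ) (φ : X q) : z (c • φ) = |c| * z φ := by
  refine (pow_left_inj₀ (z_nonneg _) (mul_nonneg (abs_nonneg c) (z_nonneg φ))
    (Nat.succ_ne_zero (q + 2))).1 ?_
  rw [mul_pow, z_pow, z_pow, abs_smul', smul_pow, I_smul]

theorem z_mono {φ ψ : X q} (h : |φ| ≤ ψ) : z φ ≤ z ψ := by
  refine z_le_of_pow (z_nonneg _) ?_
  rw [z_pow]
  exact I_mono (pow_le_pow_left₀ (abs_nonneg φ) (h.trans (le_abs_self ψ)) _)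

theorem z_mono' {φ ψ : X q} (h0 : 0 ≤ φ) (h : φ ≤ ψ) : z φ ≤ z ψ :=
  z_mono (by rwa [abs_of_nonneg h0])

theorem eq_zero_of_z {φ : X q} (h : z φ = 0) : φ = 0 := by
  have h1 := z_pow φ
  rw [h, zero_pow (Nat.succ_ne_zero _)] at h1
  have h2 := eq_zero_of_I (pow_nonneg (abs_nonneg φ) _) h1.symm
  ext u
  have h3 : |φ u| ^ (q + 3) = 0 := DFunLike.congr_fun h2 u
  exact abs_eq_zero.1 (pow_eq_zero_iff (Nat.succ_ne_zero _) |>.1 h3)

/-- normalisation in the `L^n` norm -/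
theorem exists_unit (φ : X q) : ∃ ψ : X q, z ψ ≤ 1 ∧ φ = z φ • ψ ∧ (0 ≤ φ → 0 ≤ ψ) := by
  refine ⟨(z φ)⁻¹ • φ, ?_, ?_, fun h => smul_nonneg (inv_nonneg.2 (z_nonneg φ)) h⟩
  · rw [z_smul, abs_of_nonneg (inv_nonneg.2 (z_nonneg φ))]
    exact inv_mul_le_one
  · rcases eq_or_ne (z φ) 0 with e | e
    · rw [e, zero_smul]; exact eq_zero_of_z e
    · rw [smul_inv_smul₀ e]

theorem z_add_le (φ ψ : X q) : z (φ + ψ) ≤ z φ + z ψ := by
  obtain ⟨u, hu, eu, -⟩ := exists_unit φ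
  obtain ⟨v, hv, ev, -⟩ := exists_unit ψ
  have a0 := z_nonneg φ
  have b0 := z_nonneg ψ
  generalize z φ = a at *
  generalize z ψ = c at *
  subst eu ev
  rcases (add_nonneg a0 b0).eq_or_lt with e | e
  · obtain rfl : a = 0 := by linarith
    obtain rfl : c = 0 := by linarith
    simp [z_zero]
  refine z_le_of_pow e.le ?_
  have h1 : |a • u + c • v| ^ (q + 3) ≤
      (a + c) ^ (q + 3) • ((a / (a + c)) • |u| ^ (q + 3) + (c / (a + c)) • |v| ^ (q + 3)) := by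
    intro x
    have h2 := (convexOn_pow (𝕜 := ℝ) (q + 3)).2 (abs_nonneg (u x)) (abs_nonneg (v x))
      (div_nonneg a0 e.le) (div_nonneg b0 e.le) (by field_simp)
    have h3 : |a * u x + c * v x| ≤ (a + c) * (a / (a + c) * |u x| + c / (a + c) * |v x|) := by
      refine (abs_add_le _ _).trans (le_of_eq ?_)
      rw [abs_mul, abs_mul, abs_of_nonneg a0, abs_of_nonneg b0]
      field_simp
    show |a * u x + c * v x| ^ (q + 3) ≤ (a + c) ^ (q + 3) *
      (a / (a + c) * |u x| ^ (q + 3) + c / (a + c) * |v x| ^ (q + 3))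
    refine (pow_le_pow_left₀ (abs_nonneg _) h3 _).trans ?_
    rw [mul_pow]
    exact mul_le_mul_of_nonneg_left h2 (by positivity)
  refine (I_mono h1).trans ?_
  rw [I_smul, map_add, I_smul, I_smul, ← z_pow, ← z_pow]
  refine mul_le_of_le_one_right (by positivity) ?_
  have h4 := pow_le_one₀ (n := q + 3) (z_nonneg u) hu
  have h5 := pow_le_one₀ (n := q + 3) (z_nonneg v) hv
  calc _ ≤ a / (a + c) * 1 + c / (a + c) * 1 := by gcongr
    _ = 1 := by field_simp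

theorem z_sub_le (φ ψ : X q) : z (φ - ψ) ≤ z φ + z ψ := by
  rw [sub_eq_add_neg, ← z_neg ψ]; exact z_add_le _ _

theorem z_sub_comm (φ ψ : X q) : z (φ - ψ) = z (ψ - φ) := by rw [← z_neg, neg_sub]

theorem z_tri (φ ψ χ : X q) : z (φ - χ) ≤ z (φ - ψ) + z (ψ - χ) := by
  have := z_add_le (φ - ψ) (ψ - χ)
  rwa [sub_add_sub_cancel] at this

theorem z_sum_le {ι : Type} (s : Finset ι) (φ : ι → X q) :
    z (∑ i ∈ s, φ i) ≤ ∑ i ∈ s, z (φ i) :=
  Finset.le_sum_of_subadditive z z_zero.le z_add_le s φ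

theorem z_le_norm (φ : X q) : z φ ≤ ‖φ‖ := by
  refine z_le_of_pow (norm_nonneg φ) ?_
  rw [← I_const (q := q) (‖φ‖ ^ (q + 3))]
  refine I_mono fun u => ?_
  show |φ u| ^ (q + 3) ≤ ‖φ‖ ^ (q + 3) * 1
  rw [mul_one]
  exact pow_le_pow_left₀ (abs_nonneg _) (φ.norm_coe_le_norm u) _

theorem continuous_z : Continuous (z : X q → ℝ) := by
  refine (LipschitzWith.of_le_add fun φ ψ => ?_).continuous
  have := z_add_le ψ (φ - ψ)
  rw [add_sub_cancel] at this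
  rw [dist_eq_norm]
  linarith [z_le_norm (φ - ψ)]

theorem I_mul_self_nonneg (φ : X q) : 0 ≤ I (φ * φ) := I_nonneg fun u => mul_self_nonneg (φ u)

theorem l2_nonneg (φ : X q) : 0 ≤ l2 φ := Real.sqrt_nonneg _

theorem l2_sq (φ : X q) : l2 φ ^ 2 = I (φ * φ) := Real.sq_sqrt (I_mul_self_nonneg φ)

theorem l2_le_of_sq {φ : X q} {c : ℝ} (hc : 0 ≤ c) (h : I (φ * φ) ≤ c ^ 2) : l2 φ ≤ c :=
  Real.sqrt_le_iff.2 ⟨hc, h⟩

theorem l2_zero : l2 (0 : X q) = 0 := by simp [l2]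

theorem cs (φ ψ : X q) : |I (φ * ψ)| ≤ l2 φ * l2 ψ := by
  have h1 : discrim (I (φ * φ)) (2 * I (φ * ψ)) (I (ψ * ψ)) ≤ 0 := discrim_le_zero fun x => by
    have h2 := I_mul_self_nonneg (x • φ + ψ)
    have h3 : (x • φ + ψ) * (x • φ + ψ) = (x * x) • (φ * φ) + (2 * x) • (φ * ψ) + ψ * ψ := by
      ext u
      simp only [ContinuousMap.mul_apply, ContinuousMap.add_apply, ContinuousMap.smul_apply,
        smul_eq_mul]
      ring
    rw [h3, map_add, map_add, I_smul, I_smul] at h2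
    linarith
  refine abs_le_of_sq_le_sq ?_ (mul_nonneg (l2_nonneg _) (l2_nonneg _))
  rw [mul_pow, l2_sq, l2_sq]
  rw [discrim] at h1
  linarith

theorem l2_add_le (φ ψ : X q) : l2 (φ + ψ) ≤ l2 φ + l2 ψ := by
  refine l2_le_of_sq (add_nonneg (l2_nonneg _) (l2_nonneg _)) ?_
  have h3 : (φ + ψ) * (φ + ψ) = φ * φ + φ * ψ + φ * ψ + ψ * ψ := by ring
  rw [h3, map_add, map_add, map_add, ← l2_sq, ← l2_sq]
  linarith [(abs_le.1 (cs φ ψ)).2]

theorem l2_smul (c : ℝ) (φ : X q) : l2 (c • φ) = |c| * l2 φ := by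
  rw [l2, l2, smul_mul_smul_comm, I_smul, Real.sqrt_mul (mul_self_nonneg c), Real.sqrt_mul_self_eq_abs]

theorem l2_neg (φ : X q) : l2 (-φ) = l2 φ := by rw [l2, neg_mul_neg, l2]

theorem l2_sub_le (φ ψ : X q) : l2 (φ - ψ) ≤ l2 φ + l2 ψ := by
  rw [sub_eq_add_neg, ← l2_neg ψ]; exact l2_add_le _ _

theorem l2_sub_comm (φ ψ : X q) : l2 (φ - ψ) = l2 (ψ - φ) := by rw [← l2_neg, neg_sub]

theorem l2_tri (φ ψ χ : X q) : l2 (φ - χ) ≤ l2 (φ - ψ) + l2 (ψ - χ) := by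
  have := l2_add_le (φ - ψ) (ψ - χ)
  rwa [sub_add_sub_cancel] at this

theorem l2_mono {φ ψ : X q} (h : |φ| ≤ |ψ|) : l2 φ ≤ l2 ψ :=
  Real.sqrt_le_sqrt (I_mono fun u => by
    have h1 : |φ u| ≤ |ψ u| := h u
    show φ u * φ u ≤ ψ u * ψ u
    rw [← abs_mul_abs_self (φ u), ← abs_mul_abs_self (ψ u)]
    exact mul_self_le_mul_self (abs_nonneg _) h1)

theorem l2_abs (φ : X q) : l2 |φ| = l2 φ :=
  le_antisymm (l2_mono (abs_abs φ).le) (l2_mono (abs_abs φ).ge)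

theorem l2_sum_le {ι : Type} (s : Finset ι) (φ : ι → X q) :
    l2 (∑ i ∈ s, φ i) ≤ ∑ i ∈ s, l2 (φ i) :=
  Finset.le_sum_of_subadditive l2 l2_zero.le l2_add_le s φ

theorem eq_zero_of_l2 {φ : X q} (h : l2 φ = 0) : φ = 0 := by
  have h1 := l2_sq φ
  rw [h, zero_pow two_ne_zero] at h1
  have h2 := eq_zero_of_I (φ := φ * φ) (fun u => mul_self_nonneg (φ u)) h1.symm
  ext u
  exact mul_self_eq_zero.1 (DFunLike.congr_fun h2 u)

theorem young_two {x : ℝ} (hx : 0 ≤ x) (m : ℕ) : (m + 2) * x ^ 2 ≤ 2 * x ^ (m + 2) + m := by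
  induction m with
  | zero => simp
  | succ m ih =>
    have h : 0 ≤ (x - 1) * (2 * x ^ (m + 2) - x - 1) := by
      rcases le_total 1 x with h | h
      · have : x ≤ x ^ (m + 2) := le_self_pow₀ h (Nat.succ_ne_zero (m + 1))
        exact mul_nonneg (by linarith) (by linarith)
      · have : x ^ (m + 2) ≤ x := pow_le_of_le_one hx h (Nat.succ_ne_zero (m + 1))
        exact mul_nonneg_of_nonpos_of_nonpos (by linarith) (by linarith)
    rw [show m + 1 + 2 = m + 2 + 1 from rfl, pow_succ x (m + 2)]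
    push_cast
    nlinarith

theorem l2_le_z (φ : X q) : l2 φ ≤ z φ := by
  obtain ⟨u, hu, eu, -⟩ := exists_unit φ
  have h1 : l2 u ≤ 1 := by
    refine l2_le_of_sq zero_le_one ?_
    have h2 : ((q : ℝ) + 3) • (u * u) ≤ (2 : ℝ) • |u| ^ (q + 3) + ((q : ℝ) + 1) • 1 := by
      intro x
      have := young_two (abs_nonneg (u x)) (q + 1)
      show ((q : ℝ) + 3) * (u x * u x) ≤ 2 * |u x| ^ (q + 3) + ((q : ℝ) + 1) * 1
      rw [sq_abs] at this
      push_cast at this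
      nlinarith
    have h3 := I_mono h2
    rw [I_smul, map_add, I_smul, I_const, ← z_pow] at h3
    have h4 := pow_le_one₀ (n := q + 3) (z_nonneg u) hu
    refine le_of_mul_le_mul_left (a := (q : ℝ) + 3) (by linarith) (by positivity)
  calc l2 φ = l2 (z φ • u) := by rw [← eu]
    _ = z φ * l2 u := by rw [l2_smul, abs_of_nonneg (z_nonneg φ)]
    _ ≤ z φ := mul_le_of_le_one_right (z_nonneg φ) h1

theorem l2_le_norm (φ : X q) : l2 φ ≤ ‖φ‖ := (l2_le_z φ).trans (z_le_norm φ)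

theorem A_sq_le (φ : X q) : A φ * A φ ≤ A (φ * φ) := by
  intro u
  have h1 := A_nonneg (φ := (φ - A φ u • 1) * (φ - A φ u • 1)) (fun v => mul_self_nonneg _) u
  have h2 : (φ - A φ u • 1) * (φ - A φ u • 1) =
      φ * φ - (2 * A φ u) • φ + (A φ u * A φ u) • (1 : X q) := by
    ext v
    simp only [ContinuousMap.mul_apply, ContinuousMap.add_apply, ContinuousMap.smul_apply,
      ContinuousMap.sub_apply, ContinuousMap.one_apply, smul_eq_mul]
    ring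
  rw [h2, map_add, map_sub, map_smul, map_smul, A_one] at h1
  have h3 : 0 ≤ A (φ * φ) u - 2 * A φ u * A φ u + A φ u * A φ u * 1 := h1
  show A φ u * A φ u ≤ A (φ * φ) u
  linarith

theorem l2_A_le (φ : X q) : l2 (A φ) ≤ l2 φ :=
  Real.sqrt_le_sqrt ((I_mono (A_sq_le φ)).trans (I_A _).le)

theorem z_act (g : G q) (φ : X q) : z (act 1 g φ) ^ (q + 3) = (jac g)⁻¹ * z φ ^ (q + 3) := by
  rw [z_pow, z_pow, ← act_abs, ← act_pow, I_act]

theorem l2_act (g : G q) (d : X q) :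
    l2 (act 1 g d) ^ 2 = (jac g)⁻¹ * I (rh g ^ (q + 1) * d ^ 2) := by
  rw [l2_sq, ← I_act, act_mul (q + 1) 2, act_pow, act_pow, act_rh_self, one_pow, one_mul, sq]

theorem z_rh (g : G q) : z (rh g) ^ (q + 3) = jac g := by rw [z_pow' (rh_nonneg g), I_rh]

theorem two_le_pow (q : ℕ) : (2 : ℝ) ≤ 2 ^ (q + 3) := le_self_pow₀ one_le_two (Nat.succ_ne_zero _)

/-- `jac` between `1/2` and `2`: all norms change by at most the factor `2` -/
theorem z_act_le {g : G q} (h : 1 / 2 ≤ jac g) (φ : X q) : z (act 1 g φ) ≤ 2 * z φ := by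
  have h0 := z_nonneg φ
  refine z_le_of_pow' (by positivity) ?_
  rw [z_act, mul_pow]
  refine mul_le_mul_of_nonneg_right (le_trans ?_ (two_le_pow q)) (by positivity)
  rw [inv_le_comm₀ (jac_pos g) two_pos]
  linarith

theorem z_le_act {g : G q} (h : jac g ≤ 2) (φ : X q) : z φ ≤ 2 * z (act 1 g φ) := by
  have h0 := z_nonneg (act 1 g φ)
  refine z_le_of_pow' (by positivity) ?_
  rw [mul_pow, ← mul_inv_cancel_left₀ (jac_pos g).ne' (z φ ^ (q + 3)), ← z_act]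
  exact mul_le_mul_of_nonneg_right (h.trans (two_le_pow q)) (by positivity)

theorem z_rh_le {g : G q} (h : jac g ≤ 2) : z (rh g) ≤ 2 :=
  z_le_of_pow' zero_le_two (by rw [z_rh]; exact h.trans (two_le_pow q))

theorem N_nonneg {φ : X q} (h : 0 ≤ φ) : 0 ≤ N φ := A_nonneg (pow_nonneg h _)

theorem N_mono {φ ψ : X q} (h0 : 0 ≤ φ) (h : φ ≤ ψ) : N φ ≤ N ψ :=
  A_mono (pow_le_pow_left₀ h0 h _)

theorem N_smul (c : ℝ) (φ : X q) : N (c • φ) = c ^ (q + 2) • N φ := by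
  rw [N, smul_pow, map_smul, N]

theorem busN {ψ : X q} (h0 : 0 ≤ ψ) : I (N ψ ^ (q + 3)) ≤ I (ψ ^ (q + 3)) ^ (q + 2) := by
  have h := sharp' (adm_up h0)
  have o := om_pos (q + 3)
  have o' := om_pos (q + 2)
  rw [T_up, Nn_smul, Nn_up, Nn_up, PhiB, show q + 2 - 1 = q + 1 from rfl, mul_pow] at h
  refine le_of_mul_le_mul_left (h.trans_eq' ?_ |>.trans_eq ?_)
    (show 0 < om (q + 2) ^ (q + 2 + 1) * om (q + 3) by positivity)
  · ring
  · field_simp
    ring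

/-- sharp Busemann inequality (`sharp'`) -/
theorem busA {F ψ : X q} (h0 : 0 ≤ ψ) (h : |F| ≤ ψ ^ (q + 2)) : z (A F) ≤ z ψ ^ (q + 2) := by
  refine (z_mono ((abs_A_le F).trans (A_mono h))).trans (z_le_of_pow'
    (pow_nonneg (z_nonneg ψ) _) ?_)
  rw [← pow_mul, mul_comm, pow_mul, z_pow' h0, z_pow' (A_nonneg (pow_nonneg h0 _))]
  exact busN h0

theorem z_N_le {ψ : X q} (h0 : 0 ≤ ψ) : z (N ψ) ≤ z ψ ^ (q + 2) :=
  busA h0 (abs_of_nonneg (pow_nonneg h0 _)).le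

theorem mix_le {u v : X q} (hu : 0 ≤ u) (hv : 0 ≤ v) (a c : ℕ) :
    u ^ a * v ^ c ≤ (u + v) ^ (a + c) := by
  rw [pow_add]
  exact mul_le_mul (pow_le_pow_left₀ hu (le_add_of_nonneg_right hv) a)
    (pow_le_pow_left₀ hv (le_add_of_nonneg_left hu) c) (pow_nonneg hv c)
    (pow_nonneg (add_nonneg hu hv) a)

theorem z_two {u d : X q} (hu : z u ≤ 1) (hd : z d ≤ 1) : z (u + |d|) ≤ 2 := by
  have := z_add_le u |d|
  rw [z_abs] at this
  linarith

theorem NB {u : X q} (h : 0 ≤ u) (d : X q) :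
    z (A (u ^ (q + 1) * |d|)) ≤ 2 ^ (q + 2) * z u ^ (q + 1) * z d := by
  obtain ⟨v, hv, ev, v0⟩ := exists_unit u
  obtain ⟨e, he, ee, -⟩ := exists_unit d
  replace v0 := v0 h
  have a0 := z_nonneg u
  have b0 := z_nonneg d
  generalize z u = a at *
  generalize z d = c at *
  subst ev ee
  have h1 : z (A (v ^ (q + 1) * |e|)) ≤ 2 ^ (q + 2) := by
    refine (busA (add_nonneg v0 (abs_nonneg e)) ?_).trans
      (pow_le_pow_left₀ (z_nonneg _) (z_two hv he) _)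
    rw [abs_of_nonneg (mul_nonneg (pow_nonneg v0 _) (abs_nonneg e))]
    simpa using mix_le v0 (abs_nonneg e) (q + 1) 1
  rw [abs_smul', smul_pow, smul_mul_smul_comm, map_smul, z_smul, abs_of_nonneg b0,
    abs_of_nonneg (by positivity)]
  exact (mul_le_mul_of_nonneg_left h1 (mul_nonneg (pow_nonneg a0 _) b0)).trans_eq (by ring)

/-- Hoelder without exponents -/
theorem Hmix {u : X q} (h : 0 ≤ u) (d : X q) {a c : ℕ} (e : a + c = q + 3) :
    I (u ^ a * |d| ^ c) ≤ 2 ^ (q + 3) * z u ^ a * z d ^ c := by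
  obtain ⟨v, hv, ev, v0⟩ := exists_unit u
  obtain ⟨w, hw, ew, -⟩ := exists_unit d
  replace v0 := v0 h
  have a0 := z_nonneg u
  have b0 := z_nonneg d
  generalize z u = s at *
  generalize z d = r at *
  subst ev ew
  have h1 : I (v ^ a * |w| ^ c) ≤ 2 ^ (q + 3) := by
    refine (I_mono (mix_le v0 (abs_nonneg w) a c)).trans ?_
    rw [e, ← z_pow' (add_nonneg v0 (abs_nonneg w))]
    exact pow_le_pow_left₀ (z_nonneg _) (z_two hv hw) _
  rw [abs_smul', smul_pow, smul_pow, smul_mul_smul_comm, I_smul, abs_of_nonneg b0]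
  exact (mul_le_mul_of_nonneg_left h1 (mul_nonneg (pow_nonneg a0 _) (pow_nonneg b0 _))).trans_eq
    (by ring)

theorem H1 {u : X q} (h : 0 ≤ u) (d : X q) :
    I (u ^ (q + 2) * |d|) ≤ 2 ^ (q + 3) * z u ^ (q + 2) * z d := by
  simpa using Hmix h d (a := q + 2) (c := 1) rfl

theorem abs_sq' (d : X q) : |d| ^ 2 = d ^ 2 := by
  ext u
  exact sq_abs (d u)

theorem H2 {u : X q} (h : 0 ≤ u) (d : X q) :
    I (u ^ (q + 1) * d ^ 2) ≤ 2 ^ (q + 3) * z u ^ (q + 1) * z d ^ 2 := by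
  rw [← abs_sq']
  exact Hmix h d (a := q + 1) (c := 2) rfl

theorem z_A_le (φ : X q) : z (A φ) ≤ 2 * l2 φ := by
  have key : ∀ φ : X q, l2 φ ≤ 1 → z (A φ) ≤ 2 := fun φ h => by
    obtain ⟨ψ, ψ0, e⟩ := exists_root (abs_nonneg φ) (q + 1)
    refine (busA ψ0 e.ge).trans ?_
    have h1 : ψ ^ (q + 3) ≤ 1 + φ * φ := by
      intro u
      have h2 : ψ u ^ (q + 2) = |φ u| := DFunLike.congr_fun e u
      have h3 : 0 ≤ ψ u := ψ0 u
      show ψ u ^ (q + 3) ≤ 1 + φ u * φ u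
      rw [← abs_mul_abs_self, ← h2, ← pow_add]
      rcases le_total 1 (ψ u) with h4 | h4
      · have := pow_le_pow_right₀ h4 (show q + 3 ≤ q + 2 + (q + 2) by omega)
        linarith
      · have := pow_le_one₀ (n := q + 3) h3 h4
        have := pow_nonneg h3 (q + 2 + (q + 2))
        linarith
    have h5 := I_mono h1
    rw [map_add, I_one, ← l2_sq, ← z_pow' ψ0] at h5
    have h6 := pow_le_one₀ (n := 2) (l2_nonneg φ) h
    rcases le_total 1 (z ψ) with h4 | h4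
    · have := pow_le_pow_right₀ h4 (show q + 2 ≤ q + 3 by omega)
      linarith
    · have := pow_le_one₀ (n := q + 2) (z_nonneg ψ) h4
      linarith
  rcases (l2_nonneg φ).eq_or_lt with e | e
  · rw [← e, eq_zero_of_l2 e.symm, map_zero, z_zero, mul_zero]
  · have := key ((l2 φ)⁻¹ • φ) (by rw [l2_smul, abs_of_pos (inv_pos.2 e), inv_mul_cancel₀ e.ne'])
    rwa [map_smul, z_smul, abs_of_pos (inv_pos.2 e), inv_mul_le_iff₀ e, mul_comm] at this

theorem contDiff_N : ContDiff ℝ 1 (N : X q → X q) :=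
  (A (q := q)).contDiff.comp (contDiff_id.pow (q + 2))

theorem N_lip {φ ψ : X q} (hφ : 0 ≤ φ) (hψ : 0 ≤ ψ) :
    z (N φ - N ψ) ≤ (q + 2) * 2 ^ (q + 2) * (z φ + z ψ) ^ (q + 1) * z (φ - ψ) := by
  have h1 : |φ ^ (q + 2) - ψ ^ (q + 2)| ≤ ((q : ℝ) + 2) • ((φ + ψ) ^ (q + 1) * |φ - ψ|) := by
    intro u
    have h2 := abs_pow_sub_pow_le (φ u) (ψ u) (q + 2)
    have a : 0 ≤ φ u := hφ u
    have c : 0 ≤ ψ u := hψ u
    show |φ u ^ (q + 2) - ψ u ^ (q + 2)| ≤ ((q : ℝ) + 2) * ((φ u + ψ u) ^ (q + 1) * |φ u - ψ u|)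
    refine h2.trans ?_
    rw [abs_of_nonneg a, abs_of_nonneg c, show q + 2 - 1 = q + 1 from rfl]
    have h3 : max (φ u) (ψ u) ^ (q + 1) ≤ (φ u + ψ u) ^ (q + 1) :=
      pow_le_pow_left₀ (le_max_of_le_left a) (max_le (by linarith) (by linarith)) _
    push_cast
    calc _ ≤ |φ u - ψ u| * ((q : ℝ) + 2) * (φ u + ψ u) ^ (q + 1) := by gcongr
      _ = _ := by ring
  rw [N, N, ← map_sub]
  refine (z_mono ((abs_A_le _).trans (A_mono h1))).trans ?_
  rw [map_smul, z_smul, abs_of_nonneg (by positivity), mul_assoc, mul_assoc]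
  refine mul_le_mul_of_nonneg_left ((NB (add_nonneg hφ hψ) _).trans ?_) (by positivity)
  rw [← mul_assoc]
  have := z_nonneg (φ - ψ)
  have := z_nonneg (φ + ψ)
  gcongr
  exact z_add_le _ _

theorem I_N_symm (φ ψ : X q) : I (N φ * ψ ^ (q + 2)) = I (φ ^ (q + 2) * N ψ) :=
  (A_symm _ _).symm

theorem Ph_mono {φ : X q} (h : 0 ≤ φ) : Ph φ ≤ Ph (N φ) := by
  have := Phi_mono (adm_up h)
  rw [T_up, Phi_smul (om_pos _), Phi_up, Phi_up] at this
  exact le_of_mul_le_mul_left this (PhiB_pos _)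

theorem Ph_smul {c : ℝ} (hc : 0 < c) (φ : X q) : Ph (c • φ) = Ph φ := by
  have := Phi_smul hc (up φ)
  rw [← up_smul, Phi_up, Phi_up] at this
  exact mul_left_cancel₀ (PhiB_pos _).ne' this

theorem lv_pos (q : ℕ) (hk : 1 ≤ k) : 0 < lv q k := by
  have : (0 : ℝ) < k := by exact_mod_cast hk
  rw [lv]; positivity

theorem Orb.Ph_le {M : ℕ} {f : ℕ → X q} (h : Orb M f) {i j : ℕ} (hij : i ≤ j) (hj : j ≤ M) :
    Ph (f j) ≤ Ph (f i) := by
  induction j, hij using Nat.le_induction with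
  | base => exact le_rfl
  | succ j _ ih =>
    refine le_trans ?_ (ih (by omega))
    rw [← h.step j hj]
    exact Ph_mono (h.nn _ hj)

theorem iter_nonneg (m : ℕ) {φ : X q} (h : 0 ≤ φ) : 0 ≤ N^[m] φ := by
  induction m with
  | zero => exact h
  | succ m ih => rw [Function.iterate_succ_apply']; exact N_nonneg ih

theorem orb_iter (M : ℕ) {φ : X q} (h : 0 ≤ φ) : Orb M fun j => N^[M - j] φ :=
  ⟨fun _ _ => iter_nonneg _ h, fun j hj => by
    rw [show M - j = M - (j + 1) + 1 by omega, Function.iterate_succ_apply']⟩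

end Pool.Agent.Lib.MP_242fd5_gt.Cu
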