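import Pool.Agent.Lib.MP_242fd5_gt.Cu.PS
import Pool.Agent.Lib.MP_242fd5_gt.CentreDefs

set_option autoImplicit false

open MeasureTheory Set Metric Filter Topology
open scoped RealInnerProductSpace symmDiff Pointwise

namespace Pool.Agent.Lib.MP_242fd5_gt.Cu

open Ty

variable {q k : ℕ}

/-- the radial function of a star body -/
noncomputable def res {L : Set (V (q + 3))} (h : IsStarBody L) : X q :=
  ⟨fun u => radial L u, continuousOn_iff_continuous_domRestrict.1 h.2.2.2⟩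

/-- the star body with radial function `f` -/
def bd (f : X q) : Set (V (q + 3)) := Ty.star (up f)

/-- `E i = s • g i B` -/
def Rep (s : ℝ) (E : Fin k → Set (V (q + 3))) (g : Cf q k) : Prop := ∀ i, E i = bd (s • rh (g i))

theorem res_pos {L : Set (V (q + 3))} (h : IsStarBody L) (u : Sp q) : 0 < res h u :=
  h.2.2.1 u u.2

theorem up_res {L : Set (V (q + 3))} (h : IsStarBody L) : up (res h) = rad L :=
  (adm_up fun u => (res_pos h u).le).ext (sb_rad h).adm fun x hx => by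
    rw [up_unit _ hx, rad_unit L hx]; rfl

theorem bd_res {L : Set (V (q + 3))} (h : IsStarBody L) : bd (res h) = L := by
  rw [bd, up_res, star_rad h]

theorem sb_up {f : X q} (h : ∀ u, 0 < f u) : SB (up f) :=
  ⟨adm_up fun u => (h u).le, contOn_up f, fun u hu => by rw [up_unit _ hu]; exact h _⟩

theorem star_bd {f : X q} (h : ∀ u, 0 < f u) : IsStarBody (bd f) := (sb_up h).star

theorem radial_bd {f : X q} (h : ∀ u, 0 < f u) (u : Sp q) : radial (bd f) u = f u := by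
  rw [← rad_unit _ (un u), bd, rad_star (sb_up h), up_coe]

theorem res_bd {f : X q} (h : ∀ u, 0 < f u) : res (star_bd h) = f := by
  ext u
  exact radial_bd h u

namespace Br

theorem snn {s : ℝ} (hs : 0 < s) {f : X q} (h : 0 ≤ f) : 0 ≤ s • f := smul_nonneg hs.le h

theorem vol_bd {s : ℝ} (hs : 0 < s) {f : X q} (h : 0 ≤ f) :
    (volume (bd (s • f))).toReal = om (q + 3) * s ^ (q + 3) * I (f ^ (q + 3)) := by
  rw [bd, ← Measure.real, (adm_up (snn hs h)).real_star, Nn_up, smul_pow, map_smul, smul_eq_mul,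
    mul_assoc]

theorem vol_sd {s : ℝ} (hs : 0 < s) {f f' : X q} (h : 0 ≤ f) (h' : 0 ≤ f') :
    (volume (bd (s • f) ∆ bd (s • f'))).toReal =
      om (q + 3) * s ^ (q + 3) * I |f ^ (q + 3) - f' ^ (q + 3)| := by
  rw [bd, bd, vol_symmDiff (adm_up (snn hs h)) (adm_up (snn hs h')),
    ENNReal.toReal_ofReal (dV_nonneg _ _), up_smul, up_smul, dV_smul s hs.le, mul_comm (om _),
    mul_assoc]
  congr 1
  exact int_up _ fun u => by rw [up_coe, up_coe]; rfl

theorem bd_inf {s : ℝ} (hs : 0 < s) {f f' : X q} (h : 0 ≤ f) (h' : 0 ≤ f') :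
    bd (s • f) ∩ bd (s • f') = bd (s • (f ⊓ f')) := by
  rw [bd, bd, ← star_min, bd]
  congr 1
  exact ((adm_up (snn hs h)).min (adm_up (snn hs h'))).ext (adm_up (snn hs (le_inf h h')))
    fun x hx => by
      simp only [up_unit _ hx, ContinuousMap.smul_apply, ContinuousMap.inf_apply, smul_eq_mul]
      exact (mul_min_of_nonneg _ _ hs.le).symm

theorem bd_rh (g : G q) : bd (rh g) = g '' closedBall 0 1 := by rw [bd, up_rh, star_rho, ell]

/-- `m` is the largest of the radial functions -/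
structure Mx (g : Cf q k) (m : X q) : Prop where
  le : ∀ i, rh (g i) ≤ m
  eq : ∀ u, ∃ i, m u = rh (g i) u

theorem exists_Mx (hk : 1 ≤ k) (g : Cf q k) : ∃ m, Mx g m := by
  have ne : (Finset.univ : Finset (Fin k)).Nonempty := ⟨⟨0, hk⟩, Finset.mem_univ _⟩
  refine ⟨Finset.univ.sup' ne fun i => rh (g i),
    fun i => Finset.le_sup' (fun i => rh (g i)) (Finset.mem_univ i), fun u => ?_⟩
  rw [ContinuousMap.sup'_apply]
  exact (Finset.exists_mem_eq_sup' ne fun i => rh (g i) u).imp fun _ h => h.2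

variable {g : Cf q k} {m : X q} {s : ℝ} {E : Fin k → Set (V (q + 3))}

theorem Mx.nn (H : Mx g m) : 0 ≤ m := fun u => by
  obtain ⟨i, hi⟩ := H.eq u
  exact (rh_pos _ u).le.trans_eq hi.symm

theorem Mx.union (H : Mx g m) (hk : 1 ≤ k) (hs : 0 < s) (R : Rep s E g) :
    ⋃ i, E i = bd (s • m) := by
  have e : ∀ i, s • rh (g i) = rh ((g i).trans (hom (q + 3) s hs.ne')) := fun i =>
    (rh_hom hs _).symm
  have : up (s • m) = mx fun i => (g i).trans (hom (q + 3) s hs.ne') :=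
    (adm_up (snn hs H.nn)).ext (adm_mx _) fun x hx => by
      rw [up_unit _ hx]
      refine le_antisymm ?_ (mx_le _ (snn hs H.nn _) fun i => ?_)
      · obtain ⟨i, hi⟩ := H.eq (mkS x hx)
        refine le_trans (le_of_eq ?_) (le_mx _ i x)
        rw [rho_hom hs, ContinuousMap.smul_apply, hi]; rfl
      · rw [rho_hom hs]
        exact mul_le_mul_of_nonneg_left (H.le i (mkS x hx)) hs.le
  rw [bd, this, star_mx hk]
  exact iUnion_congr fun i => by rw [R i, e, bd_rh, ell]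

theorem Mx.bonf (H : Mx g m) (p : ℕ) : ∑ j, rh (g j) ^ p ≤
    m ^ p + ∑ i, ∑ j ∈ Finset.univ.erase i, (rh (g i) ⊓ rh (g j)) ^ p := by
  refine ContinuousMap.le_def.2 fun u => ?_
  obtain ⟨l, hl⟩ := H.eq u
  simp only [ContinuousMap.coe_sum, Finset.sum_apply, ContinuousMap.add_apply,
    ContinuousMap.pow_apply, ContinuousMap.inf_apply]
  rw [← Finset.add_sum_erase _ _ (Finset.mem_univ l), hl]
  refine add_le_add le_rfl (le_trans (le_of_eq (Finset.sum_congr rfl fun j _ => ?_))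
    (Finset.single_le_sum (f := fun i => ∑ j ∈ Finset.univ.erase i,
      min (rh (g i) u) (rh (g j) u) ^ p) (fun i _ => Finset.sum_nonneg fun j _ =>
        pow_nonneg (le_min (rh_pos _ u).le (rh_pos _ u).le) p) (Finset.mem_univ l)))
  rw [min_eq_right (hl ▸ H.le j u)]

theorem Mx.I_le (H : Mx g m) : I (m ^ (q + 3)) ≤ ∑ j, jac (g j) := by
  simp only [← I_rh, ← map_sum]
  refine I_mono (ContinuousMap.le_def.2 fun u => ?_)
  obtain ⟨l, hl⟩ := H.eq u
  simp only [ContinuousMap.coe_sum, Finset.sum_apply, ContinuousMap.pow_apply]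
  rw [hl]
  exact Finset.single_le_sum (f := fun j => rh (g j) u ^ (q + 3))
    (fun j _ => pow_nonneg (rh_pos _ u).le _) (Finset.mem_univ l)

theorem Mx.le_I (H : Mx g m) (i : Fin k) : jac (g i) ≤ I (m ^ (q + 3)) := by
  rw [← I_rh]
  exact I_mono fun u => pow_le_pow_left₀ (rh_pos _ u).le (H.le i u) _

theorem dsum_le {x : Fin k → Fin k → ℝ} {c : Fin k → ℝ} (hc : ∀ i, 0 ≤ c i)
    (h : ∀ i j, i ≠ j → x i j ≤ c i) : ∑ i, ∑ j ∈ Finset.univ.erase i, x i j ≤ k * ∑ i, c i := by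
  rw [Finset.mul_sum]
  refine Finset.sum_le_sum fun i _ => ?_
  refine (Finset.sum_le_card_nsmul _ _ (c i) fun j hj => h i j (Finset.mem_erase.1 hj).1.symm).trans ?_
  rw [nsmul_eq_mul]
  refine mul_le_mul_of_nonneg_right ?_ (hc i)
  exact_mod_cast (Finset.card_le_univ _).trans_eq (Fintype.card_fin k)

theorem io_le (g : Cf q k) {i j : Fin k} (h : i ≠ j) : io (g i) (g j) ≤ la g := by
  linarith [io_le_la g h, io_nonneg (g j) (g i)]

theorem Mx.z_le (H : Mx g m) {c : ℝ} (hc : 0 ≤ c) (h : la g ≤ c ^ (q + 3)) :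
    z (b g - m) ≤ k * (k * c) := by
  have h1 := H.bonf 1
  simp only [pow_one] at h1
  have h2 : m ≤ b g := fun u => by
    obtain ⟨l, hl⟩ := H.eq u
    exact hl.trans_le (rh_le_b g l u)
  refine (z_mono (ψ := ∑ i, ∑ j ∈ Finset.univ.erase i, rh (g i) ⊓ rh (g j))
    (by rw [abs_of_nonneg (sub_nonneg.2 h2)]; exact sub_le_iff_le_add'.2 h1)).trans ?_
  refine ((z_sum_le _ _).trans (Finset.sum_le_sum fun i _ => z_sum_le _ _)).trans ?_
  refine (dsum_le (c := fun _ => c) (fun _ => hc) fun i j hij => z_le_of_pow hc ?_).trans (by simp)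
  rw [abs_of_nonneg (le_inf (rh_nonneg _) (rh_nonneg _))]
  exact ((ov_le_io _ _).trans (io_le g hij)).trans h

theorem dv_le (q : ℕ) {η : ℝ} (hη : 0 < η) : ∃ C : ℝ, 0 < C ∧ ∀ f f' : X q, 0 ≤ f → 0 ≤ f' →
    I |f ^ (q + 3) - f' ^ (q + 3)| ≤ η * I (f' ^ (q + 3)) + C * z (f - f') ^ (q + 3) := by
  obtain ⟨C, C0, hC⟩ := abs_pow_sub_eta (q + 3) hη
  refine ⟨C, C0, fun f f' h h' => ?_⟩
  rw [z_pow, ← smul_eq_mul, ← smul_eq_mul, ← map_smul, ← map_smul, ← map_add]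
  exact I_mono fun u => hC _ _ (h u) (h' u)

theorem vol_rep (hs : 0 < s) (R : Rep s E g) (i : Fin k) :
    (volume (E i)).toReal = om (q + 3) * s ^ (q + 3) * jac (g i) := by
  rw [R i, vol_bd hs (rh_nonneg _), I_rh]

theorem apart_iff (hs : 0 < s) (R : Rep s E g) {r : ℝ} : Apart r E ↔ (∀ i, IsEllipsoid (E i)) ∧
    (∀ i j, jac (g i) ≤ (1 + r) * jac (g j)) ∧
    ∀ i j, i ≠ j → I ((rh (g i) ⊓ rh (g j)) ^ (q + 3)) ≤ r * jac (g i) := by
  have o : 0 < om (q + 3) * s ^ (q + 3) := mul_pos (om_pos _) (pow_pos hs _)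
  have e : ∀ i j, (volume (E i ∩ E j)).toReal =
      om (q + 3) * s ^ (q + 3) * I ((rh (g i) ⊓ rh (g j)) ^ (q + 3)) := fun i j => by
    rw [R i, R j, bd_inf hs (rh_nonneg _) (rh_nonneg _),
      vol_bd hs (le_inf (rh_nonneg _) (rh_nonneg _))]
  simp only [Apart, e, vol_rep hs R, mul_left_comm _ (om (q + 3) * s ^ (q + 3)),
    mul_le_mul_iff_right₀ o]

theorem near_iff (hk : 1 ≤ k) (hs : 0 < s) (R : Rep s E g) (H : Mx g m) {L : Set (V (q + 3))}
    (h : IsStarBody L) {ε : ℝ} : Near ε L E ↔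
      I |(s⁻¹ • res h) ^ (q + 3) - m ^ (q + 3)| ≤ ε * I (m ^ (q + 3)) := by
  have o : 0 < om (q + 3) * s ^ (q + 3) := mul_pos (om_pos _) (pow_pos hs _)
  have e : L = bd (s • s⁻¹ • res h) := by rw [smul_inv_smul₀ hs.ne', bd_res]
  rw [Near, H.union hk hs R, vol_bd hs H.nn]
  conv_lhs => rw [e]
  rw [vol_sd hs (snn (inv_pos.2 hs) fun u => (res_pos h u).le) H.nn, mul_left_comm,
    mul_le_mul_iff_right₀ o]

theorem le_of_subset {f f' : X q} (h : ∀ u, 0 < f u) {c : ℝ} (hc : 0 < c)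
    (H : bd f ⊆ c • bd f') (u : Sp q) : f u ≤ c * f' u := by
  have h1 : f u • (u : V (q + 3)) ∈ bd f :=
    Or.inr (by rw [up_smul_arg _ (h u), up_coe, inv_mul_cancel₀ (h u).ne'])
  have h2 := (mem_smul_set_iff_inv_smul_mem₀ hc.ne' _ _).1 (H h1)
  have p : 0 < c⁻¹ * f u := mul_pos (inv_pos.2 hc) (h u)
  rw [smul_smul] at h2
  rcases h2 with h2 | h2
  · exact absurd h2 (smul_ne_zero p.ne' (une u))
  · rwa [up_smul_arg _ p, up_coe, le_inv_mul_iff₀ p, mul_one, inv_mul_le_iff₀ hc] at h2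

theorem mom (g : G q) (d : X q) {p p' : X q} (e : p'.comp (pr g) = rh g.symm ^ 2 * p) :
    I (act 1 g d * p) = (jac g)⁻¹ * I (d * rh g ^ (q + 4) * p') := by
  rw [← I_act]
  congr 1
  have h := act_rh_self g
  rw [act_apply, pow_one] at h
  simp only [act_apply, ContinuousMap.mul_comp, ContinuousMap.pow_comp, e, pow_one]
  calc _ = rh g.symm * d.comp (pr g) * p * (rh g.symm * (rh g).comp (pr g)) ^ (q + 4) := by
        rw [h, one_pow, mul_one]
    _ = _ := by ring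

theorem int_ball (φ : X q) {F : V (q + 3) → ℝ} (e : ∀ u : Sp q, F u = φ u) :
    ∫ x in ball (0 : V (q + 3)) 1, F (‖x‖⁻¹ • x) = om (q + 3) * I φ := by
  rw [← int_up φ (ext_coe φ), mu, integral_map measurable_nrm.aemeasurable
    (bm_ext φ).meas.aestronglyMeasurable]
  refine integral_congr_ae (ae_restrict_of_ae ?_)
  filter_upwards [compl_mem_ae_iff.2 (measure_singleton (0 : V (q + 3)))] with x hx
  exact (e (mkS _ (norm_nrm hx))).trans (ext_unit φ (norm_nrm hx)).symm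

theorem window (hk : 1 ≤ k) (hs : 0 < s) (R : Rep s E g) {L : Set (V (q + 3))} (h : IsStarBody L)
    {ε : ℝ} (e0 : 0 ≤ ε) (e1 : (k + 2) * ε ≤ 1) (A : Apart ε E) (N : Near ε L E) (j : Fin k) :
    k * jac (g j) * (1 - (k + 2) * ε) ≤ I ((s⁻¹ • res h) ^ (q + 3)) ∧
      I ((s⁻¹ • res h) ^ (q + 3)) ≤ k * jac (g j) * (1 + (k + 2) * ε) := by
  obtain ⟨m, H⟩ := exists_Mx hk g
  obtain ⟨-, a1, a2⟩ := (apart_iff hs R).1 A
  have n1 := (near_iff hk hs R H h).1 N
  have k1 : (1 : ℝ) ≤ k := by exact_mod_cast hk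
  have n2 := (I_mono (le_abs_self _)).trans n1
  have n3 := (I_mono (neg_le_abs _)).trans n1
  rw [map_sub] at n2
  rw [map_neg, map_sub] at n3
  have b1 := I_mono (H.bonf (q + 3))
  simp only [map_sum, map_add, I_rh] at b1
  have b2 := dsum_le (fun i => mul_nonneg e0 (jac_pos (g i)).le) a2
  rw [← Finset.mul_sum] at b2
  have b3 := Finset.sum_le_sum fun i (_ : i ∈ Finset.univ) => a1 i j
  have b4 := Finset.sum_le_sum fun i (_ : i ∈ Finset.univ) => a1 j i
  simp only [Finset.sum_const, Finset.card_univ, Fintype.card_fin, nsmul_eq_mul,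
    ← Finset.mul_sum] at b3 b4
  have b5 := H.I_le
  have x0 := mul_pos (zero_lt_one.trans_le k1) (jac_pos (g j))
  have S0 : 0 ≤ ∑ i, jac (g i) := Finset.sum_nonneg fun i _ => (jac_pos _).le
  generalize ∑ i, jac (g i) = S at *
  generalize I (m ^ (q + 3)) = M at *
  generalize I ((s⁻¹ • res h) ^ (q + 3)) = P at *
  rw [mul_left_comm] at b3
  generalize k * jac (g j) = y at *
  have ke : 0 ≤ k * ε := by positivity
  have e2 : ε ≤ k * ε := le_mul_of_one_le_left e0 k1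
  constructor
  · have c1 : S * (1 - k * ε) ≤ M := by nlinarith
    have c2 : S * (1 - k * ε) * (1 - ε) ≤ P :=
      (mul_le_mul_of_nonneg_right c1 (by nlinarith)).trans (by linarith)
    have c3 := mul_le_mul_of_nonneg_right b4 (show 0 ≤ 1 - (k + 2) * ε by linarith)
    have c4 : (1 + ε) * (1 - (k + 2) * ε) ≤ (1 - k * ε) * (1 - ε) := by nlinarith
    have c5 := mul_le_mul_of_nonneg_left c4 S0
    nlinarith
  · have c1 : P ≤ (1 + ε) * ((1 + ε) * y) :=
      le_trans (by linarith) (mul_le_mul_of_nonneg_left (b5.trans b3) (by linarith))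
    have c2 : (1 + ε) * (1 + ε) ≤ 1 + (k + 2) * ε := by nlinarith
    nlinarith

end Br

open Br

/-- bridge for the configurations -/
theorem apart_mono {r r' : ℝ} {E : Fin k → Set (V (q + 3))} (H : Apart r E) (h : r ≤ r') :
    Apart r' E :=
  ⟨H.1, fun i j => (H.2.1 i j).trans (by gcongr), fun i j hij => (H.2.2 i j hij).trans (by gcongr)⟩

theorem near_mono {ε ε' : ℝ} {L : Set (V (q + 3))} {E : Fin k → Set (V (q + 3))} (H : Near ε L E)
    (h : ε ≤ ε') : Near ε' L E :=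
  le_trans H (mul_le_mul_of_nonneg_right h ENNReal.toReal_nonneg)

theorem exists_rep {E : Fin k → Set (V (q + 3))} (h : ∀ i, IsEllipsoid (E i)) {s : ℝ} (hs : 0 < s) :
    ∃ g : Cf q k, Rep s E g := by
  choose g hg using h
  exact ⟨fun i => (g i).trans (hom (q + 3) s⁻¹ (inv_pos.2 hs).ne'), fun i => by
    rw [rh_hom (inv_pos.2 hs), smul_inv_smul₀ hs.ne', bd_rh, hg i]⟩

theorem exists_rep_one {E : Fin k → Set (V (q + 3))} (h : ∀ i, IsEllipsoid (E i)) (i : Fin k) :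
    ∃ (s : ℝ) (g : Cf q k), 0 < s ∧ Rep s E g ∧ jac (g i) = 1 := by
  obtain ⟨g, hg⟩ := exists_rep h one_pos
  have s0 := Real.rpow_pos_of_pos (jac_pos (g i)) ((q + 3 : ℕ) : ℝ)⁻¹
  obtain ⟨g', hg'⟩ := exists_rep h s0
  refine ⟨_, g', s0, hg', ?_⟩
  have := (vol_rep s0 hg' i).symm.trans (vol_rep one_pos hg i)
  rw [Real.rpow_inv_natCast_pow (jac_pos _).le (Nat.succ_ne_zero _), one_pow, mul_one] at this
  exact (mul_eq_left₀ (mul_pos (om_pos _) (jac_pos _)).ne').1 this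

theorem Rep.ell {s : ℝ} (hs : 0 < s) {E : Fin k → Set (V (q + 3))} {g : Cf q k} (H : Rep s E g)
    (i : Fin k) : IsEllipsoid (E i) := ⟨_, by rw [H i, ← rh_hom hs, bd_rh]⟩

theorem ad_of_apart (q k : ℕ) {a : ℝ} (ha : 0 < a) : ∃ r : ℝ, 0 < r ∧
    ∀ (E : Fin k → Set (V (q + 3))) (s : ℝ) (g : Cf q k) (i : Fin k), 0 < s → Apart r E →
      Rep s E g → |jac (g i) - 1| ≤ r → Ad a g := by
  obtain ⟨c, c0, hc⟩ : ∃ c : ℝ, 0 < c ∧ k * (k * c) ≤ a ^ 2 := by
    refine ⟨a ^ 2 / (k * k + 1), by positivity, ?_⟩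
    rw [← mul_assoc, ← mul_div_assoc, div_le_iff₀ (by positivity)]
    nlinarith
  obtain ⟨C, C0, hC⟩ := io_le_ov q (κ := c / 16) (by positivity)
  refine ⟨min 1 (min (a / 3) (c / (8 * C))), by positivity, fun E s g i hs A R h => ?_⟩
  obtain ⟨-, a1, a2⟩ := (apart_iff hs R).1 A
  have r0 : 0 < min 1 (min (a / 3) (c / (8 * C))) := by positivity
  have r1 := min_le_left 1 (min (a / 3) (c / (8 * C)))
  obtain ⟨r2, r3⟩ := le_min_iff.1 (min_le_right 1 (min (a / 3) (c / (8 * C))))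
  generalize min 1 (min (a / 3) (c / (8 * C))) = r at *
  rw [abs_le] at h
  rw [le_div_iff₀ (by positivity)] at r3
  have u : ∀ j, jac (g j) ≤ 1 + 3 * r := fun j => by nlinarith [a1 j i]
  refine ⟨fun j => abs_le.2 ⟨?_, by linarith [u j]⟩, le_trans ((dsum_le (c := fun _ => c)
    (fun _ => c0.le) fun i j hij => ?_).trans (by simp)) hc⟩
  · by_contra hn
    nlinarith [a1 i j, not_le.1 hn, jac_pos (g j)]
  · have b1 := mul_le_mul_of_nonneg_left ((a2 i j hij).trans (mul_le_mul_of_nonneg_left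
      ((u i).trans (show 1 + 3 * r ≤ 4 by linarith)) r0.le)) C0.le
    nlinarith [hC (g i) (g j), u i, u j]

theorem apart_of_ad (q k : ℕ) {r : ℝ} (hr : 0 < r) : ∃ a : ℝ, 0 < a ∧
    ∀ (E : Fin k → Set (V (q + 3))) (s : ℝ) (g : Cf q k), 0 < s → Rep s E g → Ad a g →
      Apart r E := by
  refine ⟨min (1 / 2) (r / 4), by positivity, fun E s g hs R A => ?_⟩
  have a0 : 0 < min (1 / 2) (r / 4) := by positivity
  have a1 := min_le_left (1 / 2) (r / 4)
  have a2 := min_le_right (1 / 2) (r / 4)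
  generalize min (1 / 2) (r / 4) = a at *
  refine (apart_iff hs R).2 ⟨R.ell hs, fun i j => ?_, fun i j hij => ?_⟩
  · nlinarith [abs_le.1 (A.vol i), abs_le.1 (A.vol j)]
  · nlinarith [abs_le.1 (A.vol i), ov_le_io (g i) (g j), io_le g hij, A.sep]

theorem z_of_near (q : ℕ) (hk : 1 ≤ k) {a : ℝ} (ha : 0 < a) : ∃ ε : ℝ, 0 < ε ∧
    ∀ (E : Fin k → Set (V (q + 3))) (s : ℝ) (g : Cf q k) (L : Set (V (q + 3))) (h : IsStarBody L),
      0 < s → Rep s E g → Ad ε g → Near ε L E → z (s⁻¹ • res h - b g) ≤ a := by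
  have k0 : (0 : ℝ) < k := by exact_mod_cast hk
  refine ⟨min 1 (min ((a / (2 * (k * k))) ^ (q + 3)) ((a / 2) ^ (q + 3) / (k * 2))), by positivity,
    fun E s g L h hs R A N => ?_⟩
  have e0 : 0 < min 1 (min ((a / (2 * (k * k))) ^ (q + 3)) ((a / 2) ^ (q + 3) / (k * 2))) := by
    positivity
  have e1 := min_le_left 1 (min ((a / (2 * (k * k))) ^ (q + 3)) ((a / 2) ^ (q + 3) / (k * 2)))
  obtain ⟨e2, e3⟩ := le_min_iff.1 (min_le_right 1 (min ((a / (2 * (k * k))) ^ (q + 3))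
    ((a / 2) ^ (q + 3) / (k * 2))))
  generalize min 1 (min ((a / (2 * (k * k))) ^ (q + 3)) ((a / 2) ^ (q + 3) / (k * 2))) = ε at *
  obtain ⟨m, H⟩ := exists_Mx hk g
  have n1 := (near_iff hk hs R H h).1 N
  have b1 := H.z_le (c := a / (2 * (k * k))) (by positivity) (A.sep.trans (by nlinarith))
  have b2 : I (m ^ (q + 3)) ≤ k * 2 := H.I_le.trans ((Finset.sum_le_card_nsmul _ _ 2
    fun i _ => by linarith [abs_le.1 (A.vol i)]).trans (by simp))
  have b3 : z (s⁻¹ • res h - m) ≤ a / 2 := by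
    refine z_le_of_pow (by positivity) (le_trans (I_mono fun u => ?_) (n1.trans ?_))
    · exact pow_abs_sub_le (snn (inv_pos.2 hs) (fun u => (res_pos h u).le) u) (H.nn u) (q + 2)
    · rw [le_div_iff₀ (by positivity)] at e3
      nlinarith
  have b4 := z_tri (s⁻¹ • res h) m (b g)
  rw [z_sub_comm m] at b4
  rw [show k * (k * (a / (2 * (k * k)))) = a / 2 by field_simp] at b1
  linarith

theorem near_of_z (q : ℕ) (hk : 1 ≤ k) {ε : ℝ} (hε : 0 < ε) : ∃ a : ℝ, 0 < a ∧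
    ∀ (E : Fin k → Set (V (q + 3))) (s : ℝ) (g : Cf q k) (L : Set (V (q + 3))) (h : IsStarBody L),
      0 < s → Rep s E g → Ad a g → z (s⁻¹ • res h - b g) ≤ a → Near ε L E := by
  obtain ⟨C, C0, hC⟩ := dv_le q (half_pos hε)
  obtain ⟨w, w0, w1, w2⟩ : ∃ w : ℝ, 0 < w ∧ w ≤ 1 ∧ w * (4 * C) ≤ ε :=
    ⟨min 1 (ε / (4 * C)), by positivity, min_le_left _ _,
      (le_div_iff₀ (by positivity)).1 (min_le_right _ _)⟩
  obtain ⟨c, c0, hc⟩ : ∃ c : ℝ, 0 < c ∧ c + k * (k * c) = w :=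
    ⟨w / (1 + k * k), by positivity, by field_simp⟩
  refine ⟨min (1 / 2) (min c (c ^ (q + 3))), by positivity, fun E s g L h hs R A Z => ?_⟩
  have a0 : 0 < min (1 / 2) (min c (c ^ (q + 3))) := by positivity
  have a1 := min_le_left (1 / 2) (min c (c ^ (q + 3)))
  obtain ⟨a2, a3⟩ := le_min_iff.1 (min_le_right (1 / 2) (min c (c ^ (q + 3))))
  generalize min (1 / 2) (min c (c ^ (q + 3))) = a at *
  obtain ⟨m, H⟩ := exists_Mx hk g
  refine (near_iff hk hs R H h).2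
    ((hC _ _ (snn (inv_pos.2 hs) fun u => (res_pos h u).le) H.nn).trans ?_)
  have b1 := H.z_le c0.le (A.sep.trans (by nlinarith))
  have b2 : z (s⁻¹ • res h - m) ≤ w := by linarith [z_tri (s⁻¹ • res h) (b g) m]
  have b3 := ((pow_le_pow_left₀ (z_nonneg _) b2 (q + 3)).trans
    (pow_le_of_le_one w0.le w1 (Nat.succ_ne_zero _)))
  have b4 := H.le_I ⟨0, hk⟩
  have b5 := abs_le.1 (A.vol ⟨0, hk⟩)
  nlinarith [mul_le_mul_of_nonneg_left b3 C0.le]

theorem centred_iff {E : Fin k → Set (V (q + 3))} {s : ℝ} {g : Cf q k} {L : Set (V (q + 3))}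
    (h : IsStarBody L) (hs : 0 < s) (H : Rep s E g) :
    Centred L E ↔ Mo g (s⁻¹ • res h - b g) 0 := by
  have r : ∀ j (u : Sp q), radial (E j) u = s * rh (g j) u := fun j u => by
    rw [H j, radial_bd fun u => mul_pos hs (rh_pos _ u)]; rfl
  have e : Centred L E ↔ ∀ i a, I ((s⁻¹ • res h - b g) * rh (g i) ^ (q + 4) * lf a ^ 2) = 0 := by
    refine forall₂_congr fun i a => ?_
    rw [int_ball (s ^ (q + 5) • ((s⁻¹ • res h - b g) * rh (g i) ^ (q + 4) * lf a ^ 2))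
      (F := fun x => (radial L x - ∑ j, radial (E j) x) * radial (E i) x ^ (q + 3 + 1) *
        ⟪a, x⟫ ^ 2) fun u => ?_, map_smul, smul_eq_mul, mul_eq_zero, mul_eq_zero,
      or_iff_right (om_pos _).ne', or_iff_right (pow_pos hs _).ne']
    simp only [r, b, ← Finset.mul_sum, ContinuousMap.smul_apply, ContinuousMap.mul_apply,
      ContinuousMap.sub_apply, ContinuousMap.pow_apply, ContinuousMap.coe_sum, Finset.sum_apply,
      smul_eq_mul, res, lf, ContinuousMap.coe_mk]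
    field_simp
    ring
  rw [e]
  simp only [Mo, zero_mul, abs_nonpos_iff]
  refine forall_congr' fun i => ⟨fun h0 p hp => ?_, fun h0 a => ?_⟩
  · obtain ⟨p', hp', e'⟩ := Q_act' (g i) hp
    rw [mom _ _ e']
    refine mul_eq_zero_of_right _ ?_
    clear e'
    induction hp' using Submodule.span_induction with
    | mem x hx => obtain ⟨a, rfl⟩ := hx; exact h0 a
    | zero => simp
    | add x y _ _ hx hy => rw [mul_add, map_add, hx, hy, add_zero]
    | smul c x _ hx => rw [mul_smul_comm, map_smul, hx, smul_zero]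
  · obtain ⟨p, hp, e'⟩ := Q_act (g i) (p := lf a ^ 2) (Submodule.subset_span ⟨a, rfl⟩)
    have := h0 p hp
    rwa [mom _ _ e', mul_eq_zero, or_iff_right (inv_pos.2 (jac_pos _)).ne'] at this

theorem vol_of_near (q : ℕ) (hk : 1 ≤ k) {a : ℝ} (ha : 0 < a) : ∃ ε : ℝ, 0 < ε ∧
    ∀ (E F : Fin k → Set (V (q + 3))) (s : ℝ) (g h : Cf q k) (L : Set (V (q + 3))) (i j : Fin k),
      0 < s → IsStarBody L → Apart ε E → Apart ε F → Near ε L E → Near ε L F → Rep s E g →
      Rep s F h → jac (g i) = 1 → |jac (h j) - 1| ≤ a := by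
  have k0 : (0 : ℝ) < k := by exact_mod_cast hk
  obtain ⟨θ, t0, t1, t2⟩ : ∃ θ : ℝ, 0 < θ ∧ θ ≤ 1 / 2 ∧ θ ≤ a / 4 :=
    ⟨min (1 / 2) (a / 4), by positivity, min_le_left _ _, min_le_right _ _⟩
  refine ⟨θ / (k + 2), by positivity, fun E F s g h L i j hs hL AE AF NE NF RE RF e => ?_⟩
  have e1 : (k + 2) * (θ / (k + 2)) = θ := by field_simp
  obtain ⟨a1, a2⟩ := window hk hs RE hL (by positivity) (by linarith) AE NE i
  obtain ⟨b1, b2⟩ := window hk hs RF hL (by positivity) (by linarith) AF NF j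
  rw [e1] at a1 a2 b1 b2
  rw [e] at a1 a2
  have c1 := b1.trans a2
  have c2 := a1.trans b2
  rw [mul_assoc, mul_assoc, mul_le_mul_iff_right₀ k0] at c1 c2
  refine abs_le.2 ⟨?_, ?_⟩
  · by_contra hn
    nlinarith [not_le.1 hn, jac_pos (h j)]
  · by_contra hn
    nlinarith [not_le.1 hn]

theorem cm_of_subset {E F : Fin k → Set (V (q + 3))} {s ω : ℝ} {g h : Cf q k} (hs : 0 < s)
    (hω : 0 ≤ ω) (HE : Rep s E g) (HF : Rep s F h)
    (H : ∀ i, E i ⊆ (1 + ω) • F i ∧ F i ⊆ (1 + ω) • E i) : Cm ω g h := by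
  have key : ∀ g h : G q, bd (s • rh g) ⊆ (1 + ω) • bd (s • rh h) → rh g ≤ Real.exp ω • rh h :=
    fun g h H u => by
      have := le_of_subset (fun u => mul_pos hs (rh_pos g u)) (by linarith) H u
      simp only [ContinuousMap.smul_apply, smul_eq_mul] at this ⊢
      rw [mul_left_comm, mul_le_mul_iff_right₀ hs] at this
      exact this.trans (mul_le_mul_of_nonneg_right (by linarith [Real.add_one_le_exp ω])
        (rh_pos h u).le)
  exact fun i => (cmp_iff _ _).2 ⟨key _ _ (HE i ▸ HF i ▸ (H i).2), key _ _ (HE i ▸ HF i ▸ (H i).1)⟩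

theorem vol_of_z (q : ℕ) {τ : ℝ} (hτ : 0 < τ) : ∃ a : ℝ, 0 < a ∧ ∀ (f f' : X q) (s : ℝ), 0 < s →
    0 ≤ f → 0 ≤ f' → 1 / 2 ≤ z f → z (f - f') ≤ a →
      (volume (bd (s • f) ∆ bd (s • f'))).toReal ≤ τ * (volume (bd (s • f))).toReal := by
  obtain ⟨C, C0, hC⟩ := dv_le q (half_pos hτ)
  refine ⟨min 1 (τ / 2 * (1 / 2) ^ (q + 3) / C), by positivity, fun f f' s hs h h' h1 h2 => ?_⟩
  rw [vol_sd hs h h', vol_bd hs h, mul_left_comm τ, abs_sub_comm]
  refine mul_le_mul_of_nonneg_left ((hC _ _ h' h).trans ?_) (mul_pos (om_pos _) (pow_pos hs _)).le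
  obtain ⟨a1, a2⟩ := le_min_iff.1 h2
  have b1 : z (f - f') ^ (q + 3) ≤ _ := pow_le_of_le_one (z_nonneg _) a1 (Nat.succ_ne_zero _)
  have b2 := pow_le_pow_left₀ (by norm_num) h1 (q + 3)
  rw [z_pow' h] at b2
  rw [le_div_iff₀ C0] at a2
  rw [z_sub_comm]
  nlinarith [mul_le_mul_of_nonneg_left b1 C0.le, mul_le_mul_of_nonneg_left b2 hτ.le]

theorem z_b_ge (hk : 1 ≤ k) {g : Cf q k} (h : ∀ i, |jac (g i) - 1| ≤ 1 / 4) : 3 / 4 ≤ z (b g) := by
  refine le_trans ?_ (z_mono (φ := rh (g ⟨0, hk⟩))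
    (by rw [abs_of_nonneg (rh_nonneg _)]; exact rh_le_b g _))
  refine le_of_pow_le_pow_left₀ (Nat.succ_ne_zero (q + 2)) (z_nonneg _) ?_
  rw [z_rh]
  exact (pow_le_of_le_one (by norm_num) (by norm_num) (Nat.succ_ne_zero _)).trans
    (by linarith [abs_le.1 (h ⟨0, hk⟩)])

end Pool.Agent.Lib.MP_242fd5_gt.Cu
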