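import Pool.Agent.Lib.MP_242fd5_gt.Cu.Br

set_option autoImplicit false

open MeasureTheory Set Metric Filter Topology
open scoped RealInnerProductSpace symmDiff Pointwise

namespace Pool.Agent.Lib.MP_242fd5_gt.Cu

open Ty

variable {q k : ℕ}

namespace BrT

/-- a sequence that is contracted up to a vanishing error tends to zero -/
lemma tendsto_of_contr {x e : ℕ → ℝ} (he : Tendsto e atTop (𝓝 0))
    (h : ∀ m, 2 * |x (m + 1)| ≤ |x m| + |e m|) : Tendsto x atTop (𝓝 0) := by
  refine Metric.tendsto_atTop.2 fun ε hε => ?_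
  obtain ⟨M, hM⟩ := Metric.tendsto_atTop.1 he (ε / 2) (half_pos hε)
  have key : ∀ j, |x (M + j)| ≤ ε / 2 + |x M| * (1 / 2) ^ j := fun j => by
    induction j with
    | zero => simp; positivity
    | succ j ih =>
      have h1 := h (M + j)
      have h2 := hM (M + j) (Nat.le_add_right _ _)
      rw [Real.dist_0_eq_abs] at h2
      rw [← add_assoc, pow_succ]
      linarith
  have lim : Tendsto (fun j : ℕ => |x M| * (1 / 2 : ℝ) ^ j) atTop (𝓝 0) := by
    simpa using (tendsto_pow_atTop_nhds_zero_of_lt_one (r := (1 / 2 : ℝ)) (by norm_num)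
      (by norm_num)).const_mul |x M|
  obtain ⟨J, hJ⟩ := eventually_atTop.1 (lim.eventually (gt_mem_nhds (half_pos hε)))
  refine ⟨M + J, fun m hm => ?_⟩
  obtain ⟨j, rfl⟩ : ∃ j, m = M + j := ⟨m - M, by omega⟩
  rw [Real.dist_0_eq_abs]
  linarith [key j, hJ j (by omega)]

lemma tendsto_one {j : ℕ → ℝ} (h0 : ∀ m, 0 < j m) (p : ℕ)
    (h : Tendsto (fun m => j m / j (m + 1) ^ (p + 2)) atTop (𝓝 1)) : Tendsto j atTop (𝓝 1) := by
  have h1 : Tendsto (fun m => Real.log (j m / j (m + 1) ^ (p + 2))) atTop (𝓝 0) := by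
    simpa using h.log one_ne_zero
  have h2 : Tendsto (fun m => Real.log (j m)) atTop (𝓝 0) := by
    refine tendsto_of_contr h1 fun m => ?_
    rw [Real.log_div (h0 m).ne' (pow_pos (h0 _) _).ne', Real.log_pow]
    have e : |((p + 2 : ℕ) : ℝ) * Real.log (j (m + 1))| = (p + 2) * |Real.log (j (m + 1))| := by
      rw [abs_mul, abs_of_nonneg (Nat.cast_nonneg _)]
      push_cast
      rfl
    have a := abs_sub (Real.log (j m)) (Real.log (j m) - ((p + 2 : ℕ) : ℝ) * Real.log (j (m + 1)))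
    rw [sub_sub_cancel, e] at a
    nlinarith [abs_nonneg (Real.log (j (m + 1))), (Nat.cast_nonneg p : (0 : ℝ) ≤ p)]
  have h3 := (Real.continuous_exp.tendsto 0).comp h2
  rw [Real.exp_zero] at h3
  exact h3.congr fun m => Real.exp_log (h0 m)

/-- the backward scales -/
lemma exists_scale {w s : ℝ} (hw : 0 < w) (hs : 0 < s) (p : ℕ) : ∃ c : ℕ → ℝ, c 0 = s ∧
    (∀ m, 0 < c m) ∧ ∀ m, c (m + 1) ^ (p + 1) = w * c m := by
  let c : ℕ → ℝ := fun m => Nat.rec s (fun _ y => (w * y) ^ (((p + 1 : ℕ) : ℝ)⁻¹)) m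
  have c0 : ∀ m, 0 < c m := fun m => by
    induction m with
    | zero => exact hs
    | succ m ih => exact Real.rpow_pos_of_pos (mul_pos hw ih) _
  exact ⟨c, rfl, c0, fun m => Real.rpow_inv_natCast_pow (mul_pos hw (c0 m)).le (Nat.succ_ne_zero p)⟩

lemma res_congr {K L : Set (V (q + 3))} (hK : IsStarBody K) (hL : IsStarBody L) (e : K = L) :
    res hK = res hL := by subst e; rfl

lemma res_nonneg {L : Set (V (q + 3))} (h : IsStarBody L) : 0 ≤ res h := fun u => (res_pos h u).le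

lemma N_res {L : Set (V (q + 3))} {M : ℕ → Set (V (q + 3))} (hM : IsBackwardOrbit L M) (m : ℕ) :
    om (q + 2) • N (res (hM.2 (m + 1)).1) = res (hM.2 m).1 := by
  ext u
  have := congrFun (orbit_rad hM m) u
  rw [← up_res (hM.2 (m + 1)).1, ← up_res (hM.2 m).1, T_up] at this
  simp only [up_coe] at this
  exact this

lemma vol_bd {φ : X q} (h : 0 ≤ φ) : volume.real (bd φ) = om (q + 3) * I (φ ^ (q + 3)) := by
  rw [bd, (adm_up h).real_star, Nn_up]

/-- the type is read off from the limit of the ratios -/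
lemma splits_of_lim {L : Set (V (q + 3))} {M : ℕ → Set (V (q + 3))} (hM : IsBackwardOrbit L M)
    {j : ℕ} (j1 : 1 ≤ j) (h : Tendsto (fun m => busemannRatio (M m)) atTop
      (𝓝 (busemannRatio (closedBall (0 : V (q + 3)) 1) / (j : ℝ) ^ (q + 3 - 2)))) :
    SplitsInto M j := by
  rcases orbit_split hM with ⟨i, i1, h5⟩ | h5
  · have h6 := tendsto_nhds_unique h h5.1
    rw [ratio_ball, ratio_ball] at h6
    rw [le_antisymm ((lev_le_iff q i1 j1).1 h6.ge) ((lev_le_iff q j1 i1).1 h6.le)]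
    exact h5
  · exact absurd ((ratio_ball q j).symm.trans (tendsto_nhds_unique h h5)) (lev_pos q j1).ne'

lemma splits_of_type {L : Set (V (q + 3))} (H : HasType L k) :
    ∃ M, IsBackwardOrbit L M ∧ SplitsInto M k := by
  obtain ⟨M, hM, ⟨j, -, e, h⟩ | ⟨e, -⟩⟩ := H
  · obtain rfl : k = j := by exact_mod_cast e
    exact ⟨M, hM, h⟩
  · exact absurd e (by simp)

lemma type_shift (hk : 1 ≤ k) {L : Set (V (q + 3))} {M : ℕ → Set (V (q + 3))}
    (hM : IsBackwardOrbit L M) (hS : SplitsInto M k) (m : ℕ) : HasType (M m) k := by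
  obtain ⟨a, E, b, c⟩ := hS
  exact ⟨fun j => M (j + m), ⟨by simp, fun j =>
    ⟨(hM.2 _).1, by beta_reduce; rw [Nat.add_right_comm]; exact (hM.2 _).2⟩⟩,
    Or.inl ⟨k, hk, rfl, (tendsto_add_atTop_iff_nat m).2 a, fun i => E (i + m), fun i => b _,
      (tendsto_add_atTop_iff_nat m).2 c⟩⟩

lemma ell_compact {E : Set (V (q + 3))} (h : IsEllipsoid E) : IsCompact E := by
  obtain ⟨g, rfl⟩ := h
  exact (isCompact_closedBall _ _).image g.continuous

/-- equal volumes and a small symmetric difference give `Apart` and `Near` -/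
lemma apart_near {K : Set (V (q + 3))} (hK : IsCompact K) {E : Fin k → Set (V (q + 3))}
    (hE : ∀ i, IsEllipsoid (E i)) (hv : ∀ i, k * volume.real (E i) = volume.real K) {δ r : ℝ}
    (h0 : 0 ≤ δ) (h1 : δ ≤ 1 / 2) (h2 : 2 * δ ≤ r) (h3 : k * δ ≤ r)
    (h : volume.real (K ∆ ⋃ i, E i) ≤ δ * volume.real K) : Apart r E ∧ Near r K E := by
  have cE := fun i => ell_compact (hE i)
  have cU : IsCompact (⋃ i, E i) := isCompact_iUnion cE
  have fin : volume (K ∆ ⋃ i, E i) ≠ ⊤ := measure_ne_top_of_subset symmDiff_subset_union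
    (hK.union cU).measure_lt_top.ne
  have r0 : 0 ≤ r := by linarith
  have a1 : volume.real K ≤ volume.real (⋃ i, E i) + volume.real (K ∆ ⋃ i, E i) :=
    (measureReal_mono (fun x hx => by
      by_cases hU : x ∈ ⋃ i, E i
      · exact Or.inl hU
      · exact Or.inr (Or.inl ⟨hx, hU⟩))
      (measure_union_lt_top cU.measure_lt_top fin.lt_top).ne).trans (measureReal_union_le _ _)
  have eq : ∀ i j, volume.real (E i) = volume.real (E j) := fun i j =>
    mul_left_cancel₀ (Nat.cast_pos.2 i.pos).ne' ((hv i).trans (hv j).symm)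
  have k0 : 0 ≤ volume.real K := measureReal_nonneg
  refine ⟨⟨hE, fun i j => ?_, fun i j hij => ?_⟩, ?_⟩
  · change volume.real (E i) ≤ (1 + r) * volume.real (E j)
    rw [eq i j]
    exact le_mul_of_one_le_left measureReal_nonneg (by linarith)
  · change volume.real (E i ∩ E j) ≤ r * volume.real (E i)
    have b1 : volume.real (⋃ l, E l) ≤
        volume.real (E i \ E j) + ∑ l ∈ Finset.univ.erase i, volume.real (E l) := by
      refine (measureReal_mono (s₂ := (E i \ E j) ∪ ⋃ l ∈ Finset.univ.erase i, E l)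
        (fun x hx => ?_) ?_).trans ((measureReal_union_le _ _).trans
          (add_le_add le_rfl (measureReal_biUnion_finset_le _ _)))
      · obtain ⟨l, hl⟩ := mem_iUnion.1 hx
        by_cases hj : x ∈ E j
        · exact Or.inr (mem_biUnion (Finset.mem_erase.2 ⟨hij.symm, Finset.mem_univ j⟩) hj)
        · rcases eq_or_ne l i with rfl | e
          · exact Or.inl ⟨hl, hj⟩
          · exact Or.inr (mem_biUnion (Finset.mem_erase.2 ⟨e, Finset.mem_univ l⟩) hl)
      · exact measure_ne_top_of_subset (union_subset (sdiff_le.trans (subset_iUnion E i))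
          (iUnion₂_subset fun l _ => subset_iUnion E l)) cU.measure_lt_top.ne
    have b2 := measureReal_sdiff_add_inter (μ := volume) (s := E i) (cE j).measurableSet
      (cE i).measure_lt_top.ne
    have b3 := Finset.add_sum_erase Finset.univ (fun l => volume.real (E l)) (Finset.mem_univ i)
    have b4 : ∑ l, volume.real (E l) = volume.real K := by
      rw [Finset.sum_congr rfl fun l _ => eq l i, Finset.sum_const, Finset.card_univ,
        Fintype.card_fin, nsmul_eq_mul, hv]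
    have b5 : δ * volume.real K ≤ r * volume.real (E i) := by
      rw [← hv i, ← mul_assoc, mul_comm δ]
      exact mul_le_mul_of_nonneg_right h3 measureReal_nonneg
    beta_reduce at b3
    linarith
  · change volume.real (K ∆ ⋃ i, E i) ≤ r * volume.real (⋃ i, E i)
    have u0 : 0 ≤ volume.real (⋃ i, E i) := measureReal_nonneg
    have c1 : volume.real K ≤ 2 * volume.real (⋃ i, E i) := by nlinarith
    nlinarith [mul_le_mul_of_nonneg_left c1 h0, mul_le_mul_of_nonneg_right h2 u0]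

/-- the normalised radial functions of an orbit of type `k` -/
lemma core (hk : 1 ≤ k) {L : Set (V (q + 3))} {M : ℕ → Set (V (q + 3))}
    (hM : IsBackwardOrbit L M) (hS : SplitsInto M k) {s : ℝ} (hs : 0 < s) :
    ∃ c : ℕ → ℝ, c 0 = s ∧ (∀ m, 0 < c m) ∧
      (∀ m, N (c (m + 1) • res (hM.2 (m + 1)).1) = c m • res (hM.2 m).1) ∧
      ∀ ε : ℝ, 0 < ε → ∃ M0, ∀ m, M0 ≤ m → ∃ g : Cf q k, Ad ε g ∧
        z (c m • res (hM.2 m).1 - b g) ≤ ε := by
  have o := om_pos (q + 3)
  have k0 : (0 : ℝ) < k := Nat.cast_pos.2 hk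
  obtain ⟨c, c1, c0, hc⟩ := exists_scale (om_pos (q + 2)) hs (q + 1)
  have step : ∀ m, N (c (m + 1) • res (hM.2 (m + 1)).1) = c m • res (hM.2 m).1 := fun m => by
    rw [N_smul, hc, ← N_res hM m, smul_smul, mul_comm]
  refine ⟨c, c1, c0, step, fun ε hε => ?_⟩
  obtain ⟨h1, E, h2, h3⟩ := hS
  choose g hg using fun m => exists_rep (fun i => (h2 m i).1) (inv_pos.2 (c0 m))
  have hv : ∀ m i, k * volume.real (E m i) = volume.real (M m) := fun m i => by
    rw [Measure.real, Measure.real, ← (h2 m i).2, ENNReal.toReal_mul, ENNReal.toReal_natCast]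
  have vE : ∀ m i, volume.real (E m i) = om (q + 3) * ((c m)⁻¹ ^ (q + 3) * jac (g m i)) :=
    fun m i => by
      rw [hg m i, vol_bd (smul_nonneg (inv_pos.2 (c0 m)).le (rh_nonneg _)), smul_pow, map_smul,
        I_rh, smul_eq_mul]
  have hj : ∀ m i, I ((c m • res (hM.2 m).1) ^ (q + 3)) = k * jac (g m i) := fun m i => by
    have a := hv m i
    have p := c0 m
    rw [vE, ← bd_res (hM.2 m).1, vol_bd (res_nonneg _), mul_left_comm] at a
    rw [smul_pow, map_smul, ← mul_left_cancel₀ o.ne' a, smul_eq_mul, inv_pow]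
    field_simp
  have hP : Tendsto (fun m => Ph (c m • res (hM.2 m).1)) atTop (𝓝 (lv q k)) := by
    have p := PhiB_pos (q + 2)
    rw [ratio_ball, lev_lv] at h1
    have a := h1.const_mul (PhiB (q + 2))⁻¹
    rw [inv_mul_cancel_left₀ p.ne'] at a
    refine a.congr fun m => ?_
    rw [ratio_rad (hM.2 m).1, ← up_res (hM.2 m).1, Phi_up, inv_mul_cancel_left₀ p.ne',
      Ph_smul (c0 m)]
  have hJ : Tendsto (fun m => jac (g m ⟨0, hk⟩)) atTop (𝓝 1) := by
    refine tendsto_one (fun m => jac_pos _) q ?_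
    have a := ((tendsto_add_atTop_iff_nat 1).2 hP).const_mul ((k : ℝ) ^ (q + 1))
    rw [lv, mul_inv_cancel₀ (by positivity)] at a
    refine a.congr fun m => ?_
    have p := jac_pos (g (m + 1) ⟨0, hk⟩)
    rw [Ph, step, hj m ⟨0, hk⟩, hj (m + 1) ⟨0, hk⟩, mul_pow]
    field_simp
    ring
  obtain ⟨e, e0, he⟩ := z_of_near q hk hε
  obtain ⟨r, r0, hr⟩ := ad_of_apart q k (lt_min hε e0)
  have t0 : 0 < min r e := lt_min r0 e0
  have d0 : 0 < min (1 / 2) (min (min r e / 2) (min r e / k)) := by positivity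
  obtain ⟨M1, hM1⟩ := Metric.tendsto_atTop.1 hJ r r0
  obtain ⟨M2, hM2⟩ := eventually_atTop.1 (h3.eventually (gt_mem_nhds d0))
  refine ⟨max M1 M2, fun m hm => ?_⟩
  have v0 : 0 < volume.real (M m) := by
    have := c0 m
    have := jac_pos (g m ⟨0, hk⟩)
    rw [← hv m ⟨0, hk⟩, vE]
    positivity
  have d1 : min (1 / 2) (min (min r e / 2) (min r e / k)) ≤ min r e / 2 :=
    (min_le_right _ _).trans (min_le_left _ _)
  obtain ⟨a1, a2⟩ := apart_near (r := min r e) (hM.2 m).1.1 (fun i => (h2 m i).1) (hv m) d0.le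
    (min_le_left _ _) (by linarith)
    (by rw [mul_comm, ← le_div_iff₀ k0]; exact (min_le_right _ _).trans (min_le_right _ _))
    ((div_le_iff₀ v0).1 (hM2 m (le_of_max_le_right hm)).le)
  have a3 := hr (E m) _ (g m) ⟨0, hk⟩ (inv_pos.2 (c0 m)) (apart_mono a1 (min_le_left _ _)) (hg m)
    (hM1 m (le_of_max_le_left hm)).le
  have a4 := he (E m) _ (g m) (M m) (hM.2 m).1 (inv_pos.2 (c0 m)) (hg m)
    (a3.mono (lt_min hε e0).le (min_le_right _ _)) (near_mono a2 (min_le_right _ _))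
  rw [inv_inv] at a4
  exact ⟨g m, a3.mono (lt_min hε e0).le (min_le_left _ _), a4⟩

end BrT

open BrT

/-- bridge for the types -/
theorem tyF_of_type (hk : 1 ≤ k) {L : Set (V (q + 3))} (h : IsStarBody L) (H : HasType L k) {s : ℝ}
    (hs : 0 < s) : TyF k (s • res h) := by
  obtain ⟨M, hM, hS⟩ := splits_of_type H
  obtain ⟨c, c1, c0, step, hc⟩ := core hk hM hS hs
  exact ⟨fun m => c m • res (hM.2 m).1, congrArg₂ (· • ·) c1 (res_congr (hM.2 0).1 h hM.1),
    fun _ => ⟨fun j _ => smul_nonneg (c0 j).le (res_nonneg _), fun j _ => step j⟩, hc⟩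

theorem type_of_orbit (q : ℕ) (hk : 2 ≤ k) : ∃ a : ℝ, 0 < a ∧ ∀ F : ℕ → X q, (∀ M, Orb M F) →
    (∀ m u, 0 < F m u) → (∀ m, lv q k ≤ Ph (F m) ∧ Ph (F m) ≤ lv q k * (1 + a)) →
    ∀ s : ℝ, 0 < s → HasType (bd (s • F 0)) k := by
  have l0 := lev_pos q (show 1 ≤ k by omega)
  have l1 : lev (q + 2) k < lev (q + 2) (k - 1) :=
    not_le.1 ((lev_le_iff q (j := k - 1) (k := k) (by omega) (by omega)).not.2 (by omega))
  have p := PhiB_pos (q + 2)
  have o := om_pos (q + 2)
  refine ⟨(lev (q + 2) (k - 1) - lev (q + 2) k) / 2 / lev (q + 2) k,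
    div_pos (by linarith) l0, fun F hF F0 hP s hs => ?_⟩
  obtain ⟨c, c1, c0, hc⟩ := exists_scale (inv_pos.2 o) hs (q + 1)
  rw [← c1]
  refine type_of_window (f := fun m => up (c m • F m)) hk
    (c := (lev (q + 2) k + lev (q + 2) (k - 1)) / 2) (by linarith)
    (fun m => sb_up fun u => mul_pos (c0 m) (F0 m u)) (fun m => ?_) (fun m => ?_) fun m => ?_
  · rw [T_up, N_smul, hc, (hF (m + 1)).step m (Nat.lt_succ_self m), up_smul, up_smul]
    funext x
    field_simp
  · rw [Phi_up, Ph_smul (c0 m), lev_lv]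
    exact mul_le_mul_of_nonneg_left (hP m).1 p.le
  · rw [Phi_up, Ph_smul (c0 m)]
    refine (mul_le_mul_of_nonneg_left (hP m).2 p.le).trans_eq ?_
    rw [← mul_assoc, ← lev_lv]
    field_simp
    ring

theorem type_inter {L : Set (V (q + 3))} {j : ℕ∞} (H : HasType L j) : HasType (interBody L) j := by
  obtain ⟨M, hM, h⟩ := H
  have h0 : IsStarBody L := hM.1 ▸ (hM.2 0).1
  have hM' : IsBackwardOrbit (interBody L) fun m => Nat.rec (interBody L) (fun m _ => M m) m :=
    ⟨rfl, fun m => by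
      cases m with
      | zero => exact ⟨star_inter h0, congrArg interBody hM.1⟩
      | succ m => exact hM.2 m⟩
  refine ⟨_, hM', ?_⟩
  rcases h with ⟨i, i1, e, h⟩ | ⟨e, h⟩
  · exact Or.inl ⟨i, i1, e, splits_of_lim hM' i1 ((tendsto_add_atTop_iff_nat 1).1 h.1)⟩
  · exact Or.inr ⟨e, (tendsto_add_atTop_iff_nat 1).1 h⟩

/-- far back the bodies of an orbit of type `k` have type `k` and are close to bubbles -/
theorem type_back (hk : 1 ≤ k) {L : Set (V (q + 3))} (H : HasType L k) {a : ℝ} (ha : 0 < a) :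
    ∃ (m : ℕ) (K : Set (V (q + 3))) (hK : IsStarBody K) (s : ℝ) (g : Cf q k), 0 < s ∧
      HasType K k ∧ L = interBody^[m] K ∧ Ad a g ∧ z (s⁻¹ • res hK - b g) ≤ a := by
  obtain ⟨M, hM, hS⟩ := splits_of_type H
  obtain ⟨c, -, c0, -, hc⟩ := core hk hM hS one_pos
  obtain ⟨m, hm⟩ := hc a ha
  obtain ⟨g, h1, h2⟩ := hm m le_rfl
  exact ⟨m, M m, (hM.2 m).1, (c m)⁻¹, g, inv_pos.2 (c0 m), type_shift hk hM hS m,
    (orbit_iter hM m).symm, h1, by rwa [inv_inv]⟩

end Pool.Agent.Lib.MP_242fd5_gt.Cu
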