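import Pool.Agent.Lib.MP_242fd5_gt.Cu.M2

set_option autoImplicit false

open MeasureTheory Set Metric Filter Topology
open scoped RealInnerProductSpace

namespace Pool.Agent.Lib.MP_242fd5_gt.Cu

open Ty

variable {q k : ℕ}

namespace M5a

/-- tangent line of a power -/
theorem conv (m : ℕ) {x y : ℝ} (hx : 0 ≤ x) (hy : 0 ≤ y) :
    y ^ (m + 1) + (m + 1) * y ^ m * (x - y) ≤ x ^ (m + 1) := by
  induction m with
  | zero => simp
  | succ m ih =>
    have h1 := mul_le_mul_of_nonneg_left ih hx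
    have h2 : 0 ≤ ((m : ℝ) + 1) * y ^ m * (x - y) ^ 2 := by positivity
    push_cast
    calc y ^ (m + 1 + 1) + ((m : ℝ) + 1 + 1) * y ^ (m + 1) * (x - y)
        = x * (y ^ (m + 1) + (m + 1) * y ^ m * (x - y)) - (m + 1) * y ^ m * (x - y) ^ 2 := by ring
      _ ≤ x * x ^ (m + 1) := by linarith
      _ = x ^ (m + 1 + 1) := by ring

/-- second order form -/
theorem conv2 (m : ℕ) {x y : ℝ} (hx : 0 ≤ x) (hy : 0 ≤ y) :
    y ^ (m + 2) + (m + 2) * y ^ (m + 1) * (x - y) + y ^ m * (x - y) ^ 2 ≤ x ^ (m + 2) := by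
  induction m with
  | zero => apply le_of_eq; push_cast; ring
  | succ m ih =>
    have h1 := mul_le_mul_of_nonneg_left ih hx
    have h2 : 0 ≤ y ^ m * (x - y) ^ 2 * (((m : ℝ) + 1) * y + x) := by positivity
    push_cast
    calc y ^ (m + 1 + 2) + ((m : ℝ) + 1 + 2) * y ^ (m + 1 + 1) * (x - y) + y ^ (m + 1) * (x - y) ^ 2
        = x * (y ^ (m + 2) + (m + 2) * y ^ (m + 1) * (x - y) + y ^ m * (x - y) ^ 2) -
          y ^ m * (x - y) ^ 2 * (((m : ℝ) + 1) * y + x) := by ring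
      _ ≤ x * x ^ (m + 2) := by linarith
      _ = x ^ (m + 1 + 2) := by ring

theorem two_var (m : ℕ) {x y : ℝ} (hx : 0 ≤ x) (hy : 0 ≤ y) :
    x ^ (m + 3) + y ^ (m + 3) + (m + 3) * (x ^ (m + 2) * y + y ^ (m + 2) * x) ≤
      (x + y) ^ (m + 3) := by
  induction m with
  | zero => apply le_of_eq; push_cast; ring
  | succ m ih =>
    have h1 := mul_le_mul_of_nonneg_left ih (add_nonneg hx hy)
    have h2 : 0 ≤ ((m : ℝ) + 3) * (x ^ (m + 2) * y ^ 2 + y ^ (m + 2) * x ^ 2) := by positivity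
    push_cast
    calc x ^ (m + 1 + 3) + y ^ (m + 1 + 3) +
          ((m : ℝ) + 1 + 3) * (x ^ (m + 1 + 2) * y + y ^ (m + 1 + 2) * x)
        = (x + y) * (x ^ (m + 3) + y ^ (m + 3) + (m + 3) * (x ^ (m + 2) * y + y ^ (m + 2) * x)) -
          ((m : ℝ) + 3) * (x ^ (m + 2) * y ^ 2 + y ^ (m + 2) * x ^ 2) := by ring
      _ ≤ (x + y) * (x + y) ^ (m + 3) := by linarith
      _ = (x + y) ^ (m + 1 + 3) := by ring

theorem P1s {ι : Type} [DecidableEq ι] (m : ℕ) {x : ι → ℝ} (hx : ∀ i, 0 ≤ x i) (s : Finset ι) :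
    ∑ i ∈ s, x i ^ (m + 3) + (m + 3) * ∑ i ∈ s, x i ^ (m + 2) * (∑ j ∈ s, x j - x i) ≤
      (∑ i ∈ s, x i) ^ (m + 3) := by
  induction s using Finset.induction_on with
  | empty => simp
  | insert a s ha ih =>
    have S0 : 0 ≤ ∑ i ∈ s, x i := Finset.sum_nonneg fun i _ => hx i
    have h1 := two_var m (hx a) S0
    have h2 := mul_le_mul_of_nonneg_right (sum_pow_le s hx (m + 1)) (hx a)
    have h3 : ∑ i ∈ s, x i ^ (m + 2) * (x a + ∑ j ∈ s, x j - x i) =
        (∑ i ∈ s, x i ^ (m + 2)) * x a + ∑ i ∈ s, x i ^ (m + 2) * (∑ j ∈ s, x j - x i) := by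
      rw [Finset.sum_mul, ← Finset.sum_add_distrib]
      exact Finset.sum_congr rfl fun i _ => by ring
    have h4 := mul_le_mul_of_nonneg_left h2 (show (0 : ℝ) ≤ m + 3 by positivity)
    simp only [Finset.sum_insert ha]
    rw [h3, add_sub_cancel_left]
    linarith

theorem off (x : Fin k → ℝ) (m : ℕ) (i : Fin k) :
    ∑ j ∈ Finset.univ.erase i, x i ^ m * x j = x i ^ m * (∑ j, x j - x i) := by
  rw [← Finset.mul_sum, ← Finset.add_sum_erase _ _ (Finset.mem_univ i), add_sub_cancel_left]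

theorem P1 (m : ℕ) {x : Fin k → ℝ} (hx : ∀ i, 0 ≤ x i) :
    ∑ i, x i ^ (m + 3) + (m + 3) * ∑ i, ∑ j ∈ Finset.univ.erase i, x i ^ (m + 2) * x j ≤
      (∑ i, x i) ^ (m + 3) := by
  simp only [off]
  exact P1s m hx _

theorem P2 (m : ℕ) {x : Fin k → ℝ} (hx : ∀ i, 0 ≤ x i) :
    (∑ i, x i) ^ (m + 1) ≤ ∑ i, x i ^ (m + 1) +
      (m + 1) * k ^ m * ∑ i, ∑ j ∈ Finset.univ.erase i, x i ^ m * x j := by
  rcases (Finset.univ : Finset (Fin k)).eq_empty_or_nonempty with h | h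
  · simp [h]
  obtain ⟨a, -, ha⟩ := Finset.exists_max_image Finset.univ x h
  have S0 : 0 ≤ ∑ i, x i := Finset.sum_nonneg fun i _ => hx i
  have S1 : ∑ i, x i ≤ k * x a := by
    have := Finset.sum_le_card_nsmul Finset.univ x (x a) ha
    rwa [Finset.card_univ, Fintype.card_fin, nsmul_eq_mul] at this
  have S2 : x a ≤ ∑ i, x i := Finset.single_le_sum (fun j _ => hx j) (Finset.mem_univ a)
  have h1 := conv m (hx a) S0
  have h2 : x a ^ (m + 1) ≤ ∑ i, x i ^ (m + 1) :=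
    Finset.single_le_sum (fun j _ => pow_nonneg (hx j) (m + 1)) (Finset.mem_univ a)
  have h3 : x a ^ m * (∑ j, x j - x a) ≤ ∑ i, ∑ j ∈ Finset.univ.erase i, x i ^ m * x j := by
    rw [← off]
    exact Finset.single_le_sum (f := fun i => ∑ j ∈ Finset.univ.erase i, x i ^ m * x j)
      (fun i _ => Finset.sum_nonneg fun j _ => mul_nonneg (pow_nonneg (hx i) m) (hx j))
      (Finset.mem_univ a)
  have h4 : (∑ i, x i) ^ m ≤ k ^ m * x a ^ m := by
    rw [← mul_pow]; exact pow_le_pow_left₀ S0 S1 m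
  have h5 := mul_le_mul_of_nonneg_right h4 (sub_nonneg.2 S2)
  have h6 := mul_le_mul_of_nonneg_left h5 (show (0 : ℝ) ≤ m + 1 by positivity)
  have h7 := mul_le_mul_of_nonneg_left h3 (show (0 : ℝ) ≤ (m + 1) * k ^ m by positivity)
  linarith

theorem b_apply (g : Cf q k) (u : Sp q) : b g u = ∑ i, rh (g i) u := by
  simp [b]

theorem Xc_eq (g : Cf q k) : Xc g = A (b g ^ (q + 2) - ∑ i, rh (g i) ^ (q + 2)) := by
  rw [map_sub, map_sum, Xc, N, b, b]
  congr 1
  exact Finset.sum_congr rfl fun i _ => (N_rh (g i)).symm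

theorem sum_le_b (g : Cf q k) (m : ℕ) : ∑ i, rh (g i) ^ (m + 1) ≤ b g ^ (m + 1) := by
  rw [ContinuousMap.le_def]
  intro u
  simpa [b_apply] using sum_pow_le Finset.univ (fun i => (rh_pos (g i) u).le) m

theorem b_le (g : Cf q k) (m : ℕ) : b g ^ (m + 1) ≤ ∑ i, rh (g i) ^ (m + 1) +
    (((m : ℝ) + 1) * k ^ m) • ∑ i, ∑ j ∈ Finset.univ.erase i, rh (g i) ^ m * rh (g j) := by
  rw [ContinuousMap.le_def]
  intro u
  have := P2 m (fun i => (rh_pos (g i) u).le)
  simp only [ContinuousMap.pow_apply, ContinuousMap.add_apply, ContinuousMap.sum_apply,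
    ContinuousMap.smul_apply, ContinuousMap.mul_apply, smul_eq_mul, b_apply]
  exact this

theorem root_real (m : ℕ) {x y φ : ℝ} (hx : 0 ≤ x) (hy : 0 ≤ y)
    (e : φ ^ (m + 2) = x ^ (m + 1) * y) : φ ^ (m + 3) ≤ x ^ (m + 2) * y + y ^ (m + 2) * x := by
  have e1 : φ ^ (m + 3) = x ^ (m + 1) * y * φ := by rw [← e]; ring
  have n1 : 0 ≤ x ^ (m + 1) * y := by positivity
  have n2 : 0 ≤ x ^ (m + 2) * y := by positivity
  have n3 : 0 ≤ y ^ (m + 2) * x := by positivity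
  rcases le_total y x with h | h
  · have a : φ ≤ x := le_of_pow_le_pow_left₀ (Nat.succ_ne_zero (m + 1)) hx (by
      rw [e, pow_succ x (m + 1)]
      exact mul_le_mul_of_nonneg_left h (by positivity))
    have a2 := mul_le_mul_of_nonneg_left a n1
    have a3 : x ^ (m + 1) * y * x = x ^ (m + 2) * y := by ring
    linarith
  · have a : φ ≤ y := le_of_pow_le_pow_left₀ (Nat.succ_ne_zero (m + 1)) hy (by
      rw [e, pow_succ y (m + 1)]
      exact mul_le_mul_of_nonneg_right (pow_le_pow_left₀ hx h _) hy)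
    have a2 := mul_le_mul_of_nonneg_left a n1
    have a3 : x ^ m * (x * y ^ 2) ≤ y ^ m * (x * y ^ 2) :=
      mul_le_mul_of_nonneg_right (pow_le_pow_left₀ hx h m) (by positivity)
    have a4 : x ^ (m + 1) * y * y = x ^ m * (x * y ^ 2) := by ring
    have a5 : y ^ m * (x * y ^ 2) = y ^ (m + 2) * x := by ring
    linarith

theorem pair {κ θ a : ℝ} (κ0 : 0 ≤ κ) (θ0 : 0 ≤ θ) (θ1 : θ ≤ 1) (θ2 : θ ≤ κ ^ 2) (a0 : 0 ≤ a)
    (g h : G q) (h1 : io g h + io h g ≤ θ ^ (q + 3)) (h2 : io g h + io h g ≤ a ^ 2) :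
    z (A (rh g ^ (q + 1) * rh h)) ≤ κ * a := by
  have n0 : 0 ≤ rh g ^ (q + 1) * rh h := mul_nonneg (pow_nonneg (rh_nonneg g) _) (rh_nonneg h)
  obtain ⟨φ, φ0, e⟩ := exists_root n0 (q + 1)
  have b1 := busA (F := rh g ^ (q + 1) * rh h) φ0 (by rw [abs_of_nonneg n0]; exact e.ge)
  have b2 : z φ ^ (q + 3) ≤ io g h + io h g := by
    rw [z_pow' φ0, io, io, ← map_add]
    refine I_mono ?_
    rw [ContinuousMap.le_def]
    intro u
    simpa using root_real q (rh_pos g u).le (rh_pos h u).le (φ := φ u)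
      (by simpa using congrArg (fun f : X q => f u) e)
  have z0 := z_nonneg φ
  have b3 : z φ ≤ θ := z_le_of_pow' θ0 (b2.trans h1)
  have b4 : z φ ^ (q + 1) ≤ κ ^ 2 :=
    (pow_le_of_le_one z0 (b3.trans θ1) (Nat.succ_ne_zero q)).trans (b3.trans θ2)
  refine b1.trans (le_of_sq_le_sq ?_ (mul_nonneg κ0 a0))
  calc (z φ ^ (q + 2)) ^ 2 = z φ ^ (q + 1) * z φ ^ (q + 3) := by ring
    _ ≤ κ ^ 2 * a ^ 2 := mul_le_mul b4 (b2.trans h2) (by positivity) (by positivity)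
    _ = (κ * a) ^ 2 := by ring

theorem I_off (g : Cf q k) :
    I (∑ i, ∑ j ∈ Finset.univ.erase i, rh (g i) ^ (q + 2) * rh (g j)) = la g := by
  simp only [map_sum]; rfl

theorem I_diag (g : Cf q k) : I (∑ i, rh (g i) ^ (q + 3)) = ∑ i, jac (g i) := by
  simp only [map_sum, I_rh]

theorem la_swap (g : Cf q k) : ∑ i, ∑ j ∈ Finset.univ.erase i, io (g j) (g i) = la g := by
  unfold la
  refine Finset.sum_comm' fun i j => ?_
  simp [ne_comm]

theorem near (m : ℕ) {η : ℝ} (hη : 0 < η) :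
    ∃ θ : ℝ, 0 < θ ∧ ∀ y : ℝ, |y - 1| ≤ θ → |y ^ m - 1| ≤ η := by
  have c : ContinuousAt (fun y : ℝ => y ^ m) 1 := (continuous_pow m).continuousAt
  obtain ⟨θ, θ0, h⟩ := Metric.continuousAt_iff.1 c η hη
  refine ⟨θ / 2, by positivity, fun y hy => ?_⟩
  have := h (x := y) (by rw [Real.dist_eq]; linarith)
  rw [Real.dist_eq, one_pow] at this
  exact this.le

end M5a

open M5a

theorem Xc_nonneg (g : Cf q k) : 0 ≤ Xc g := by
  rw [Xc_eq]
  exact A_nonneg (sub_nonneg.2 (sum_le_b g (q + 1)))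

/-- the cross term is small against the square root of the interaction -/
theorem M5 (q k : ℕ) {κ : ℝ} (hκ : 0 < κ) : ∃ δ : ℝ, 0 < δ ∧ ∀ (g : Cf q k) (a : ℝ), 0 ≤ a →
    la g ≤ δ → la g ≤ a ^ 2 → z (Xc g) ≤ κ * a := by
  obtain ⟨C, hC⟩ : ∃ C : ℝ, C = (((q + 1 : ℕ) : ℝ) + 1) * k ^ (q + 1) := ⟨_, rfl⟩
  have C0 : 0 ≤ C := by rw [hC]; positivity
  obtain ⟨κ', κ0, hκ'⟩ : ∃ κ' : ℝ, 0 < κ' ∧ C * (k * (k * κ')) ≤ κ := by
    have p : 0 < C * k * k + 1 := by positivity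
    refine ⟨κ / (C * k * k + 1), by positivity, ?_⟩
    have e : (C * k * k + 1) * (κ / (C * k * k + 1)) = κ := mul_div_cancel₀ _ p.ne'
    have : 0 < κ / (C * k * k + 1) := by positivity
    linarith
  refine ⟨min 1 (κ' ^ 2) ^ (q + 3), by positivity, fun g a a0 h1 h2 => ?_⟩
  have s1 : Xc g ≤ C • ∑ i, ∑ j ∈ Finset.univ.erase i, A (rh (g i) ^ (q + 1) * rh (g j)) := by
    have := A_mono (sub_le_iff_le_add'.2 (b_le g (q + 1)))
    rw [← hC, map_smul] at this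
    simp only [map_sum] at this
    rw [Xc_eq]
    exact this
  have s2 := z_mono' (Xc_nonneg g) s1
  rw [z_smul, abs_of_nonneg C0] at s2
  have s3 : z (∑ i, ∑ j ∈ Finset.univ.erase i, A (rh (g i) ^ (q + 1) * rh (g j))) ≤
      k * (k * (κ' * a)) := by
    refine (z_sum_le _ _).trans ?_
    have : ∀ i ∈ (Finset.univ : Finset (Fin k)),
        z (∑ j ∈ Finset.univ.erase i, A (rh (g i) ^ (q + 1) * rh (g j))) ≤ k * (κ' * a) := by
      intro i _
      refine (z_sum_le _ _).trans ?_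
      have e := Finset.sum_le_card_nsmul (Finset.univ.erase i)
        (fun j => z (A (rh (g i) ^ (q + 1) * rh (g j)))) (κ' * a) fun j hj =>
        pair κ0.le (by positivity) (min_le_left _ _) (min_le_right _ _) a0 (g i) (g j)
          ((io_le_la g (Finset.ne_of_mem_erase hj).symm).trans h1)
          ((io_le_la g (Finset.ne_of_mem_erase hj).symm).trans h2)
      rw [nsmul_eq_mul] at e
      refine e.trans (mul_le_mul_of_nonneg_right ?_ (by positivity))
      have := Finset.card_le_univ (Finset.univ.erase i)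
      rw [Fintype.card_fin] at this
      exact_mod_cast this
    have e := Finset.sum_le_card_nsmul _ _ _ this
    rwa [Finset.card_univ, Fintype.card_fin, nsmul_eq_mul] at e
  have s4 := mul_le_mul_of_nonneg_left s3 C0
  have s5 := mul_le_mul_of_nonneg_right hκ' a0
  linarith

theorem I_b (q k : ℕ) : ∃ C : ℝ, 1 ≤ C ∧ ∀ g : Cf q k,
    ∑ i, jac (g i) + (q + 3) * la g ≤ I (b g ^ (q + 3)) ∧
      I (b g ^ (q + 3)) ≤ ∑ i, jac (g i) + C * la g := by
  have C0 : 0 ≤ (((q + 2 : ℕ) : ℝ) + 1) * k ^ (q + 2) := by positivity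
  refine ⟨(((q + 2 : ℕ) : ℝ) + 1) * k ^ (q + 2) + 1, by linarith, fun g => ⟨?_, ?_⟩⟩
  · rw [← I_off, ← I_diag, ← I_smul, ← map_add]
    refine I_mono ?_
    rw [ContinuousMap.le_def]
    intro u
    have := P1 q (fun i => (rh_pos (g i) u).le)
    simp only [ContinuousMap.pow_apply, ContinuousMap.add_apply, ContinuousMap.sum_apply,
      ContinuousMap.smul_apply, ContinuousMap.mul_apply, smul_eq_mul, b_apply]
    exact this
  · have := I_mono (b_le g (q + 2))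
    rw [map_add, I_smul, I_off, I_diag] at this
    linarith [la_nonneg g]

namespace M5a

/-- the lower bound for the numerator -/
theorem num_lo {μ : ℝ} (g : Cf q k) (hμ : ∀ i, μ ≤ jac (g i) ^ (q + 1)) :
    ∑ i, jac (g i) ^ (q + 2) + (q + 3) * (μ * (I (b g ^ (q + 3)) - ∑ i, jac (g i))) ≤
      I (N (b g) ^ (q + 3)) := by
  obtain ⟨W, hW⟩ : ∃ W, W = b g ^ (q + 2) - ∑ i, rh (g i) ^ (q + 2) := ⟨_, rfl⟩
  have W0 : 0 ≤ W := by rw [hW]; exact sub_nonneg.2 (sum_le_b g (q + 1))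
  have eX : Xc g = A W := by rw [hW, Xc_eq]
  have X0 := Xc_nonneg g
  have s1 : b (JJ g) ^ (q + 3) + ((q : ℝ) + 3) • ((∑ i, rh (JJ g i) ^ (q + 2)) * Xc g) ≤
      N (b g) ^ (q + 3) := by
    rw [ContinuousMap.le_def]
    intro u
    have a1 := conv (q + 2) (ContinuousMap.le_def.1 (N_nonneg (b_nonneg g)) u)
      (ContinuousMap.le_def.1 (b_nonneg (JJ g)) u)
    have a2 := ContinuousMap.le_def.1 (sum_le_b (JJ g) (q + 1)) u
    have a3 : 0 ≤ Xc g u := ContinuousMap.le_def.1 X0 u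
    have a4 : N (b g) u - b (JJ g) u = Xc g u := rfl
    have a5 := mul_le_mul_of_nonneg_left (mul_le_mul_of_nonneg_right a2 a3)
      (show (0 : ℝ) ≤ q + 3 by positivity)
    rw [a4] at a1
    push_cast at a1
    simp only [ContinuousMap.pow_apply, ContinuousMap.add_apply, ContinuousMap.smul_apply,
      ContinuousMap.mul_apply, smul_eq_mul] at a5 ⊢
    linarith
  have s2 := I_mono s1
  rw [map_add, I_smul] at s2
  obtain ⟨C, -, hC⟩ := I_b q k
  have s3 := (hC (JJ g)).1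
  have s4 : ∑ i, jac (JJ g i) = ∑ i, jac (g i) ^ (q + 2) :=
    Finset.sum_congr rfl fun i _ => jac_J (g i)
  have s5 : μ * la g ≤ la (JJ g) := by
    rw [← la_swap g, la, Finset.mul_sum]
    refine Finset.sum_le_sum fun i _ => ?_
    rw [Finset.mul_sum]
    refine Finset.sum_le_sum fun j _ => ?_
    have e : io (JJ g i) (JJ g j) = jac (g i) ^ (q + 1) * io (g j) (g i) := io_J _ _
    rw [e]
    exact mul_le_mul_of_nonneg_right (hμ i) (io_nonneg _ _)
  have s6 : μ * I (b g * W) ≤ I ((∑ i, rh (JJ g i) ^ (q + 2)) * Xc g) := by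
    rw [b, Finset.sum_mul, Finset.sum_mul, map_sum, map_sum, Finset.mul_sum]
    refine Finset.sum_le_sum fun i _ => ?_
    have e : A (rh (JJ g i) ^ (q + 2)) = jac (g i) ^ (q + 1) • rh (g i) :=
      (N_rh (J (g i))).trans (rh_J_J (g i))
    rw [eX, A_symm, e, smul_mul_assoc, I_smul]
    exact mul_le_mul_of_nonneg_right (hμ i) (I_nonneg (mul_nonneg (rh_nonneg _) W0))
  have s7 : I (b g * W) = I (b g ^ (q + 3)) - ∑ i, jac (g i) - la g := by
    have e : b g * W = b g ^ (q + 3) - ∑ i, rh (g i) ^ (q + 3) -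
        ∑ i, ∑ j ∈ Finset.univ.erase i, rh (g i) ^ (q + 2) * rh (g j) := by
      rw [hW, mul_sub, ← pow_succ', sub_sub, ← Finset.sum_add_distrib, Finset.mul_sum]
      congr 1
      refine Finset.sum_congr rfl fun i _ => ?_
      rw [← Finset.mul_sum, b, ← Finset.add_sum_erase _ _ (Finset.mem_univ i)]
      ring
    rw [e, map_sub, map_sub, I_off, I_diag]
  rw [s7] at s6
  rw [s4] at s3
  have n0 : (0 : ℝ) ≤ q + 3 := by positivity
  have s8 := mul_le_mul_of_nonneg_left s5 n0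
  have s9 := mul_le_mul_of_nonneg_left s6 n0
  linarith

theorem var_lo {a : Fin k → ℝ} (a0 : ∀ i, 0 ≤ a i) {m : ℝ} (m0 : 0 ≤ m) (e : ∑ i, a i = k * m) :
    k * m ^ (q + 2) + m ^ q * ∑ i, (a i - m) ^ 2 ≤ ∑ i, a i ^ (q + 2) := by
  have := Finset.sum_le_sum fun i (_ : i ∈ Finset.univ) => conv2 q (a0 i) m0
  rw [Finset.sum_add_distrib, Finset.sum_add_distrib, ← Finset.mul_sum, ← Finset.mul_sum,
    Finset.sum_sub_distrib, e] at this
  simp only [Finset.sum_const, Finset.card_univ, Fintype.card_fin, nsmul_eq_mul] at this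
  linarith

end M5a

/-- energy of pure bubbles -/
theorem pure_lo (q : ℕ) (hk : 1 ≤ k) : ∃ c δ : ℝ, 0 < c ∧ 0 < δ ∧ ∀ g : Cf q k, Ad δ g →
    lv q k * (1 + c * (la g + ∑ i, (jac (g i) - (∑ j, jac (g j)) / k) ^ 2)) ≤ Ph (b g) := by
  have k1 : (1 : ℝ) ≤ k := by exact_mod_cast hk
  have k0 : (0 : ℝ) < k := by linarith
  have q0 : (0 : ℝ) ≤ q := Nat.cast_nonneg q
  obtain ⟨C, C1, hC⟩ := I_b q k
  obtain ⟨η, η0, hη⟩ : ∃ η : ℝ, 0 < η ∧ (q + 3) * η = 1 / 4 :=
    ⟨1 / (4 * (q + 3)), by positivity, by field_simp⟩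
  have η1 : η ≤ 1 / 4 := by nlinarith
  obtain ⟨θ1, t1, n1⟩ := near q η0
  obtain ⟨θ2, t2, n2⟩ := near (q + 1) η0
  obtain ⟨θ3, t3, n3⟩ := near (q + 2) η0
  obtain ⟨δ, δ0, d0, d1, d2, d3⟩ : ∃ δ : ℝ, 0 < δ ∧ (1 + C) * δ ≤ 1 / 2 ∧ (1 + C) * δ ≤ θ1 ∧
      (1 + C) * δ ≤ θ2 ∧ (1 + C) * δ ≤ θ3 := by
    have p : 0 < 1 + C := by linarith
    refine ⟨min (min (1 / 2) θ1) (min θ2 θ3) / (1 + C), by positivity, ?_⟩
    rw [mul_div_cancel₀ _ p.ne']
    exact ⟨(min_le_left _ _).trans (min_le_left _ _), (min_le_left _ _).trans (min_le_right _ _),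
      (min_le_right _ _).trans (min_le_left _ _), (min_le_right _ _).trans (min_le_right _ _)⟩
  have Cδ : 0 ≤ C * δ := by positivity
  refine ⟨1 / (4 * k), δ, by positivity, δ0, fun g hg => ?_⟩
  obtain ⟨m, hm⟩ : ∃ m, m = (∑ j, jac (g j)) / k := ⟨_, rfl⟩
  have em : ∑ j, jac (g j) = k * m := by rw [hm, mul_div_cancel₀ _ k0.ne']
  rw [← hm]
  obtain ⟨v, hv⟩ : ∃ v, v = ∑ i, (jac (g i) - m) ^ 2 := ⟨_, rfl⟩
  have v0 : 0 ≤ v := by rw [hv]; exact Finset.sum_nonneg fun i _ => sq_nonneg _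
  obtain ⟨β, hβ⟩ : ∃ β, I (b g ^ (q + 3)) = k * (m + β) :=
    ⟨I (b g ^ (q + 3)) / k - m, by field_simp; ring⟩
  have l0 := la_nonneg g
  obtain ⟨b1, b2⟩ := hC g
  rw [hβ, em] at b1 b2
  have m1 : |m - 1| ≤ δ := by
    have a1 := Finset.sum_le_card_nsmul Finset.univ (fun i => jac (g i)) (1 + δ) fun i _ => by
      linarith [(abs_le.1 (hg.vol i)).2]
    have a2 := Finset.card_nsmul_le_sum Finset.univ (fun i => jac (g i)) (1 - δ) fun i _ => by
      linarith [(abs_le.1 (hg.vol i)).1]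
    rw [Finset.card_univ, Fintype.card_fin, nsmul_eq_mul, em] at a1 a2
    rw [abs_le]
    constructor
    · linarith [le_of_mul_le_mul_left a2 k0]
    · linarith [le_of_mul_le_mul_left a1 k0]
  have m2 := abs_le.1 m1
  have β1 : 3 * la g ≤ k * β := by nlinarith
  have β0 : 0 ≤ β := nonneg_of_mul_nonneg_right (by linarith) k0
  have β2 : β ≤ C * δ := by
    have a1 : la g ≤ δ := hg.sep.trans (by nlinarith)
    have a2 := mul_le_mul_of_nonneg_left a1 (show 0 ≤ C by linarith)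
    nlinarith
  have y1 : |m + β - 1| ≤ (1 + C) * δ := by rw [abs_le]; constructor <;> linarith [m2.1, m2.2]
  have u1 := (abs_le.1 (n1 m (by linarith))).1
  have u2 := (abs_le.1 (n2 (m + β) (y1.trans d2))).2
  have u3 := (abs_le.1 (n3 (m + β) (y1.trans d3))).2
  have nl := num_lo (μ := 1 - η) g fun i => by
    linarith [(abs_le.1 (n2 (jac (g i)) (by linarith [hg.vol i]))).1]
  have vl := var_lo (q := q) (fun i => (jac_pos (g i)).le) (m := m) (by linarith [m2.1]) em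
  rw [← hv] at vl ⊢
  rw [hβ, em] at nl
  have cv := conv (q + 1) (x := m) (y := m + β) (by linarith [m2.1]) (by linarith [m2.1])
  push_cast at cv
  have y0 : 0 < m + β := by linarith [m2.1]
  rw [Ph, hβ, le_div_iff₀ (by positivity), lv, mul_pow]
  have e : ((k : ℝ) ^ (q + 1))⁻¹ * (1 + 1 / (4 * k) * (la g + v)) *
      (k ^ (q + 2) * (m + β) ^ (q + 2)) =
      k * (m + β) ^ (q + 2) + (la g + v) / 4 * (m + β) ^ (q + 2) := by
    field_simp
    ring
  rw [e]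
  have w1 : (la g + v) / 4 * (m + β) ^ (q + 2) ≤ (la g + v) / 4 * 2 :=
    mul_le_mul_of_nonneg_left (by linarith) (by positivity)
  have w2 : 1 / 2 * v ≤ m ^ q * v := mul_le_mul_of_nonneg_right (by linarith) v0
  have kβ : 0 ≤ k * β := by positivity
  have w3 : (q + 2) * ((m + β) ^ (q + 1) * (k * β)) ≤ (q + 2) * ((1 + η) * (k * β)) :=
    mul_le_mul_of_nonneg_left (mul_le_mul_of_nonneg_right (by linarith) kβ) (by positivity)
  have w4 := mul_le_mul_of_nonneg_left cv k0.le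
  have w5 : (q + 3) * η * (k * β) = 1 / 4 * (k * β) := by rw [hη]
  have w6 : 0 ≤ η * (k * β) := by positivity
  linarith

end Pool.Agent.Lib.MP_242fd5_gt.Cu
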