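import Pool.Agent.Lib.MP_242fd5_gt.Cu.M1
import Pool.Agent.Lib.MP_242fd5_gt.Cu.PS
import Pool.Agent.Lib.MP_242fd5_gt.Cu.M5

set_option autoImplicit false

open MeasureTheory Set Metric Filter Topology
open scoped RealInnerProductSpace

namespace Pool.Agent.Lib.MP_242fd5_gt.Cu

open Ty

noncomputable section

variable {q k : ℕ}

/-- the cone step, `γ = 1 / 32` -/
theorem CS (q k : ℕ) : ∃ A1 : ℝ, 1 ≤ A1 ∧ ∀ A2 : ℝ, A1 ≤ A2 → ∃ δ : ℝ, 0 < δ ∧
    ∀ (g h : Cf q k) (f f' : X q) (w : ℝ), Ad δ g → 0 ≤ f → 0 ≤ f' → z (f - b g) ≤ δ →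
      z (f' - b g) ≤ δ → Cm δ (JJ g) h → Y g (f - f') (w / 32) → z (f - f') ≤ A2 * w →
      Y h (N f - N f') (7 / 8 * max w (t g (f - f')) / 32) ∧
      z (N f - N f') ≤ A2 * (7 / 8 * max w (t g (f - f'))) ∧
      (w ≤ t g (f - f') → 7 / 8 * t g (f - f') ≤ t h (N f - N f')) := by
  obtain ⟨C1, c1, H1⟩ := M1 q k
  obtain ⟨C2, c2, H2⟩ := M2 q k
  obtain ⟨C3, c3, H3⟩ := Ad_JJ q k
  obtain ⟨C4, c4, H4⟩ := M4 q k
  refine ⟨2 * C1, by linarith, fun A2 hA => ?_⟩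
  have A0 : 0 < A2 := by linarith
  obtain ⟨δ1, d1, H1⟩ := H1 (1 / (1024 * A2)) (by positivity)
  obtain ⟨δ, d0, e1, e2, e3⟩ : ∃ δ : ℝ, 0 < δ ∧ δ ≤ δ1 ∧ C3 * δ ≤ 1 / 2 ∧
      C2 * δ * (C4 * A2) ≤ 1 / 1024 := by
    refine ⟨min δ1 (min (1 / (2 * C3)) (1 / (1024 * (C2 * (C4 * A2))))), by positivity,
      min_le_left _ _, ?_, ?_⟩
    · calc _ ≤ C3 * (1 / (2 * C3)) := by
            gcongr
            exact (min_le_right _ _).trans (min_le_left _ _)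
        _ = _ := by field_simp
    · calc _ ≤ C2 * (1 / (1024 * (C2 * (C4 * A2)))) * (C4 * A2) := by
            gcongr
            exact (min_le_right _ _).trans (min_le_right _ _)
        _ = _ := by field_simp
  have e4 : δ ≤ 1 := by nlinarith
  have e5 : 0 ≤ C2 * δ := by positivity
  have e6 : C2 * δ ≤ 1 / 1024 :=
    (le_mul_of_one_le_right e5 (one_le_mul_of_one_le_of_one_le c4 (by linarith))).trans e3
  refine ⟨δ, d0, fun g h f f' w a1 a2 a3 a4 a5 a6 a7 a8 => ?_⟩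
  obtain ⟨b1, b2⟩ := H1 g f f' (a1.mono d0.le e1) a2 a3 (a4.trans e1) (a5.trans e1)
  obtain ⟨b2, b3⟩ := b2 _ a7
  have w0 : 0 ≤ w := by linarith [a7.nonneg]
  have m1 := le_max_left w (t g (f - f'))
  have m2 := le_max_right w (t g (f - f'))
  generalize max w (t g (f - f')) = W at m1 m2
  have W0 : 0 ≤ W := w0.trans m1
  have b4 : 1 / (1024 * A2) * z (f - f') ≤ w / 1024 :=
    (mul_le_mul_of_nonneg_left a8 (by positivity)).trans_eq (by field_simp)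
  have b5 : z (N f - N f') ≤ A2 * (7 / 8 * W) := by
    have := mul_le_mul_of_nonneg_left m2 (show 0 ≤ C1 by linarith)
    nlinarith [mul_le_mul_of_nonneg_right hA W0, mul_le_mul_of_nonneg_right c1 W0]
  have b6 : t (JJ g) (N f - N f') ≤ C4 * A2 * W := by
    refine ((H4 _ fun i => ((H3 δ g d0.le e4 a1).vol i).trans e2).2 _).trans ?_
    rw [mul_assoc]
    gcongr
    nlinarith
  refine ⟨((H2 δ _ _ d0.le e4 a6).2.1 _ _ b2).mono ?_, b5, fun hw => ?_⟩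
  · have u1 := mul_le_mul_of_nonneg_left b6 e5
    have u2 := mul_le_mul_of_nonneg_right e3 W0
    have u3 : (1 + C2 * δ) * (3 / 4 * (w / 32) + 1 / (1024 * A2) * z (f - f')) ≤
        (1 + 1 / 1024) * (25 / 1024 * W) :=
      mul_le_mul (by linarith) (by linarith) b2.nonneg (by norm_num)
    nlinarith
  · have u1 := (H2 δ _ _ d0.le e4 a6.symm).1 (N f - N f')
    have u2 := mul_le_mul_of_nonneg_right e6 (t_nonneg h (N f - N f'))
    nlinarith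

/-- the statement of the cone step -/
def CSt (q k : ℕ) (A2 δ : ℝ) : Prop :=
  ∀ (g h : Cf q k) (f f' : X q) (w : ℝ), Ad δ g → 0 ≤ f → 0 ≤ f' → z (f - b g) ≤ δ →
    z (f' - b g) ≤ δ → Cm δ (JJ g) h → Y g (f - f') (w / 32) → z (f - f') ≤ A2 * w →
    Y h (N f - N f') (7 / 8 * max w (t g (f - f')) / 32) ∧
    z (N f - N f') ≤ A2 * (7 / 8 * max w (t g (f - f'))) ∧
    (w ≤ t g (f - f') → 7 / 8 * t g (f - f') ≤ t h (N f - N f'))

lemma cone_iter {A2 δc δ : ℝ} (H : CSt q k A2 δc) (d0 : 0 ≤ δ) (hδ : δ ≤ δc) {M : ℕ}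
    {f f' : ℕ → X q} {g : ℕ → Cf q k} (T : Trk δ M f g) (O : Orb M f') :
    ∀ (m : ℕ) (w : ℝ), m ≤ M → (∀ j ≤ m, z (f' j - b (g j)) ≤ δc) →
      Y (g m) (f m - f' m) (w / 32) → z (f m - f' m) ≤ A2 * w →
      ∃ v : ℝ, Y (g 0) (f 0 - f' 0) (v / 32) ∧ z (f 0 - f' 0) ≤ A2 * v ∧
        (v ≤ t (g 0) (f 0 - f' 0) ∨ v ≤ (7 / 8) ^ m * w) ∧
        (w ≤ t (g m) (f m - f' m) → v ≤ t (g 0) (f 0 - f' 0) ∧
          (7 / 8) ^ m * t (g m) (f m - f' m) ≤ t (g 0) (f 0 - f' 0)) := by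
  intro m
  induction m with
  | zero => exact fun w _ _ a b => ⟨w, a, b, .inr (by simp), fun c => ⟨c, by simp⟩⟩
  | succ m ih =>
    intro w hm hc a1 a2
    obtain ⟨b1, b2, b3⟩ := H (g (m + 1)) (g m) _ _ w ((T.ad _ hm).mono d0 hδ) (T.orb.nn _ hm)
      (O.nn _ hm) ((T.cl _ hm).trans hδ) (hc _ le_rfl) ((T.cm m hm).mono hδ) a1 a2
    rw [T.orb.step m hm, O.step m hm] at b1 b2 b3
    obtain ⟨v, v1, v2, v3, v4⟩ := ih _ (by omega) (fun j hj => hc j (by omega)) b1 b2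
    have key : w ≤ t (g (m + 1)) (f (m + 1) - f' (m + 1)) → v ≤ t (g 0) (f 0 - f' 0) ∧
        (7 / 8) ^ (m + 1) * t (g (m + 1)) (f (m + 1) - f' (m + 1)) ≤ t (g 0) (f 0 - f' 0) :=
      fun c => by
        rw [max_eq_right c] at v4
        obtain ⟨u1, u2⟩ := v4 (b3 c)
        refine ⟨u1, le_trans ?_ u2⟩
        rw [pow_succ, mul_assoc]
        exact mul_le_mul_of_nonneg_left (b3 c) (by positivity)
    refine ⟨v, v1, v2, ?_, key⟩
    rcases le_total w (t (g (m + 1)) (f (m + 1) - f' (m + 1))) with c | c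
    · exact .inl (key c).1
    · rw [max_eq_left c] at v3
      rwa [pow_succ, mul_assoc]

/-- in the cone the moments bound everything -/
lemma cone_end (q k : ℕ) : ∃ δ : ℝ, 0 < δ ∧ ∀ (g E : Cf q k) (d : X q) (w x : ℝ), Cm δ g E →
    Y g d (w / 32) → w ≤ t g d → 0 ≤ x → Mo E d x → t g d ≤ 8 * k * x := by
  obtain ⟨C2, c2, H2⟩ := M2 q k
  have k0 : (0 : ℝ) ≤ k := Nat.cast_nonneg k
  obtain ⟨δ, d0, e1⟩ : ∃ δ : ℝ, 0 < δ ∧ C2 * δ * (k + 1) ≤ 1 / 16 :=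
    ⟨1 / (16 * (C2 * (k + 1))), by positivity, le_of_eq (by field_simp)⟩
  have e2 : 0 ≤ C2 * δ := by positivity
  have e3 : C2 * δ ≤ 1 / 16 := by nlinarith
  have e4 : δ ≤ 1 := by nlinarith
  refine ⟨δ, d0, fun g E d w x a1 a2 a3 a4 a5 => ?_⟩
  have t0 := t_nonneg g d
  have b1 := (H2 δ _ _ d0.le e4 a1).1 d
  have b2 := ((H2 δ _ _ d0.le e4 a1.symm).2.2.1 d x a4 a5).mono
    (show _ ≤ 2 * x + C2 * δ * (2 * t g d) by gcongr <;> nlinarith)
  have b3 := t_le_of (by positivity) a2 b2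
  have b4 := mul_le_mul_of_nonneg_right (show C2 * δ * k ≤ 1 / 16 by nlinarith) t0
  nlinarith [mul_nonneg k0 a4]

/-- local growth -/
theorem LG (q k : ℕ) : ∃ C δ : ℝ, 1 ≤ C ∧ 0 < δ ∧ ∀ (M : ℕ) (f f' : ℕ → X q) (g : ℕ → Cf q k)
    (h E : Cf q k) (x : ℝ), Trk δ M f g → Orb M f' → (∀ j ≤ M, z (f' j - b (g j)) ≤ δ) →
    f M = b (g M) → f' M = b h → Cm δ (g M) h → Cm δ (g 0) E → 0 ≤ x → Mo E (f 0 - f' 0) x →
      Cm (C * 2 ^ M * x) (g M) h := by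
  obtain ⟨A1, c1, H1⟩ := CS q k
  obtain ⟨C3, c3, H3⟩ := M3 q k
  obtain ⟨δc, d1, H1⟩ := H1 (A1 + 2 * C3) (by linarith)
  obtain ⟨δ3, d3, H3⟩ := H3 (1 / 64) (by norm_num)
  obtain ⟨δe, d4, H4⟩ := cone_end q k
  have k0 : (0 : ℝ) ≤ k := Nat.cast_nonneg k
  have d0 : 0 < min δc (min δ3 δe) := by positivity
  have e1 := min_le_left δc (min δ3 δe)
  have e3 := (min_le_right δc _).trans (min_le_left δ3 δe)
  have e4 := (min_le_right δc _).trans (min_le_right δ3 δe)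
  refine ⟨C3 * (16 * k + 1), _, by nlinarith, d0,
    fun M f f' g h E x T O a1 a2 a3 a4 a5 a6 a7 => ?_⟩
  obtain ⟨τ, t0, t1, t2, t3, t4⟩ := H3 _ _ ((T.ad M le_rfl).mono d0.le e3) (a4.mono e3)
  have e : f M - f' M = -(b h - b (g M)) := by rw [a2, a3, neg_sub]
  obtain ⟨v, v1, -, -, v4⟩ := cone_iter H1 d0.le e1 T O M (τ / 2) le_rfl
    (fun j hj => (a1 j hj).trans e1) (e ▸ t3.neg.mono (by linarith)) (by
      rw [e, z_neg]
      nlinarith)
  rw [e, t_neg] at v4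
  obtain ⟨v2, v3⟩ := v4 (by linarith)
  have b1 := H4 _ _ _ _ _ (a5.mono e4) v1 v2 a6 a7
  refine t4.mono ?_
  have b2 : (1 : ℝ) ≤ 2 ^ M * (7 / 8) ^ M := by
    rw [← mul_pow]
    exact one_le_pow₀ (by norm_num)
  have b3 : (7 / 8) ^ M * τ ≤ (16 * k + 1) * x := by
    nlinarith [mul_le_mul_of_nonneg_left t2 (show (0 : ℝ) ≤ (7 / 8) ^ M by positivity)]
  calc _ ≤ C3 * (2 ^ M * (7 / 8) ^ M * τ) :=
        mul_le_mul_of_nonneg_left (le_mul_of_one_le_left t0 b2) (by linarith)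
    _ ≤ C3 * (2 ^ M * ((16 * k + 1) * x)) := by
        rw [mul_assoc]
        gcongr
    _ = _ := by ring

/-- two followed orbits -/
theorem TO (q k : ℕ) : ∃ C δ : ℝ, 1 ≤ C ∧ 0 < δ ∧ ∀ (M : ℕ) (f f' : ℕ → X q)
    (g g' : ℕ → Cf q k) (E : Cf q k) (x : ℝ), Trk δ M f g → Trk δ M f' g' → z (f 0 - f' 0) ≤ δ →
    Cm δ (g 0) E → 0 ≤ x → Mo E (f 0 - f' 0) x → z (f 0 - f' 0) ≤ C * x + C * (7 / 8) ^ M := by
  obtain ⟨A1, c1, H1⟩ := CS q k
  obtain ⟨C2, c2, H2⟩ := M2 q k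
  obtain ⟨C3, c3, H3⟩ := M3 q k
  obtain ⟨C4, c4, H4⟩ := M4 q k
  obtain ⟨A2, hA⟩ : ∃ A2, A2 = A1 + 8 * C3 := ⟨_, rfl⟩
  have A0 : 1 ≤ A2 := by linarith
  obtain ⟨δc, d1, H1⟩ := H1 A2 (by linarith)
  obtain ⟨δ3, d3, H3⟩ := H3 (1 / 256) (by norm_num)
  obtain ⟨δe, d4, H5⟩ := cone_end q k
  have k0 : (0 : ℝ) ≤ k := Nat.cast_nonneg k
  obtain ⟨ω, o0, o1, o2, o3⟩ : ∃ ω : ℝ, 0 < ω ∧ 9 * ω ≤ δ3 ∧ 9 * ω ≤ 1 ∧
      C2 * (9 * ω) * C4 ≤ δc / 2 := by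
    refine ⟨min (δ3 / 9) (min (1 / 9) (δc / (18 * (C2 * C4)))), by positivity, ?_, ?_, ?_⟩
    · linarith [min_le_left (δ3 / 9) (min (1 / 9) (δc / (18 * (C2 * C4))))]
    · linarith [(min_le_right (δ3 / 9) _).trans (min_le_left (1 / 9) (δc / (18 * (C2 * C4))))]
    · calc _ ≤ C2 * (9 * (δc / (18 * (C2 * C4)))) * C4 := by
            gcongr
            exact (min_le_right _ _).trans (min_le_right _ _)
        _ = _ := by field_simp; norm_num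
  obtain ⟨δP, d5, HP⟩ := PS q k o0
  obtain ⟨δ1, p0, p1, p2, p3⟩ : ∃ δ1 : ℝ, 0 < δ1 ∧ δ1 ≤ δP / 2 ∧ δ1 ≤ δc / 2 ∧ δ1 ≤ 1 :=
    ⟨min (δP / 2) (min (δc / 2) 1), by positivity, min_le_left _ _,
      (min_le_right _ _).trans (min_le_left _ _), (min_le_right _ _).trans (min_le_right _ _)⟩
  obtain ⟨δ, d0, e1, e2, e3⟩ : ∃ δ : ℝ, 0 < δ ∧ δ ≤ ω ∧ δ ≤ δe ∧ 1024 * (C3 * (C4 * δ)) ≤ δ1 := by
    refine ⟨min ω (min δe (δ1 / (1024 * (C3 * C4)))), by positivity, min_le_left _ _,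
      (min_le_right _ _).trans (min_le_left _ _), ?_⟩
    calc _ ≤ 1024 * (C3 * (C4 * (δ1 / (1024 * (C3 * C4))))) := by
          gcongr
          exact (min_le_right _ _).trans (min_le_right _ _)
      _ = _ := by field_simp
  have e4 : δ ≤ C4 * δ := le_mul_of_one_le_left d0.le c4
  have e5 : C4 * δ ≤ C3 * (C4 * δ) := le_mul_of_one_le_left (by positivity) c3
  have C0 : 1 ≤ A2 * (8 * k + 32 * C4) := one_le_mul_of_one_le_of_one_le A0 (by linarith)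
  refine ⟨A2 * (8 * k + 32 * C4), δ, C0, d0, fun M f f' g g' E x T T' a1 a2 a3 a4 => ?_⟩
  have vol : ∀ j ≤ M, ∀ i, |jac (g j i) - 1| ≤ 1 / 2 := fun j hj i =>
    ((T.ad j hj).vol i).trans (by linarith)
  have near : ∀ j ≤ M, z (f j - f' j) ≤ δ1 → z (f' j - b (g j)) ≤ δc := fun j hj c => by
    have := z_tri (f' j) (f j) (b (g j))
    rw [z_sub_comm (f' j) (f j)] at this
    linarith [T.cl j hj]
  have fin : ∀ v, Y (g 0) (f 0 - f' 0) (v / 32) → z (f 0 - f' 0) ≤ A2 * v →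
      v ≤ t (g 0) (f 0 - f' 0) ∨ v ≤ (7 / 8) ^ M * (32 * C4) →
      z (f 0 - f' 0) ≤ A2 * (8 * k + 32 * C4) * x + A2 * (8 * k + 32 * C4) * (7 / 8) ^ M :=
    fun v v1 v2 v3 => by
      have s0 : (0 : ℝ) ≤ (7 / 8) ^ M := by positivity
      have : v ≤ (8 * k + 32 * C4) * x + (8 * k + 32 * C4) * (7 / 8) ^ M := by
        have u1 := mul_nonneg k0 a3
        have u2 := mul_nonneg k0 s0
        have u3 := mul_nonneg (show 0 ≤ C4 by linarith) a3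
        have u4 := mul_nonneg (show 0 ≤ C4 by linarith) s0
        rcases v3 with c | c
        · linarith [H5 _ _ _ _ _ (a2.mono e2) v1 c a3 a4]
        · linarith
      rw [mul_assoc, mul_assoc, ← mul_add]
      exact v2.trans (mul_le_mul_of_nonneg_left this (by linarith))
  by_cases hall : ∀ j ≤ M, z (f j - f' j) ≤ δ1
  · have b1 := (hall M le_rfl).trans p3
    obtain ⟨v, v1, v2, v3, -⟩ := cone_iter H1 d0.le (by linarith) T T'.orb M (32 * C4) le_rfl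
      (fun j hj => near j hj (hall j hj)) ((Y_t _ _).mono (by
        have := (H4 _ (vol M le_rfl)).2 (f M - f' M)
        nlinarith)) (by nlinarith)
    exact fin v v1 v2 v3
  · push Not at hall
    classical
    obtain ⟨j, ⟨hj, j1⟩, jm⟩ : ∃ j, (j ≤ M ∧ δ1 < z (f j - f' j)) ∧
        ∀ i < j, ¬ (i ≤ M ∧ δ1 < z (f i - f' i)) :=
      ⟨Nat.find hall, Nat.find_spec hall, fun _ => Nat.find_min hall⟩
    have jm' : ∀ i < j, z (f i - f' i) ≤ δ1 := fun i hi =>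
      not_lt.1 fun c => jm i hi ⟨by omega, c⟩
    obtain ⟨i, rfl⟩ : ∃ i, j = i + 1 := Nat.exists_eq_succ_of_ne_zero (by
      rintro rfl
      linarith)
    have hi : i ≤ M := by omega
    obtain ⟨σ, hσ⟩ := HP (g i) (g' i) ((T.ad i hi).mono d0.le (by linarith))
      ((T'.ad i hi).mono d0.le (by linarith)) (by
        have u1 := z_tri (b (g i)) (f i) (b (g' i))
        have u2 := z_tri (f i) (f' i) (b (g' i))
        rw [z_sub_comm (b (g i)) (f i)] at u1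
        linarith [T.cl i hi, T'.cl i hi, jm' i i.lt_succ_self])
    have c5 := ((T.cm i hj).trans hσ).trans ((T'.cm i hj).perm σ).symm
    rw [← JJ_perm] at c5
    have c6 : Cm (9 * ω) (g (i + 1)) (g' (i + 1) ∘ σ) :=
      (c5.of_JJ (by positivity)).mono (by linarith)
    have z1 := T.cl _ hj
    have z2 := T'.cl _ hj
    rw [← b_perm _ σ] at z2
    generalize g' (i + 1) ∘ σ = h at c6 z2
    obtain ⟨τ, t0, t1, t2, t3, -⟩ := H3 _ _ ((T.ad _ hj).mono d0.le (by linarith)) (c6.mono o1)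
    obtain ⟨m1, m2⟩ := H4 _ (vol _ hj)
    have z3 : z (f' (i + 1) - b (g (i + 1))) ≤ δc := by
      have u1 := z_tri (f' (i + 1)) (b h) (b (g (i + 1)))
      have u2 := (H2 _ _ _ (by positivity) o2 c6).2.2.2.1
      have u3 := mul_le_mul_of_nonneg_left m1 (show 0 ≤ C2 * (9 * ω) by positivity)
      linarith
    obtain ⟨r, hr⟩ : ∃ r, r = f (i + 1) - b (g (i + 1)) - (f' (i + 1) - b h) := ⟨_, rfl⟩
    have r1 : z r ≤ 2 * δ := by linarith [hr ▸ z_sub_le _ _]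
    have r2 : t (g (i + 1)) r ≤ 2 * (C4 * δ) := by
      linarith [m2 r, mul_le_mul_of_nonneg_left r1 (show 0 ≤ C4 by linarith)]
    have e : f (i + 1) - f' (i + 1) = -(b h - b (g (i + 1))) + r := by rw [hr]; abel
    have e' : b h - b (g (i + 1)) = -(f (i + 1) - f' (i + 1)) + r := by rw [hr]; abel
    have r3 : z (f (i + 1) - f' (i + 1)) ≤ C3 * τ + 2 * δ := by
      have := z_add_le (-(b h - b (g (i + 1)))) r
      rw [← e, z_neg] at this
      linarith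
    have r4 : 512 * (C4 * δ) ≤ τ :=
      le_of_mul_le_mul_left (show C3 * _ ≤ C3 * τ by linarith) (by linarith)
    obtain ⟨v, v1, v2, -, v4⟩ := cone_iter H1 d0.le (by linarith) T T'.orb (i + 1) (τ / 4) hj
      (fun l hl => (lt_or_eq_of_le hl).elim (fun c => near l (by omega) (jm' l c))
        fun c => c ▸ z3)
      (e ▸ (t3.neg.add (Y_t _ r)).mono (by linarith)) (by
        have := mul_le_mul_of_nonneg_right c3 t0
        have := mul_le_mul_of_nonneg_right c1 t0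
        rw [hA]
        linarith)
    refine fin v v1 v2 (.inl (v4 ?_).1)
    have := t_add_le (g (i + 1)) (-(f (i + 1) - f' (i + 1))) r
    rw [← e', t_neg] at this
    linarith

end

end Pool.Agent.Lib.MP_242fd5_gt.Cu
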