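import Pool.Agent.Lib.MP_242fd5_gt.Ty.G2Main
import Pool.Agent.Lib.MP_242fd5_gt.Ty.H1Rig

set_option autoImplicit false

open MeasureTheory Set Metric Filter Topology
open scoped RealInnerProductSpace

namespace Pool.Agent.Lib.MP_242fd5_gt.Cu

open Ty

/-- the unit sphere of `R^n`, `n = q + 3` -/
abbrev Sp (q : ℕ) := Metric.sphere (0 : V (q + 3)) 1
/-- continuous functions on the sphere -/
abbrev X (q : ℕ) := C(Sp q, ℝ)
/-- the linear group -/
abbrev G (q : ℕ) := V (q + 3) ≃L[ℝ] V (q + 3)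

noncomputable section

variable {q k : ℕ}

lemma un (u : Sp q) : ‖(u : V (q + 3))‖ = 1 := mem_sphere_zero_iff_norm.1 u.2
lemma une (u : Sp q) : (u : V (q + 3)) ≠ 0 := ne_zero_of_unit (un u)

/-- a unit vector as a point of the sphere -/
def mkS (x : V (q + 3)) (hx : ‖x‖ = 1) : Sp q := ⟨x, mem_sphere_zero_iff_norm.2 hx⟩

open Classical in
/-- extension of degree zero -/
def ext (φ : X q) (x : V (q + 3)) : ℝ := if h : x = 0 then 0 else φ (mkS (nrm x) (norm_nrm h))

/-- extension of degree `-1` -/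
def up (φ : X q) (x : V (q + 3)) : ℝ := ‖x‖⁻¹ * ext φ x

lemma ext_unit (φ : X q) {x : V (q + 3)} (hx : ‖x‖ = 1) : ext φ x = φ (mkS x hx) := by
  rw [ext, dif_neg (ne_zero_of_unit hx)]
  congr 2
  exact nrm_unit hx

@[simp] lemma ext_coe (φ : X q) (u : Sp q) : ext φ u = φ u := ext_unit φ (un u)

lemma contOn_ext (φ : X q) : ContinuousOn (ext φ) {0}ᶜ := by
  rw [continuousOn_iff_continuous_domRestrict]
  have : ({0}ᶜ : Set (V (q + 3))).domRestrict (ext φ) =
      fun x => φ (mkS (nrm x.1) (norm_nrm x.2)) := by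
    funext x
    exact dif_neg x.2
  rw [this]
  exact φ.continuous.comp
    ((continuousOn_iff_continuous_domRestrict.1 continuousOn_nrm).subtype_mk _)

lemma bm_ext (φ : X q) : BM ‖φ‖ (ext φ) :=
  ⟨measurable_of_continuousOn_compl_singleton 0 (contOn_ext φ), fun x hx => by
    rw [ext_unit φ hx]; exact φ.norm_coe_le_norm _⟩

lemma ext_add (φ ψ : X q) : ext (φ + ψ) = fun x => ext φ x + ext ψ x := by
  funext x; unfold ext; split_ifs <;> simp

lemma ext_smul (c : ℝ) (φ : X q) : ext (c • φ) = fun x => c * ext φ x := by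
  funext x; unfold ext; split_ifs <;> simp

/-- the mean over the sphere -/
def I : X q →L[ℝ] ℝ :=
  LinearMap.mkContinuous
    { toFun := fun φ => (om (q + 3))⁻¹ * ∫ x, ext φ x ∂mu (q + 3)
      map_add' := fun φ ψ => by
        rw [ext_add, integral_add (bm_ext φ).int_mu (bm_ext ψ).int_mu, mul_add]
      map_smul' := fun c φ => by
        rw [ext_smul, integral_const_mul]; simp only [RingHom.id_apply, smul_eq_mul]; ring } 1
    fun φ => by
      have o := om_pos (q + 3)
      have := (bm_ext φ).abs_int_le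
      simp only [LinearMap.coe_mk, AddHom.coe_mk, Real.norm_eq_abs, abs_mul, abs_inv,
        abs_of_pos o, one_mul]
      rwa [inv_mul_le_iff₀ o, mul_comm]

lemma I_apply (φ : X q) : I φ = (om (q + 3))⁻¹ * ∫ x, ext φ x ∂mu (q + 3) := rfl

lemma cont_R (φ : X q) : Continuous fun u : Sp q => R (ext φ) u := by
  have o := om_pos (q + 2)
  refine Metric.continuous_iff.2 fun u ε hε => ?_
  obtain ⟨δ, δ0, hδ⟩ := unif_cont (contOn_ext φ) (show 0 < ε / (om (q + 2) + 1) by positivity)
  refine ⟨min (δ / 4) 1, by positivity, fun v huv => ?_⟩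
  rw [dist_comm, Subtype.dist_eq, dist_eq_norm] at huv
  obtain ⟨g, e, hg⟩ := exists_rot (un u) (un v) (huv.le.trans (min_le_right _ _))
  have hb : BM (ε / (om (q + 2) + 1)) fun x => ext φ (g x) - ext φ x :=
    ⟨(((bm_ext φ).iso g).sub (bm_ext φ)).meas, fun x hx => hδ _ _ (by rw [g.norm_map, hx]) hx
      ((hg x hx).trans_lt (by linarith [huv.trans_le (min_le_left _ _)]))⟩
  rw [Real.dist_eq, ← e, ← R_iso g _ (une u), ← R_sub ((bm_ext φ).iso g) (bm_ext φ) (une u)]
  refine (hb.R.bdd _ (un u)).trans_lt ?_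
  rw [div_mul_eq_mul_div, div_lt_iff₀ (by positivity)]
  nlinarith

/-- the spherical Radon (Funk) transform, normalised by `A 1 = 1` -/
def A : X q →L[ℝ] X q :=
  LinearMap.mkContinuous
    { toFun := fun φ => ⟨fun u => (om (q + 2))⁻¹ * R (ext φ) u, continuous_const.mul (cont_R φ)⟩
      map_add' := fun φ ψ => by
        ext u
        simp only [ContinuousMap.coe_mk, ContinuousMap.add_apply]
        rw [ext_add, R_add (bm_ext φ) (bm_ext ψ) (une u), mul_add]
      map_smul' := fun c φ => by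
        ext u
        simp only [ContinuousMap.coe_mk, RingHom.id_apply, ContinuousMap.smul_apply, smul_eq_mul]
        rw [ext_smul, R_const_mul]; ring } 1
    fun φ => by
      have o := om_pos (q + 2)
      rw [one_mul]
      refine (ContinuousMap.norm_le _ (norm_nonneg φ)).2 fun u => ?_
      have := (bm_ext φ).R.bdd _ (un u)
      simp only [LinearMap.coe_mk, AddHom.coe_mk, ContinuousMap.coe_mk, Real.norm_eq_abs, abs_mul,
        abs_inv, abs_of_pos o]
      rwa [inv_mul_le_iff₀ o, mul_comm]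

lemma A_apply (φ : X q) (u : Sp q) : A φ u = (om (q + 2))⁻¹ * R (ext φ) u := rfl

lemma gne (g : G q) (u : Sp q) : g u ≠ 0 := fun h => (une u) (g.injective (by rw [h, map_zero]))

/-- radial function of the ellipsoid `g B` -/
def rh (g : G q) : X q :=
  ⟨fun u => rho g u, (continuousOn_rho g).comp_continuous continuous_subtype_val fun u => (une u)⟩

/-- the projective map of the sphere induced by `g` -/
def pr (g : G q) : C(Sp q, Sp q) :=
  ⟨fun u => mkS (nrm (g u)) (norm_nrm (gne g u)),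
    (continuousOn_nrm.comp_continuous (g.continuous.comp continuous_subtype_val)
      fun u => gne g u).subtype_mk _⟩

/-- `act p g φ` is `x ↦ Φ (g x)` on the sphere, `Φ` the extension of `φ` of degree `-p` -/
def act (p : ℕ) (g : G q) : X q →L[ℝ] X q :=
  (ContinuousLinearMap.mul ℝ (X q) (rh g.symm ^ p)).comp
    ({ toFun := fun φ => φ.comp (pr g)
       map_add' := fun _ _ => rfl
       map_smul' := fun _ _ => rfl
       cont := (ContinuousMap.compRightContinuousMap ℝ (pr g)).continuous } : X q →L[ℝ] X q)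

lemma act_apply (p : ℕ) (g : G q) (φ : X q) : act p g φ = rh g.symm ^ p * φ.comp (pr g) := rfl

/-- the normalised intersection body operator -/
def N (φ : X q) : X q := A (φ ^ (q + 2))

/-- its linearisation at the ball -/
def L1 (φ : X q) : X q := ((q : ℝ) + 2) • A φ

/-- the `L^n` norm -/
def z (φ : X q) : ℝ := I (|φ| ^ (q + 3)) ^ ((q + 3 : ℕ) : ℝ)⁻¹

/-- the `L^2` norm -/
def l2 (φ : X q) : ℝ := √(I (φ * φ))

/-- the normalised Busemann ratio -/
def Ph (φ : X q) : ℝ := I (N φ ^ (q + 3)) / I (φ ^ (q + 3)) ^ (q + 2)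

/-- the level of `k` bubbles -/
def lv (q k : ℕ) : ℝ := ((k : ℝ) ^ (q + 1))⁻¹

/-- a linear form -/
def lf (a : V (q + 3)) : X q := ⟨fun u => ⟪a, (u : V (q + 3))⟫, by fun_prop⟩

/-- the quadratic forms -/
def Q (q : ℕ) : Submodule ℝ (X q) := Submodule.span ℝ (range fun a : V (q + 3) => lf a ^ 2)

/-- `N (rh g) = rh (J g)` -/
def J (g : G q) : G q := (dual g).trans (hom (q + 3) (jac g) (jac_pos g).ne')

/-- configurations of `k` ellipsoids -/
abbrev Cf (q k : ℕ) := Fin k → G q

def JJ (g : Cf q k) : Cf q k := fun i => J (g i)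

/-- the radial sum of the ellipsoids -/
def b (g : Cf q k) : X q := ∑ i, rh (g i)

/-- interaction of two ellipsoids -/
def io (g h : G q) : ℝ := I (rh g ^ (q + 2) * rh h)

/-- total interaction -/
def la (g : Cf q k) : ℝ := ∑ i, ∑ j ∈ Finset.univ.erase i, io (g i) (g j)

/-- volumes within `a` of the normal volume, total interaction at most `a ^ 2` -/
structure Ad (a : ℝ) (g : Cf q k) : Prop where
  vol : ∀ i, |jac (g i) - 1| ≤ a
  sep : la g ≤ a ^ 2

/-- the two configurations agree up to the factor `exp ω` -/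
def Cm (ω : ℝ) (g h : Cf q k) : Prop := ∀ i, Cmp (Real.exp ω) (g i) (h i)

/-- sum of the `L^2` norms seen from the bubbles -/
def t (g : Cf q k) (d : X q) : ℝ := ∑ i, l2 (act 1 (g i) d)

/-- the part of `d` transversal to the family of bubbles is at most `s` -/
def Y (g : Cf q k) (d : X q) (s : ℝ) : Prop :=
  ∃ p : Fin k → X q, (∀ i, p i ∈ Q q) ∧ ∑ i, l2 (act 1 (g i) d - p i) ≤ s

/-- the moments of `d` are at most `x` -/
def Mo (g : Cf q k) (d : X q) (x : ℝ) : Prop :=
  ∀ i, ∀ p ∈ Q q, |I (act 1 (g i) d * p)| ≤ x * l2 p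

/-- the cross term -/
def Xc (g : Cf q k) : X q := N (b g) - b (JJ g)

/-- `f M, …, f 0` is an orbit of `N` of non-negative functions -/
structure Orb (M : ℕ) (f : ℕ → X q) : Prop where
  nn : ∀ j ≤ M, 0 ≤ f j
  step : ∀ j < M, N (f (j + 1)) = f j

/-- the orbit is followed by configurations -/
structure Trk (δ : ℝ) (M : ℕ) (f : ℕ → X q) (g : ℕ → Cf q k) : Prop where
  orb : Orb M f
  ad : ∀ j ≤ M, Ad δ (g j)
  cl : ∀ j ≤ M, z (f j - b (g j)) ≤ δ
  cm : ∀ j < M, Cm δ (JJ (g (j + 1))) (g j)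

/-- type `k` for functions -/
def TyF (k : ℕ) (f : X q) : Prop :=
  ∃ F : ℕ → X q, F 0 = f ∧ (∀ M, Orb M F) ∧
    ∀ ε : ℝ, 0 < ε → ∃ M, ∀ m, M ≤ m → ∃ g : Cf q k, Ad ε g ∧ z (F m - b g) ≤ ε

end

end Pool.Agent.Lib.MP_242fd5_gt.Cu
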