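import Pool.Agent.Lib.MP_242fd5_gt.Cu.B2

set_option autoImplicit false

open MeasureTheory Set Metric Filter Topology
open scoped RealInnerProductSpace

namespace Pool.Agent.Lib.MP_242fd5_gt.Cu

open Ty

variable {q k : ℕ}

namespace SolH

theorem inj_of_lower {P P' : Type} [NormedAddCommGroup P] [NormedSpace ℝ P]
    [NormedAddCommGroup P'] [NormedSpace ℝ P'] {Θ : P → P'} {D : P →L[ℝ] P'} {p : P} {c : ℝ}
    (hD : HasFDerivAt Θ D p) (hc : 0 < c) (h : ∀ᶠ p' in 𝓝 p, c * ‖p' - p‖ ≤ ‖Θ p' - Θ p‖) :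
    Function.Injective D := by
  refine (injective_iff_map_eq_zero D).2 fun v hv => ?_
  have h1 := hD.isLittleO.def (half_pos hc)
  have hl : Tendsto (fun s : ℝ => p + s • v) (𝓝[>] 0) (𝓝 p) := by
    have : Continuous fun s : ℝ => p + s • v := by fun_prop
    simpa using (this.tendsto 0).mono_left nhdsWithin_le_nhds
  obtain ⟨s, ⟨h2, h3⟩, hs⟩ := ((hl.eventually (h.and h1)).and self_mem_nhdsWithin).exists
  have hs0 : (0:ℝ) < s := hs
  rw [add_sub_cancel_left, map_smul, hv, smul_zero, sub_zero] at h3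
  rw [add_sub_cancel_left] at h2
  rw [norm_smul, Real.norm_eq_abs, abs_of_pos hs0] at h2 h3
  have h4 : c / 2 * (s * ‖v‖) ≤ 0 := by linarith
  have h5 : s * ‖v‖ ≤ 0 := by
    by_contra hn
    exact absurd h4 (not_le.2 (mul_pos (half_pos hc) (not_le.1 hn)))
  have h6 : ‖v‖ ≤ 0 := by
    by_contra hn
    exact absurd h5 (not_le.2 (mul_pos hs0 (not_le.1 hn)))
  exact norm_le_zero_iff.1 h6

/-- the cut square root -/
noncomputable def csq (c : ℝ) (p : X q) : X q :=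
  ⟨fun u => √(max (p u) c), Real.continuous_sqrt.comp (p.continuous.max continuous_const)⟩

lemma continuous_csq (c : ℝ) : Continuous (csq c : X q → X q) :=
  ContinuousMap.continuous_postcomp
    (⟨fun x => √(max x c), Real.continuous_sqrt.comp (continuous_id.max continuous_const)⟩ : C(ℝ, ℝ))

lemma ev_ge {c : ℝ} {p : X q} (h : ∀ u, c < p u) : ∀ᶠ y in 𝓝 p, ∀ u, c ≤ y u := by
  have : {y : X q | MapsTo y univ (Ioi c)} ∈ 𝓝 p :=
    (ContinuousMap.isOpen_setOfPred_mapsTo isCompact_univ isOpen_Ioi).mem_nhds fun u _ => h u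
  filter_upwards [this] with y hy u using le_of_lt (hy (mem_univ u))

lemma csq_strict {c : ℝ} (hc : 0 < c) {p : X q} (h : ∀ u, c < p u) (r : (X q)ˣ)
    (hr : (r : X q) = csq c p) : ∃ D : X q →L[ℝ] X q, HasStrictFDerivAt (csq c) D p := by
  let E : X q ≃L[ℝ] X q := ContinuousLinearEquiv.equivOfInverse
    ((2 : ℝ) • ContinuousLinearMap.mul ℝ (X q) r)
    ((2 : ℝ)⁻¹ • ContinuousLinearMap.mul ℝ (X q) (r⁻¹ : (X q)ˣ))
    (fun y => by simp [smul_smul, ← mul_assoc]) (fun y => by simp [smul_smul, ← mul_assoc])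
  have hf : HasStrictFDerivAt (fun y : X q => y * y) (E : X q →L[ℝ] X q) (csq c p) := by
    have := (hasStrictFDerivAt_id (𝕜 := ℝ) (csq c p)).mul (hasStrictFDerivAt_id (csq c p))
    refine this.congr_fderiv ?_
    ext1 y
    simp [E, hr, two_smul]
  refine ⟨_, hf.of_local_left_inverse (continuous_csq c).continuousAt ?_⟩
  filter_upwards [ev_ge h] with y hy
  ext u
  show √(max (y u) c) * √(max (y u) c) = y u
  rw [max_eq_left (hy u), Real.mul_self_sqrt (hc.le.trans (hy u))]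

end SolH

theorem sol {P P' : Type} [NormedAddCommGroup P] [NormedSpace ℝ P] [FiniteDimensional ℝ P]
    [NormedAddCommGroup P'] [NormedSpace ℝ P'] [FiniteDimensional ℝ P']
    (hd : Module.finrank ℝ P = Module.finrank ℝ P') {S : Set P} {Θ : P → P'} {p0 : P}
    (h0 : p0 ∈ S) (hK : IsCompact {p ∈ S | ∃ τ ∈ Icc (0:ℝ) 1, Θ p = τ • Θ p0})
    (h : ∀ p ∈ S, (∃ τ ∈ Icc (0:ℝ) 1, Θ p = τ • Θ p0) → S ∈ 𝓝 p ∧
      (∃ D : P →L[ℝ] P', HasStrictFDerivAt Θ D p) ∧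
      ∃ c : ℝ, 0 < c ∧ ∀ᶠ p' in 𝓝 p, c * ‖p' - p‖ ≤ ‖Θ p' - Θ p‖) : ∃ p ∈ S, Θ p = 0 := by
  have := FiniteDimensional.complete ℝ P
  have := FiniteDimensional.complete ℝ P'
  have hc : ContinuousOn (fun p => ‖Θ p‖) {p ∈ S | ∃ τ ∈ Icc (0:ℝ) 1, Θ p = τ • Θ p0} := by
    intro p hp
    obtain ⟨D, hD⟩ := (h p hp.1 hp.2).2.1
    exact hD.continuousAt.norm.continuousWithinAt
  obtain ⟨p, hp, hm⟩ := hK.exists_isMinOn ⟨p0, h0, 1, ⟨zero_le_one, le_rfl⟩, (one_smul _ _).symm⟩ hc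
  refine ⟨p, hp.1, ?_⟩
  obtain ⟨hS, ⟨D, hD⟩, c, c0, hl⟩ := h p hp.1 hp.2
  obtain ⟨τ, hτ, e⟩ := hp.2
  have hi : Function.Injective D := SolH.inj_of_lower hD.hasFDerivAt c0 hl
  have hs : Function.Surjective D :=
    (LinearMap.injective_iff_surjective_of_finrank_eq_finrank (f := (D : P →ₗ[ℝ] P')) hd).1 hi
  have hmap := hD.map_nhds_eq_of_surj (LinearMap.range_eq_top.2 hs)
  have h1 : Θ '' S ∈ 𝓝 (Θ p) := by rw [← hmap]; exact image_mem_map hS
  have hl : Tendsto (fun s : ℝ => s • Θ p) (𝓝[<] 1) (𝓝 (Θ p)) := by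
    have : Continuous fun s : ℝ => s • Θ p := by fun_prop
    simpa using (this.tendsto 1).mono_left nhdsWithin_le_nhds
  obtain ⟨s, ⟨p', hp', e'⟩, hs⟩ :=
    ((hl.eventually h1).and (Ioo_mem_nhdsLT (zero_lt_one' ℝ))).exists
  have h2 : ‖Θ p‖ ≤ ‖Θ p'‖ := hm (a := p') ⟨hp', s * τ,
    ⟨mul_nonneg hs.1.le hτ.1, mul_le_one₀ hs.2.le hτ.1 hτ.2⟩, by rw [e', e, smul_smul]⟩
  rw [e', norm_smul, Real.norm_eq_abs, abs_of_pos hs.1] at h2
  by_contra hn
  have := norm_pos_iff.2 hn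
  nlinarith [hs.2]

/-- `p ^ (-1/2)`, cut at the level `c` -/
noncomputable def rq (c : ℝ) (hc : 0 < c) (p : X q) : X q :=
  ⟨fun u => (√(max (p u) c))⁻¹, (Real.continuous_sqrt.comp (p.continuous.max continuous_const)).inv₀
    fun u => (Real.sqrt_pos.2 (hc.trans_le (le_max_right _ _))).ne'⟩

theorem SolH.csq_rq {c : ℝ} (hc : 0 < c) (p : X q) : SolH.csq c p * rq c hc p = 1 := by
  ext u
  exact mul_inv_cancel₀ (Real.sqrt_pos.2 (hc.trans_le (le_max_right _ _))).ne'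

theorem continuous_rq {c : ℝ} (hc : 0 < c) : Continuous (rq c hc : X q → X q) :=
  ContinuousMap.continuous_postcomp
    (⟨fun x => (√(max x c))⁻¹, (Real.continuous_sqrt.comp (continuous_id.max continuous_const)).inv₀
      fun _ => (Real.sqrt_pos.2 (hc.trans_le (le_max_right _ _))).ne'⟩ : C(ℝ, ℝ))

theorem rq_strict {c : ℝ} (hc : 0 < c) {p : X q} (h : ∀ u, c < p u) :
    ∃ D : X q →L[ℝ] X q, HasStrictFDerivAt (rq c hc) D p := by
  let U : X q → (X q)ˣ := fun y =>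
    ⟨SolH.csq c y, rq c hc y, SolH.csq_rq hc y, by rw [mul_comm]; exact SolH.csq_rq hc y⟩
  obtain ⟨D, hD⟩ := SolH.csq_strict hc h (U p) rfl
  have e : rq c hc = fun y => Ring.inverse (SolH.csq c y) :=
    funext fun y => (Ring.inverse_unit (U y)).symm
  rw [e]
  exact ⟨_, HasStrictFDerivAt.comp (g := Ring.inverse) (f := SolH.csq c) p
    (hasStrictFDerivAt_ringInverse (𝕜 := ℝ) (U p)) hD⟩

theorem rq_eq {c : ℝ} (hc : 0 < c) {p : X q} (h : ∀ u, c ≤ p u) {g : G q} (e : rh g ^ 2 * p = 1) :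
    rq c hc p = rh g := by
  ext u
  have h1 : rh g u ^ 2 * p u = 1 := congrArg (fun φ : X q => φ u) e
  have h2 := rh_pos g u
  have h3 : p u = (rh g u)⁻¹ ^ 2 := by
    rw [inv_pow]
    exact eq_inv_of_mul_eq_one_right h1
  show (√(max (p u) c))⁻¹ = rh g u
  rw [max_eq_left (h u), h3, Real.sqrt_sq (inv_pos.2 h2).le, inv_inv]

end Pool.Agent.Lib.MP_242fd5_gt.Cu
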