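import Pool.Agent.Lib.MP_242fd5_gt.Cu.AP
import Pool.Agent.Lib.MP_242fd5_gt.Cu.Cone
import Pool.Agent.Lib.MP_242fd5_gt.Cu.Sol

set_option autoImplicit false

open MeasureTheory Set Metric Filter Topology
open scoped RealInnerProductSpace

namespace Pool.Agent.Lib.MP_242fd5_gt.Cu

open Ty

variable {q k : ℕ}

namespace FinO

theorem sq_mul_apply {g : G q} {p : X q} (e : rh g ^ 2 * p = 1) (u : Sp q) :
    p u = (rh g u ^ 2)⁻¹ :=
  eq_inv_of_mul_eq_one_right (by simpa using congrArg (fun φ : X q => φ u) e)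

theorem p_pos {g : G q} {p : X q} (e : rh g ^ 2 * p = 1) (u : Sp q) : 0 < p u := by
  have := rh_pos g u
  rw [sq_mul_apply e]
  positivity

theorem rh_le_iff {g h : G q} {p p' : X q} (e : rh g ^ 2 * p = 1) (e' : rh h ^ 2 * p' = 1) {C : ℝ}
    (hC : 0 < C) : rh h ≤ C • rh g ↔ ∀ u, p u ≤ C ^ 2 * p' u := by
  refine forall_congr' fun u => ?_
  have x0 := rh_pos h u
  have y0 := rh_pos g u
  show rh h u ≤ C * rh g u ↔ _
  rw [sq_mul_apply e, sq_mul_apply e', ← div_eq_mul_inv, inv_eq_one_div,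
    div_le_div_iff₀ (by positivity) (by positivity), one_mul, ← mul_pow,
    pow_le_pow_iff_left₀ x0.le (by positivity) two_ne_zero]

theorem exp_sq (ω : ℝ) : Real.exp ω ^ 2 = Real.exp (2 * ω) := by
  rw [two_mul, Real.exp_add, sq]

theorem cmp_of_near {g h : G q} {p p' : X q} (e : rh g ^ 2 * p = 1) (e' : rh h ^ 2 * p' = 1)
    {c δ : ℝ} (hδ : 0 ≤ δ) (hp : ∀ u, c ≤ p u) (hp' : ∀ u, c ≤ p' u) (H : ‖p' - p‖ ≤ 2 * δ * c) :
    Cmp (Real.exp δ) g h := by
  have hu : ∀ u, |p' u - p u| ≤ 2 * δ * c := fun u => ((p' - p).norm_coe_le_norm u).trans H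
  have he := Real.add_one_le_exp (2 * δ)
  rw [cmp_iff, rh_le_iff e e' (Real.exp_pos δ), rh_le_iff e' e (Real.exp_pos δ), exp_sq]
  refine ⟨fun u => ?_, fun u => ?_⟩
  · have h1 := (abs_le.1 (hu u)).1
    have h2 := mul_le_mul_of_nonneg_right he (p_pos e' u).le
    have h3 := mul_le_mul_of_nonneg_left (hp' u) hδ
    linarith
  · have h1 := (abs_le.1 (hu u)).2
    have h2 := mul_le_mul_of_nonneg_right he (p_pos e u).le
    have h3 := mul_le_mul_of_nonneg_left (hp u) hδ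
    linarith

theorem near_of_cmp {g h : G q} {p p' : X q} (e : rh g ^ 2 * p = 1) (e' : rh h ^ 2 * p' = 1)
    {B ω : ℝ} (h0 : 0 ≤ ω) (h1 : ω ≤ 1 / 2) (hp : ‖p‖ ≤ B) (hp' : ‖p'‖ ≤ B)
    (H : Cmp (Real.exp ω) g h) : ‖p' - p‖ ≤ 4 * B * ω := by
  have hB : 0 ≤ B := (norm_nonneg _).trans hp
  rw [cmp_iff, rh_le_iff e e' (Real.exp_pos ω), rh_le_iff e' e (Real.exp_pos ω), exp_sq] at H
  have he : Real.exp (2 * ω) ≤ 1 + 4 * ω := by
    have := Real.abs_exp_sub_one_le (x := 2 * ω) (by rw [abs_of_nonneg (by linarith)]; linarith)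
    rw [abs_of_nonneg (show 0 ≤ 2 * ω by linarith)] at this
    linarith [(abs_le.1 this).2]
  refine (ContinuousMap.norm_le _ (by positivity)).2 fun u => ?_
  have a1 : p u ≤ B := (le_abs_self _).trans ((p.norm_coe_le_norm u).trans hp)
  have a2 : p' u ≤ B := (le_abs_self _).trans ((p'.norm_coe_le_norm u).trans hp')
  have b1 := (H.1 u).trans (mul_le_mul_of_nonneg_right he (p_pos e' u).le)
  have b2 := (H.2 u).trans (mul_le_mul_of_nonneg_right he (p_pos e u).le)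
  have c1 := mul_le_mul_of_nonneg_left a1 h0
  have c2 := mul_le_mul_of_nonneg_left a2 h0
  rw [ContinuousMap.sub_apply, Real.norm_eq_abs, abs_le]
  constructor <;> linarith

theorem exists_chain (E : Cf q k) : ∃ e : ℕ → Cf q k, e 0 = E ∧ ∀ j, JJ (e (j + 1)) = e j := by
  choose K hK using (J_surj : ∀ h : G q, _)
  refine ⟨fun n => fun i => K^[n] (E i), rfl, fun j => funext fun i => ?_⟩
  show J (K^[j + 1] (E i)) = _
  rw [Function.iterate_succ_apply', hK]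

theorem trk_cm {δ : ℝ} (hδ : 0 ≤ δ) (j : ℕ) : ∃ ω : ℝ, 0 ≤ ω ∧ ∀ (M : ℕ) (f : ℕ → X q)
    (g e : ℕ → Cf q k), (∀ j, JJ (e (j + 1)) = e j) → j ≤ M → Trk δ M f g → Cm δ (g 0) (e 0) →
      Cm ω (g j) (e j) := by
  induction j with
  | zero => exact ⟨δ, hδ, fun _ _ _ _ _ _ _ h => h⟩
  | succ j ih =>
    obtain ⟨ω, h0, h⟩ := ih
    refine ⟨3 * (δ + ω), by positivity, fun M f g e he hj T H => Cm.of_JJ (by positivity) ?_⟩
    rw [he]
    exact (T.cm j hj).trans (h M f g e he (by omega) T H)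

theorem trk_bounds (E : Cf q k) (M : ℕ) {δ : ℝ} (hδ : 0 ≤ δ) : ∃ c B : ℝ, 0 < c ∧ 0 < B ∧
    ∀ (f : ℕ → X q) (g : ℕ → Cf q k) (σ : Equiv.Perm (Fin k)), Trk δ M f g →
      Cm δ (g 0) (E ∘ σ) → ∀ (i : Fin k) (p : X q), rh (g M i) ^ 2 * p = 1 →
        (∀ u, 2 * c ≤ p u) ∧ ‖p‖ ≤ B := by
  obtain ⟨e, e0, he⟩ := exists_chain E
  obtain ⟨ω, -, h⟩ := trk_cm (q := q) (k := k) hδ M
  choose pe _ hpe using fun i => inv_sq_mem (e M i)
  have t0 : 0 ≤ ∑ i, ‖rh (e M i)‖ := Finset.sum_nonneg fun _ _ => norm_nonneg _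
  have t1 : 0 ≤ ∑ i, ‖pe i‖ := Finset.sum_nonneg fun _ _ => norm_nonneg _
  have x0 := Real.exp_pos ω
  refine ⟨((Real.exp ω * (∑ i, ‖rh (e M i)‖ + 1)) ^ 2)⁻¹ / 2,
    Real.exp ω ^ 2 * (∑ i, ‖pe i‖ + 1), by positivity, by positivity, fun f g σ T H i p hp => ?_⟩
  have h1 := (cmp_iff _ _).1 (h M f g (fun j => e j ∘ σ) (fun j => by rw [JJ_perm, he]) le_rfl T
    (by simpa only [e0] using H) i)
  refine ⟨fun u => ?_, (ContinuousMap.norm_le _ (by positivity)).2 fun u => ?_⟩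
  · have h2 : rh (g M i) u ≤ Real.exp ω * rh (e M (σ i)) u := h1.2 u
    have h3 : rh (e M (σ i)) u ≤ ∑ i, ‖rh (e M i)‖ + 1 :=
      (((le_abs_self _).trans ((rh (e M (σ i))).norm_coe_le_norm u)).trans
        (Finset.single_le_sum (f := fun i => ‖rh (e M i)‖) (fun _ _ => norm_nonneg _)
          (Finset.mem_univ _))).trans (by linarith)
    have h4 := rh_pos (g M i) u
    rw [sq_mul_apply hp, mul_div_cancel₀ _ two_ne_zero]
    exact inv_anti₀ (by positivity)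
      (pow_le_pow_left₀ h4.le (h2.trans (mul_le_mul_of_nonneg_left h3 x0.le)) 2)
  · have h2 := (rh_le_iff hp (hpe (σ i)) x0).1 h1.1 u
    have h3 : pe (σ i) u ≤ ∑ i, ‖pe i‖ + 1 :=
      (((le_abs_self _).trans ((pe (σ i)).norm_coe_le_norm u)).trans
        (Finset.single_le_sum (f := fun i => ‖pe i‖) (fun _ _ => norm_nonneg _)
          (Finset.mem_univ _))).trans (by linarith)
    rw [Real.norm_eq_abs, abs_of_pos (p_pos hp u)]
    exact h2.trans (mul_le_mul_of_nonneg_left h3 (by positivity))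

theorem trk_mono {δ δ' : ℝ} {M : ℕ} {f : ℕ → X q} {g : ℕ → Cf q k} (T : Trk δ M f g) (h0 : 0 ≤ δ)
    (h : δ ≤ δ') : Trk δ' M f g :=
  ⟨T.orb, fun j hj => (T.ad j hj).mono h0 h, fun j hj => (T.cl j hj).trans h,
    fun j hj => (T.cm j hj).mono h⟩

theorem coord_bd {W : Type} [NormedAddCommGroup W] [NormedSpace ℝ W] {n : ℕ}
    (β : Module.Basis (Fin n) ℝ W) : ∃ C : ℝ, 0 < C ∧ ∀ w l, |β.repr w l| ≤ C * ‖w‖ := by
  obtain ⟨C, h0, h⟩ := (β.equivFunL : W →L[ℝ] (Fin n → ℝ)).bound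
  exact ⟨C, h0, fun w l => (norm_le_pi_norm (β.equivFun w) l).trans (h w)⟩

noncomputable instance nQ : NormedAddCommGroup (Q q) := Submodule.normedAddCommGroup (Q q)

noncomputable instance sQ : NormedSpace ℝ (Q q) := Submodule.normedSpace (Q q)

/-- the dimension of the space of quadratic forms -/
noncomputable abbrev dQ (q : ℕ) : ℕ := Module.finrank ℝ (Q q)

/-- a basis of the quadratic forms -/
noncomputable def bQ (q : ℕ) : Module.Basis (Fin (dQ q)) ℝ (Q q) := Module.finBasis ℝ (Q q)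

/-- the moments seen from `E` -/
noncomputable def mom (E : Cf q k) : X q →L[ℝ] (Fin k → Fin (dQ q) → ℝ) :=
  ContinuousLinearMap.pi fun i => ContinuousLinearMap.pi fun l =>
    I.comp (((ContinuousLinearMap.mul ℝ (X q)).flip (bQ q l)).comp (act 1 (E i)))

theorem mom_apply (E : Cf q k) (d : X q) (i : Fin k) (p : Q q) :
    I (act 1 (E i) d * (p : X q)) = ∑ l, (bQ q).repr p l * mom E d i l := by
  conv_lhs => rw [← (bQ q).sum_repr p]
  simp only [Submodule.coe_sum, Submodule.coe_smul, Finset.mul_sum, mul_smul_comm, map_sum,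
    map_smul, smul_eq_mul]
  rfl

theorem mo_norm (q k : ℕ) : ∃ C : ℝ, 0 < C ∧ ∀ (E : Cf q k) (d : X q), Mo E d (C * ‖mom E d‖) := by
  obtain ⟨C, h1, h⟩ := Q_sup q
  obtain ⟨C', h2, h'⟩ := coord_bd (bQ q)
  refine ⟨(dQ q + 1) * (C' * C), by positivity, fun E d i p hp => ?_⟩
  have h3 : ∀ l, |(bQ q).repr ⟨p, hp⟩ l * mom E d i l| ≤ C' * (C * l2 p) * ‖mom E d‖ := fun l => by
    rw [abs_mul]
    exact mul_le_mul ((h' _ l).trans (mul_le_mul_of_nonneg_left (h p hp) h2.le))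
      ((norm_le_pi_norm (mom E d i) l).trans (norm_le_pi_norm (mom E d) i)) (abs_nonneg _)
      (by have := l2_nonneg p; positivity)
  have h4 : 0 ≤ C' * (C * l2 p) * ‖mom E d‖ := by have := l2_nonneg p; positivity
  have h5 := (Finset.abs_sum_le_sum_abs _ _).trans
    (Finset.sum_le_card_nsmul Finset.univ _ _ fun l _ => h3 l)
  rw [← mom_apply, Finset.card_fin, nsmul_eq_mul] at h5
  linarith

theorem mo_smul {E : Cf q k} {d d0 : X q} {τ x : ℝ} (hτ : τ ∈ Icc (0:ℝ) 1)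
    (e : mom E d = τ • mom E d0) (H : Mo E d0 x) : Mo E d x := by
  intro i p hp
  have h1 : I (act 1 (E i) d * p) = τ * I (act 1 (E i) d0 * p) := by
    rw [mom_apply E d i ⟨p, hp⟩, mom_apply E d0 i ⟨p, hp⟩, e, Finset.mul_sum]
    exact Finset.sum_congr rfl fun l _ => mul_left_comm _ _ _
  rw [h1, abs_mul, abs_of_nonneg hτ.1]
  exact (mul_le_of_le_one_left (abs_nonneg _) hτ.2).trans (H i p hp)

theorem mo_zero {E : Cf q k} {d : X q} (e : mom E d = 0) : Mo E d 0 := by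
  obtain ⟨C, -, h⟩ := mo_norm q k
  simpa [e] using h E d

theorem finrank_eq (q k : ℕ) :
    Module.finrank ℝ (Fin k → Q q) = Module.finrank ℝ (Fin k → Fin (dQ q) → ℝ) :=
  (LinearEquiv.piCongrRight fun _ => (bQ q).equivFun).finrank_eq

theorem contDiff_iter (M : ℕ) : ContDiff ℝ 1 (N^[M] : X q → X q) := by
  induction M with
  | zero => exact contDiff_id
  | succ M ih => rw [Function.iterate_succ]; exact ih.comp contDiff_N

/-- the radial functions attached to a tuple of quadratic forms -/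
noncomputable def RR (c : ℝ) (hc : 0 < c) (P : Fin k → Q q) (i : Fin k) : X q := rq c hc (P i)

theorem cont_RR {c : ℝ} (hc : 0 < c) (i : Fin k) : Continuous fun P : Fin k → Q q => RR c hc P i :=
  (continuous_rq hc).comp (continuous_subtype_val.comp (continuous_apply i))

theorem exists_cf {c : ℝ} (hc : 0 < c) {P : Fin k → Q q} (h : ∀ i u, c ≤ (P i : X q) u) :
    ∃ g : Cf q k, (∀ i, rh (g i) ^ 2 * P i = 1) ∧ ∀ i, RR c hc P i = rh (g i) := by
  choose g hg using fun i => exists_rh (P i).2 fun u => hc.trans_le (h i u)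
  exact ⟨g, hg, fun i => rq_eq hc (h i) (hg i)⟩

theorem strict_sum {c : ℝ} (hc : 0 < c) {P : Fin k → Q q} (h : ∀ i u, c < (P i : X q) u) :
    ∃ D : (Fin k → Q q) →L[ℝ] X q,
      HasStrictFDerivAt (fun P : Fin k → Q q => ∑ i, RR c hc P i) D P := by
  choose D hD using fun i => rq_strict hc (h i)
  refine ⟨_, HasStrictFDerivAt.fun_sum fun i _ => (hD i).comp P
    ((Q q).subtypeL.comp (ContinuousLinearMap.proj (R := ℝ) (φ := fun _ : Fin k => Q q)
      i)).hasStrictFDerivAt⟩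

/-- the continuation argument -/
theorem cont (E : Cf q k) (M : ℕ) {δ0 δ1 a a1 x0 δ C : ℝ} (hδ1 : 0 ≤ δ1) (h01 : δ1 < δ0)
    (ha : a1 < a) (hδ : 0 < δ) (hC : 1 ≤ C)
    (HA : ∀ g : Cf q k, Ad δ0 g → z (N^[M] (b g) - b E) ≤ a → Ad δ1 g ∧
      (∃ (gs : ℕ → Cf q k) (σ : Equiv.Perm (Fin k)), gs M = g ∧
        Trk (δ / 2) M (fun j => N^[M - j] (b g)) gs ∧ Cm (δ / 2) (gs 0) (E ∘ σ)) ∧
      (Mo E (N^[M] (b g) - b E) x0 → z (N^[M] (b g) - b E) ≤ a1))
    (HL : ∀ (f f' : ℕ → X q) (g : ℕ → Cf q k) (h E : Cf q k) (x : ℝ), Trk δ M f g → Orb M f' →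
      (∀ j ≤ M, z (f' j - b (g j)) ≤ δ) → f M = b (g M) → f' M = b h → Cm δ (g M) h →
      Cm δ (g 0) E → 0 ≤ x → Mo E (f 0 - f' 0) x → Cm (C * x) (g M) h)
    {g0 : Cf q k} (A0 : Ad δ0 g0) (Z0 : z (N^[M] (b g0) - b E) ≤ a)
    (M0 : Mo E (N^[M] (b g0) - b E) x0) :
    ∃ g : Cf q k, Ad δ0 g ∧ z (N^[M] (b g) - b E) ≤ a ∧ Mo E (N^[M] (b g) - b E) 0 := by
  obtain ⟨c, B, hc, hB, hb⟩ := trk_bounds E M (half_pos hδ).le
  obtain ⟨CQ, hCQ, hmo⟩ := mo_norm q k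
  have bd : ∀ g : Cf q k, Ad δ0 g → z (N^[M] (b g) - b E) ≤ a → ∀ P : Fin k → Q q,
      (∀ i, rh (g i) ^ 2 * P i = 1) → (∀ i u, 2 * c ≤ (P i : X q) u) ∧ ‖P‖ ≤ B := by
    intro g h1 h2 P hP
    obtain ⟨-, ⟨gs, σ, e, T, H⟩, -⟩ := HA g h1 h2
    subst e
    exact ⟨fun i => (hb _ gs σ T H i _ (hP i)).1,
      (pi_norm_le_iff_of_nonneg hB.le).2 fun i => (hb _ gs σ T H i _ (hP i)).2⟩
  set Bs : (Fin k → Q q) → X q := fun P => ∑ i, RR c hc P i with hBs
  set vF : Fin k → (Fin k → Q q) → ℝ := fun i P => |I (RR c hc P i ^ (q + 3)) - 1| with hvF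
  set sF : (Fin k → Q q) → ℝ := fun P =>
    ∑ i, ∑ j ∈ Finset.univ.erase i, I (RR c hc P i ^ (q + 2) * RR c hc P j) with hsF
  set Θ : (Fin k → Q q) → (Fin k → Fin (dQ q) → ℝ) := fun P => mom E (N^[M] (Bs P) - b E) with hΘ
  have cB : Continuous Bs := continuous_finsetSum _ fun i _ => cont_RR hc i
  have cO : ∀ m, Continuous fun P => N^[m] (Bs P) := fun m => (contDiff_iter m).continuous.comp cB
  have cv : ∀ i, Continuous (vF i) := fun i =>
    ((I.continuous.comp ((cont_RR hc i).pow _)).sub continuous_const).abs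
  have cs : Continuous sF := continuous_finsetSum _ fun i _ => continuous_finsetSum _ fun j _ =>
    I.continuous.comp (((cont_RR hc i).pow _).mul (cont_RR hc j))
  have cz : Continuous fun P => z (N^[M] (Bs P) - b E) :=
    continuous_z.comp ((cO M).sub continuous_const)
  have cΘ : Continuous Θ := (mom E).continuous.comp ((cO M).sub continuous_const)
  have tr : ∀ (P : Fin k → Q q) (g : Cf q k), (∀ i, RR c hc P i = rh (g i)) →
      Bs P = b g ∧ (∀ i, vF i P = |jac (g i) - 1|) ∧ sF P = la g := by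
    intro P g h
    refine ⟨?_, fun i => ?_, ?_⟩
    · simp only [hBs, h, b]
    · simp only [hvF, h, I_rh]
    · simp only [hsF, h, la, io]
  set S : Set (Fin k → Q q) := {P | (∀ i u, c ≤ (P i : X q) u) ∧ ‖P‖ ≤ B + 1 ∧
    (∀ i, vF i P ≤ δ0) ∧ sF P ≤ δ0 ^ 2 ∧ z (N^[M] (Bs P) - b E) ≤ a} with hS
  have ex : ∀ P ∈ S, ∃ g : Cf q k, (∀ i, rh (g i) ^ 2 * P i = 1) ∧ Bs P = b g ∧
      (∀ i, vF i P = |jac (g i) - 1|) ∧ sF P = la g ∧ Ad δ0 g ∧ z (N^[M] (b g) - b E) ≤ a := by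
    rintro P ⟨h1, -, h3, h4, h5⟩
    obtain ⟨g, e1, e2⟩ := exists_cf hc h1
    obtain ⟨t1, t2, t3⟩ := tr P g e2
    exact ⟨g, e1, t1, t2, t3, ⟨fun i => t2 i ▸ h3 i, t3 ▸ h4⟩, t1 ▸ h5⟩
  have clS : IsClosed S := by
    refine IsClosed.and ?_ ((isClosed_le continuous_norm continuous_const).and (IsClosed.and ?_
      ((isClosed_le cs continuous_const).and (isClosed_le cz continuous_const))))
    · simp only [ofPred_forall]
      exact isClosed_iInter fun i => isClosed_iInter fun u => isClosed_le continuous_const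
        ((continuous_eval_const u).comp (continuous_subtype_val.comp (continuous_apply i)))
    · simp only [ofPred_forall]
      exact isClosed_iInter fun i => isClosed_le (cv i) continuous_const
  choose p0 m0 e0 using fun i => inv_sq_mem (g0 i)
  set P0 : Fin k → Q q := fun i => ⟨p0 i, m0 i⟩ with hP0
  obtain ⟨l0, u0⟩ := bd g0 A0 Z0 P0 e0
  have l0' : ∀ i u, c ≤ (P0 i : X q) u := fun i u => by linarith [l0 i u]
  obtain ⟨t1, t2, t3⟩ := tr P0 g0 fun i => rq_eq hc (l0' i) (e0 i)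
  have S0 : P0 ∈ S := ⟨l0', by linarith, fun i => (t2 i).trans_le (A0.vol i),
    t3.trans_le A0.sep, t1 ▸ Z0⟩
  refine Exists.elim (sol (finrank_eq q k) (S := S) (Θ := Θ) S0 ?_ ?_) ?_
  rotate_right
  · rintro P ⟨hP, e⟩
    obtain ⟨g, -, e1, -, -, h1, h2⟩ := ex P hP
    exact ⟨g, h1, h2, mo_zero (e1 ▸ e)⟩
  · refine (isCompact_closedBall (0 : Fin k → Q q) (B + 1)).of_isClosed_subset (clS.and ?_)
      fun P hP => mem_closedBall_zero_iff.2 hP.1.2.1
    have : IsClosed ((fun τ : ℝ => τ • Θ P0) '' Icc 0 1) :=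
      (isCompact_Icc.image (continuous_id.smul continuous_const)).isClosed
    have e : {P | ∃ τ ∈ Icc (0:ℝ) 1, Θ P = τ • Θ P0} =
        Θ ⁻¹' ((fun τ : ℝ => τ • Θ P0) '' Icc 0 1) :=
      Set.ext fun P => exists_congr fun τ => and_congr_right fun _ => eq_comm
    rw [e]
    exact this.preimage cΘ
  rintro P hP ⟨τ, hτ, eτ⟩
  obtain ⟨g, e1, e2, e3, e4, h1, h2⟩ := ex P hP
  obtain ⟨l1, u1⟩ := bd g h1 h2 P e1
  obtain ⟨h3, ⟨gs, σ, e, T, H⟩, h4⟩ := HA g h1 h2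
  subst e
  have h5 : Mo E (N^[M] (b (gs M)) - b E) x0 := by
    refine mo_smul hτ ?_ M0
    rw [← e2, ← t1]
    exact eτ
  have nb : ∀ η : ℝ, 0 < η → ∀ᶠ P' in 𝓝 P, ‖P' - P‖ < η := fun η hη => by
    filter_upwards [ball_mem_nhds P hη] with P' h using mem_ball_iff_norm.1 h
  have hn : S ∈ 𝓝 P := by
    have a1 : ∀ᶠ P' in 𝓝 P, ‖P'‖ < B + 1 :=
      continuous_norm.continuousAt.eventually (gt_mem_nhds (by linarith))
    have a2 : ∀ᶠ P' in 𝓝 P, ∀ i, vF i P' < δ0 := eventually_all.2 fun i =>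
      (cv i).continuousAt.eventually (gt_mem_nhds ((e3 i).trans_lt ((h3.vol i).trans_lt h01)))
    have a3 : ∀ᶠ P' in 𝓝 P, sF P' < δ0 ^ 2 := cs.continuousAt.eventually
      (gt_mem_nhds (e4.trans_lt (h3.sep.trans_lt (pow_lt_pow_left₀ h01 hδ1 two_ne_zero))))
    have a4 : ∀ᶠ P' in 𝓝 P, z (N^[M] (Bs P') - b E) < a := cz.continuousAt.eventually
      (gt_mem_nhds (by beta_reduce; rw [e2]; exact (h4 h5).trans_lt ha))
    filter_upwards [nb c hc, a1, a2, a3, a4] with P' b0 b1 b2 b3 b4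
    refine ⟨fun i u => ?_, b1.le, fun i => (b2 i).le, b3.le, b4.le⟩
    have h6 : |(P' i : X q) u - (P i : X q) u| ≤ ‖P' - P‖ :=
      (((P' i : X q) - P i).norm_coe_le_norm u).trans (norm_le_pi_norm (P' - P) i)
    linarith [(abs_le.1 h6).1, l1 i u]
  refine ⟨hn, ?_, (4 * (B + 1) * (C * CQ))⁻¹, by positivity, ?_⟩
  · obtain ⟨D, hD⟩ := strict_sum hc (P := P) fun i u => by linarith [l1 i u]
    exact ⟨_, (mom E).hasStrictFDerivAt.comp P
      (((((contDiff_iter M).contDiffAt.hasStrictFDerivAt one_ne_zero).comp P hD)).sub_const (b E))⟩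
  have a1 : ∀ᶠ P' in 𝓝 P, ∀ j : Fin (M + 1),
      z (N^[M - j] (Bs P') - N^[M - j] (Bs P)) < δ / 2 := eventually_all.2 fun j =>
    (continuous_z.comp ((cO _).sub continuous_const)).continuousAt.eventually
      (gt_mem_nhds (by simpa [z_zero] using hδ))
  have a2 : ∀ᶠ P' in 𝓝 P, C * (CQ * ‖Θ P' - Θ P‖) < 1 / 2 :=
    (continuous_const.mul (continuous_const.mul
      (cΘ.sub continuous_const).norm)).continuousAt.eventually (gt_mem_nhds
        (show C * (CQ * ‖Θ P - Θ P‖) < 1 / 2 by rw [sub_self, norm_zero]; norm_num))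
  filter_upwards [hn, nb (2 * δ * c) (by positivity), a1, a2] with P' b0 b1 b2 b3
  obtain ⟨h, f1, f2, -⟩ := ex P' b0
  have hx : 0 ≤ CQ * ‖Θ P' - Θ P‖ := by positivity
  have key := HL _ (fun j => N^[M - j] (b h)) gs h (E ∘ σ) _
    (trk_mono T (half_pos hδ).le (half_le_self hδ.le)) (orb_iter M (b_nonneg h))
    (fun j hj => by
      have h6 := b2 ⟨j, by omega⟩
      rw [f2, e2] at h6
      linarith [z_tri (N^[M - j] (b h)) (N^[M - j] (b (gs M))) (b (gs j)), T.cl j hj])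
    (by simp) (by simp)
    (fun i => cmp_of_near (e1 i) (f1 i) hδ.le (hP.1 i) (b0.1 i)
      ((norm_le_pi_norm (P' - P) i).trans b1.le))
    (H.mono (half_le_self hδ.le)) hx
    ((mo_perm σ).2 (by
      have h6 := (hmo E (N^[M] (b h) - N^[M] (b (gs M)))).neg
      have h7 : Θ P' - Θ P = mom E (N^[M] (b h) - N^[M] (b (gs M))) := by
        simp only [hΘ, f2, e2, map_sub, sub_sub_sub_cancel_right]
      rw [h7]
      simpa using h6))
  rw [inv_mul_le_iff₀ (by positivity)]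
  refine (pi_norm_le_iff_of_nonneg (by positivity)).2 fun i => ?_
  refine (near_of_cmp (e1 i) (f1 i) (by positivity) b3.le ((norm_le_pi_norm P i).trans hP.2.1)
    ((norm_le_pi_norm P' i).trans b0.2.1) (key i)).trans_eq ?_
  ring

end FinO

open FinO in
/-- orbits of every finite length that end centred at `E` -/
theorem fin_orbit (q : ℕ) (hk : 1 ≤ k) {a : ℝ} (ha : 0 < a) : ∃ r : ℝ, 0 < r ∧ ∀ E : Cf q k,
    Ad r E → ∀ M : ℕ, ∃ gM : Cf q k, Ad a gM ∧ z (N^[M] (b gM) - b E) ≤ a ∧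
      Mo E (N^[M] (b gM) - b E) 0 := by
  obtain ⟨δ0, C, d0, d1, hC, hAP⟩ := AP q hk
  obtain ⟨CL, δ, hCL, hδ, hLG⟩ := LG q k
  obtain ⟨C4, hC4, h4⟩ := M4 q k
  obtain ⟨Cc, hCc, hch⟩ := chain q k
  obtain ⟨K, hK⟩ : ∃ K : ℝ, K = (q + 2) * 2 ^ (q + 2) * (2 * C4 + 1) ^ (q + 1) := ⟨_, rfl⟩
  have K0 : 0 ≤ K := by rw [hK]; positivity
  obtain ⟨κ, hκ⟩ : ∃ κ : ℝ, κ = (2 * C * (C4 * (K * C + 1) + 1))⁻¹ := ⟨_, rfl⟩
  have κ0 : 0 < κ := by rw [hκ]; positivity
  have κ1 : 2 * C * (C4 * (K * C + 1) + 1) * κ = 1 := by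
    rw [hκ]; exact mul_inv_cancel₀ (by positivity)
  have κ2 : C4 * ((K * C + 1) * κ) + κ ≤ 1 / 2 := by
    have : 0 ≤ C4 * ((K * C + 1) * κ) + κ := by positivity
    nlinarith
  have κ3 : (K * C + 1) * κ ≤ 1 / 2 := by
    have : 0 ≤ (K * C + 1) * κ := by positivity
    nlinarith
  have κ4 : κ ≤ 1 := by
    have : 0 ≤ K * C * κ := by positivity
    linarith
  obtain ⟨a0, ha0, hA⟩ := hAP κ (δ / 2) κ0 κ4 (half_pos hδ)
  obtain ⟨δ5, hδ5, h5⟩ := M5 q k κ0
  obtain ⟨s, s0, s1, s2, s3⟩ : ∃ s : ℝ, 0 < s ∧ s ≤ a0 ∧ C * s ≤ a ∧ C * s ≤ δ0 / 2 :=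
    ⟨min a0 (min a (δ0 / 2) / C), by positivity, min_le_left _ _,
      by
        have := (le_div_iff₀' (by linarith)).1 (min_le_right a0 (min a (δ0 / 2) / C))
        exact this.trans (min_le_left _ _),
      by
        have := (le_div_iff₀' (by linarith)).1 (min_le_right a0 (min a (δ0 / 2) / C))
        exact this.trans (min_le_right _ _)⟩
  have s4 : s ≤ C * s := le_mul_of_one_le_left s0.le hC
  have HA : ∀ (M : ℕ) (E g : Cf q k), Ad s E → Ad δ0 g → z (N^[M] (b g) - b E) ≤ s →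
      Ad (C * s) g ∧ (∃ (gs : ℕ → Cf q k) (σ : Equiv.Perm (Fin k)), gs M = g ∧
        Trk (δ / 2) M (fun j => N^[M - j] (b g)) gs ∧ Cm (δ / 2) (gs 0) (E ∘ σ)) ∧
      ∀ x, 0 ≤ x → Mo E (N^[M] (b g) - b E) x → z (N^[M] (b g) - b E) ≤ C * (x + κ * s) := by
    intro M E g h1 h2 h3
    obtain ⟨b1, -, b2, b3⟩ := hA s M (fun j => N^[M - j] (b g)) g E s0 s1
      (orb_iter M (b_nonneg g)) h2 (by simpa [z_zero] using (mul_pos κ0 s0).le) h1 h3
    exact ⟨b1, b2, b3⟩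
  obtain ⟨r, r0, r1, r2⟩ : ∃ r : ℝ, 0 < r ∧ r ≤ s ∧ r ≤ δ5 :=
    ⟨min s δ5, by positivity, min_le_left _ _, min_le_right _ _⟩
  have main : ∀ (M : ℕ) (e : ℕ → Cf q k), (∀ j, JJ (e (j + 1)) = e j ∧ Ad r (e j)) →
      ∃ g : Cf q k, Ad δ0 g ∧ z (N^[M] (b g) - b (e 0)) ≤ s ∧
        Mo (e 0) (N^[M] (b g) - b (e 0)) 0 := by
    intro M
    induction M with
    | zero =>
      intro e he
      refine ⟨e 0, (he 0).2.mono r0.le (by linarith), by simpa [z_zero] using s0.le, ?_⟩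
      exact mo_zero (by simp)
    | succ M ih =>
      intro e he
      obtain ⟨g, g1, g2, g3⟩ := ih (fun j => e (j + 1)) fun j => he (j + 1)
      have v : ∀ j i, |jac (e j i) - 1| ≤ 1 / 2 := fun j i =>
        ((he j).2.vol i).trans (by linarith)
      have y1 := (HA M (e 1) g ((he 1).2.mono r0.le r1) g1 g2).2.2 0 le_rfl g3
      have f0 : 0 ≤ N^[M] (b g) := (orb_iter M (b_nonneg g)).nn 0 (Nat.zero_le _)
      have y2 : z (N^[M] (b g)) + z (b (e 1)) ≤ 2 * C4 + 1 := by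
        have := z_add_le (N^[M] (b g) - b (e 1)) (b (e 1))
        rw [sub_add_cancel] at this
        have g2' : z (N^[M] (b g) - b (e 1)) ≤ s := g2
        linarith [(h4 (e 1) (v 1)).1]
      have y3 : z (N (N^[M] (b g)) - N (b (e 1))) ≤ K * (C * (0 + κ * s)) := by
        refine (N_lip f0 (b_nonneg _)).trans (mul_le_mul ?_ y1 (z_nonneg _) K0)
        rw [hK]
        exact mul_le_mul_of_nonneg_left
          (pow_le_pow_left₀ (add_nonneg (z_nonneg _) (z_nonneg _)) y2 _) (by positivity)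
      have y4 : z (Xc (e 1)) ≤ κ * s := h5 (e 1) s s0.le
        ((he 1).2.sep.trans (by nlinarith)) ((he 1).2.sep.trans (pow_le_pow_left₀ r0.le r1 2))
      have y5 : z (N^[M + 1] (b g) - b (e 0)) ≤ (K * C + 1) * κ * s := by
        have : N^[M + 1] (b g) - b (e 0) = (N (N^[M] (b g)) - N (b (e 1))) + Xc (e 1) := by
          rw [Function.iterate_succ_apply', Xc, (he 0).1]
          abel
        rw [this]
        linarith [z_add_le (N (N^[M] (b g)) - N (b (e 1))) (Xc (e 1))]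
      have x0 : 0 ≤ C4 * ((K * C + 1) * κ * s) := by positivity
      refine cont (e 0) (M + 1) (δ1 := C * s) (a1 := s / 2) (x0 := C4 * ((K * C + 1) * κ * s))
        (C := CL * 2 ^ (M + 1)) (by positivity) (by linarith) (half_lt_self s0) hδ
        (one_le_mul_of_one_le_of_one_le hCL (one_le_pow₀ one_le_two)) (fun g' b1 b2 => ?_)
        (hLG (M + 1)) g1 (y5.trans (by nlinarith)) ((Mo_t _ _).mono
          (((h4 (e 0) (v 0)).2 _).trans (mul_le_mul_of_nonneg_left y5 (by linarith))))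
      obtain ⟨c1, c2, c3⟩ := HA (M + 1) (e 0) g' ((he 0).2.mono r0.le r1) b1 b2
      refine ⟨c1, c2, fun h => (c3 _ x0 h).trans_eq ?_⟩
      linear_combination s / 2 * κ1
  refine ⟨r / Cc, by positivity, fun E hE M => ?_⟩
  have r3 : r / Cc ≤ r := div_le_self r0.le hCc
  obtain ⟨e, e0, he⟩ := hch (r / Cc) E (by positivity) (by linarith) hE
  rw [mul_div_cancel₀ _ (by positivity)] at he
  obtain ⟨g, g1, g2, g3⟩ := main M e he
  rw [e0] at g2 g3
  exact ⟨g, (HA M E g (hE.mono (by positivity) (r3.trans r1)) g1 g2).1.mono (by positivity) s2,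
    by linarith, g3⟩

end Pool.Agent.Lib.MP_242fd5_gt.Cu
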