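import Pool.Agent.Lib.MP_242fd5_gt.Cu.B2
import Pool.Agent.Lib.MP_242fd5_gt.Ty.F1Gap

set_option autoImplicit false

open MeasureTheory Set Metric Filter Topology
open scoped RealInnerProductSpace

namespace Pool.Agent.Lib.MP_242fd5_gt.Cu

open Ty

variable {q k : ℕ}

lemma lf_apply (a : V (q + 3)) (u : Sp q) : lf a u = ⟪(u : V (q + 3)), a⟫ :=
  real_inner_comm (u : V (q + 3)) a

lemma sq_mem_Q (a : V (q + 3)) : lf a ^ 2 ∈ Q q := Submodule.subset_span ⟨a, rfl⟩

instance finQ : FiniteDimensional ℝ (Q q) := by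
  let s : Fin (q + 3) × Fin (q + 3) → X q := fun p =>
    lf (EuclideanSpace.single p.1 1) * lf (EuclideanSpace.single p.2 1)
  have := FiniteDimensional.span_of_finite ℝ (finite_range s)
  refine Submodule.finiteDimensional_of_le (S₂ := Submodule.span ℝ (range s))
    (Submodule.span_le.2 ?_)
  rintro _ ⟨a, rfl⟩
  have : lf a ^ 2 = ∑ p : Fin (q + 3) × Fin (q + 3), (a p.1 * a p.2) • s p := by
    ext u
    simp only [s, ContinuousMap.pow_apply, ContinuousMap.coe_sum, Finset.sum_apply,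
      ContinuousMap.smul_apply, ContinuousMap.mul_apply, lf_apply, smul_eq_mul,
      EuclideanSpace.inner_single_right, conj_trivial, one_mul]
    rw [PiLp.inner_apply, sq, Finset.sum_mul_sum, Fintype.sum_prod_type]
    refine Finset.sum_congr rfl fun i _ => Finset.sum_congr rfl fun j _ => ?_
    simp only [RCLike.inner_apply, conj_trivial]
    ring
  simp only [this]
  exact sum_mem fun p _ => Submodule.smul_mem _ _ (Submodule.subset_span ⟨p, rfl⟩)

theorem one_mem_Q : (1 : X q) ∈ Q q := by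
  have : (1 : X q) = ∑ i, lf (EuclideanSpace.single i 1) ^ 2 := by
    ext u
    simp [lf_apply, EuclideanSpace.inner_single_right, ← EuclideanSpace.real_norm_sq_eq]
  rw [this]
  exact sum_mem fun i _ => sq_mem_Q _

/-- the embedding into `L^2` -/
noncomputable def emb (q : ℕ) : X q →ₗ[ℝ] Lp ℝ 2 (mu (q + 3)) :=
  (√(om (q + 3)))⁻¹ • (toL (q + 2)).comp
    ({ toFun := fun φ => ⟨ext φ, _, bm_ext φ⟩
       map_add' := fun φ ψ => Subtype.ext (ext_add φ ψ)
       map_smul' := fun c φ => Subtype.ext (ext_smul c φ) } : X q →ₗ[ℝ] BW (q + 3))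

lemma inner_emb (φ ψ : X q) : ⟪emb q φ, emb q ψ⟫ = I (ψ * φ) := by
  have o := om_pos (q + 3)
  simp only [emb, LinearMap.smul_apply, LinearMap.comp_apply, inner_smul_left, inner_smul_right,
    conj_trivial]
  rw [inner_toL, int_up (ψ * φ) fun u => by simp, ← mul_assoc, ← mul_inv,
    Real.mul_self_sqrt o.le, inv_mul_cancel_left₀ o.ne']

lemma norm_emb (φ : X q) : ‖emb q φ‖ = l2 φ := by
  rw [l2, ← inner_emb, norm_eq_sqrt_real_inner]

theorem Q_sup (q : ℕ) : ∃ C : ℝ, 1 ≤ C ∧ ∀ p ∈ Q q, ‖p‖ ≤ C * l2 p := by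
  obtain ⟨K, -, hK⟩ := LinearMap.exists_antilipschitzWith (𝕜 := ℝ) (E := Q q)
    (F := Lp ℝ 2 (mu (q + 3))) ((emb q).comp (Q q).subtype) (by
    rw [LinearMap.ker_eq_bot']
    intro p hp
    exact Subtype.ext (eq_zero_of_l2 (by rw [← norm_emb]; exact norm_eq_zero.2 hp)))
  refine ⟨K + 1, by simp, fun p hp => ?_⟩
  have := ZeroHomClass.bound_of_antilipschitz _ hK ⟨p, hp⟩
  rw [LinearMap.comp_apply, norm_emb] at this
  exact this.trans (mul_le_mul_of_nonneg_right (by simp) (l2_nonneg _))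

lemma le_of_sq_le_mul {x y : ℝ} (hy : 0 ≤ y) (h : x ^ 2 ≤ x * y) : x ≤ y := by
  by_contra hh
  nlinarith [not_le.1 hh]

theorem exists_proj (φ : X q) : ∃ p ∈ Q q, (∀ p' ∈ Q q, I ((φ - p) * p') = 0) ∧
    l2 p ^ 2 = I (φ * p) ∧ l2 p ≤ l2 φ ∧ ∀ p' ∈ Q q, l2 (φ - p) ≤ l2 (φ - p') := by
  obtain ⟨p, hp, h⟩ := Ty.exists_proj (emb q) (fun _ => Q q) 0 φ
  have h1 : ∀ p' ∈ Q q, I ((φ - p) * p') = 0 := fun p' hp' => by
    rw [← inner_emb]; exact h _ ⟨p', hp', rfl⟩
  have h2 : l2 p ^ 2 = I (φ * p) := by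
    have := h1 p hp
    rw [sub_mul, map_sub] at this
    rw [l2_sq]; linarith
  refine ⟨p, hp, h1, h2, le_of_sq_le_mul (l2_nonneg _) ?_, fun p' hp' =>
    le_of_sq_le_mul (l2_nonneg _) ?_⟩
  · rw [h2, mul_comm (l2 p)]
    exact (le_abs_self _).trans (cs _ _)
  · refine le_trans (le_of_eq ?_) ((le_abs_self _).trans (cs _ _))
    rw [l2_sq, ← add_zero (I _), ← h1 _ (sub_mem hp hp'), ← map_add]
    congr 1
    ring

lemma cm_two_le (N : ℕ) : 4 * cm (N + 1) 2 ≤ 3 * cm (N + 1) 1 := by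
  have i : ∀ (a : V (N + 2)) m, Integrable (fun x => ⟪x, a⟫ ^ m) (mu (N + 2)) := fun a m =>
    (pw a m).2.choose_spec.int_mu
  set a : V (N + 2) := EuclideanSpace.single 0 1 with ha
  set c : V (N + 2) := EuclideanSpace.single 1 1 with hc
  have na : ‖a‖ = 1 := by simp [ha]
  have nc : ‖c‖ = 1 := by simp [hc]
  have ac : ⟪a, c⟫ = 0 := by simp [ha, hc, EuclideanSpace.inner_single_right]
  have h := integral_mono_ae (((i a (2 * 2)).const_mul 10).add ((i (a + c) (2 * 2)).add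
    (i (a - c) (2 * 2)))) (((i a (2 * 1)).const_mul 12).add ((i c (2 * 2)).const_mul 2))
    (mu_sphere.mono fun y hy => by
      have h1 := EuclideanSpace.real_norm_sq_eq y
      rw [hy, Fin.sum_univ_succ, Fin.sum_univ_succ] at h1
      have h2 : 0 ≤ ∑ i : Fin N, y i.succ.succ ^ 2 := Finset.sum_nonneg fun _ _ => sq_nonneg _
      have h3 : 0 ≤ y 0 ^ 2 * (1 - y 0 ^ 2 - y 1 ^ 2) :=
        mul_nonneg (sq_nonneg _) (by rw [Fin.succ_zero_eq_one] at h1; linarith)
      simp only [Pi.add_apply, inner_add_right, inner_sub_right, ha, hc,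
        EuclideanSpace.inner_single_right, conj_trivial, one_mul]
      linear_combination 12 * h3)
  rw [integral_add' ((i a _).const_mul _) ((i _ _).add (i _ _)), integral_add' (i _ _) (i _ _),
    integral_add' ((i a _).const_mul _) ((i c _).const_mul _)] at h
  simp only [integral_const_mul, int_inner_even, norm_add_sq_real, norm_sub_sq_real, na, nc,
    ac] at h
  linarith

lemma L1_sub (φ ψ : X q) : L1 (φ - ψ) = L1 φ - L1 ψ := by simp [L1, smul_sub]

lemma cm_om : ((q : ℝ) + 2) * cm (q + 1) 1 = om (q + 2) := by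
  rw [← cm_one (N := q + 1)]; push_cast; ring

theorem gap {w : X q} (h : ∀ p ∈ Q q, I (w * p) = 0) : l2 (L1 w) ≤ 3 / 4 * l2 w := by
  have o := om_pos (q + 3)
  have o' := om_pos (q + 2)
  have h1 := gap_cm (bm_ext w) fun a => by
    rw [int_up (w * lf a ^ 2) fun u => by simp [lf_apply], h _ (sq_mem_Q a), mul_zero]
  rw [int_up (cm (q + 1) 1 ^ 2 • (L1 w * L1 w)) fun u => by
      rw [R_up w (ext_coe w), ← cm_om]; simp [L1]; ring,
    int_up (w * w) fun u => by simp [sq], map_smul, ← l2_sq, ← l2_sq, smul_eq_mul,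
    mul_left_comm _ (om _), ← mul_pow, ← mul_pow] at h1
  have c2 := cm_nonneg (N := q + 1) 2
  have c1 := c2.trans_lt cm_two_lt
  have l := l2_nonneg w
  have h2 := (pow_le_pow_iff_left₀ (mul_nonneg c1.le (l2_nonneg _)) (mul_nonneg c2 l)
    two_ne_zero).1 (le_of_mul_le_mul_left h1 o)
  refine le_of_mul_le_mul_left (h2.trans ?_) c1
  nlinarith [mul_le_mul_of_nonneg_right (cm_two_le q) l]

lemma L1_sq (a : V (q + 3)) : L1 (lf a ^ 2) = ‖a‖ ^ 2 • (1 : X q) - lf a ^ 2 := by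
  ext u
  have h := R_pow 1 a (un u)
  rw [R_up (lf a ^ 2) fun u => by simp [lf_apply], ← cm_om, mul_comm (_ + 2 : ℝ), mul_assoc,
    pow_one] at h
  simpa [L1, lf_apply] using mul_left_cancel₀ ((cm_nonneg 2).trans_lt cm_two_lt).ne' h

theorem L1_eq {p : X q} (h : p ∈ Q q) : L1 p = ((q + 3) * I p) • (1 : X q) - p := by
  obtain ⟨c, hc⟩ : ∃ c : ℝ, L1 p = c • (1 : X q) - p := by
    induction h using Submodule.span_induction with
    | mem p hp => obtain ⟨a, rfl⟩ := hp; exact ⟨_, L1_sq a⟩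
    | zero => exact ⟨0, by simp [L1]⟩
    | add p p' _ _ hp hp' =>
      obtain ⟨c, hc⟩ := hp
      obtain ⟨c', hc'⟩ := hp'
      refine ⟨c + c', ?_⟩
      rw [L1] at hc hc'
      rw [L1, map_add, smul_add, hc, hc', add_smul]
      abel
    | smul s p _ hp =>
      obtain ⟨c, hc⟩ := hp
      refine ⟨s * c, ?_⟩
      rw [L1] at hc
      rw [L1, map_smul, smul_comm, hc, smul_sub, smul_smul]
  have := congrArg I hc
  rw [L1, map_smul, I_A, map_sub, map_smul, I_one, smul_eq_mul, smul_eq_mul] at this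
  rw [hc, show c = (q + 3) * I p by linarith]

theorem L1_Q {p : X q} (h : p ∈ Q q) : L1 p ∈ Q q ∧ l2 p ≤ l2 (L1 p) := by
  rw [L1_eq h]
  refine ⟨sub_mem (Submodule.smul_mem _ _ one_mem_Q) h,
    (pow_le_pow_iff_left₀ (l2_nonneg _) (l2_nonneg _) two_ne_zero).1 ?_⟩
  simp only [l2_sq, sub_mul, mul_sub, smul_mul_assoc, mul_smul_comm, one_mul, mul_one, map_sub,
    map_smul, I_one, smul_eq_mul]
  have : (0 : ℝ) ≤ (q + 3) * (q + 1) * I p ^ 2 := by positivity
  nlinarith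

theorem gap' (φ : X q) {p : X q} (h : p ∈ Q q) :
    (∃ p' ∈ Q q, l2 (L1 φ - p') ≤ 3 / 4 * l2 (φ - p)) ∧ l2 φ - 2 * l2 (φ - p) ≤ l2 (L1 φ) := by
  obtain ⟨p₀, h0, h1, -, -, h2⟩ := exists_proj φ
  have h3 := gap h1
  have h4 := h2 p h
  rw [L1_sub] at h3
  refine ⟨⟨_, (L1_Q h0).1, by linarith⟩, ?_⟩
  have h5 := l2_sub_le (L1 φ) (L1 φ - L1 p₀)
  have h6 := l2_add_le p₀ (φ - p₀)
  rw [sub_sub_cancel] at h5
  rw [add_sub_cancel] at h6
  linarith [(L1_Q h0).2, l2_nonneg (φ - p)]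

end Pool.Agent.Lib.MP_242fd5_gt.Cu
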