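import Pool.Agent.Lib.MP_242fd5_gt.Cu.Fin

set_option autoImplicit false

open MeasureTheory Set Metric Filter Topology
open scoped RealInnerProductSpace

namespace Pool.Agent.Lib.MP_242fd5_gt.Cu

open Ty

variable {q k : ℕ}

namespace Lim

lemma TT_up (φ : X q) :
    T (T (up φ)) = fun x => om (q + 2) ^ (q + 3) * up (N (N φ)) x := by
  rw [T_up, T_smul', T_up]
  funext x
  ring

lemma bm_up {φ : X q} (h : 0 ≤ φ) {C : ℝ} (hC : ‖φ‖ ≤ C) : BM C (up φ) :=
  (adm_up h).bm' fun x hx => by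
    rw [up_unit φ hx]
    exact (le_abs_self _).trans ((φ.norm_coe_le_norm _).trans hC)

lemma norm_le_of_bm {φ : X q} {C : ℝ} (h : BM C (up φ)) : ‖φ‖ ≤ C :=
  (ContinuousMap.norm_le _ h.nonneg).2 fun u => by
    have := h.bdd u (un u)
    rwa [up_coe] at this

lemma norm_A_le (φ : X q) : ‖A φ‖ ≤ ‖φ‖ := by
  have : ‖(A : X q →L[ℝ] X q)‖ ≤ 1 := LinearMap.mkContinuous_norm_le _ zero_le_one _
  simpa using A.le_of_opNorm_le this φ

lemma norm_N_le (φ : X q) : ‖N φ‖ ≤ ‖φ‖ ^ (q + 2) :=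
  (norm_A_le _).trans (norm_pow_le' φ (by omega))

lemma trk_mono {δ δ' : ℝ} {M : ℕ} {f : ℕ → X q} {g : ℕ → Cf q k} (H : Trk δ M f g) (h0 : 0 ≤ δ)
    (e : δ ≤ δ') : Trk δ' M f g :=
  ⟨H.orb, fun j hj => (H.ad j hj).mono h0 e, fun j hj => (H.cl j hj).trans e,
    fun j hj => (H.cm j hj).mono e⟩

/-- two steps of a followed chain -/
lemma two_step {g0 g1 g2 : Cf q k} (h2 : ∀ i, 1 / 2 ≤ jac (g2 i)) (c1 : Cm 1 (JJ g1) g0)
    (c2 : Cm 1 (JJ g2) g1) (i : Fin k) (u : Sp q) :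
    rh (g2 i) u ≤ 2 ^ (q + 1) * Real.exp (q + 5) * rh (g0 i) u := by
  have H := ((cmp_iff _ _).1 ((c2.JJ.trans c1) i)).2 u
  change rh (J (J (g2 i))) u ≤ Real.exp (((q : ℝ) + 4) * 1 + 1) * rh (g0 i) u at H
  rw [rh_J_J] at H
  simp only [ContinuousMap.smul_apply, smul_eq_mul] at H
  rw [show ((q : ℝ) + 4) * 1 + 1 = q + 5 by ring] at H
  have p := rh_pos (g2 i) u
  have e : (1 : ℝ) ≤ 2 ^ (q + 1) * jac (g2 i) ^ (q + 1) := by
    rw [← mul_pow]
    exact one_le_pow₀ (by linarith [h2 i])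
  calc rh (g2 i) u ≤ 2 ^ (q + 1) * jac (g2 i) ^ (q + 1) * rh (g2 i) u :=
        le_mul_of_one_le_left p.le e
    _ = 2 ^ (q + 1) * (jac (g2 i) ^ (q + 1) * rh (g2 i) u) := by ring
    _ ≤ 2 ^ (q + 1) * (Real.exp (q + 5) * rh (g0 i) u) := by gcongr
    _ = _ := by ring

lemma tail_le {φ ψ : X q} (h : 0 ≤ φ) {D : ℝ} (D0 : 0 ≤ D) (hD : ∀ u, 2 * ψ u ≤ D) :
    Nn (fun u => if D * ‖u‖⁻¹ < up φ u then up φ u else 0) ≤
      om (q + 3) * (2 ^ (q + 3) * z (φ - ψ) ^ (q + 3)) := by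
  have A1 := (adm_up h).above (adm_inv_norm.smul D0)
  have e : (2 : ℝ) ^ (q + 3) * z (φ - ψ) ^ (q + 3) = I (((2 : ℝ) • |φ - ψ|) ^ (q + 3)) := by
    rw [z_pow, smul_pow, map_smul, smul_eq_mul]
  rw [e, ← int_up _ (ext_coe _)]
  obtain ⟨C, hC⟩ := A1.bdd
  refine int_mu_mono ((A1.bm' hC).pow _) (bm_ext _) fun x hx => ?_
  beta_reduce
  rw [ext_unit _ hx, up_unit _ hx, hx, inv_one, mul_one]
  simp only [ContinuousMap.pow_apply, ContinuousMap.smul_apply, ContinuousMap.abs_apply,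
    ContinuousMap.sub_apply, smul_eq_mul]
  split_ifs with hh
  · refine pow_le_pow_left₀ (a := φ (mkS x hx)) (h _) ?_ _
    linarith [hD (mkS x hx), le_abs_self (φ (mkS x hx) - ψ (mkS x hx))]
  · rw [zero_pow (by omega)]
    positivity

lemma exists_cmp (g : G q) : ∃ Λ : ℝ, 0 ≤ Λ ∧
    Cmp Λ (ContinuousLinearEquiv.refl ℝ (V (q + 3))) g := by
  refine ⟨max ‖(g : V (q + 3) →L[ℝ] V (q + 3))‖ ‖(g.symm : V (q + 3) →L[ℝ] V (q + 3))‖,
    le_max_of_le_left (norm_nonneg _), fun x => ⟨?_, ?_⟩⟩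
  · have := (g : V (q + 3) →L[ℝ] V (q + 3)).le_of_opNorm_le (le_max_left _
      ‖(g.symm : V (q + 3) →L[ℝ] V (q + 3))‖) (g.symm x)
    simpa using this
  · have := (g.symm : V (q + 3) →L[ℝ] V (q + 3)).le_of_opNorm_le (le_max_right
      ‖(g : V (q + 3) →L[ℝ] V (q + 3))‖ _) x
    simpa using this

lemma z_b_half (hk : 1 ≤ k) {g : Cf q k} (h : ∀ i, 1 / 2 ≤ jac (g i)) : 1 / 2 ≤ z (b g) := by
  have h1 : z (rh (g ⟨0, hk⟩)) ≤ z (b g) :=
    z_mono (by rw [abs_of_nonneg (rh_nonneg _)]; exact rh_le_b g _)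
  refine le_trans ?_ h1
  by_contra hc
  push Not at hc
  have h2 := h ⟨0, hk⟩
  rw [← z_rh] at h2
  have h3 := pow_le_of_le_one (z_nonneg (rh (g ⟨0, hk⟩))) (by linarith) (show q + 3 ≠ 0 by omega)
  linarith

/-- compactness: bounded sequences of third iterates have limits along an ultrafilter -/
lemma ex_lim (U : Ultrafilter ℕ) {s s2 s3 : ℕ → X q} {C : ℝ}
    (h : ∀ᶠ I in U, 0 ≤ s2 I ∧ 0 ≤ s3 I ∧ ‖s I‖ ≤ C ∧ ‖s2 I‖ ≤ C ∧ ‖s3 I‖ ≤ C ∧
      s I = N (N (s2 I)) ∧ s2 I = N (s3 I)) : ∃ F : X q, Tendsto s U (𝓝 F) := by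
  have o := om_pos (q + 2)
  have oo : 0 < om (q + 2) ^ (q + 3) := by positivity
  obtain ⟨a, -, -, ct, ul⟩ := ulim_fun U (z := fun I => up (s I)) (C := C)
    (h.mono fun I ⟨h2, _, n1, _, _, e1, _⟩ => by
      have : 0 ≤ s I := by rw [e1]; exact N_nonneg (N_nonneg h2)
      exact ⟨adm_up this, bm_up this n1⟩) fun ε hε => by
    obtain ⟨δ, δ0, hδ⟩ := equi q C (om (q + 2))⁻¹ (mul_pos oo hε)
    refine ⟨δ, δ0, h.mono fun I ⟨h2, h3, _, n2, n3, e1, e2⟩ u v hu hv huv => ?_⟩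
    have := hδ (up (s2 I)) (up (s3 I)) (om (q + 2))⁻¹ (adm_up h2) (adm_up h3) (bm_up h2 n2)
      (bm_up h3 n3) (abs_of_pos (inv_pos.2 o)).le
      (fun u _ => by rw [T_up, ← e2, inv_mul_cancel_left₀ o.ne']) u v hu hv huv
    rw [TT_up, ← e1] at this
    simp only at this
    rw [← mul_sub, abs_mul, abs_of_pos oo] at this
    exact le_of_mul_le_mul_left this oo
  refine ⟨⟨fun u => a u, ct.comp_continuous continuous_subtype_val fun u => une u⟩,
    Metric.tendsto_nhds.2 fun ε hε => (ul (ε / 2) (half_pos hε)).mono fun I hI => ?_⟩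
  refine lt_of_le_of_lt ((ContinuousMap.dist_le (half_pos hε).le).2 fun u => ?_) (half_lt_self hε)
  have := hI u (un u)
  simp only [up_coe] at this
  exact this

end Lim

open Lim

/-- uniform sup bounds along followed orbits (De Giorgi, `dg_fin`) -/
theorem sup_bd (q k : ℕ) : ∃ δ : ℝ, 0 < δ ∧ ∀ (Λ : ℝ) (j : ℕ), ∃ C : ℝ, ∀ (M : ℕ) (f : ℕ → X q)
    (g : ℕ → Cf q k), Trk δ (2 * M) f g → f (2 * M) = b (g (2 * M)) →
    (∀ i, Cmp Λ (ContinuousLinearEquiv.refl ℝ (V (q + 3))) (g 0 i)) → j ≤ 2 * M → ‖f j‖ ≤ C := by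
  obtain ⟨C4, C41, m4⟩ := M4 q k
  have o3 := om_pos (q + 3)
  have oo : 0 < om (q + 2) ^ (q + 3) := pow_pos (om_pos _) _
  obtain ⟨y, y0, dg⟩ := dg_fin q (om (q + 3) * (C4 + 1) ^ (q + 3)) (om (q + 2) ^ (q + 3))⁻¹
  obtain ⟨δ, δ0, δ1, δ2⟩ : ∃ δ : ℝ, 0 < δ ∧ δ ≤ 1 / 2 ∧ om (q + 3) * (2 ^ (q + 3) * δ) ≤ y := by
    refine ⟨min (1 / 2) (y / (om (q + 3) * 2 ^ (q + 3))), by positivity, min_le_left _ _, ?_⟩
    rw [← mul_assoc, mul_comm, ← le_div_iff₀ (by positivity)]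
    exact min_le_right _ _
  refine ⟨δ, δ0, fun Λ j => ?_⟩
  obtain ⟨L, hL⟩ : ∃ L : ℝ, L = 2 ^ (q + 1) * Real.exp (q + 5) := ⟨_, rfl⟩
  have L1 : 1 ≤ L := by
    rw [hL]
    exact one_le_mul_of_one_le_of_one_le (one_le_pow₀ one_le_two) (Real.one_le_exp (by positivity))
  have ev : ∀ i : ℕ, ∃ C : ℝ, ∀ (M : ℕ) (f : ℕ → X q) (g : ℕ → Cf q k), Trk δ (2 * M) f g →
      f (2 * M) = b (g (2 * M)) →
      (∀ i, Cmp Λ (ContinuousLinearEquiv.refl ℝ (V (q + 3))) (g 0 i)) → i ≤ M →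
      ‖f (2 * i)‖ ≤ C := fun i => by
    have B1 : 1 ≤ (2 * k * |Λ| + 1) * L ^ i :=
      one_le_mul_of_one_le_of_one_le (le_add_of_nonneg_left (by positivity)) (one_le_pow₀ L1)
    obtain ⟨C, hC⟩ := dg _ L B1 L1
    refine ⟨C, fun M f g H e h0 hi => ?_⟩
    have vol : ∀ j ≤ 2 * M, ∀ l, |jac (g j l) - 1| ≤ 1 / 2 := fun j hj l =>
      ((H.ad j hj).vol l).trans δ1
    have r1 : ∀ m, m ≤ M → ∀ l u, rh (g (2 * m) l) u ≤ |Λ| * L ^ m := by
      intro m
      induction m with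
      | zero =>
        intro _ l u
        have := ((cmp_iff _ _).1 (h0 l)).1 u
        rw [rh_refl] at this
        change rh (g 0 l) u ≤ Λ * 1 at this
        rw [mul_one] at this
        simpa using this.trans (le_abs_self Λ)
      | succ m ih =>
        intro hm l u
        have := two_step (g0 := g (2 * m)) (g1 := g (2 * m + 1)) (g2 := g (2 * m + 1 + 1))
          (fun l => by linarith [(abs_le.1 (vol (2 * m + 1 + 1) (by omega) l)).1])
          ((H.cm (2 * m) (by omega)).mono (by linarith))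
          ((H.cm (2 * m + 1) (by omega)).mono (by linarith)) l u
        rw [← hL] at this
        calc rh (g (2 * (m + 1)) l) u ≤ L * rh (g (2 * m) l) u := this
          _ ≤ L * (|Λ| * L ^ m) := mul_le_mul_of_nonneg_left (ih (by omega) l u) (by linarith)
          _ = _ := by ring
    have r2 : ∀ m, m ≤ M → ∀ u, 2 * b (g (2 * m)) u ≤ (2 * k * |Λ| + 1) * L ^ m := fun m hm u => by
      have h1 : b (g (2 * m)) u ≤ k * (|Λ| * L ^ m) := by
        rw [b, ContinuousMap.coe_sum, Finset.sum_apply]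
        simpa using Finset.sum_le_card_nsmul Finset.univ (fun l => rh (g (2 * m) l) u) _
          fun l _ => r1 m hm l u
      have h2 : 0 ≤ L ^ m := by positivity
      nlinarith
    have nn : ∀ s, 0 ≤ f (2 * M - 2 * s) := fun s => H.orb.nn _ (Nat.sub_le _ _)
    have := hC (M - i) (fun s => up (f (2 * M - 2 * s))) (fun s => adm_up (nn s))
      (fun s => contOn_up _) (fun s _ => by
        rw [Nn_up, ← z_pow' (nn s)]
        refine mul_le_mul_of_nonneg_left (pow_le_pow_left₀ (z_nonneg _) ?_ _) o3.le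
        have h1 := z_add_le (f (2 * M - 2 * s) - b (g (2 * M - 2 * s))) (b (g (2 * M - 2 * s)))
        rw [sub_add_cancel] at h1
        linarith [H.cl _ (Nat.sub_le (2 * M) (2 * s)),
          (m4 _ (vol _ (Nat.sub_le (2 * M) (2 * s)))).1])
      (fun s hs u _ => by
        rw [TT_up, show 2 * M - 2 * s = 2 * M - 2 * (s + 1) + 1 + 1 by omega,
          H.orb.step _ (by omega), H.orb.step _ (by omega), inv_mul_cancel_left₀ oo.ne'])
      (fun u hu => by
        rw [mul_zero, Nat.sub_zero, e, up_unit _ hu, mul_assoc, ← pow_add,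
          show i + (M - i) = M by omega]
        have h1 := r2 M le_rfl (mkS u hu)
        have h2 : (0 : ℝ) ≤ b (g (2 * M)) (mkS u hu) := b_nonneg _ _
        linarith)
      (fun s hs => by
        refine (tail_le (ψ := b (g (2 * M - 2 * s))) (nn s) (by positivity) fun u => ?_).trans
          (le_trans ?_ δ2)
        · rw [mul_assoc, ← pow_add, show 2 * M - 2 * s = 2 * (M - s) by omega,
            show i + (M - i - s) = M - s by omega]
          exact r2 _ (Nat.sub_le _ _) u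
        · have h1 := H.cl _ (Nat.sub_le (2 * M) (2 * s))
          have h2 := pow_le_of_le_one (z_nonneg (f (2 * M - 2 * s) - b (g (2 * M - 2 * s))))
            (by linarith) (show q + 3 ≠ 0 by omega)
          gcongr
          exact h2.trans h1)
    rw [show 2 * M - 2 * (M - i) = 2 * i by omega] at this
    exact norm_le_of_bm this
  rcases Nat.even_or_odd' j with ⟨i, rfl | rfl⟩
  · obtain ⟨C, hC⟩ := ev i
    exact ⟨C, fun M f g H e h0 hj => hC M f g H e h0 (by omega)⟩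
  · obtain ⟨C, hC⟩ := ev (i + 1)
    refine ⟨C ^ (q + 2), fun M f g H e h0 hj => ?_⟩
    rw [← H.orb.step (2 * i + 1) (by omega)]
    exact (norm_N_le _).trans (pow_le_pow_left₀ (norm_nonneg _) (hC M f g H e h0 (by omega)) _)

theorem ex_orbit (q : ℕ) (hk : 1 ≤ k) {a : ℝ} (ha : 0 < a) : ∃ r : ℝ, 0 < r ∧ ∀ E : Cf q k,
    Ad r E → ∃ F : ℕ → X q, (∀ M, Orb M F) ∧ (∀ m u, 0 < F m u) ∧
      (∀ m, lv q k ≤ Ph (F m) ∧ Ph (F m) ≤ lv q k * (1 + a)) ∧ z (F 0 - b E) ≤ a ∧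
      Mo E (F 0 - b E) 0 := by
  obtain ⟨δ0, C, δ00, -, C1, ap⟩ := AP q hk
  obtain ⟨δs, δs0, sb⟩ := sup_bd q k
  obtain ⟨c, δp, c0, δp0, pl⟩ := pure_lo q hk
  have l0 := lv_pos q hk
  obtain ⟨δ, hδ, δ1, δ2⟩ : ∃ δ : ℝ, 0 < δ ∧ δ ≤ δs ∧ δ ≤ 1 / 4 :=
    ⟨min δs (1 / 4), by positivity, min_le_left _ _, min_le_right _ _⟩
  obtain ⟨a0, a00, ap⟩ := ap 1 δ one_pos le_rfl hδ
  obtain ⟨a', a'0, e1, e2, e3, e4, e5⟩ : ∃ a' : ℝ, 0 < a' ∧ a' ≤ a0 ∧ a' ≤ δ0 ∧ a' ≤ δp ∧ a' ≤ a ∧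
      C * a' ^ 2 ≤ a := by
    have C0 : 0 < C := by linarith
    obtain ⟨x, x0, h1, h2, h3, h4, h5⟩ : ∃ x : ℝ, 0 < x ∧ x ≤ a0 ∧ x ≤ δ0 ∧ x ≤ δp ∧ x ≤ 1 ∧
        x ≤ a / C :=
      ⟨min a0 (min δ0 (min δp (min 1 (a / C)))), by positivity, by simp, by simp, by simp,
        by simp, by simp⟩
    rw [le_div_iff₀ C0] at h5
    exact ⟨x, x0, h1, h2, h3, by nlinarith, by nlinarith [mul_pos x0 C0]⟩
  obtain ⟨r, r0, fo⟩ := fin_orbit q hk a'0
  refine ⟨min r a', by positivity, fun E hE => ?_⟩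
  have m0 : 0 ≤ min r a' := by positivity
  choose gM g1 g2 g3 using fo E (hE.mono m0 (min_le_left _ _))
  choose Λ Λ0 hΛ using fun i => exists_cmp (E i)
  obtain ⟨f, hf⟩ : ∃ f : ℕ → ℕ → X q, f = fun M j => N^[2 * M - j] (b (gM (2 * M))) := ⟨_, rfl⟩
  have orb : ∀ M, Orb (2 * M) (f M) := fun M => by rw [hf]; exact orb_iter _ (b_nonneg _)
  have top : ∀ M, f M (2 * M) = b (gM (2 * M)) := fun M => by rw [hf]; simp
  have bot : ∀ M, f M 0 = N^[2 * M] (b (gM (2 * M))) := fun M => by rw [hf]; simp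
  have A1 := fun M => ap a' (2 * M) (f M) (gM (2 * M)) E a'0 e1 (orb M) ((g1 _).mono a'0.le e2)
    (by rw [top, sub_self, z_zero]; positivity) (hE.mono m0 (min_le_right _ _))
    (by rw [bot]; exact g2 _)
  choose Cj hCj using sb (Real.exp δ * ∑ i, Λ i)
  have bd : ∀ M j, j ≤ 2 * M → ‖f M j‖ ≤ Cj j ∧ 1 / 4 ≤ z (f M j) := fun M j hj => by
    obtain ⟨g, σ, e, H, hc⟩ := (A1 M).2.2.1
    refine ⟨hCj j M (f M) g (trk_mono H hδ.le δ1) (by rw [top, e]) (fun i => ?_) hj, ?_⟩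
    · rw [mul_comm]
      exact ((hΛ (σ i)).mono (Finset.single_le_sum (f := Λ) (fun i _ => Λ0 i)
        (Finset.mem_univ _))).trans (Finset.sum_nonneg fun i _ => Λ0 i) (Real.exp_pos _).le
          (hc i).symm
    · have h1 := z_b_half hk (g := g j) fun i => by
        linarith [(abs_le.1 ((H.ad j hj).vol i)).1]
      have h2 := z_sub_le (f M j) (f M j - b (g j))
      rw [sub_sub_cancel] at h2
      linarith [H.cl j hj]
  have ph : ∀ M j, j ≤ 2 * M → lv q k ≤ Ph (f M j) ∧ Ph (f M j) ≤ lv q k * (1 + a) :=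
    fun M j hj => by
    constructor
    · refine le_trans ?_ ((orb M).Ph_le hj le_rfl)
      rw [top]
      refine le_trans ?_ (pl _ ((g1 _).mono a'0.le e3))
      have := la_nonneg (gM (2 * M))
      exact le_mul_of_one_le_right l0.le (le_add_of_nonneg_right (by positivity))
    · refine ((orb M).Ph_le (Nat.zero_le j) hj).trans ((A1 M).2.1.trans ?_)
      gcongr
  obtain ⟨U, hU⟩ : ∃ U : Ultrafilter ℕ, (U : Filter ℕ) ≤ atTop := ⟨_, Nat.hyperfilter_le_atTop⟩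
  have big : ∀ j : ℕ, ∀ᶠ M in U, j ≤ 2 * M := fun j =>
    hU ((eventually_ge_atTop j).mono fun M h => by omega)
  have lim : ∀ j, ∃ F : X q, Tendsto (fun M => f M j) U (𝓝 F) := fun j =>
    ex_lim U (s2 := fun M => f M (j + 2)) (s3 := fun M => f M (j + 3))
      (C := max (Cj j) (max (Cj (j + 2)) (Cj (j + 3)))) ((big (j + 3)).mono fun M h =>
        ⟨(orb M).nn _ (by omega), (orb M).nn _ h, (bd M _ (by omega)).1.trans (by simp),
          (bd M _ (by omega)).1.trans (by simp), (bd M _ h).1.trans (by simp),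
          by rw [(orb M).step (j + 1) (by omega), (orb M).step j (by omega)],
          ((orb M).step (j + 2) (by omega)).symm⟩)
  choose F hF using lim
  have cN : Continuous (N : X q → X q) := contDiff_N.continuous
  have nn : ∀ j, 0 ≤ F j := fun j u =>
    ge_of_tendsto (((continuous_eval_const u).tendsto _).comp (hF j))
      ((big j).mono fun M h => (orb M).nn j h u)
  have st : ∀ j, N (F (j + 1)) = F j := fun j =>
    tendsto_nhds_unique ((cN.tendsto _).comp (hF (j + 1))) ((hF j).congr'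
      ((big (j + 1)).mono fun M h => ((orb M).step j (by omega)).symm))
  have zl : ∀ j, 0 < I (F j ^ (q + 3)) := fun j => by
    have : 1 / 4 ≤ z (F j) := ge_of_tendsto ((continuous_z.tendsto _).comp (hF j))
      ((big j).mono fun M h => (bd M j h).2)
    rw [← z_pow' (nn j)]
    exact pow_pos (by linarith) _
  have pl' : ∀ j, Tendsto (fun M => Ph (f M j)) U (𝓝 (Ph (F j))) := fun j =>
    ((I.continuous.tendsto _).comp (((cN.tendsto _).comp (hF j)).pow (q + 3))).div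
      (((I.continuous.tendsto _).comp ((hF j).pow (q + 3))).pow (q + 2)) (pow_pos (zl j) _).ne'
  refine ⟨F, fun M => ⟨fun j _ => nn j, fun j _ => st j⟩, fun m u => ?_, fun m =>
    ⟨ge_of_tendsto (pl' m) ((big m).mono fun M h => (ph M m h).1),
      le_of_tendsto (pl' m) ((big m).mono fun M h => (ph M m h).2)⟩, ?_, fun i p hp => ?_⟩
  · have := TT_pos (adm_up (nn (m + 1 + 1))) (contOn_up _)
      (by rw [Nn_up]; exact (mul_pos (om_pos _) (zl _)).ne') (un u)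
    rw [TT_up, st, st] at this
    simp only [up_coe] at this
    exact (mul_pos_iff_of_pos_left (pow_pos (om_pos _) _)).1 this
  · refine le_of_tendsto' ((continuous_z.tendsto _).comp ((hF 0).sub_const (b E))) fun M => ?_
    simp only [Function.comp, bot]
    exact (g2 _).trans e4
  · refine le_of_tendsto' ((I.continuous.tendsto _).comp ((((act 1 (E i)).continuous.tendsto _).comp
      ((hF 0).sub_const (b E))).mul_const p)).abs fun M => ?_
    simp only [Function.comp, bot]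
    exact g3 _ i p hp

end Pool.Agent.Lib.MP_242fd5_gt.Cu
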