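import Pool.Agent.Lib.MP_242fd5_gt.Cu.M2

set_option autoImplicit false

open MeasureTheory Set Metric Filter Topology
open scoped RealInnerProductSpace

namespace Pool.Agent.Lib.MP_242fd5_gt.Cu

open Ty

variable {q k : ℕ}

namespace M1a

lemma abs_le_cut {x K : ℝ} (x0 : 0 ≤ x) (K1 : 1 ≤ K) (p : ℕ) : x ≤ K + K⁻¹ * x ^ (p + 2) := by
  have K0 : 0 < K := by linarith
  rcases le_total x K with h | h
  · have : 0 ≤ K⁻¹ * x ^ (p + 2) := by positivity
    linarith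
  · have h1 : x ^ 2 ≤ x ^ (p + 2) := pow_le_pow_right₀ (by linarith) (by omega)
    have h2 : x ≤ K⁻¹ * x ^ (p + 2) := by
      rw [le_inv_mul_iff₀ K0]
      nlinarith
    linarith

lemma pow_le_cut {x τ : ℝ} (x0 : 0 ≤ x) (τ0 : 0 < τ) (τ1 : τ ≤ 1) (p : ℕ) :
    x ^ (p + 1) ≤ τ + τ⁻¹ * x ^ (p + 2) := by
  rcases le_total x τ with h | h
  · have h1 : x ^ (p + 1) ≤ x := pow_le_of_le_one x0 (h.trans τ1) (by omega)
    have : 0 ≤ τ⁻¹ * x ^ (p + 2) := by positivity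
    linarith
  · have h2 : x ^ (p + 1) ≤ τ⁻¹ * x ^ (p + 2) := by
      rw [le_inv_mul_iff₀ τ0, pow_succ' x (p + 1)]
      exact mul_le_mul_of_nonneg_right h (by positivity)
    linarith

lemma mvt_pow (p : ℕ) {x y : ℝ} (h : x < y) :
    ∃ ξ ∈ Ioo x y, y ^ (p + 1) - x ^ (p + 1) = (p + 1) * ξ ^ p * (y - x) := by
  obtain ⟨ξ, h1, h2⟩ := exists_hasDerivAt_eq_slope (fun s : ℝ => s ^ (p + 1))
    (fun s => ((p + 1 : ℕ) : ℝ) * s ^ p) h (by fun_prop)
    fun s _ => by simpa using hasDerivAt_pow (p + 1) s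
  refine ⟨ξ, h1, ?_⟩
  rw [eq_div_iff (sub_pos.2 h).ne'] at h2
  rw [← h2]
  push_cast
  ring

lemma mvt_pow' (p : ℕ) {x y : ℝ} (x0 : 0 ≤ x) (y0 : 0 ≤ y) (B : ℝ) : ∃ ξ, 0 ≤ ξ ∧
    |ξ - B| ≤ |x - B| + |y - B| ∧ x ^ (p + 1) - y ^ (p + 1) = (p + 1) * ξ ^ p * (x - y) := by
  have a1 := abs_nonneg (x - B)
  have a2 := abs_nonneg (y - B)
  have b1 := le_abs_self (x - B)
  have b2 := le_abs_self (y - B)
  have c1 := neg_abs_le (x - B)
  have c2 := neg_abs_le (y - B)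
  rcases lt_trichotomy x y with h | rfl | h
  · obtain ⟨ξ, ⟨h1, h2⟩, e⟩ := mvt_pow p h
    exact ⟨ξ, by linarith, abs_le.2 ⟨by linarith, by linarith⟩, by linarith⟩
  · exact ⟨x, x0, by linarith, by simp⟩
  · obtain ⟨ξ, ⟨h1, h2⟩, e⟩ := mvt_pow p h
    exact ⟨ξ, by linarith, abs_le.2 ⟨by linarith, by linarith⟩, e⟩

lemma sum_pow_eta (p : ℕ) {η : ℝ} (hη : 0 < η) : ∃ C : ℝ, 0 < C ∧ ∀ (k : ℕ) (r : Fin k → ℝ),
    (∀ i, 0 ≤ r i) → |(∑ i, r i) ^ (p + 1) - ∑ i, r i ^ (p + 1)| ≤ η * (∑ i, r i) ^ (p + 1) +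
      C * (∑ i, ∑ j ∈ Finset.univ.erase i, min (r i) (r j)) ^ (p + 1) := by
  obtain ⟨C, C0, hC⟩ := abs_pow_sub_eta (p + 1) hη
  refine ⟨C + 1, by linarith, fun k r r0 => ?_⟩
  rcases Finset.eq_empty_or_nonempty (Finset.univ : Finset (Fin k)) with h | h
  · simp [h]
  obtain ⟨i, hi, hm⟩ := Finset.exists_max_image _ r h
  set S := ∑ j ∈ Finset.univ.erase i, r j with hS
  set W := ∑ i, ∑ j ∈ Finset.univ.erase i, min (r i) (r j) with hW
  have S0 : 0 ≤ S := Finset.sum_nonneg fun j _ => r0 j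
  have SW : S ≤ W := by
    refine le_trans (Finset.sum_le_sum fun j _ => le_min (hm j (Finset.mem_univ j)) le_rfl) ?_
    exact Finset.single_le_sum (f := fun i => ∑ j ∈ Finset.univ.erase i, min (r i) (r j))
      (fun i _ => Finset.sum_nonneg fun j _ => le_min (r0 i) (r0 j)) hi
  have h1 : ∑ j ∈ Finset.univ.erase i, r j ^ (p + 1) ≤ S ^ (p + 1) := by
    rw [pow_succ S, hS, Finset.mul_sum]
    refine Finset.sum_le_sum fun j hj => ?_
    rw [pow_succ]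
    exact mul_le_mul_of_nonneg_right (pow_le_pow_left₀ (r0 j)
      (Finset.single_le_sum (fun j _ => r0 j) hj) p) (r0 j)
  have h0 : 0 ≤ ∑ j ∈ Finset.univ.erase i, r j ^ (p + 1) :=
    Finset.sum_nonneg fun j _ => pow_nonneg (r0 j) _
  have h2 := hC (r i) (r i + S) (r0 i) (add_nonneg (r0 i) S0)
  rw [show r i - (r i + S) = -S by ring, abs_neg, abs_of_nonneg S0] at h2
  have h3 := pow_le_pow_left₀ S0 SW (p + 1)
  have h4 := mul_le_mul_of_nonneg_left h3 C0.le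
  rw [← Finset.add_sum_erase _ r hi, ← Finset.add_sum_erase _ (fun i => r i ^ (p + 1)) hi, ← hS]
  obtain ⟨h5, h6⟩ := abs_le.1 h2
  have h7 := pow_nonneg (S0.trans SW) (p + 1)
  exact abs_le.2 ⟨by nlinarith, by nlinarith⟩

lemma err_le (p : ℕ) {κ : ℝ} (hκ : 0 < κ) : ∃ C : ℝ, 0 < C ∧ ∀ (k : ℕ) (r : Fin k → ℝ) (x y : ℝ),
    (∀ i, 0 ≤ r i) → 0 ≤ x → 0 ≤ y →
    |x ^ (p + 2) - y ^ (p + 2) - ∑ i, (p + 2) * (r i ^ (p + 1) * (x - y))| ≤
      κ * ((∑ i, r i) ^ (p + 1) * |x - y|) + C * ((|x - ∑ i, r i| + |y - ∑ i, r i| +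
        ∑ i, ∑ j ∈ Finset.univ.erase i, min (r i) (r j)) ^ (p + 1) * |x - y|) := by
  have p0 : (0 : ℝ) < p + 2 := by positivity
  obtain ⟨C, C0, hC⟩ := abs_pow_sub_eta (p + 1) (show 0 < κ / (2 * (p + 2)) by positivity)
  obtain ⟨D, D0, hD⟩ := sum_pow_eta p (show 0 < κ / (2 * (p + 2)) by positivity)
  refine ⟨(p + 2) * (C + D), by positivity, fun k r x y r0 x0 y0 => ?_⟩
  have B0 : 0 ≤ ∑ i, r i := Finset.sum_nonneg fun j _ => r0 j
  obtain ⟨ξ, ξ0, h1, h2⟩ := mvt_pow' (p + 1) x0 y0 (∑ i, r i)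
  have h3 := hC ξ _ ξ0 B0
  have h4 := hD k r r0
  have W0 : 0 ≤ ∑ i, ∑ j ∈ Finset.univ.erase i, min (r i) (r j) :=
    Finset.sum_nonneg fun i _ => Finset.sum_nonneg fun j _ => le_min (r0 i) (r0 j)
  simp only [← Finset.mul_sum, ← Finset.sum_mul]
  generalize (∑ i, ∑ j ∈ Finset.univ.erase i, min (r i) (r j)) = W at *
  generalize (∑ i, r i ^ (p + 1)) = P at *
  generalize (∑ i, r i) = B at *
  have a1 := abs_nonneg (x - B)
  have a2 := abs_nonneg (y - B)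
  have h5 := mul_le_mul_of_nonneg_left (pow_le_pow_left₀ (abs_nonneg _)
    (show |ξ - B| ≤ |x - B| + |y - B| + W by linarith) (p + 1)) C0.le
  have h6 := mul_le_mul_of_nonneg_left (pow_le_pow_left₀ W0
    (show W ≤ |x - B| + |y - B| + W by linarith) (p + 1)) D0.le
  have h7 := abs_sub_le (ξ ^ (p + 1)) (B ^ (p + 1)) P
  have e : x ^ (p + 2) - y ^ (p + 2) - (p + 2) * (P * (x - y)) =
      (p + 2) * (ξ ^ (p + 1) - P) * (x - y) := by
    rw [h2]
    push_cast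
    ring
  rw [e, abs_mul, abs_mul, abs_of_pos p0, ← mul_assoc, ← mul_assoc, ← add_mul]
  refine mul_le_mul_of_nonneg_right ?_ (abs_nonneg _)
  have e2 : κ = (p + 2) * (2 * (κ / (2 * (p + 2)))) := by field_simp
  generalize κ / (2 * (p + 2)) = η at *
  rw [e2, mul_assoc, mul_assoc, mul_assoc, ← mul_add]
  exact mul_le_mul_of_nonneg_left (by linarith) p0.le

lemma AO_one (q : ℕ) {ε : ℝ} (hε : 0 < ε) : ∃ δ : ℝ, 0 < δ ∧ ∀ ρ φ : X q, 0 ≤ ρ → z ρ ≤ 4 →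
    I (ρ ^ (q + 2)) ≤ δ → z φ ≤ 1 → I (ρ ^ (q + 1) * A φ ^ 2) ≤ ε := by
  set D : ℝ := 2 ^ (q + 3) * 4 ^ (q + 1) with hD
  have D0 : 0 < D := by positivity
  set K : ℝ := 4 * D / ε + 1 with hK
  have K1 : 1 ≤ K := le_add_of_nonneg_left (by positivity)
  have K0 : 0 < K := by linarith
  set τ : ℝ := min 1 (ε / (8 * K ^ 2)) with hτ
  have τ0 : 0 < τ := by positivity
  refine ⟨τ ^ 2, by positivity, fun ρ φ ρ0 zρ hρ zφ => ?_⟩
  set ψ := A (|φ| ^ (q + 2)) with hψ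
  have zψ : z ψ ≤ 1 := by
    refine (busA (abs_nonneg φ) (abs_of_nonneg (pow_nonneg (abs_nonneg φ) _)).le).trans ?_
    rw [z_abs]
    exact pow_le_one₀ (z_nonneg _) zφ
  have h1 : |A φ| ≤ K • (1 : X q) + K⁻¹ • ψ := by
    refine (abs_A_le φ).trans ?_
    rw [← A_one, hψ, ← map_smul, ← map_smul, ← map_add]
    exact A_mono fun u => by simpa using abs_le_cut (abs_nonneg (φ u)) K1 q
  have h2 : ρ ^ (q + 1) * A φ ^ 2 ≤ (2 * K ^ 2) • (τ • (1 : X q) + τ⁻¹ • ρ ^ (q + 2)) +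
      (2 * K⁻¹ ^ 2) • (ρ ^ (q + 1) * ψ ^ 2) := ContinuousMap.le_def.2 fun u => by
    have a1 : |A φ u| ≤ K + K⁻¹ * ψ u := by simpa using h1 u
    have a0 : 0 ≤ ρ u := ρ0 u
    have a2 := pow_le_cut a0 τ0 (min_le_left _ _) q
    have a3 : A φ u ^ 2 ≤ 2 * K ^ 2 + 2 * (K⁻¹ * ψ u) ^ 2 := by
      rw [← sq_abs]
      nlinarith [pow_le_pow_left₀ (abs_nonneg _) a1 2, sq_nonneg (K - K⁻¹ * ψ u)]
    have a4 := mul_le_mul_of_nonneg_left a3 (pow_nonneg a0 (q + 1))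
    have a5 := mul_le_mul_of_nonneg_left a2 (show 0 ≤ 2 * K ^ 2 by positivity)
    simp only [ContinuousMap.add_apply, ContinuousMap.mul_apply, ContinuousMap.pow_apply,
      ContinuousMap.smul_apply, ContinuousMap.one_apply, smul_eq_mul, mul_one]
    nlinarith
  have h3 := I_mono h2
  simp only [map_add, map_smul, I_one, smul_eq_mul, mul_one] at h3
  have h4 : I (ρ ^ (q + 1) * ψ ^ 2) ≤ D := by
    refine (H2 ρ0 ψ).trans ?_
    rw [hD, ← mul_one (2 ^ (q + 3) * 4 ^ (q + 1) : ℝ)]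
    exact mul_le_mul (mul_le_mul_of_nonneg_left (pow_le_pow_left₀ (z_nonneg _) zρ _)
      (by positivity)) (pow_le_one₀ (z_nonneg _) zψ) (sq_nonneg _) (by positivity)
  have h5 : τ⁻¹ * I (ρ ^ (q + 2)) ≤ τ := by
    rw [inv_mul_le_iff₀ τ0, ← sq]
    exact hρ
  have h6 : 2 * K ^ 2 * (τ + τ) ≤ ε / 2 := by
    have := (le_div_iff₀ (show 0 < 8 * K ^ 2 by positivity)).1 (min_le_right 1 (ε / (8 * K ^ 2)))
    rw [← hτ] at this
    linarith
  have h7 : 2 * K⁻¹ ^ 2 * D ≤ ε / 2 := by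
    have b1 : 4 * D ≤ ε * K := by
      rw [hK, mul_add, mul_div_cancel₀ _ hε.ne']
      linarith
    rw [inv_pow, mul_assoc, mul_left_comm, inv_mul_le_iff₀ (by positivity)]
    nlinarith [mul_pos hε K0]
  have h8 := mul_le_mul_of_nonneg_left h4 (show 0 ≤ 2 * K⁻¹ ^ 2 by positivity)
  have h9 := mul_le_mul_of_nonneg_left (add_le_add (le_refl τ) h5)
    (show 0 ≤ 2 * K ^ 2 by positivity)
  linarith

end M1a

/-- asymptotic orthogonality -/
theorem AO (q : ℕ) {ε : ℝ} (hε : 0 < ε) : ∃ δ : ℝ, 0 < δ ∧ ∀ ρ φ : X q, 0 ≤ ρ → z ρ ≤ 4 →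
    I (ρ ^ (q + 2)) ≤ δ → I (ρ ^ (q + 1) * L1 φ ^ 2) ≤ ε ^ 2 * z φ ^ 2 := by
  have q0 : (0 : ℝ) < q + 2 := by positivity
  obtain ⟨δ, δ0, h⟩ := M1a.AO_one q (show 0 < (ε / (q + 2)) ^ 2 by positivity)
  refine ⟨δ, δ0, fun ρ φ ρ0 zρ hρ => ?_⟩
  rcases (z_nonneg φ).eq_or_lt with h0 | h0
  · obtain rfl := eq_zero_of_z h0.symm
    simp [L1, z_zero]
  have h1 := h ρ ((z φ)⁻¹ • φ) ρ0 zρ hρ
    (by rw [z_smul, abs_of_pos (inv_pos.2 h0), inv_mul_cancel₀ h0.ne'])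
  rw [map_smul, smul_pow, mul_smul_comm, map_smul, smul_eq_mul, inv_pow,
    inv_mul_le_iff₀ (by positivity)] at h1
  rw [L1, smul_pow, mul_smul_comm, map_smul, smul_eq_mul]
  refine (mul_le_mul_of_nonneg_left h1 (sq_nonneg _)).trans (le_of_eq ?_)
  field_simp

namespace M1a

/-- the linear term that belongs to one bubble -/
noncomputable def T1 (g : G q) (d : X q) : X q := ((q : ℝ) + 2) • A (rh g ^ (q + 1) * d)

lemma z_inf (g h : G q) {ν : ℝ} (ν0 : 0 ≤ ν) (e : io g h ≤ ν ^ (q + 3)) : z (rh g ⊓ rh h) ≤ ν := by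
  refine z_le_of_pow ν0 (le_trans (I_mono (ContinuousMap.le_def.2 fun u => ?_)) e)
  have a := (rh_pos g u).le
  have b := (rh_pos h u).le
  simp only [ContinuousMap.pow_apply, ContinuousMap.abs_apply, ContinuousMap.inf_apply,
    ContinuousMap.mul_apply]
  rw [abs_of_nonneg (le_min a b), pow_succ]
  exact mul_le_mul (pow_le_pow_left₀ (le_min a b) (min_le_left _ _) _) (min_le_right _ _)
    (le_min a b) (pow_nonneg a _)

/-- the nonlinear error -/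
lemma err (q k : ℕ) {ε : ℝ} (hε : 0 < ε) : ∃ δ : ℝ, 0 < δ ∧ ∀ (g : Cf q k) (f f' : X q), Ad δ g →
    0 ≤ f → 0 ≤ f' → z (f - b g) ≤ δ → z (f' - b g) ≤ δ →
    z (N f - N f' - ∑ i, T1 (g i) (f - f')) ≤ ε * z (f - f') := by
  obtain ⟨C4, C1, h4⟩ := M4 q k
  set κ : ℝ := ε / (2 * (2 ^ (q + 2) * C4 ^ (q + 1))) with hκ
  have κ0 : 0 < κ := by positivity
  obtain ⟨C, C0, hC⟩ := err_le q κ0
  set μ : ℝ := min 1 (ε / (2 * (C * 2 ^ (q + 2)))) with hμ
  have μ0 : 0 < μ := by positivity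
  set ν : ℝ := μ / (2 + k * k) with hν
  have ν0 : 0 < ν := by positivity
  have k2 : (0 : ℝ) ≤ k * k := by positivity
  have ν1 : ν ≤ 1 / 2 := by
    rw [hν, div_le_iff₀ (by positivity)]
    linarith [min_le_left 1 (ε / (2 * (C * 2 ^ (q + 2))))]
  have ν2 : ν ^ (q + 3) ≤ ν := pow_le_of_le_one ν0.le (by linarith) (by omega)
  refine ⟨ν ^ (q + 3), by positivity, fun g f f' hg f0 f0' z1 z2 => ?_⟩
  set W : X q := ∑ i, ∑ j ∈ Finset.univ.erase i, rh (g i) ⊓ rh (g j) with hW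
  set u : X q := |f - b g| + |f' - b g| + W with hu
  have W0 : 0 ≤ W := Finset.sum_nonneg fun i _ => Finset.sum_nonneg fun j _ =>
    le_inf (rh_nonneg _) (rh_nonneg _)
  have u0 : 0 ≤ u := add_nonneg (add_nonneg (abs_nonneg _) (abs_nonneg _)) W0
  have zW : z W ≤ k * k * ν := by
    refine (z_sum_le _ _).trans ((Finset.sum_le_card_nsmul _ _ (k * ν) fun i _ => ?_).trans
      (by simp [mul_assoc]))
    refine (z_sum_le _ _).trans ((Finset.sum_le_card_nsmul _ _ ν fun j hj => ?_).trans ?_)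
    · refine z_inf _ _ ν0.le ?_
      have a1 := io_le_la g (Finset.ne_of_mem_erase hj).symm
      have a2 := io_nonneg (g j) (g i)
      have a3 := hg.sep
      have a4 : 0 < ν ^ (q + 3) := by positivity
      nlinarith
    · rw [nsmul_eq_mul]
      refine mul_le_mul_of_nonneg_right ?_ ν0.le
      exact_mod_cast (Finset.card_le_univ _).trans_eq (Fintype.card_fin k)
  have zu : z u ≤ μ := by
    have a1 := z_add_le (|f - b g| + |f' - b g|) W
    have a2 := z_add_le |f - b g| |f' - b g|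
    have a3 : (2 + k * k) * ν = μ := by rw [hν]; field_simp
    rw [z_abs, z_abs] at a2
    linarith
  have zb := (h4 g fun i => (hg.vol i).trans (by linarith)).1
  have e : N f - N f' - ∑ i, T1 (g i) (f - f') =
      A (f ^ (q + 2) - f' ^ (q + 2) - ∑ i, ((q : ℝ) + 2) • (rh (g i) ^ (q + 1) * (f - f'))) := by
    simp only [N, T1, map_sub, map_sum, map_smul]
  have h1 : |N f - N f' - ∑ i, T1 (g i) (f - f')| ≤
      κ • A (b g ^ (q + 1) * |f - f'|) + C • A (u ^ (q + 1) * |f - f'|) := by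
    rw [e, ← map_smul, ← map_smul, ← map_add]
    refine (abs_A_le _).trans (A_mono fun v => ?_)
    have := hC k (fun i => rh (g i) v) (f v) (f' v) (fun i => (rh_pos _ v).le) (f0 v) (f0' v)
    simpa [hu, hW, b] using this
  have h2 := (z_mono h1).trans (z_add_le _ _)
  rw [z_smul, z_smul, abs_of_pos κ0, abs_of_pos C0] at h2
  have d0 := z_nonneg (f - f')
  have h3 := (NB (b_nonneg g) (f - f')).trans (mul_le_mul_of_nonneg_right
    (mul_le_mul_of_nonneg_left (pow_le_pow_left₀ (z_nonneg _) zb _) (by positivity)) d0)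
  have h5 : z u ^ (q + 1) ≤ ε / (2 * (C * 2 ^ (q + 2))) :=
    ((pow_le_of_le_one (z_nonneg _) (zu.trans (min_le_left _ _)) (by omega)).trans zu).trans
      (min_le_right _ _)
  have h6 := (NB u0 (f - f')).trans (mul_le_mul_of_nonneg_right
    (mul_le_mul_of_nonneg_left h5 (by positivity)) d0)
  refine h2.trans ((add_le_add (mul_le_mul_of_nonneg_left h3 κ0.le)
    (mul_le_mul_of_nonneg_left h6 C0.le)).trans (le_of_eq ?_))
  rw [hκ]
  field_simp
  ring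

/-- the linear term of one bubble seen from another bubble -/
lemma cross (q : ℕ) {ε : ℝ} (hε : 0 < ε) : ∃ δ : ℝ, 0 < δ ∧ ∀ (g h : G q) (d : X q),
    |jac g - 1| ≤ 1 / 2 → |jac (J g) - 1| ≤ 1 / 2 → |jac h - 1| ≤ 1 / 2 → io h (J g) ≤ δ →
    l2 (act 1 h (T1 g d)) ≤ ε * z d := by
  obtain ⟨δ, δ0, hδ⟩ := AO q (show 0 < ε / 4 by positivity)
  refine ⟨δ / 2, by positivity, fun g h d j1 j2 j3 hio => ?_⟩
  obtain ⟨a1, -⟩ := abs_le.1 j1
  obtain ⟨a2, a3⟩ := abs_le.1 j2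
  obtain ⟨a4, a5⟩ := abs_le.1 j3
  have J0 := jac_pos (J g)
  have h0 := jac_pos h
  have d0 := z_nonneg d
  have ρ0 : 0 ≤ act 1 (J g) (rh h) := by rw [act_rh]; exact rh_nonneg _
  have e1 : I (act 1 (J g) (rh h) ^ (q + 2)) = (jac (J g))⁻¹ * io h (J g) := by
    rw [io, ← I_act, act_mul (q + 2) 1, act_pow, act_rh_self, mul_one]
  have e2 : I (act 1 (J g) (rh h) ^ (q + 1) * L1 (act 1 g d) ^ 2) =
      (jac (J g))⁻¹ * I (rh h ^ (q + 1) * T1 g d ^ 2) := by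
    rw [← I_act, act_mul (q + 1) 2, act_pow, act_pow, T1, lin_act]
  have h1 := hδ _ (act 1 g d) ρ0
    ((z_act_le (by linarith) _).trans (by linarith [z_rh_le (g := h) (by linarith)]))
    (by
      rw [e1, inv_mul_le_iff₀ J0]
      nlinarith)
  rw [e2, inv_mul_le_iff₀ J0] at h1
  have h2 := pow_le_pow_left₀ (z_nonneg _) (z_act_le (g := g) (by linarith) d) 2
  refine abs_le_of_sq_le_sq' ?_ (by positivity) |>.2
  rw [l2_act, inv_mul_le_iff₀ h0]
  refine h1.trans ?_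
  have h3 := mul_le_mul_of_nonneg_left h2 (sq_nonneg (ε / 4))
  have h4 : 0 ≤ (ε * z d) ^ 2 := sq_nonneg _
  have h5 : (ε / 4) ^ 2 * (2 * z d) ^ 2 = (ε * z d) ^ 2 / 4 := by ring
  have h6 := mul_le_mul_of_nonneg_left (h3.trans h5.le) J0.le
  nlinarith

end M1a

/-- one step for the difference of two orbits near the same configuration -/
theorem M1 (q k : ℕ) : ∃ C : ℝ, 1 ≤ C ∧ ∀ ε : ℝ, 0 < ε → ∃ δ : ℝ, 0 < δ ∧
    ∀ (g : Cf q k) (f f' : X q), Ad δ g → 0 ≤ f → 0 ≤ f' → z (f - b g) ≤ δ → z (f' - b g) ≤ δ →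
      z (N f - N f') ≤ C * t g (f - f') + ε * z (f - f') ∧ ∀ s, Y g (f - f') s →
        Y (JJ g) (N f - N f') (3 / 4 * s + ε * z (f - f')) ∧
        t g (f - f') - 2 * s - ε * z (f - f') ≤ t (JJ g) (N f - N f') := by
  have q0 : (0 : ℝ) ≤ q := Nat.cast_nonneg q
  have k0 : (0 : ℝ) ≤ k := Nat.cast_nonneg k
  obtain ⟨CJ, CJ1, hJ⟩ := Ad_JJ q k
  refine ⟨4 * (q + 2), by linarith, fun ε hε => ?_⟩
  set η : ℝ := ε / (k * (k + 2) + 1) with hη
  have η0 : 0 < η := by positivity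
  have e0 : (k * (k + 2) + 1) * η = ε := by rw [hη]; field_simp
  obtain ⟨δ1, δ10, h1⟩ := M1a.err q k η0
  obtain ⟨δ2, δ20, h2⟩ := M1a.cross q η0
  set δ : ℝ := min δ1 (min (1 / 2) δ2 / CJ) with hδ
  have δ0 : 0 < δ := by positivity
  have a1 : δ ≤ δ1 := min_le_left _ _
  have a2 : CJ * δ ≤ min (1 / 2) δ2 := (le_div_iff₀' (by linarith)).1 (min_le_right _ _)
  have a3 := a2.trans (min_le_left _ _)
  have a4 := a2.trans (min_le_right _ _)
  have a5 : δ ≤ 1 / 2 := by nlinarith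
  refine ⟨δ, δ0, fun g f f' hg f0 f0' z1 z2 => ?_⟩
  have hE := h1 g f f' (hg.mono δ0.le a1) f0 f0' (z1.trans a1) (z2.trans a1)
  have gJ := hJ δ g δ0.le (by linarith) hg
  have jJ : ∀ i, |jac (J (g i)) - 1| ≤ 1 / 2 := fun i => (gJ.vol i).trans a3
  generalize f - f' = d at *
  generalize N f - N f' = e at *
  have d0 := z_nonneg d
  have rest : ∀ i, l2 (act 1 (J (g i)) e - L1 (act 1 (g i) d)) ≤ (k + 2) * η * z d := fun i => by
    have e1 : act 1 (J (g i)) e - L1 (act 1 (g i) d) =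
        ∑ j ∈ Finset.univ.erase i, act 1 (J (g i)) (M1a.T1 (g j) d) +
          act 1 (J (g i)) (e - ∑ j, M1a.T1 (g j) d) := by
      rw [map_sub, map_sum, ← Finset.add_sum_erase _ _ (Finset.mem_univ i), M1a.T1, lin_act]
      abel
    have b1 := (l2_le_z _).trans ((z_act_le (g := J (g i))
      (by linarith [(abs_le.1 (jJ i)).1]) _).trans (mul_le_mul_of_nonneg_left hE zero_le_two))
    have b2 : l2 (∑ j ∈ Finset.univ.erase i, act 1 (J (g i)) (M1a.T1 (g j) d)) ≤ k * (η * z d) := by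
      refine (l2_sum_le _ _).trans ((Finset.sum_le_card_nsmul _ _ (η * z d) fun j hj => ?_).trans ?_)
      · refine h2 _ _ d ((hg.vol j).trans a5) (jJ j) (jJ i) ?_
        have c1 := io_le_la (JJ g) (Finset.ne_of_mem_erase hj).symm
        have c2 := io_nonneg (JJ g j) (JJ g i)
        have c3 := gJ.sep
        have c4 : 0 ≤ CJ * δ := by positivity
        change io (JJ g i) (JJ g j) ≤ δ2
        nlinarith
      · rw [nsmul_eq_mul]
        refine mul_le_mul_of_nonneg_right ?_ (by positivity)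
        exact_mod_cast (Finset.card_le_univ _).trans_eq (Fintype.card_fin k)
    rw [e1]
    linarith [l2_add_le (∑ j ∈ Finset.univ.erase i, act 1 (J (g i)) (M1a.T1 (g j) d))
      (act 1 (J (g i)) (e - ∑ j, M1a.T1 (g j) d))]
  have ηd : 0 ≤ η * z d := by positivity
  have tot : ∑ _i : Fin k, (k + 2) * η * z d ≤ ε * z d := by
    rw [Finset.sum_const, Finset.card_univ, Fintype.card_fin, nsmul_eq_mul, ← e0]
    nlinarith
  refine ⟨?_, fun s ⟨p, hp, hs⟩ => ⟨?_, ?_⟩⟩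
  · have b1 : z (∑ i, M1a.T1 (g i) d) ≤ 4 * (q + 2) * t g d := by
      rw [t, Finset.mul_sum]
      refine (z_sum_le _ _).trans (Finset.sum_le_sum fun i _ => ?_)
      refine (z_le_act (g := J (g i)) (by linarith [(abs_le.1 (jJ i)).2]) _).trans ?_
      rw [M1a.T1, lin_act, L1, z_smul, abs_of_pos (by positivity)]
      nlinarith [z_A_le (act 1 (g i) d)]
    have b2 := z_add_le (∑ i, M1a.T1 (g i) d) (e - ∑ i, M1a.T1 (g i) d)
    have b3 : η * z d ≤ ε * z d := by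
      rw [← e0]
      nlinarith [mul_nonneg (mul_nonneg k0 (show (0 : ℝ) ≤ k + 2 by linarith)) ηd]
    rw [add_sub_cancel] at b2
    linarith
  · choose p' hp' hl using fun i => (gap' (act 1 (g i) d) (hp i)).1
    refine ⟨p', hp', (Finset.sum_le_sum fun i _ => (l2_tri _ (L1 (act 1 (g i) d)) _).trans
      (add_le_add (rest i) (hl i))).trans ?_⟩
    rw [Finset.sum_add_distrib, ← Finset.mul_sum (a := 3 / 4)]
    linarith
  · have b1 : ∑ i, (l2 (act 1 (g i) d) - 2 * l2 (act 1 (g i) d - p i) - (k + 2) * η * z d) ≤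
        t (JJ g) e := Finset.sum_le_sum fun i _ => by
      have c1 := (gap' (act 1 (g i) d) (hp i)).2
      have c2 := l2_sub_le (act 1 (J (g i)) e) (act 1 (J (g i)) e - L1 (act 1 (g i) d))
      rw [sub_sub_cancel] at c2
      change _ ≤ l2 (act 1 (J (g i)) e)
      linarith [rest i]
    rw [Finset.sum_sub_distrib, Finset.sum_sub_distrib, ← Finset.mul_sum (a := 2)] at b1
    unfold t at b1 ⊢
    linarith

end Pool.Agent.Lib.MP_242fd5_gt.Cu
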