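import Pool.Agent.Lib.MP_242fd5_gt.Cu.Quad

set_option autoImplicit false

open MeasureTheory Set Metric Filter Topology
open scoped RealInnerProductSpace

namespace Pool.Agent.Lib.MP_242fd5_gt.Cu

open Ty

variable {q k : ℕ}

namespace M2a

variable {T : ℝ} {w g h : G q}

lemma pow_dev {x : ℝ} (x0 : 0 < x) (h1 : x ≤ T) (h2 : 1 ≤ T * x) (m : ℕ) :
    |1 - x ^ m| ≤ T ^ m - 1 := by
  have a1 := pow_le_pow_left₀ x0.le h1 m
  have a2 := one_le_pow₀ (n := m) h2
  have a3 := pow_pos x0 m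
  rw [mul_pow] at a2
  generalize x ^ m = y at *
  generalize T ^ m = S at *
  refine abs_le.2 ⟨by linarith, ?_⟩
  by_contra hc
  have S0 : 0 < S := a3.trans_le a1
  nlinarith [mul_lt_mul_of_pos_left (show y < 2 - S by linarith) S0, sq_nonneg (S - 1)]

lemma rh_le (H : Cmp T g h) (u : Sp q) : rh h u ≤ T * rh g u := H.rho_le u

lemma io_le (T0 : 0 ≤ T) {g' h' : G q} (H : Cmp T g h) (H' : Cmp T g' h') :
    io h h' ≤ T ^ (q + 3) * io g g' := by
  rw [io, io, ← smul_eq_mul (T ^ (q + 3)), ← map_smul]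
  refine I_mono (ContinuousMap.le_def.2 fun u => ?_)
  simp only [ContinuousMap.mul_apply, ContinuousMap.pow_apply, ContinuousMap.smul_apply,
    smul_eq_mul]
  have := mul_le_mul (pow_le_pow_left₀ (rh_pos h u).le (rh_le H u) (q + 2)) (rh_le H' u)
    (rh_pos h' u).le (pow_nonneg (mul_nonneg T0 (rh_pos g u).le) _)
  exact this.trans (le_of_eq (by ring))

lemma jac_le (T0 : 0 ≤ T) (H : Cmp T g h) : jac h ≤ T ^ (q + 3) * jac g := by
  have := io_le T0 H H
  rwa [io, io, ← pow_succ, ← pow_succ, I_rh, I_rh] at this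

lemma l2_mul {θ : X q} {c : ℝ} (c0 : 0 ≤ c) (e : ∀ u, |θ u| ≤ c) (φ : X q) :
    l2 (θ * φ) ≤ c * l2 φ := by
  rw [← abs_of_nonneg c0, ← l2_smul]
  refine l2_mono (ContinuousMap.le_def.2 fun u => ?_)
  simp only [ContinuousMap.abs_apply, ContinuousMap.mul_apply, ContinuousMap.smul_apply,
    smul_eq_mul, abs_mul, abs_of_nonneg c0]
  exact mul_le_mul_of_nonneg_right (e u) (abs_nonneg _)

/-- close to the identity -/
def Nr (T : ℝ) (w : G q) : Prop := Cmp T (ContinuousLinearEquiv.refl ℝ (V (q + 3))) w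

lemma nr_of (H : Cmp T g h) : Nr T (h.trans g.symm) := by
  simpa [Nr] using H.post g.symm

lemma Nr.symm (H : Nr T w) : Nr T w.symm := by
  have := (Cmp.post H w.symm).symm
  rwa [ContinuousLinearEquiv.self_trans_symm] at this

lemma Nr.up (H : Nr T w) (u : Sp q) : rh w u ≤ T := by
  simpa [rh_refl] using rh_le H u

lemma Nr.lo (H : Nr T w) (u : Sp q) : 1 ≤ T * rh w u := by
  simpa [rh_refl] using rh_le (Cmp.symm H) u

lemma Nr.inv_jac (T0 : 0 ≤ T) (H : Nr T w) : (jac w)⁻¹ ≤ T ^ (q + 3) := by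
  have := jac_le T0 (Cmp.symm H)
  rw [jac_refl] at this
  rwa [inv_le_iff_one_le_mul₀ (jac_pos w)]

lemma Nr.l2_act (T0 : 0 ≤ T) (H : Nr T w) (φ : X q) : l2 (act 1 w φ) ≤ T ^ (q + 2) * l2 φ := by
  refine abs_le_of_sq_le_sq' ?_ (mul_nonneg (pow_nonneg T0 _) (l2_nonneg _)) |>.2
  have h1 : I (rh w ^ (q + 1) * φ ^ 2) ≤ T ^ (q + 1) * l2 φ ^ 2 := by
    rw [l2_sq, ← smul_eq_mul (T ^ (q + 1)), ← map_smul]
    refine I_mono (ContinuousMap.le_def.2 fun u => ?_)
    simp only [ContinuousMap.mul_apply, ContinuousMap.pow_apply, ContinuousMap.smul_apply,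
      smul_eq_mul, ← sq]
    exact mul_le_mul_of_nonneg_right (pow_le_pow_left₀ (rh_pos w u).le (H.up u) _) (sq_nonneg _)
  rw [Cu.l2_act]
  refine (mul_le_mul (H.inv_jac T0) h1 (I_nonneg fun u => mul_nonneg
    (pow_nonneg (rh_pos w u).le (q + 1)) (sq_nonneg (φ u))) (pow_nonneg T0 _)).trans (le_of_eq ?_)
  ring

lemma Nr.dev (H : Nr T w) (m : ℕ) (u : Sp q) : |(1 - rh w ^ m) u| ≤ T ^ m - 1 := by
  simpa using pow_dev (rh_pos w u) (H.up u) (H.lo u) m

lemma act_Q {p p' : X q} (e : p.comp (pr w) = rh w.symm ^ 2 * p') :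
    act 1 w p = rh w.symm ^ 3 * p' := by
  rw [act_apply, e]
  ring

lemma Nr.Y (T1 : 1 ≤ T) (H : Nr T w) (φ : X q) {p : X q} (hp : p ∈ Q q) : ∃ p' ∈ Q q,
    l2 (act 1 w φ - p') ≤ T ^ (q + 8) * l2 (φ - p) + (T ^ (q + 8) - 1) * l2 φ := by
  have T0 : 0 ≤ T := by linarith
  obtain ⟨p', hp', e⟩ := Q_act w hp
  refine ⟨p', hp', ?_⟩
  have e1 : act 1 w φ - p' = act 1 w (φ - p) - (1 - rh w.symm ^ 3) * p' := by
    rw [map_sub, act_Q e]
    ring
  have a3 := one_le_pow₀ (n := 3) T1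
  have aE := one_le_pow₀ (n := q + 2) T1
  have h1 := H.l2_act T0 (φ - p)
  have h2 := l2_mul (by linarith) (H.symm.dev 3) p'
  have h3 : l2 p' ≤ T ^ 3 * l2 (act 1 w p) := by
    rw [← abs_of_nonneg (pow_nonneg T0 3), ← l2_smul, act_Q e]
    refine l2_mono (ContinuousMap.le_def.2 fun u => ?_)
    have b1 := one_le_pow₀ (n := 3) (H.symm.lo u)
    simp only [ContinuousMap.abs_apply, ContinuousMap.mul_apply, ContinuousMap.smul_apply,
      ContinuousMap.pow_apply, smul_eq_mul]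
    rw [← mul_assoc, ← mul_pow, abs_mul, abs_of_nonneg (zero_le_one.trans b1)]
    exact le_mul_of_one_le_left (abs_nonneg _) b1
  have h4 := H.l2_act T0 p
  have h5 := l2_sub_le φ (φ - p)
  rw [sub_sub_cancel] at h5
  have h6 := l2_sub_le (act 1 w (φ - p)) ((1 - rh w.symm ^ 3) * p')
  have n1 := l2_nonneg φ
  have n2 := l2_nonneg (φ - p)
  have h7 := mul_le_mul_of_nonneg_left (h3.trans (mul_le_mul_of_nonneg_left (h4.trans
    (mul_le_mul_of_nonneg_left h5 (by linarith))) (by linarith))) (sub_nonneg.2 a3)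
  rw [e1, show T ^ (q + 8) = T ^ 3 * T ^ 3 * T ^ (q + 2) by ring]
  generalize T ^ 3 = S at *
  generalize T ^ (q + 2) = E at *
  have c1 : 1 ≤ S * E := one_le_mul_of_one_le_of_one_le a3 aE
  have c2 : E ≤ S * E := le_mul_of_one_le_left (by linarith) a3
  nlinarith [mul_le_mul_of_nonneg_right c1 n1, mul_le_mul_of_nonneg_right c2 n2]

lemma Nr.Mo (T1 : 1 ≤ T) (H : Nr T w) (φ : X q) {x : ℝ} (x0 : 0 ≤ x)
    (hx : ∀ p ∈ Q q, |I (φ * p)| ≤ x * l2 p) {p' : X q} (hp' : p' ∈ Q q) :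
    |I (act 1 w φ * p')| ≤ (T ^ (2 * q + 8) * x + (T ^ (2 * q + 8) - 1) * l2 φ) * l2 p' := by
  have T0 : 0 ≤ T := by linarith
  obtain ⟨p, hp, e⟩ := Q_act' w hp'
  have e1 : I (act 1 w φ * p') =
      (jac w)⁻¹ * I (φ * p) + I (act 1 w φ * ((1 - rh w.symm ^ (q + 4)) * p')) := by
    rw [← I_act, ← map_add, act_apply, act_apply, ContinuousMap.mul_comp, e]
    congr 1
    ring
  have n1 := l2_nonneg φ
  have n2 := l2_nonneg p'
  have aE := one_le_pow₀ (n := q + 2) T1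
  have aF := one_le_pow₀ (n := q + 4) T1
  have h1 : l2 p ≤ T ^ (q + 2) * (T ^ 3 * l2 p') := by
    have := H.symm.l2_act T0 (act 1 w p)
    rw [act_act, ContinuousLinearEquiv.symm_trans_self, act_refl, act_Q e] at this
    refine this.trans (mul_le_mul_of_nonneg_left (l2_mul (pow_nonneg T0 3) (fun u => ?_) p')
      (by linarith))
    rw [ContinuousMap.pow_apply, abs_of_pos (pow_pos (rh_pos _ u) 3)]
    exact pow_le_pow_left₀ (rh_pos _ u).le (H.symm.up u) 3
  have h2 := mul_le_mul (H.inv_jac T0) ((hx p hp).trans (mul_le_mul_of_nonneg_left h1 x0))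
    (abs_nonneg _) (pow_nonneg T0 _)
  have h3 := (cs _ _).trans (mul_le_mul (H.l2_act T0 φ)
    (l2_mul (by linarith) (H.symm.dev (q + 4)) p') (l2_nonneg _) (by positivity))
  have h4 : T ^ (q + 2) * (T ^ (q + 4) - 1) ≤ T ^ (2 * q + 8) - 1 := by
    have : T ^ (q + 2) * T ^ (q + 4) ≤ T ^ (2 * q + 8) := by
      rw [← pow_add]
      exact pow_le_pow_right₀ T1 (by omega)
    linarith
  have h5 := mul_le_mul_of_nonneg_right h4 (mul_nonneg n1 n2)
  rw [e1]
  refine (abs_add_le _ _).trans ?_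
  rw [abs_mul, abs_of_pos (inv_pos.2 (jac_pos w))]
  have e2 : T ^ (q + 3) * (x * (T ^ (q + 2) * (T ^ 3 * l2 p'))) = T ^ (2 * q + 8) * x * l2 p' := by
    ring
  linarith

lemma act_via (g h : G q) (d : X q) : act 1 h d = act 1 (h.trans g.symm) (act 1 g d) := by
  rw [act_act]
  congr 2
  ext x
  simp

lemma exp_pow_le (c : ℕ) {ω : ℝ} (h0 : 0 ≤ ω) (h1 : ω ≤ 1) :
    Real.exp ω ^ c ≤ 1 + c * Real.exp c * ω := by
  have c0 : (0 : ℝ) ≤ c := Nat.cast_nonneg c
  have a1 := Real.add_one_le_exp (-(c * ω))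
  have a2 : Real.exp (c * ω) ≤ Real.exp c := Real.exp_le_exp.2 (by nlinarith)
  have a3 := mul_le_mul_of_nonneg_left a1 (Real.exp_pos (c * ω)).le
  rw [← Real.exp_add, add_neg_cancel, Real.exp_zero] at a3
  rw [← Real.exp_nat_mul]
  nlinarith [mul_le_mul_of_nonneg_left a2 (mul_nonneg c0 h0)]

lemma la_le {g : Cf q k} {c : ℝ} (c0 : 0 ≤ c) (h : ∀ i j, i ≠ j → io (g i) (g j) ≤ c) :
    la g ≤ k * k * c := by
  refine (Finset.sum_le_card_nsmul _ _ (k * c) fun i _ => ?_).trans (by simp [mul_assoc])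
  refine (Finset.sum_le_card_nsmul _ _ c fun j hj => h i j (Finset.ne_of_mem_erase hj).symm).trans ?_
  rw [nsmul_eq_mul]
  refine mul_le_mul_of_nonneg_right ?_ c0
  exact_mod_cast (Finset.card_le_univ _).trans_eq (Fintype.card_fin k)

lemma io_le_sep {g : Cf q k} {a : ℝ} (h : Ad a g) {i j : Fin k} (e : i ≠ j) :
    io (g i) (g j) ≤ a ^ 2 := by
  linarith [io_le_la g e, io_nonneg (g j) (g i), h.sep]

end M2a

/-- change of the reference configuration -/
theorem M2 (q k : ℕ) : ∃ C : ℝ, 1 ≤ C ∧ ∀ (ω : ℝ) (g h : Cf q k), 0 ≤ ω → ω ≤ 1 → Cm ω g h →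
    (∀ d, t h d ≤ (1 + C * ω) * t g d) ∧
    (∀ d s, Y g d s → Y h d ((1 + C * ω) * s + C * ω * t g d)) ∧
    (∀ d x, 0 ≤ x → Mo g d x → Mo h d ((1 + C * ω) * x + C * ω * t g d)) ∧
    z (b h - b g) ≤ C * ω * z (b g) ∧
    ∀ a, 0 ≤ a → a ≤ 1 → Ad a g → Ad (a + C * ω) h := by
  set D : ℝ := (2 * q + 8 : ℕ) * Real.exp (2 * q + 8 : ℕ) with hD
  have D0 : 0 ≤ D := by positivity
  refine ⟨2 * D + 1, by linarith, fun ω g h ω0 ω1 H => ?_⟩
  have hT := M2a.exp_pow_le (2 * q + 8) ω0 ω1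
  have T1 : 1 ≤ Real.exp ω := Real.one_le_exp ω0
  rw [← hD] at hT
  have H' : ∀ i, Cmp (Real.exp ω) (g i) (h i) := H
  generalize Real.exp ω = T at hT T1 H'
  have T0 : 0 ≤ T := by linarith
  have Dω : 0 ≤ D * ω := mul_nonneg D0 ω0
  have half : ∀ m, m ≤ 2 * q + 8 → T ^ m ≤ 1 + D * ω := fun m hm =>
    (pow_le_pow_right₀ T1 hm).trans hT
  have e0 : (2 * D + 1) * ω = 2 * (D * ω) + ω := by ring
  generalize (2 * D + 1) * ω = c at *
  have full : ∀ m, m ≤ 2 * q + 8 → T ^ m ≤ 1 + c := fun m hm => by linarith [half m hm]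
  have c0 : 0 ≤ c := by linarith
  have nr := fun i => M2a.nr_of (H' i)
  refine ⟨fun d => ?_, fun d s ⟨p, hp, hs⟩ => ?_, fun d x x0 hx i p' hp' => ?_, ?_,
    fun a a0 a1 ha => ⟨fun i => ?_, ?_⟩⟩
  · rw [t, t, Finset.mul_sum]
    refine Finset.sum_le_sum fun i _ => ?_
    rw [M2a.act_via (g i) (h i)]
    exact ((nr i).l2_act T0 _).trans
      (mul_le_mul_of_nonneg_right (full _ (by omega)) (l2_nonneg _))
  · choose p' hp' hl using fun i => (nr i).Y T1 (act 1 (g i) d) (hp i)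
    refine ⟨p', hp', le_trans (Finset.sum_le_sum fun i _ => ?_)
      (add_le_add (mul_le_mul_of_nonneg_left hs (by linarith)) le_rfl |>.trans' (le_of_eq
        (by rw [t, Finset.mul_sum, Finset.mul_sum, ← Finset.sum_add_distrib])))⟩
    rw [M2a.act_via (g i) (h i)]
    have := full (q + 8) (by omega)
    exact (hl i).trans (add_le_add (mul_le_mul_of_nonneg_right this (l2_nonneg _))
      (mul_le_mul_of_nonneg_right (by linarith) (l2_nonneg _)))
  · rw [M2a.act_via (g i) (h i)]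
    refine ((nr i).Mo T1 _ x0 (hx i) hp').trans (mul_le_mul_of_nonneg_right ?_ (l2_nonneg _))
    have a1 := full _ le_rfl
    have a2 : l2 (act 1 (g i) d) ≤ t g d :=
      Finset.single_le_sum (f := fun i => l2 (act 1 (g i) d)) (fun _ _ => l2_nonneg _)
        (Finset.mem_univ i)
    exact add_le_add (mul_le_mul_of_nonneg_right a1 x0)
      (mul_le_mul (by linarith) a2 (l2_nonneg _) c0)
  · rw [← abs_of_nonneg c0, ← z_smul]
    refine z_mono (ContinuousMap.le_def.2 fun u => ?_)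
    simp only [b, ContinuousMap.abs_apply, ContinuousMap.sub_apply, ContinuousMap.smul_apply,
      ContinuousMap.sum_apply, smul_eq_mul, Finset.mul_sum, ← Finset.sum_sub_distrib]
    refine (Finset.abs_sum_le_sum_abs _ _).trans (Finset.sum_le_sum fun i _ => ?_)
    have a0 := rh_pos (g i) u
    have a1 := M2a.pow_dev (T := T) (div_pos (rh_pos (h i) u) a0)
      ((div_le_iff₀ a0).2 (M2a.rh_le (H' i) u))
      (by rw [← mul_div_assoc, one_le_div a0]; exact M2a.rh_le (H' i).symm u) 1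
    have a2 := full 1 (by omega)
    rw [pow_one, one_sub_div a0.ne', abs_div, abs_of_pos a0, div_le_iff₀ a0, abs_sub_comm] at a1
    exact a1.trans (mul_le_mul_of_nonneg_right (by linarith) a0.le)
  · have a0' := jac_pos (g i)
    have b1 := M2a.pow_dev (T := T ^ (q + 3)) (div_pos (jac_pos (h i)) a0')
      ((div_le_iff₀ a0').2 (M2a.jac_le T0 (H' i)))
      (by rw [← mul_div_assoc, one_le_div a0']; exact M2a.jac_le T0 (H' i).symm) 1
    have b2 := half (q + 3) (by omega)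
    rw [pow_one, pow_one, one_sub_div a0'.ne', abs_div, abs_of_pos a0', div_le_iff₀ a0'] at b1
    obtain ⟨b3, b4⟩ := abs_le.1 (ha.vol i)
    have b5 : (T ^ (q + 3) - 1) * jac (g i) ≤ D * ω * 2 :=
      mul_le_mul (by linarith) (by linarith) a0'.le Dω
    obtain ⟨b6, b7⟩ := abs_le.1 (b1.trans b5)
    exact abs_le.2 ⟨by linarith, by linarith⟩
  · have b1 : la h ≤ T ^ (q + 3) * la g := by
      simp only [la, Finset.mul_sum]
      exact Finset.sum_le_sum fun i _ => Finset.sum_le_sum fun j _ => M2a.io_le T0 (H' i) (H' j)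
    have b2 := mul_le_mul (full (q + 3) (by omega)) ha.sep (la_nonneg g) (by linarith)
    nlinarith [mul_nonneg c0 a0, mul_nonneg (mul_nonneg c0 a0) (sub_nonneg.2 a1), sq_nonneg c]

theorem M4 (q k : ℕ) : ∃ C : ℝ, 1 ≤ C ∧ ∀ g : Cf q k, (∀ i, |jac (g i) - 1| ≤ 1 / 2) →
    z (b g) ≤ C ∧ ∀ d, t g d ≤ C * z d := by
  have k0 : (0 : ℝ) ≤ k := Nat.cast_nonneg k
  refine ⟨2 * k + 1, by linarith, fun g h => ⟨?_, fun d => ?_⟩⟩
  · refine (z_sum_le _ _).trans ((Finset.sum_le_card_nsmul _ _ 2 fun i _ =>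
      z_rh_le (by linarith [(abs_le.1 (h i)).2])).trans ?_)
    simp only [Finset.card_univ, Fintype.card_fin, nsmul_eq_mul]
    linarith
  · refine (Finset.sum_le_card_nsmul _ _ (2 * z d) fun i _ => (l2_le_z _).trans
      (z_act_le (by linarith [(abs_le.1 (h i)).1]) d)).trans ?_
    simp only [Finset.card_univ, Fintype.card_fin, nsmul_eq_mul]
    linarith [z_nonneg d]

theorem Ad_JJ (q k : ℕ) : ∃ C : ℝ, 1 ≤ C ∧ ∀ (a : ℝ) (g : Cf q k), 0 ≤ a → a ≤ 1 → Ad a g →
    Ad (C * a) (JJ g) := by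
  have k0 : (0 : ℝ) ≤ k := Nat.cast_nonneg k
  have q0 : (0 : ℝ) ≤ q := Nat.cast_nonneg q
  have p1 : (1 : ℝ) ≤ 2 ^ (q + 1) := one_le_pow₀ (by norm_num)
  refine ⟨(q + 2 + k) * 2 ^ (q + 1), by nlinarith, fun a g a0 a1 h => ⟨fun i => ?_, ?_⟩⟩
  · have h1 := abs_pow_sub_pow_le (jac (g i)) 1 (q + 2)
    have h2 : max |jac (g i)| |(1 : ℝ)| ≤ 2 := by
      rw [abs_of_pos (jac_pos _), abs_one]
      exact max_le (by linarith [(abs_le.1 (h.vol i)).2]) (by norm_num)
    have h3 := mul_le_mul (mul_le_mul_of_nonneg_right (h.vol i) (Nat.cast_nonneg (q + 2)))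
      (pow_le_pow_left₀ (by positivity) h2 (q + 1)) (by positivity) (by positivity)
    rw [one_pow] at h1
    rw [JJ, jac_J]
    refine h1.trans (h3.trans ?_)
    push_cast
    nlinarith [mul_nonneg (mul_nonneg k0 a0) (zero_le_one.trans p1)]
  · refine (M2a.la_le (c := 2 ^ (q + 1) * a ^ 2) (by positivity) fun i j e => ?_).trans ?_
    · rw [JJ, JJ, io_J]
      exact mul_le_mul (pow_le_pow_left₀ (jac_pos _).le (by linarith [(abs_le.1 (h.vol i)).2]) _)
        (M2a.io_le_sep h e.symm) (io_nonneg _ _) (by positivity)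
    · rw [mul_pow, mul_pow, ← mul_assoc]
      refine mul_le_mul_of_nonneg_right (mul_le_mul (by nlinarith) (by nlinarith) (by positivity)
        (by positivity)) (sq_nonneg a)

theorem chain (q k : ℕ) : ∃ C : ℝ, 1 ≤ C ∧ ∀ (a : ℝ) (g : Cf q k), 0 ≤ a → a ≤ 1 / 2 → Ad a g →
    ∃ e : ℕ → Cf q k, e 0 = g ∧ ∀ j, JJ (e (j + 1)) = e j ∧ Ad (C * a) (e j) := by
  have k0 : (0 : ℝ) ≤ k := Nat.cast_nonneg k
  refine ⟨2 * k + 1, by linarith, fun a g a0 a1 h => ?_⟩
  choose F hF using J_surj (q := q)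
  let e : ℕ → Cf q k := fun j i => F^[j] (g i)
  have he : ∀ j i, J (e (j + 1) i) = e j i := fun j i => by
    simp only [e, Function.iterate_succ_apply', hF]
  have vol : ∀ j i, |jac (e j i) - 1| ≤ a := fun j i => by
    induction j with
    | zero => exact h.vol i
    | succ j ih =>
      rw [← he, jac_J] at ih
      have y0 := jac_pos (e (j + 1) i)
      generalize jac (e (j + 1) i) = y at *
      obtain ⟨b1, b2⟩ := abs_le.1 ih
      rcases le_total y 1 with hy | hy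
      · have := pow_le_of_le_one y0.le hy (show q + 2 ≠ 0 by omega)
        exact abs_le.2 ⟨by linarith, by linarith⟩
      · have := le_self_pow₀ hy (show q + 2 ≠ 0 by omega)
        exact abs_le.2 ⟨by linarith, by linarith⟩
  have sep : ∀ j i l, i ≠ l → io (e j i) (e j l) ^ (q + 3) ≤
      (2 * a ^ 2) ^ (q + 3) * (jac (e j i) ^ (q + 2) * jac (e j l)) := fun j => by
    induction j with
    | zero =>
      intro i l hil
      have b1 : 1 / 2 ≤ jac (g i) := by linarith [(abs_le.1 (h.vol i)).1]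
      have b2 : 1 / 2 ≤ jac (g l) := by linarith [(abs_le.1 (h.vol l)).1]
      have b3 := mul_le_mul (pow_le_pow_left₀ (by norm_num) b1 (q + 2)) b2 (by norm_num)
        (pow_nonneg (jac_pos _).le _)
      refine (pow_le_pow_left₀ (io_nonneg _ _) (M2a.io_le_sep h hil) _).trans
        (le_trans (le_of_eq ?_) (mul_le_mul_of_nonneg_left b3 (by positivity)))
      rw [← pow_succ, ← mul_pow]
      congr 1
      ring
    | succ j ih =>
      intro i l hil
      have b1 := ih l i hil.symm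
      rw [← he, ← he j i, io_J, jac_J, jac_J] at b1
      refine le_of_mul_le_mul_left (le_of_eq_of_le ?_ (b1.trans (le_of_eq ?_)))
        (pow_pos (pow_pos (jac_pos (e (j + 1) l)) (q + 1)) (q + 3))
      · rw [mul_pow]
      · ring
  refine ⟨e, rfl, fun j => ⟨funext (he j), fun i => (vol j i).trans (by nlinarith), ?_⟩⟩
  refine (M2a.la_le (c := 4 * a ^ 2) (by positivity) fun i l hil => ?_).trans (by nlinarith)
  have b1 : jac (e j i) ≤ 2 := by linarith [(abs_le.1 (vol j i)).2]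
  have b2 : jac (e j l) ≤ 2 := by linarith [(abs_le.1 (vol j l)).2]
  have b3 := mul_le_mul (pow_le_pow_left₀ (jac_pos _).le b1 (q + 2)) b2 (jac_pos _).le
    (by positivity)
  refine le_of_pow_le_pow_left₀ (show q + 3 ≠ 0 by omega) (by positivity) ((sep j i l hil).trans
    ((mul_le_mul_of_nonneg_left b3 (by positivity)).trans (le_of_eq ?_)))
  rw [← pow_succ, ← mul_pow]
  congr 1
  ring

end Pool.Agent.Lib.MP_242fd5_gt.Cu
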