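import Pool.Agent.Lib.MP_242fd5_gt.Cu.M2

set_option autoImplicit false

open MeasureTheory Set Metric Filter Topology
open scoped RealInnerProductSpace

namespace Pool.Agent.Lib.MP_242fd5_gt.Cu

open Ty

variable {q k : ℕ}

namespace M3a

theorem cross_real (m : ℕ) {x y : ℝ} (hx : 0 ≤ x) (hy : 0 ≤ y) :
    x ^ (m + 1) * y ^ 2 ≤ x ^ (m + 2) * y + y ^ (m + 2) * x := by
  rcases le_total y x with h | h
  · have h1 : x ^ (m + 1) * y ^ 2 ≤ x ^ (m + 2) * y := by
      have : x ^ (m + 1) * y * y ≤ x ^ (m + 1) * y * x :=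
        mul_le_mul_of_nonneg_left h (by positivity)
      calc x ^ (m + 1) * y ^ 2 = x ^ (m + 1) * y * y := by ring
        _ ≤ x ^ (m + 1) * y * x := this
        _ = x ^ (m + 2) * y := by ring
    have h2 : 0 ≤ y ^ (m + 2) * x := by positivity
    linarith
  · have h1 : x ^ (m + 1) * y ^ 2 ≤ y ^ (m + 2) * x := by
      have : x ^ m * (x * y ^ 2) ≤ y ^ m * (x * y ^ 2) :=
        mul_le_mul_of_nonneg_right (pow_le_pow_left₀ hx h m) (by positivity)
      calc x ^ (m + 1) * y ^ 2 = x ^ m * (x * y ^ 2) := by ring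
        _ ≤ y ^ m * (x * y ^ 2) := this
        _ = y ^ (m + 2) * x := by ring
    have h2 : 0 ≤ x ^ (m + 2) * y := by positivity
    linarith

theorem quad_real {x p : ℝ} (h1 : 1 / 2 ≤ x) (h2 : x ≤ 3 / 2) (e : x ^ 2 * (1 - 2 * p) = 1) :
    |x - 1| ≤ 2 * |p| ∧ |p| ≤ 3 * |x - 1| ∧ |x - 1 - p| ≤ 4 * |x - 1| * |x - 1| := by
  have x0 : 0 < x := by linarith
  have xx : 0 < x ^ 2 := by positivity
  have e1 : |x - 1| * (x + 1) = 2 * |p| * x ^ 2 := by
    have : (x - 1) * (x + 1) = 2 * p * x ^ 2 := by linarith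
    have h := congrArg abs this
    rwa [abs_mul, abs_mul, abs_mul, abs_of_pos (show 0 < x + 1 by linarith), abs_of_pos xx,
      abs_two] at h
  have a0 := abs_nonneg (x - 1)
  have p0 := abs_nonneg p
  refine ⟨?_, ?_, ?_⟩
  · refine le_of_mul_le_mul_right ?_ (show 0 < x + 1 by linarith)
    rw [e1]
    exact mul_le_mul_of_nonneg_left (by nlinarith) (by positivity)
  · refine le_of_mul_le_mul_right ?_ (show 0 < 2 * x ^ 2 by positivity)
    have : |x - 1| * (x + 1) ≤ |x - 1| * (6 * x ^ 2) :=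
      mul_le_mul_of_nonneg_left (by nlinarith) a0
    linarith
  · have e2 : (x - 1 - p) * (2 * x ^ 2) = (x - 1) ^ 2 * (2 * x + 1) := by linarith
    have n0 : 0 ≤ x - 1 - p := by
      refine nonneg_of_mul_nonneg_left ?_ (show 0 < 2 * x ^ 2 by positivity)
      rw [e2]; positivity
    rw [abs_of_nonneg n0, mul_assoc, abs_mul_abs_self]
    refine le_of_mul_le_mul_right ?_ (show 0 < 2 * x ^ 2 by positivity)
    rw [e2]
    have : (x - 1) ^ 2 * (2 * x + 1) ≤ (x - 1) ^ 2 * (8 * x ^ 2) :=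
      mul_le_mul_of_nonneg_left (by nlinarith) (sq_nonneg _)
    linarith

theorem act_symm_act (g : G q) (φ : X q) : act 1 g.symm (act 1 g φ) = φ := by
  rw [act_act]
  have : g.symm.trans g = ContinuousLinearEquiv.refl ℝ (V (q + 3)) := by
    ext x; simp
  rw [this, act_refl]

theorem le_of_act (g : G q) {φ ψ : X q} (h : act 1 g φ ≤ act 1 g ψ) : φ ≤ ψ := by
  simpa only [act_symm_act] using act_mono 1 g.symm h

theorem l2_le_of {φ ψ : X q} {c : ℝ} (hc : 0 ≤ c) (h : ∀ u, |φ u| ≤ c * |ψ u|) :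
    l2 φ ≤ c * l2 ψ := by
  have : l2 φ ≤ l2 (c • ψ) := l2_mono fun u => by
    simpa [abs_mul, abs_of_nonneg hc] using h u
  rwa [l2_smul, abs_of_nonneg hc] at this

/-- the bound in the chart gives a bound by the radial function -/
theorem abs_le_rh {g h : G q} {s : ℝ} (H : ∀ u, |act 1 g (rh h) u - 1| ≤ s) :
    |rh h - rh g| ≤ s • rh g := by
  refine le_of_act g ?_
  rw [act_abs, map_sub, map_smul, act_rh_self]
  intro u
  simpa using H u

theorem cmp_of {g h : G q} {s S : ℝ} (hS : s ≤ S)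
    (H : ∀ u, |act 1 g (rh h) u - 1| ≤ s) (H2 : ∀ u, 1 / 2 ≤ act 1 g (rh h) u) :
    Cmp (Real.exp (2 * S)) g h := by
  rw [cmp_iff]
  have ex := Real.add_one_le_exp (2 * S)
  constructor
  · refine le_of_act g ?_
    rw [map_smul, act_rh_self, ContinuousMap.le_def]
    intro u
    have h1 := abs_le.1 (H u)
    have h0 := (abs_nonneg _).trans (H u)
    simp only [ContinuousMap.smul_apply, ContinuousMap.one_apply, smul_eq_mul, mul_one]
    linarith [h1.2]
  · refine le_of_act g ?_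
    rw [map_smul, act_rh_self, ContinuousMap.le_def]
    intro u
    have h1 := abs_le.1 (H u)
    have h0 := (abs_nonneg _).trans (H u)
    have h2 := H2 u
    simp only [ContinuousMap.smul_apply, ContinuousMap.one_apply, smul_eq_mul]
    have : (2 * S + 1) * act 1 g (rh h) u ≤ Real.exp (2 * S) * act 1 g (rh h) u :=
      mul_le_mul_of_nonneg_right ex (by linarith)
    nlinarith [h1.1]

end M3a

open M3a

theorem l2_cross {g h : G q} (hg : 1 / 2 ≤ jac g) :
    l2 (act 1 g (rh h)) ^ 2 ≤ 2 * (io g h + io h g) := by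
  rw [l2_act]
  have h1 : I (rh g ^ (q + 1) * rh h ^ 2) ≤ io g h + io h g := by
    rw [io, io, ← map_add]
    refine I_mono fun u => ?_
    simpa using cross_real q (rh_pos g u).le (rh_pos h u).le
  have h2 : (jac g)⁻¹ ≤ 2 := by
    rw [inv_le_comm₀ (jac_pos g) (by norm_num)]; linarith
  have h3 : 0 ≤ io g h + io h g := add_nonneg (io_nonneg _ _) (io_nonneg _ _)
  have h4 : 0 ≤ (jac g)⁻¹ := inv_nonneg.2 (jac_pos g).le
  calc (jac g)⁻¹ * I (rh g ^ (q + 1) * rh h ^ 2) ≤ (jac g)⁻¹ * (io g h + io h g) :=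
        mul_le_mul_of_nonneg_left h1 h4
    _ ≤ 2 * (io g h + io h g) := mul_le_mul_of_nonneg_right h2 h3

namespace M3a

theorem l2_off {δ : ℝ} (h0 : 0 ≤ δ) (h1 : δ ≤ 1 / 2) {g : Cf q k} (hg : Ad δ g) {i j : Fin k}
    (hij : i ≠ j) : l2 (act 1 (g i) (rh (g j))) ≤ 2 * δ := by
  have a := abs_le.1 (hg.vol i)
  have c := l2_cross (g := g i) (h := g j) (by linarith [a.1])
  have d := io_le_la g hij
  have e := hg.sep
  refine le_of_sq_le_sq ?_ (by linarith) |>.trans le_rfl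
  nlinarith [sq_nonneg δ]

/-- the two estimates shared by `M3` and `M3r` -/
theorem core {δ : ℝ} (h0 : 0 ≤ δ) (h1 : δ ≤ 1 / 2) {g h : Cf q k} (hg : Ad δ g) {s : Fin k → ℝ}
    (s0 : ∀ i, 0 ≤ s i) (H : ∀ i u, |act 1 (g i) (rh (h i)) u - 1| ≤ s i) :
    z (b h - b g) ≤ 2 * ∑ i, s i ∧
      ∀ i, l2 (act 1 (g i) (b h - b g) - (act 1 (g i) (rh (h i)) - 1)) ≤ 2 * δ * ∑ j, s j := by
  have eb : b h - b g = ∑ i, (rh (h i) - rh (g i)) := by
    rw [b, b, Finset.sum_sub_distrib]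
  have D : ∀ i, |rh (h i) - rh (g i)| ≤ s i • rh (g i) := fun i => abs_le_rh (H i)
  constructor
  · rw [eb, Finset.mul_sum]
    refine (z_sum_le _ _).trans (Finset.sum_le_sum fun i _ => ?_)
    have a := abs_le.1 (hg.vol i)
    have c := z_rh_le (g := g i) (by linarith [a.2])
    calc z (rh (h i) - rh (g i)) ≤ z (s i • rh (g i)) := z_mono (D i)
      _ = s i * z (rh (g i)) := by rw [z_smul, abs_of_nonneg (s0 i)]
      _ ≤ s i * 2 := mul_le_mul_of_nonneg_left c (s0 i)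
      _ = 2 * s i := mul_comm _ _
  · intro i
    have e : act 1 (g i) (b h - b g) - (act 1 (g i) (rh (h i)) - 1) =
        ∑ j ∈ Finset.univ.erase i, act 1 (g i) (rh (h j) - rh (g j)) := by
      rw [eb, map_sum, ← Finset.add_sum_erase _ _ (Finset.mem_univ i), map_sub, act_rh_self]
      abel
    rw [e]
    refine (l2_sum_le _ _).trans ?_
    rw [Finset.mul_sum]
    refine le_trans (Finset.sum_le_sum fun j hj => ?_)
      (Finset.sum_le_sum_of_subset_of_nonneg (Finset.erase_subset i Finset.univ)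
        fun j _ _ => mul_nonneg (by linarith) (s0 j))
    have c := l2_off h0 h1 hg (Finset.ne_of_mem_erase hj).symm
    have m : l2 (act 1 (g i) (rh (h j) - rh (g j))) ≤ l2 (s j • act 1 (g i) (rh (g j))) := by
      refine l2_mono (le_trans ?_ (le_abs_self _))
      rw [← act_abs, ← map_smul]
      exact act_mono 1 _ (D j)
    rw [l2_smul, abs_of_nonneg (s0 j)] at m
    calc _ ≤ s j * l2 (act 1 (g i) (rh (g j))) := m
      _ ≤ s j * (2 * δ) := mul_le_mul_of_nonneg_left c (s0 j)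
      _ = 2 * δ * s j := mul_comm _ _

theorem near_one {δ : ℝ} (h0 : 0 ≤ δ) (h1 : δ ≤ 1 / 4) {g h : G q} (H : Cmp (Real.exp δ) g h)
    (u : Sp q) : |act 1 g (rh h) u - 1| ≤ 2 * δ := by
  obtain ⟨a, c⟩ := (cmp_iff g h).1 H
  have a' := ContinuousMap.le_def.1 (act_mono 1 g a) u
  have c' := ContinuousMap.le_def.1 (act_mono 1 g c) u
  rw [map_smul, act_rh_self] at a' c'
  simp only [ContinuousMap.smul_apply, ContinuousMap.one_apply, smul_eq_mul, mul_one] at a' c'
  have ex : Real.exp δ ≤ 1 + 2 * δ := by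
    have := Real.abs_exp_sub_one_le (x := δ) (by rw [abs_of_nonneg h0]; linarith)
    rw [abs_of_nonneg h0] at this
    linarith [(abs_le.1 this).2]
  have p0 : 0 ≤ act 1 g (rh h) u := act_nonneg 1 g (rh_nonneg h) u
  have : Real.exp δ * act 1 g (rh h) u ≤ (1 + 2 * δ) * act 1 g (rh h) u :=
    mul_le_mul_of_nonneg_right ex p0
  rw [abs_le]
  constructor
  · by_contra hc
    push Not at hc
    nlinarith
  · linarith

theorem small {K ε : ℝ} (hK : 0 < K) (hε : 0 < ε) :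
    ∃ δ : ℝ, 0 < δ ∧ K * δ ≤ ε ∧ K * δ ≤ 1 / 2 := by
  refine ⟨min ε (1 / 2) / K, by positivity, ?_, ?_⟩
  · rw [mul_div_cancel₀ _ hK.ne']; exact min_le_left _ _
  · rw [mul_div_cancel₀ _ hK.ne']; exact min_le_right _ _

end M3a

/-- differences of two close configurations lie in a narrow cone -/
theorem M3 (q k : ℕ) : ∃ C : ℝ, 1 ≤ C ∧ ∀ ε : ℝ, 0 < ε → ∃ δ : ℝ, 0 < δ ∧ ∀ g h : Cf q k,
    Ad δ g → Cm δ g h → ∃ τ : ℝ, 0 ≤ τ ∧ z (b h - b g) ≤ C * τ ∧ τ ≤ 2 * t g (b h - b g) ∧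
      Y g (b h - b g) (ε * τ) ∧ Cm (C * τ) g h := by
  obtain ⟨c, c1, hc⟩ := Q_sup q
  refine ⟨12 * c, by linarith, fun ε hε => ?_⟩
  have k0 : (0 : ℝ) ≤ k := Nat.cast_nonneg k
  have kc : 0 ≤ 12 * k * c := by positivity
  obtain ⟨δ, δ0, δ1, δ2⟩ := small (K := 12 * k * c + 8) (by linarith) hε
  have kd : 0 ≤ 12 * k * c * δ := by positivity
  have δ4 : δ ≤ 1 / 16 := by linarith
  refine ⟨δ, δ0, fun g h hg hm => ?_⟩
  have hP : ∀ i, ∃ p ∈ Q q, act 1 (g i) (rh (h i)) ^ 2 * (1 - (2 : ℝ) • p) = 1 := fun i => by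
    obtain ⟨P, hP, e⟩ := inv_sq_mem ((h i).trans (g i).symm)
    refine ⟨(1 / 2 : ℝ) • (1 - P), (Q q).smul_mem _ ((Q q).sub_mem one_mem_Q hP), ?_⟩
    rw [act_rh, smul_smul]
    simpa using e
  choose p pQ pe using hP
  have n1 : ∀ i u, |act 1 (g i) (rh (h i)) u - 1| ≤ 2 * δ := fun i u =>
    near_one δ0.le (by linarith) (hm i) u
  have lo : ∀ i u, 1 / 2 ≤ act 1 (g i) (rh (h i)) u := fun i u => by
    linarith [(abs_le.1 (n1 i u)).1]
  have qr := fun i u => quad_real (x := act 1 (g i) (rh (h i)) u) (p := p i u) (lo i u)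
    (by linarith [(abs_le.1 (n1 i u)).2])
    (by simpa using congrArg (fun f : X q => f u) (pe i))
  set T : Fin k → ℝ := fun i => l2 (act 1 (g i) (rh (h i)) - 1) with hT
  have T0 : ∀ i, 0 ≤ T i := fun i => l2_nonneg _
  have τ0 : 0 ≤ ∑ i, T i := Finset.sum_nonneg fun i _ => T0 i
  have pl : ∀ i, l2 (p i) ≤ 3 * T i := fun i =>
    l2_le_of (by norm_num) fun u => by simpa using (qr i u).2.1
  have H : ∀ i u, |act 1 (g i) (rh (h i)) u - 1| ≤ 6 * c * T i := fun i u => by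
    have a := (qr i u).1
    have a2 : |p i u| ≤ ‖p i‖ := (p i).norm_coe_le_norm u
    have a3 := hc _ (pQ i)
    have a4 := mul_le_mul_of_nonneg_left (pl i) (show 0 ≤ c by linarith)
    linarith
  obtain ⟨z1, z2⟩ := core δ0.le (by linarith) hg (s := fun i => 6 * c * T i)
    (fun i => mul_nonneg (by linarith) (T0 i)) H
  rw [← Finset.mul_sum] at z1 z2
  have rem : ∀ i, l2 (act 1 (g i) (rh (h i)) - 1 - p i) ≤ 8 * δ * T i := fun i =>
    l2_le_of (by positivity) fun u => by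
      have a := (qr i u).2.2
      have a2 := mul_le_mul_of_nonneg_right (n1 i u) (abs_nonneg (act 1 (g i) (rh (h i)) u - 1))
      simp only [ContinuousMap.sub_apply, ContinuousMap.one_apply]
      linarith
  refine ⟨∑ i, T i, τ0, by linarith, ?_, ⟨p, pQ, ?_⟩, fun i => ?_⟩
  · have a : ∑ i, T i ≤ ∑ i : Fin k, (l2 (act 1 (g i) (b h - b g)) +
        2 * δ * (6 * c * ∑ j, T j)) := Finset.sum_le_sum fun i _ => by
      have e : act 1 (g i) (rh (h i)) - 1 = act 1 (g i) (b h - b g) -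
          (act 1 (g i) (b h - b g) - (act 1 (g i) (rh (h i)) - 1)) := by abel
      have a1 := l2_sub_le (act 1 (g i) (b h - b g))
        (act 1 (g i) (b h - b g) - (act 1 (g i) (rh (h i)) - 1))
      rw [← e] at a1
      have a2 := z2 i
      simp only [hT]
      simp only [hT] at a2
      linarith
    rw [Finset.sum_add_distrib, Finset.sum_const, Finset.card_univ, Fintype.card_fin,
      nsmul_eq_mul] at a
    have a2 : 12 * k * c * δ * ∑ i, T i ≤ 1 / 2 * ∑ i, T i :=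
      mul_le_mul_of_nonneg_right (by linarith) τ0
    unfold t
    linarith
  · have a : ∑ i, l2 (act 1 (g i) (b h - b g) - p i) ≤ ∑ i : Fin k,
        (2 * δ * (6 * c * ∑ j, T j) + 8 * δ * T i) := Finset.sum_le_sum fun i _ => by
      have a1 := l2_tri (act 1 (g i) (b h - b g)) (act 1 (g i) (rh (h i)) - 1) (p i)
      linarith [z2 i, rem i]
    rw [Finset.sum_add_distrib, Finset.sum_const, Finset.card_univ, Fintype.card_fin,
      nsmul_eq_mul, ← Finset.mul_sum] at a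
    have a2 : (12 * k * c + 8) * δ * ∑ i, T i ≤ ε * ∑ i, T i := mul_le_mul_of_nonneg_right δ1 τ0
    linarith
  · have a : T i ≤ ∑ j, T j := Finset.single_le_sum (fun j _ => T0 j) (Finset.mem_univ i)
    have := cmp_of (S := 6 * c * ∑ j, T j)
      (mul_le_mul_of_nonneg_left a (show 0 ≤ 6 * c by linarith)) (H i) (lo i)
    rwa [show 2 * (6 * c * ∑ j, T j) = 12 * c * ∑ j, T j by ring] at this

/-- recentring -/
theorem M3r (q k : ℕ) : ∃ C : ℝ, 1 ≤ C ∧ ∀ ε : ℝ, 0 < ε → ∃ δ : ℝ, 0 < δ ∧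
    ∀ (g : Cf q k) (p : Fin k → X q) (τ : ℝ), Ad δ g → (∀ i, p i ∈ Q q) → ∑ i, l2 (p i) ≤ τ →
      τ ≤ δ → ∃ h : Cf q k, Cm (C * τ) g h ∧ ∑ i, l2 (act 1 (g i) (b h - b g) - p i) ≤ ε * τ ∧
        z (b h - b g) ≤ C * τ := by
  obtain ⟨c, c1, hc⟩ := Q_sup q
  refine ⟨4 * c, by linarith, fun ε hε => ?_⟩
  have k0 : (0 : ℝ) ≤ k := Nat.cast_nonneg k
  have kc : 0 ≤ 4 * k * c := by positivity
  obtain ⟨δ, δ0, δ1, δ2⟩ := small (K := 4 * k * c + 16 * c) (by linarith) hε
  have kd : 0 ≤ 4 * k * c * δ := by positivity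
  have δ4 : c * δ ≤ 1 / 32 := by linarith
  have δ5 : δ ≤ 1 / 32 := by nlinarith
  refine ⟨δ, δ0, fun g p τ hg pQ hs hτ => ?_⟩
  have c0 : 0 ≤ c := by linarith
  have T0 : ∀ i, 0 ≤ l2 (p i) := fun i => l2_nonneg _
  have S0 : 0 ≤ ∑ i, l2 (p i) := Finset.sum_nonneg fun i _ => T0 i
  have τ0 : 0 ≤ τ := S0.trans hs
  have Tl : ∀ i, l2 (p i) ≤ τ := fun i =>
    (Finset.single_le_sum (fun j _ => T0 j) (Finset.mem_univ i)).trans hs
  have ps : ∀ i u, |p i u| ≤ c * l2 (p i) := fun i u =>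
    ((p i).norm_coe_le_norm u).trans (hc _ (pQ i))
  have pd : ∀ i u, |p i u| ≤ c * δ := fun i u =>
    (ps i u).trans (mul_le_mul_of_nonneg_left ((Tl i).trans hτ) c0)
  have hw : ∀ i, ∃ w : G q, rh w ^ 2 * (1 - (2 : ℝ) • p i) = 1 := fun i =>
    exists_rh ((Q q).sub_mem one_mem_Q ((Q q).smul_mem _ (pQ i))) fun u => by
      have := (abs_le.1 (pd i u)).2
      simp only [ContinuousMap.sub_apply, ContinuousMap.one_apply, ContinuousMap.smul_apply,
        smul_eq_mul]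
      linarith
  choose w we using hw
  have ea : ∀ i, act 1 (g i) (rh ((w i).trans (g i))) = rh (w i) := fun i => by
    rw [act_rh]
    congr 1
    ext x; simp
  have ee : ∀ i u, rh (w i) u ^ 2 * (1 - 2 * p i u) = 1 := fun i u => by
    simpa using congrArg (fun f : X q => f u) (we i)
  have lo : ∀ i u, 1 / 2 ≤ rh (w i) u := fun i u => by
    have a := abs_le.1 (pd i u)
    have a2 := rh_pos (w i) u
    have a3 := ee i u
    by_contra hc
    push Not at hc
    have a4 : rh (w i) u ^ 2 ≤ 1 / 4 := by nlinarith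
    have a5 : rh (w i) u ^ 2 * (1 - 2 * p i u) ≤ 1 / 4 * 2 :=
      mul_le_mul a4 (by linarith [a.1]) (by linarith [a.2]) (by norm_num)
    linarith
  have hi : ∀ i u, rh (w i) u ≤ 3 / 2 := fun i u => by
    have a := abs_le.1 (pd i u)
    have a3 := ee i u
    by_contra hc
    push Not at hc
    have a4 : 2 ≤ rh (w i) u ^ 2 := by nlinarith
    have a5 : 2 * (3 / 4) ≤ rh (w i) u ^ 2 * (1 - 2 * p i u) :=
      mul_le_mul a4 (by linarith [a.2]) (by norm_num) (sq_nonneg _)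
    linarith
  have qr := fun i u => quad_real (lo i u) (hi i u) (ee i u)
  set h : Cf q k := fun i => (w i).trans (g i) with hh
  have ea' : ∀ i, act 1 (g i) (rh (h i)) = rh (w i) := ea
  have H : ∀ i u, |act 1 (g i) (rh (h i)) u - 1| ≤ 2 * c * l2 (p i) := fun i u => by
    rw [ea']
    linarith [(qr i u).1, ps i u]
  obtain ⟨z1, z2⟩ := core δ0.le (by linarith) hg (s := fun i => 2 * c * l2 (p i))
    (fun i => mul_nonneg (by linarith) (T0 i)) H
  rw [← Finset.mul_sum] at z1 z2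
  have rem : ∀ i, l2 (act 1 (g i) (rh (h i)) - 1 - p i) ≤ 16 * c * δ * l2 (p i) := fun i =>
    l2_le_of (by positivity) fun u => by
      rw [ea']
      have a := (qr i u).2.2
      have a1 := (qr i u).1
      have a2 : |rh (w i) u - 1| * |rh (w i) u - 1| ≤ (2 * (c * δ)) * (2 * |p i u|) :=
        mul_le_mul (by linarith [pd i u]) a1 (abs_nonneg _) (by positivity)
      simp only [ContinuousMap.sub_apply, ContinuousMap.one_apply]
      linarith
  have cs : c * ∑ i, l2 (p i) ≤ c * τ := mul_le_mul_of_nonneg_left hs c0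
  refine ⟨h, fun i => ?_, ?_, by linarith⟩
  · have := cmp_of (S := 2 * c * τ)
      (mul_le_mul_of_nonneg_left (Tl i) (show 0 ≤ 2 * c by linarith)) (H i)
      (fun u => by rw [ea']; exact lo i u)
    rwa [show 2 * (2 * c * τ) = 4 * c * τ by ring] at this
  · have a : ∑ i, l2 (act 1 (g i) (b h - b g) - p i) ≤ ∑ i : Fin k,
        (2 * δ * (2 * c * ∑ j, l2 (p j)) + 16 * c * δ * l2 (p i)) :=
      Finset.sum_le_sum fun i _ => by
        have a1 := l2_tri (act 1 (g i) (b h - b g)) (act 1 (g i) (rh (h i)) - 1) (p i)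
        linarith [z2 i, rem i]
    rw [Finset.sum_add_distrib, Finset.sum_const, Finset.card_univ, Fintype.card_fin,
      nsmul_eq_mul, ← Finset.mul_sum] at a
    have a2 : (4 * k * c + 16 * c) * δ * ∑ i, l2 (p i) ≤ ε * τ :=
      mul_le_mul δ1 hs S0 hε.le
    linarith

end Pool.Agent.Lib.MP_242fd5_gt.Cu
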