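import Pool.Agent.Lib.MP_242fd5_gt.Cu.AP
import Pool.Agent.Lib.MP_242fd5_gt.Cu.Cone

set_option autoImplicit false

open MeasureTheory Set Metric Filter Topology
open scoped RealInnerProductSpace

namespace Pool.Agent.Lib.MP_242fd5_gt.Cu

open Ty

variable {q k : ℕ}

namespace ModH

lemma half {a : ℝ} {g : Cf q k} (H : Ad a g) (h : a ≤ 1 / 2) (i : Fin k) :
    |jac (g i) - 1| ≤ 1 / 2 := (H.vol i).trans h

lemma Mo_sub {g : Cf q k} {d e : X q} {x x' : ℝ} (H : Mo g d x) (H' : Mo g e x') :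
    Mo g (d - e) (x + x') := by
  rw [sub_eq_add_neg]; exact H.add H'.neg

lemma mul_le_of {a c D : ℝ} (ha : 0 ≤ a) (hD : 0 < D) (h : a ≤ 1 / D) (hc : c ≤ D) : c * a ≤ 1 := by
  rw [le_div_iff₀ hD] at h
  nlinarith [mul_le_mul_of_nonneg_right hc ha]

/-- moments seen from a close configuration -/
lemma mo_shift (q k : ℕ) : ∃ C : ℝ, 1 ≤ C ∧ ∀ (ω x : ℝ) (g h : Cf q k) (f : X q), 0 ≤ ω → ω ≤ 1 →
    Cm ω g h → (∀ i, |jac (g i) - 1| ≤ 1 / 2) → (∀ i, |jac (h i) - 1| ≤ 1 / 2) →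
    z (f - b g) ≤ 1 → 0 ≤ x → Mo g (f - b g) x → Mo h (f - b h) (C * (x + ω)) := by
  obtain ⟨C2, c2, H2⟩ := M2 q k
  obtain ⟨C4, c4, H4⟩ := M4 q k
  have p1 : 0 ≤ C2 * C4 := by positivity
  have p2 : 0 ≤ C4 * (C2 * C4) := by positivity
  refine ⟨1 + C2 + C2 * C4 + C4 * (C2 * C4), by linarith, fun ω x g h f w0 w1 hc vg vh hz x0 hm => ?_⟩
  obtain ⟨-, -, m, zb, -⟩ := H2 ω g h w0 w1 hc
  have h1 := m _ x x0 hm
  have h2 := Mo_t h (b h - b g)
  have h3 : t g (f - b g) ≤ C4 := ((H4 g vg).2 _).trans (mul_le_of_le_one_right (by linarith) hz)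
  have q1 : 0 ≤ C2 * ω := by positivity
  have h4 : t h (b h - b g) ≤ C4 * (C2 * ω * C4) :=
    ((H4 h vh).2 _).trans (mul_le_mul_of_nonneg_left
      (zb.trans (mul_le_mul_of_nonneg_left (H4 g vg).1 q1)) (by linarith))
  have e : f - b h = f - b g - (b h - b g) := by abel
  rw [e]
  refine (Mo_sub h1 h2).mono ?_
  have h5 := mul_le_mul_of_nonneg_left h3 q1
  have h6 : C2 * ω * x ≤ C2 * x :=
    mul_le_mul_of_nonneg_right (mul_le_of_le_one_right (by linarith) w1) x0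
  have h7 : 0 ≤ C2 * C4 * x := by positivity
  have h8 : 0 ≤ C4 * (C2 * C4) * x := by positivity
  nlinarith

/-- one modulation step: the moments are halved -/
lemma mod_step (q k : ℕ) : ∃ C δ : ℝ, 1 ≤ C ∧ 0 < δ ∧ ∀ (g : Cf q k) (f : X q) (x : ℝ), Ad δ g →
    z (f - b g) ≤ δ → 0 ≤ x → x ≤ δ → Mo g (f - b g) x →
    ∃ h : Cf q k, Cm (C * x) g h ∧ Mo h (f - b h) (x / 2) := by
  obtain ⟨C2, c2, H2⟩ := M2 q k
  obtain ⟨C4, c4, H4⟩ := M4 q k
  obtain ⟨C3, c3, H3⟩ := M3r q k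
  obtain ⟨K, K1, kK⟩ : ∃ K : ℝ, 1 ≤ K ∧ (k : ℝ) ≤ K :=
    ⟨k + 1, by linarith [Nat.cast_nonneg (α := ℝ) k], by linarith⟩
  obtain ⟨δ3, d3, H3⟩ := H3 (1 / (8 * K)) (by positivity)
  obtain ⟨B, eB⟩ : ∃ B, B = C3 * K := ⟨_, rfl⟩
  have B1 : 1 ≤ B := by rw [eB]; exact one_le_mul_of_one_le_of_one_le c3 K1
  have p1 : 1 ≤ C4 * B := one_le_mul_of_one_le_of_one_le c4 B1
  have p2 : 1 ≤ C2 * B := one_le_mul_of_one_le_of_one_le c2 B1
  have p3 : B ≤ C2 * B := le_mul_of_one_le_left (by linarith) c2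
  obtain ⟨D, eD⟩ : ∃ D, D = 8 * (C2 * B * (C4 * B)) := ⟨_, rfl⟩
  have D1 : 8 * (C2 * B) ≤ D := by
    rw [eD]; linarith [le_mul_of_one_le_right (show 0 ≤ C2 * B by linarith) p1]
  have D0 : 0 < D := by linarith
  refine ⟨B, min (δ3 / K) (1 / D), B1, by positivity, fun g f x hg hz x0 hx hm => ?_⟩
  set δ := min (δ3 / K) (1 / D) with hδ
  have δ0 : 0 < δ := by positivity
  have δ1 : δ ≤ δ3 / K := min_le_left _ _
  have δ2 : δ ≤ 1 / D := min_le_right _ _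
  have δ4 : δ ≤ δ3 := δ1.trans (div_le_self d3.le K1)
  have δ5 : δ ≤ 1 / 2 := by linarith [mul_le_of δ0.le D0 δ2 (show 2 ≤ D by linarith)]
  choose p pQ po pl _ _ using fun i => exists_proj (act 1 (g i) (f - b g))
  have pb : ∀ i, l2 (p i) ≤ x := fun i => by
    have h1 := (le_abs_self _).trans (hm i (p i) (pQ i))
    rw [← pl i] at h1
    by_contra hn
    nlinarith [not_le.1 hn]
  have ps : ∑ i, l2 (p i) ≤ K * x := by
    refine (Finset.sum_le_sum fun i _ => pb i).trans ?_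
    rw [Finset.sum_const, Finset.card_univ, Fintype.card_fin, nsmul_eq_mul]
    exact mul_le_mul_of_nonneg_right kK x0
  obtain ⟨h, hc, hl, hb⟩ := H3 g p (K * x) (hg.mono δ0.le δ4) pQ ps (by
    have := hx.trans δ1
    rwa [le_div_iff₀ (by linarith), mul_comm] at this)
  rw [← mul_assoc, ← eB] at hc hb
  refine ⟨h, hc, ?_⟩
  have w0 : 0 ≤ B * x := by positivity
  have w2 : C2 * B * x ≤ 1 := mul_le_of x0 D0 (hx.trans δ2) (by linarith)
  have w1 : B * x ≤ 1 := mul_le_of x0 D0 (hx.trans δ2) (by linarith)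
  have e : f - b h = f - b g - (b h - b g) := by abel
  have e8 : 1 / (8 * K) * (K * x) = x / 8 := by field_simp
  rw [e8] at hl
  have m1 : Mo g (f - b h) (x / 8) := fun i p' hp' => by
    have e1 : act 1 (g i) (f - b h) * p' = (act 1 (g i) (f - b g) - p i) * p' -
        (act 1 (g i) (b h - b g) - p i) * p' := by
      rw [e, map_sub (act 1 (g i)) (f - b g)]; ring
    rw [e1, map_sub, po i p' hp', zero_sub, abs_neg]
    refine (cs _ _).trans (mul_le_mul_of_nonneg_right (le_trans ?_ hl) (l2_nonneg _))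
    exact Finset.single_le_sum (f := fun i => l2 (act 1 (g i) (b h - b g) - p i))
      (fun _ _ => l2_nonneg _) (Finset.mem_univ i)
  obtain ⟨-, -, m, -, -⟩ := H2 (B * x) g h w0 w1 hc
  refine (m _ _ (by positivity) m1).mono ?_
  have z1 : z (f - b h) ≤ 2 * (B * δ) := by
    rw [e]
    have := mul_le_mul_of_nonneg_left hx (show 0 ≤ B by linarith)
    linarith [z_sub_le (f - b g) (b h - b g), le_mul_of_one_le_left δ0.le B1]
  have t1 : t g (f - b h) ≤ C4 * (2 * (B * δ)) :=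
    ((H4 g (half hg δ5)).2 _).trans (mul_le_mul_of_nonneg_left z1 (by linarith))
  have t2 := mul_le_mul_of_nonneg_left t1 (show 0 ≤ C2 * (B * x) by positivity)
  have t3 : D * δ ≤ 1 := mul_le_of δ0.le D0 δ2 le_rfl
  have t4 : D * δ * x ≤ x := mul_le_of_le_one_left x0 t3
  have t5 : C2 * B * x * x ≤ x := mul_le_of_le_one_left x0 w2
  rw [eD] at t4
  nlinarith

end ModH

open ModH

/-- modulation -/
theorem modul (q k : ℕ) {a : ℝ} (ha : 0 < a) : ∃ r : ℝ, 0 < r ∧ ∀ (g : Cf q k) (f : X q),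
    Ad r g → z (f - b g) ≤ r → ∃ h : Cf q k, Ad a h ∧ z (f - b h) ≤ a ∧ Mo h (f - b h) 0 := by
  obtain ⟨C2, c2, H2⟩ := M2 q k
  obtain ⟨C4, c4, H4⟩ := M4 q k
  obtain ⟨C, δ, c1, δ0, HS⟩ := mod_step q k
  obtain ⟨C5, c5, H5⟩ := mo_shift q k
  obtain ⟨a', a0, a1, a2, a3⟩ : ∃ a' : ℝ, 0 < a' ∧ a' ≤ a ∧ a' ≤ δ ∧ a' ≤ 1 / 2 :=
    ⟨min a (min δ (1 / 2)), by positivity, min_le_left _ _,
      (min_le_right _ _).trans (min_le_left _ _), (min_le_right _ _).trans (min_le_right _ _)⟩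
  have p1 : 1 ≤ C2 * C4 := one_le_mul_of_one_le_of_one_le c2 c4
  have p2 : C2 ≤ C2 * C4 := le_mul_of_one_le_right (by linarith) c4
  have p3 : C4 ≤ C * C4 := le_mul_of_one_le_left (by linarith) c1
  obtain ⟨B, eB⟩ : ∃ B, B = 1 + C2 * C4 * (2 * (C * C4)) := ⟨_, rfl⟩
  have B0 : 0 < B := by rw [eB]; positivity
  refine ⟨a' / B, by positivity, fun g f hg hz => ?_⟩
  set r := a' / B with hr
  have r0 : 0 < r := by positivity
  have r1 : r + C2 * C4 * (2 * (C * C4) * r) = a' := by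
    have : B * r = a' := by rw [hr]; field_simp
    rw [← this, eB]; ring
  have r2 : 0 ≤ 2 * (C * C4) * r := by positivity
  have r3 : 2 * (C * C4) * r ≤ C2 * C4 * (2 * (C * C4) * r) := le_mul_of_one_le_left r2 p1
  have r4 : r ≤ 1 / 2 := by linarith
  have vg := half hg r4
  obtain ⟨x, x0, x1, hm⟩ : ∃ x : ℝ, 0 ≤ x ∧ x ≤ C4 * r ∧ Mo g (f - b g) x :=
    ⟨_, t_nonneg _ _, ((H4 g vg).2 _).trans (mul_le_mul_of_nonneg_left hz (by linarith)), Mo_t _ _⟩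
  have x2 : 2 * C * x ≤ 2 * (C * C4) * r := by
    nlinarith [mul_le_mul_of_nonneg_left x1 (show 0 ≤ C by linarith)]
  have x3 : x ≤ C * x := le_mul_of_one_le_left x0 c1
  have near : ∀ h : Cf q k, Cm (2 * C * x) g h → Ad a' h ∧ z (f - b h) ≤ a' := fun h hc => by
    have w0 : 0 ≤ 2 * C * x := by positivity
    obtain ⟨-, -, -, zb, ad⟩ := H2 _ g h w0 (by linarith) hc
    have u1 : C2 * (2 * C * x) * C4 ≤ C2 * C4 * (2 * (C * C4) * r) := by
      nlinarith [mul_le_mul_of_nonneg_left x2 (show 0 ≤ C2 * C4 by linarith)]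
    have u0 : 0 ≤ C2 * (2 * C * x) := by positivity
    have u2 := le_mul_of_one_le_right u0 c4
    refine ⟨(ad r r0.le (by linarith) hg).mono (by positivity) (by linarith), ?_⟩
    have := z_tri f (b g) (b h)
    rw [z_sub_comm (b g)] at this
    linarith [mul_le_mul_of_nonneg_left (H4 g vg).1 u0]
  obtain ⟨y, y0, ys, yn, yl⟩ : ∃ y : ℕ → ℝ, y 0 = x ∧ (∀ l, y (l + 1) = y l / 2) ∧
      (∀ l, 0 ≤ y l ∧ y l ≤ x) ∧ Tendsto y atTop (𝓝 0) :=
    ⟨fun l => x * (1 / 2) ^ l, by simp, fun l => by ring, fun l => ⟨by positivity,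
      mul_le_of_le_one_right x0 (pow_le_one₀ (by norm_num) (by norm_num))⟩, by
        simpa using (tendsto_pow_atTop_nhds_zero_of_lt_one (r := (1 / 2 : ℝ)) (by norm_num)
          (by norm_num)).const_mul x⟩
  have wk : ∀ (l : ℕ) (h : Cf q k), Cm (2 * C * (x - y l)) g h → Cm (2 * C * x) g h :=
    fun l h hc => hc.mono (mul_le_mul_of_nonneg_left (by linarith [(yn l).1]) (by linarith))
  have hstep : ∀ (l : ℕ) (h : Cf q k), Cm (2 * C * (x - y l)) g h ∧ Mo h (f - b h) (y l) →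
      ∃ h' : Cf q k, Cm (C * y l) h h' ∧ Mo h' (f - b h') (y (l + 1)) := fun l h H => by
    obtain ⟨n1, n2⟩ := near h (wk l h H.1)
    rw [ys]
    exact HS h f (y l) (n1.mono a0.le a2) (n2.trans a2) (yn l).1 (by linarith [(yn l).2]) H.2
  choose! nxt hn using hstep
  obtain ⟨s, s0, ss⟩ : ∃ s : ℕ → Cf q k, s 0 = g ∧ ∀ l, s (l + 1) = nxt l (s l) :=
    ⟨fun l => Nat.rec g nxt l, rfl, fun _ => rfl⟩
  have hP : ∀ l, Cm (2 * C * (x - y l)) g (s l) ∧ Mo (s l) (f - b (s l)) (y l) := fun l => by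
    induction l with
    | zero => rw [s0, y0]; exact ⟨Cm.refl (by simp) g, hm⟩
    | succ l ih =>
      rw [ss]
      refine ⟨(ih.1.trans (hn l _ ih).1).mono (le_of_eq ?_), (hn l _ ih).2⟩
      rw [ys]; ring
  have hc : ∀ l l', l ≤ l' → Cm (2 * C * (y l - y l')) (s l) (s l') := fun l l' hl => by
    induction l', hl using Nat.le_induction with
    | base => exact Cm.refl (by simp) _
    | succ l' _ ih =>
      rw [ss]
      refine (ih.trans (hn l' _ (hP l')).1).mono (le_of_eq ?_)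
      rw [ys]; ring
  obtain ⟨w, hw⟩ := cm_lim s (fun l => 2 * C * y l) (by simpa using yl.const_mul (2 * C))
    fun l l' hl => (hc l l' hl).mono
      (mul_le_mul_of_nonneg_left (by linarith [(yn l').1]) (by linarith))
  have w0 := hw 0
  rw [s0, y0] at w0
  obtain ⟨n1, n2⟩ := near w w0
  refine ⟨w, n1.mono a0.le a1, n2.trans a1, fun i p hp => ?_⟩
  have mw : ∀ l, Mo w (f - b w) (C5 * (y l + 2 * C * y l)) := fun l => by
    obtain ⟨n3, n4⟩ := near (s l) (wk l _ (hP l).1)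
    have := (yn l).1
    exact H5 _ _ (s l) w f (by positivity)
      (by linarith [mul_le_mul_of_nonneg_left (yn l).2 (show 0 ≤ 2 * C by linarith)]) (hw l)
      (half n3 a3) (half n1 a3) (by linarith) this (hP l).2
  have lim : Tendsto (fun l => C5 * (y l + 2 * C * y l) * l2 p) atTop (𝓝 (0 * l2 p)) := by
    refine Tendsto.mul_const _ ?_
    simpa using (yl.add (yl.const_mul (2 * C))).const_mul C5
  exact ge_of_tendsto' lim fun l => mw l i p hp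

theorem cf_unique (q k : ℕ) : ∃ a : ℝ, 0 < a ∧ ∀ (E F : Cf q k) (f : X q), Ad a E → Ad a F →
    z (f - b E) ≤ a → z (f - b F) ≤ a → Mo E (f - b E) 0 → Mo F (f - b F) 0 →
      ∃ σ : Equiv.Perm (Fin k), ∀ i, rh (F (σ i)) = rh (E i) := by
  obtain ⟨C2, c2, H2⟩ := M2 q k
  obtain ⟨C4, c4, H4⟩ := M4 q k
  obtain ⟨C3, c3, H3⟩ := M3 q k
  obtain ⟨δ3, d3, H3⟩ := H3 (1 / 8) (by norm_num)
  obtain ⟨δP, dP, HP⟩ := PS q k d3
  obtain ⟨K, K1, kK⟩ : ∃ K : ℝ, 1 ≤ K ∧ (k : ℝ) ≤ K :=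
    ⟨k + 1, by linarith [Nat.cast_nonneg (α := ℝ) k], by linarith⟩
  have p1 : 1 ≤ C3 * C4 := one_le_mul_of_one_le_of_one_le c3 c4
  have p2 : 1 ≤ K * C2 := one_le_mul_of_one_le_of_one_le K1 c2
  obtain ⟨D, eD⟩ : ∃ D, D = 16 * (K * C2 * (C3 * C4)) := ⟨_, rfl⟩
  have D1 : 16 * (C3 * C4) ≤ D := by
    rw [eD]; linarith [le_mul_of_one_le_left (show 0 ≤ C3 * C4 by linarith) p2]
  have D0 : 0 < D := by linarith
  obtain ⟨a, a0, a1, a2, a3⟩ : ∃ a : ℝ, 0 < a ∧ a ≤ δ3 ∧ a ≤ δP / 2 ∧ a ≤ 1 / D :=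
    ⟨min δ3 (min (δP / 2) (1 / D)), by positivity, min_le_left _ _,
      (min_le_right _ _).trans (min_le_left _ _), (min_le_right _ _).trans (min_le_right _ _)⟩
  have a4 : a ≤ 1 / 2 := by linarith [mul_le_of a0.le D0 a3 (show 2 ≤ D by linarith)]
  refine ⟨a, a0, fun E F f hE hF zE zF mE mF => ?_⟩
  have zz : z (b E - b F) ≤ 2 * a := by
    have := z_tri (b E) f (b F)
    rw [z_sub_comm (b E) f] at this
    linarith
  obtain ⟨σ, hσ⟩ := HP E F (hE.mono a0.le (by linarith)) (hF.mono a0.le (by linarith)) (by linarith)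
  refine ⟨σ, cm_zero.1 (?_ : Cm 0 E (F ∘ σ))⟩
  obtain ⟨τ, τ0, -, τ1, hY, hc⟩ := H3 E (F ∘ σ) (hE.mono a0.le a1) hσ
  have hh := hF.perm σ
  have mh := (mo_perm σ).2 mF
  rw [b_perm] at τ1 hY
  have τ2 : τ ≤ 2 * (C4 * (2 * a)) := by
    have := (H4 E (half hE a4)).2 (b F - b E)
    rw [z_sub_comm] at this
    linarith [mul_le_mul_of_nonneg_left zz (show 0 ≤ C4 by linarith)]
  have w0 : 0 ≤ C3 * τ := by positivity
  have w1 : C3 * τ ≤ 1 := by
    have h1 := mul_le_mul_of_nonneg_left τ2 (show 0 ≤ C3 by linarith)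
    have h2 := mul_le_of a0.le D0 a3 D1
    have h3 : 0 ≤ C3 * C4 * a := by positivity
    nlinarith
  obtain ⟨-, -, m, -, -⟩ := H2 _ (F ∘ σ) E w0 w1 hc.symm
  have m1 := m _ 0 le_rfl mh
  have t1 : t (F ∘ σ) (f - b F) ≤ C4 * a :=
    ((H4 _ (half hh a4)).2 _).trans (mul_le_mul_of_nonneg_left zF (by linarith))
  have m2 : Mo E (b F - b E) (C2 * (C3 * τ) * (C4 * a)) := by
    have e : b F - b E = f - b E - (f - b F) := by abel
    rw [e]
    refine (Mo_sub mE m1).mono ?_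
    linarith [mul_le_mul_of_nonneg_left t1 (show 0 ≤ C2 * (C3 * τ) by positivity)]
  have x0 : 0 ≤ C2 * (C3 * τ) * (C4 * a) := by positivity
  have t2 := t_le_of x0 hY m2
  have t3 := mul_le_mul_of_nonneg_right kK x0
  have t4 : D * a * τ ≤ τ := mul_le_of_le_one_left τ0 (mul_le_of a0.le D0 a3 le_rfl)
  rw [eD] at t4
  have τ3 : τ ≤ 0 := by nlinarith
  exact hc.mono (mul_nonpos_of_nonneg_of_nonpos (by linarith) τ3)

theorem lip (q : ℕ) (hk : 1 ≤ k) : ∃ C a : ℝ, 1 ≤ C ∧ 0 < a ∧ ∀ (E F : Cf q k) (f f' : X q)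
    (ω : ℝ), TyF k f → TyF k f' → Ad a E → Ad a F → z (f - b E) ≤ a → z (f' - b F) ≤ a →
    Mo E (f - b E) 0 → Mo F (f' - b F) 0 → 0 ≤ ω → ω ≤ a → Cm ω E F → z (f - f') ≤ C * ω := by
  obtain ⟨C2, c2, H2⟩ := M2 q k
  obtain ⟨C4, c4, H4⟩ := M4 q k
  obtain ⟨C5, c5, H5⟩ := mo_shift q k
  obtain ⟨CT, δ, cT, δ0, HT⟩ := TO q k
  obtain ⟨δA, CA, dA, -, -, HA⟩ := AP q hk
  obtain ⟨aA, aA0, HA⟩ := HA 1 δ one_pos le_rfl δ0
  have p0 : 0 < 2 + C2 * C4 := by positivity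
  obtain ⟨a, a0, a1, a2, a3⟩ : ∃ a : ℝ, 0 < a ∧ a ≤ aA ∧ a ≤ 1 / 2 ∧ a ≤ δ / (2 + C2 * C4) :=
    ⟨min aA (min (1 / 2) (δ / (2 + C2 * C4))), by positivity, min_le_left _ _,
      (min_le_right _ _).trans (min_le_left _ _), (min_le_right _ _).trans (min_le_right _ _)⟩
  refine ⟨CT * C5, a, one_le_mul_of_one_le_of_one_le cT c5, a0,
    fun E F f f' ω hf hf' hE hF zE zF mE mF w0 w1 hc => ?_⟩
  have mx : Mo E (f - f') (C5 * ω) := by
    have := H5 ω 0 F E f' w0 (by linarith) hc.symm (half hF a2) (half hE a2) (by linarith) le_rfl mF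
    have e : f - f' = f - b E - (f' - b E) := by abel
    rw [e]
    exact (Mo_sub mE this).mono (le_of_eq (by ring))
  have zx : z (f - f') ≤ δ := by
    obtain ⟨-, -, -, zb, -⟩ := H2 ω E F w0 (by linarith) hc
    have h1 := z_tri f (b E) f'
    have h2 := z_tri (b E) (b F) f'
    rw [z_sub_comm (b E) (b F), z_sub_comm (b F) f'] at h2
    have h3 := mul_le_mul_of_nonneg_left (H4 E (half hE a2)).1 (show 0 ≤ C2 * ω by positivity)
    have h4 := mul_le_mul_of_nonneg_left w1 (show 0 ≤ C2 * C4 by positivity)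
    rw [le_div_iff₀ p0] at a3
    nlinarith
  obtain ⟨φ, rfl, oφ, hφ⟩ := hf
  obtain ⟨ψ, rfl, oψ, hψ⟩ := hf'
  have e0 : 0 < min δA a := by positivity
  obtain ⟨M1, hM1⟩ := hφ _ e0
  obtain ⟨M2, hM2⟩ := hψ _ e0
  have lim : Tendsto (fun M : ℕ => CT * (C5 * ω) + CT * (7 / 8 : ℝ) ^ M) atTop
      (𝓝 (CT * C5 * ω)) := by
    simpa [mul_assoc] using ((tendsto_pow_atTop_nhds_zero_of_lt_one (r := (7 / 8 : ℝ))
      (by norm_num) (by norm_num)).const_mul CT).const_add (CT * (C5 * ω))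
  refine ge_of_tendsto lim ?_
  filter_upwards [eventually_ge_atTop M1, eventually_ge_atTop M2] with M h1 h2
  obtain ⟨g, ag, zg⟩ := hM1 M h1
  obtain ⟨g', ag', zg'⟩ := hM2 M h2
  obtain ⟨-, -, ⟨γ, σ, -, T1, c1⟩, -⟩ := HA a M φ g E a0 a1 (oφ M) (ag.mono e0.le (min_le_left _ _))
    (by rw [one_mul]; exact zg.trans (min_le_right _ _)) hE zE
  obtain ⟨-, -, ⟨γ', -, -, T2, -⟩, -⟩ := HA a M ψ g' F a0 a1 (oψ M)
    (ag'.mono e0.le (min_le_left _ _)) (by rw [one_mul]; exact zg'.trans (min_le_right _ _)) hF zF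
  exact HT M φ ψ γ γ' (E ∘ σ) _ T1 T2 zx c1 (by positivity) ((mo_perm σ).2 mx)

end Pool.Agent.Lib.MP_242fd5_gt.Cu
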