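import Pool.Agent.Lib.MP_242fd5_gt.Cu.Lim
import Pool.Agent.Lib.MP_242fd5_gt.Cu.Mod
import Pool.Agent.Lib.MP_242fd5_gt.Cu.BrT

set_option autoImplicit false

open MeasureTheory Set Metric Filter Topology
open scoped RealInnerProductSpace symmDiff Pointwise

namespace Pool.Agent.Lib.MP_242fd5_gt.Cu

open Ty

variable {q k : ℕ}

/-- `L` has type `k` and is centred at `E` -/
def Good (ε : ℝ) (E : Fin k → Set (V (q + 3))) (L : Set (V (q + 3))) : Prop :=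
  HasType L k ∧ Near ε L E ∧ Centred L E

lemma Good.star {ε : ℝ} {E : Fin k → Set (V (q + 3))} {L : Set (V (q + 3))} (h : Good ε E L) :
    IsStarBody L := (type_P h.1).1.1

lemma bd_smul_res {L : Set (V (q + 3))} (h : IsStarBody L) {s : ℝ} (hs : 0 < s) :
    bd (s • s⁻¹ • res h) = L := by rw [smul_inv_smul₀ hs.ne', bd_res]

/-- translation of the hypotheses on sets into hypotheses on functions -/
lemma norm_form (q : ℕ) (hk : 1 ≤ k) {a : ℝ} (ha : 0 < a) : ∃ ε : ℝ, 0 < ε ∧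
    ∀ (E : Fin k → Set (V (q + 3))) (s : ℝ) (g : Cf q k) (L : Set (V (q + 3))) (i : Fin k)
      (h : Good ε E L), 0 < s → Apart ε E → Rep s E g → |jac (g i) - 1| ≤ ε →
      TyF k (s⁻¹ • res h.star) ∧ Ad a g ∧ z (s⁻¹ • res h.star - b g) ≤ a ∧
        Mo g (s⁻¹ • res h.star - b g) 0 := by
  obtain ⟨e1, e10, h1⟩ := z_of_near q hk ha
  obtain ⟨r, r0, h2⟩ := ad_of_apart q k (lt_min ha e10)
  refine ⟨min e1 r, lt_min e10 r0, fun E s g L i h hs hE hg hj => ?_⟩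
  have := h2 E s g i hs (apart_mono hE (min_le_right _ _)) hg (hj.trans (min_le_right _ _))
  exact ⟨tyF_of_type hk h.star h.1 (inv_pos.2 hs), this.mono (lt_min ha e10).le (min_le_left _ _),
    h1 E s g L h.star hs hg (this.mono (lt_min ha e10).le (min_le_right _ _))
      (near_mono h.2.1 (min_le_left _ _)), (centred_iff h.star hs hg).1 h.2.2⟩

lemma Good.mono {ε ε' : ℝ} {E : Fin k → Set (V (q + 3))} {L : Set (V (q + 3))} (h : Good ε E L)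
    (e : ε ≤ ε') : Good ε' E L := ⟨h.1, near_mono h.2.1 e, h.2.2⟩

lemma good_cont (q : ℕ) (hk : 1 ≤ k) : ∃ ε : ℝ, 0 < ε ∧ ∀ τ : ℝ, 0 < τ → ∃ ω : ℝ, 0 < ω ∧
    ∀ (E F : Fin k → Set (V (q + 3))) (L L' : Set (V (q + 3))), Apart ε E → Apart ε F →
      Good ε E L → Good ε F L' → (∀ i, E i ⊆ (1 + ω) • F i ∧ F i ⊆ (1 + ω) • E i) →
      (volume (L ∆ L')).toReal ≤ τ * (volume L).toReal := by
  obtain ⟨C, a, C1, a0, hl⟩ := lip q hk
  obtain ⟨e, e0, he⟩ := norm_form q hk (lt_min a0 (by norm_num : (0:ℝ) < 1 / 4))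
  obtain ⟨D, D1, hD⟩ := M2 q k
  obtain ⟨r, r0, hr⟩ := ad_of_apart q k (show 0 < min (e / 2) 1 by positivity)
  refine ⟨min e r, lt_min e0 r0, fun τ τ0 => ?_⟩
  obtain ⟨c, c0, hc⟩ := vol_of_z q τ0
  obtain ⟨ω, ω0, w1, w3, w2, w4⟩ : ∃ ω : ℝ, 0 < ω ∧ ω ≤ 1 ∧ ω ≤ a ∧ D * ω ≤ e / 2 ∧ C * ω ≤ c := by
    refine ⟨min (min 1 a) (min (e / 2 / D) (c / C)), by positivity,
      (min_le_left _ _).trans (min_le_left _ _), (min_le_left _ _).trans (min_le_right _ _), ?_, ?_⟩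
    · rw [mul_comm, ← le_div_iff₀ (by positivity)]
      exact (min_le_right _ _).trans (min_le_left _ _)
    · rw [mul_comm, ← le_div_iff₀ (by positivity)]
      exact (min_le_right _ _).trans (min_le_right _ _)
  refine ⟨ω, ω0, fun E F L L' hE hF gL gL' hsub => ?_⟩
  obtain ⟨s, g, hs, hg, hj⟩ := exists_rep_one hE.1 ⟨0, hk⟩
  obtain ⟨h, hh⟩ := exists_rep hF.1 hs
  have hm := cm_of_subset hs ω0.le hg hh hsub
  have h1 := hr E s g ⟨0, hk⟩ hs (apart_mono hE (min_le_right _ _)) hg (by rw [hj]; simpa using r0.le)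
  have h2 := ((hD ω g h ω0.le w1 hm).2.2.2.2 _ (by positivity) (min_le_right _ _) h1).vol ⟨0, hk⟩
  obtain ⟨t1, a1, z1, m1⟩ := he E s g L ⟨0, hk⟩ (gL.mono (min_le_left _ _)) hs
    (apart_mono hE (min_le_left _ _)) hg (by rw [hj]; simpa using e0.le)
  obtain ⟨t2, a2, z2, m2⟩ := he F s h L' ⟨0, hk⟩ (gL'.mono (min_le_left _ _)) hs
    (apart_mono hF (min_le_left _ _)) hh (h2.trans (by linarith [min_le_left (e / 2) 1]))
  have p0 : 0 ≤ min a (1 / 4) := by positivity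
  have := hl g h _ _ ω t1 t2 (a1.mono p0 (min_le_left _ _)) (a2.mono p0 (min_le_left _ _))
    (z1.trans (min_le_left _ _)) (z2.trans (min_le_left _ _)) m1 m2 ω0.le w3 hm
  have z3 := z_b_ge hk fun i => (a1.vol i).trans (min_le_right _ _)
  have z4 := z_add_le (s⁻¹ • res gL.star) (b g - s⁻¹ • res gL.star)
  rw [add_sub_cancel, z_sub_comm] at z4
  have := hc _ _ s hs (smul_nonneg (inv_pos.2 hs).le fun u => (res_pos gL.star u).le)
    (smul_nonneg (inv_pos.2 hs).le fun u => (res_pos gL'.star u).le)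
    (by linarith [z1.trans (min_le_right _ _)]) (this.trans w4)
  rwa [bd_smul_res _ hs, bd_smul_res _ hs] at this

lemma good_unique (q : ℕ) (hk : 1 ≤ k) : ∃ ε : ℝ, 0 < ε ∧
    ∀ (E : Fin k → Set (V (q + 3))) (L L' : Set (V (q + 3))), Apart ε E → Good ε E L →
      Good ε E L' → L = L' := by
  obtain ⟨C, a, C1, a0, hl⟩ := lip q hk
  obtain ⟨e, e0, he⟩ := norm_form q hk a0
  refine ⟨e, e0, fun E L L' hE gL gL' => ?_⟩
  obtain ⟨s, g, hs, hg, hj⟩ := exists_rep_one hE.1 ⟨0, hk⟩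
  obtain ⟨t1, a1, z1, m1⟩ := he E s g L ⟨0, hk⟩ gL hs hE hg (by rw [hj]; simpa using e0.le)
  obtain ⟨t2, -, z2, m2⟩ := he E s g L' ⟨0, hk⟩ gL' hs hE hg (by rw [hj]; simpa using e0.le)
  have := hl g g _ _ 0 t1 t2 a1 a1 z1 z2 m1 m2 le_rfl a0.le (Cm.refl le_rfl g)
  rw [mul_zero] at this
  have := sub_eq_zero.1 (eq_zero_of_z (le_antisymm this (z_nonneg _)))
  rw [← bd_smul_res gL.star hs, this, bd_smul_res _ hs]

lemma good_inj (q : ℕ) (hk : 1 ≤ k) : ∃ ε : ℝ, 0 < ε ∧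
    ∀ (E F : Fin k → Set (V (q + 3))) (L : Set (V (q + 3))), Apart ε E → Apart ε F → Good ε E L →
      Good ε F L → ∃ σ : Equiv.Perm (Fin k), F = E ∘ σ := by
  obtain ⟨a, a0, hu⟩ := cf_unique q k
  obtain ⟨e, e0, he⟩ := norm_form q hk a0
  obtain ⟨e', e0', he'⟩ := vol_of_near q hk e0
  refine ⟨min e e', lt_min e0 e0', fun E F L hE hF gE gF => ?_⟩
  obtain ⟨s, g, hs, hg, hj⟩ := exists_rep_one hE.1 ⟨0, hk⟩
  obtain ⟨h, hh⟩ := exists_rep hF.1 hs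
  obtain ⟨-, a1, z1, m1⟩ := he E s g L ⟨0, hk⟩ (gE.mono (min_le_left _ _)) hs
    (apart_mono hE (min_le_left _ _)) hg (by rw [hj]; simpa using e0.le)
  obtain ⟨-, a2, z2, m2⟩ := he F s h L ⟨0, hk⟩ (gF.mono (min_le_left _ _)) hs
    (apart_mono hF (min_le_left _ _)) hh (he' E F s g h L ⟨0, hk⟩ ⟨0, hk⟩ hs gE.star
      (apart_mono hE (min_le_right _ _)) (apart_mono hF (min_le_right _ _))
      (near_mono gE.2.1 (min_le_right _ _)) (near_mono gF.2.1 (min_le_right _ _)) hg hh hj)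
  obtain ⟨σ, hσ⟩ := hu g h _ a1 a2 z1 z2 m1 m2
  refine ⟨σ.symm, funext fun i => ?_⟩
  rw [Function.comp_apply, hg, ← hσ, Equiv.apply_symm_apply, hh]

lemma good_exists (q : ℕ) (hk : 2 ≤ k) {ε : ℝ} (hε : 0 < ε) : ∃ r : ℝ, 0 < r ∧
    ∀ E : Fin k → Set (V (q + 3)), Apart r E → ∃ L, Good ε E L := by
  have k1 : 1 ≤ k := by omega
  obtain ⟨a, a0, ha⟩ := type_of_orbit q hk
  obtain ⟨a', a0', ha'⟩ := near_of_z q k1 hε
  obtain ⟨r, r0, hr⟩ := ex_orbit q k1 (lt_min a0 a0')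
  obtain ⟨r', r0', hr'⟩ := ad_of_apart q k (lt_min r0 a0')
  refine ⟨r', r0', fun E hE => ?_⟩
  obtain ⟨s, g, hs, hg, hj⟩ := exists_rep_one hE.1 ⟨0, k1⟩
  have h1 := hr' E s g ⟨0, k1⟩ hs hE hg (by rw [hj]; simpa using r0'.le)
  obtain ⟨F, f1, f2, f3, f4, f5⟩ := hr g (h1.mono (lt_min r0 a0').le (min_le_left _ _))
  have hp : ∀ u, 0 < (s • F 0) u := fun u => mul_pos hs (f2 0 u)
  have e : s⁻¹ • res (star_bd hp) = F 0 := by rw [res_bd hp, inv_smul_smul₀ hs.ne']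
  refine ⟨bd (s • F 0), ha F f1 f2 (fun m => ⟨(f3 m).1, (f3 m).2.trans ?_⟩) s hs,
    ha' E s g _ (star_bd hp) hs hg (h1.mono (lt_min r0 a0').le (min_le_right _ _))
      (by rw [e]; exact f4.trans (min_le_right _ _)),
    (centred_iff (star_bd hp) hs hg).2 (by rw [e]; exact f5)⟩
  exact mul_le_mul_of_nonneg_left (by linarith [min_le_left a a']) (lv_pos q k1).le

lemma good_back (hk : 1 ≤ k) {ε r : ℝ} (hε : 0 < ε) (hr : 0 < r) {L : Set (V (q + 3))}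
    (H : HasType L k) : ∃ (m : ℕ) (E : Fin k → Set (V (q + 3))) (K : Set (V (q + 3))),
      Apart r E ∧ Good ε E K ∧ L = interBody^[m] K := by
  obtain ⟨a, a0, ha⟩ := apart_of_ad q k hr
  obtain ⟨a', a0', ha'⟩ := near_of_z q hk hε
  obtain ⟨r', r0', hr'⟩ := modul q k (lt_min a0 a0')
  obtain ⟨m, K, hK, s, g, hs, tK, e, h1, h2⟩ := type_back hk H r0'
  obtain ⟨h, h3, h4, h5⟩ := hr' g _ h1 h2
  have hg : Rep s (fun i => bd (s • rh (h i))) h := fun _ => rfl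
  exact ⟨m, _, K, ha _ s h hs hg (h3.mono (lt_min a0 a0').le (min_le_left _ _)),
    ⟨tK, ha' _ s h K hK hs hg (h3.mono (lt_min a0 a0').le (min_le_right _ _))
      (h4.trans (min_le_right _ _)), (centred_iff hK hs hg).2 h5⟩, e⟩

theorem centres (q k : ℕ) (hk : 2 ≤ k) : ∃ ε₀ : ℝ, 0 < ε₀ ∧ ∀ ε : ℝ, 0 < ε → ε ≤ ε₀ →
    ∃ r : ℝ, 0 < r ∧ ∃ Ψ : (Fin k → Set (V (q + 3))) → Set (V (q + 3)),
      (∀ E, Apart r E → ∀ L, L = Ψ E ↔ HasType L k ∧ Near ε L E ∧ Centred L E) ∧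
      (∀ E F, Apart r E → Apart r F → Ψ E = Ψ F → ∃ σ : Equiv.Perm (Fin k), F = E ∘ σ) ∧
      (∀ τ : ℝ, 0 < τ → ∃ ω : ℝ, 0 < ω ∧ ∀ E F, Apart r E → Apart r F →
        (∀ i, E i ⊆ (1 + ω) • F i ∧ F i ⊆ (1 + ω) • E i) →
        (volume (Ψ E ∆ Ψ F)).toReal ≤ τ * (volume (Ψ E)).toReal) ∧
      ∀ L, HasType L k ↔ ∃ (m : ℕ) (E : Fin k → Set (V (q + 3))), Apart r E ∧
        L = interBody^[m] (Ψ E) := by
  have k1 : 1 ≤ k := by omega
  obtain ⟨e1, p1, h1⟩ := good_unique q k1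
  obtain ⟨e2, p2, h2⟩ := good_inj q k1
  obtain ⟨e3, p3, h3⟩ := good_cont q k1
  refine ⟨min e1 (min e2 e3), by positivity, fun ε ε0 hε => ?_⟩
  have l1 : ε ≤ e1 := hε.trans (min_le_left _ _)
  have l2 : ε ≤ e2 := hε.trans ((min_le_right _ _).trans (min_le_left _ _))
  have l3 : ε ≤ e3 := hε.trans ((min_le_right _ _).trans (min_le_right _ _))
  obtain ⟨r, r0, hr⟩ := good_exists q hk ε0
  have hx : ∀ E : Fin k → Set (V (q + 3)), ∃ L, Apart (min r ε) E → Good ε E L := fun E => by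
    by_cases h : Apart (min r ε) E
    · obtain ⟨L, hL⟩ := hr E (apart_mono h (min_le_left _ _))
      exact ⟨L, fun _ => hL⟩
    · exact ⟨∅, fun h' => absurd h' h⟩
  choose Ψ hΨ using hx
  have am : ∀ {E : Fin k → Set (V (q + 3))} {e : ℝ}, Apart (min r ε) E → ε ≤ e → Apart e E :=
    fun h he => apart_mono h ((min_le_right _ _).trans he)
  have u : ∀ E, Apart (min r ε) E → ∀ L, Good ε E L → L = Ψ E := fun E hE L hL =>
    h1 E _ _ (am hE l1) (hL.mono l1) ((hΨ E hE).mono l1)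
  refine ⟨min r ε, by positivity, Ψ, fun E hE L => ⟨fun e => e ▸ hΨ E hE, u E hE L⟩,
    fun E F hE hF e => h2 E F _ (am hE l2) (am hF l2) ((hΨ E hE).mono l2)
      (e ▸ (hΨ F hF).mono l2), fun τ τ0 => ?_, fun L => ⟨fun H => ?_, ?_⟩⟩
  · obtain ⟨ω, ω0, hω⟩ := h3 τ τ0
    exact ⟨ω, ω0, fun E F hE hF h => hω E F _ _ (am hE l3) (am hF l3) ((hΨ E hE).mono l3)
      ((hΨ F hF).mono l3) h⟩
  · obtain ⟨m, E, K, hE, hK, e⟩ := good_back k1 ε0 (lt_min r0 ε0) H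
    exact ⟨m, E, hE, by rw [← u E hE K hK, e]⟩
  · rintro ⟨m, E, hE, rfl⟩
    induction m with
    | zero => exact (hΨ E hE).1
    | succ m ih => rw [Function.iterate_succ_apply']; exact type_inter ih

end Pool.Agent.Lib.MP_242fd5_gt.Cu
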