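import Pool.Agent.Lib.MP_242fd5_gt.Cu.Gap

set_option autoImplicit false

open MeasureTheory Set Metric Filter Topology
open scoped RealInnerProductSpace

namespace Pool.Agent.Lib.MP_242fd5_gt.Cu

open Ty

variable {q k : ℕ}

namespace Quada

lemma sq_mem (a : V (q + 3)) : lf a ^ 2 ∈ Q q := Submodule.subset_span ⟨a, rfl⟩

lemma lf_ap (a : V (q + 3)) (u : Sp q) : lf a u = ⟪a, (u : V (q + 3))⟫ := rfl

lemma symm_of_mem {p : X q} (h : p ∈ Q q) : ∃ S : V (q + 3) →ₗ[ℝ] V (q + 3), S.IsSymmetric ∧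
    ∀ u : Sp q, p u = ⟪S u, (u : V (q + 3))⟫ := by
  induction h using Submodule.span_induction with
  | mem x hx =>
    obtain ⟨a, rfl⟩ := hx
    refine ⟨(innerₛₗ ℝ a).smulRight a, fun x y => ?_, fun u => ?_⟩
    · simp only [LinearMap.smulRight_apply, innerₛₗ_apply_apply, real_inner_smul_left,
        real_inner_smul_right]
      rw [real_inner_comm a x, mul_comm]
    · simp only [LinearMap.smulRight_apply, innerₛₗ_apply_apply, real_inner_smul_left,
        ContinuousMap.pow_apply, lf_ap]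
      ring
  | zero => exact ⟨0, LinearMap.IsSymmetric.zero, fun u => by simp⟩
  | add x y _ _ hx hy =>
    obtain ⟨S, h1, e1⟩ := hx
    obtain ⟨S', h2, e2⟩ := hy
    exact ⟨S + S', h1.add h2, fun u => by
      rw [ContinuousMap.add_apply, e1, e2, LinearMap.add_apply, inner_add_left]⟩
  | smul c x _ hx =>
    obtain ⟨S, h1, e1⟩ := hx
    exact ⟨c • S, fun x y => by
      rw [LinearMap.smul_apply, LinearMap.smul_apply, real_inner_smul_left, real_inner_smul_right,
        h1 x y], fun u => by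
      rw [ContinuousMap.smul_apply, e1, LinearMap.smul_apply, real_inner_smul_left, smul_eq_mul]⟩

lemma rh_sq_mul {g : G q} {p : X q} (e : ∀ u : Sp q, p u = ‖g.symm u‖ ^ 2) : rh g ^ 2 * p = 1 := by
  ext u
  have h1 := norm_pos_iff.2 (gne g.symm u)
  rw [ContinuousMap.mul_apply, ContinuousMap.pow_apply, e, ContinuousMap.one_apply]
  show ‖g.symm u‖⁻¹ ^ 2 * _ = 1
  field_simp

lemma jac_le {C : ℝ} {g h : G q} (H : Cmp C g h) : jac h ≤ C ^ (q + 3) * jac g := by
  rw [← I_rh, ← I_rh, ← smul_eq_mul, ← map_smul, ← smul_pow]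
  exact I_mono (pow_le_pow_left₀ (rh_nonneg h) ((cmp_iff g h).1 H).1 _)

lemma J_half {C : ℝ} (hC : 0 ≤ C) {g h : G q} (H : Cmp C g h) :
    rh (J h) ≤ (C ^ (q + 3) * C) • rh (J g) := ContinuousMap.le_def.2 fun u => by
  have h1 := ContinuousMap.le_def.1 ((cmp_iff _ _).1 (H.dual hC)).1 u
  have h2 := jac_le H
  have := rh_pos (dual h) u
  have := rh_pos (dual g) u
  have := jac_pos g
  have := jac_pos h
  simp only [rh_J, ContinuousMap.smul_apply, smul_eq_mul] at h1 ⊢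
  calc jac h * rh (dual h) u ≤ (C ^ (q + 3) * jac g) * (C * rh (dual g) u) := by gcongr
    _ = _ := by ring

lemma jac_le_of_J {C : ℝ} (hC : 1 ≤ C) {g h : G q} (H : Cmp C (J g) (J h)) :
    jac h ≤ C ^ 2 * jac g := by
  have h1 := jac_le H
  have := jac_pos g
  rw [jac_J, jac_J] at h1
  refine le_of_pow_le_pow_left₀ (Nat.succ_ne_zero (q + 1)) (by positivity) (h1.trans ?_)
  rw [mul_pow, ← pow_mul]
  exact mul_le_mul_of_nonneg_right (pow_le_pow_right₀ hC (by omega)) (by positivity)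

lemma of_J_half {C : ℝ} (hC : 1 ≤ C) {g h : G q} (H : Cmp C (J g) (J h)) :
    rh (dual h) ≤ (C ^ 2 * C) • rh (dual g) := ContinuousMap.le_def.2 fun u => by
  have h1 := ContinuousMap.le_def.1 ((cmp_iff _ _).1 H).1 u
  have h2 := jac_le_of_J hC H.symm
  have := rh_pos (dual g) u
  have := jac_pos h
  simp only [rh_J, ContinuousMap.smul_apply, smul_eq_mul] at h1 ⊢
  refine le_of_mul_le_mul_left (h1.trans ?_) (jac_pos h)
  calc C * (jac g * rh (dual g) u) ≤ C * ((C ^ 2 * jac h) * rh (dual g) u) := by gcongr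
    _ = _ := by ring

lemma cmp_lim (g : ℕ → G q) (c : ℕ → ℝ) (h : ∀ l l', l ≤ l' → Cmp (c l) (g l) (g l')) :
    ∃ w : G q, ∀ l, Cmp (c l) (g l) w := by
  have hb : Bornology.IsBounded (closedBall (0 : V (q + 3) →L[ℝ] V (q + 3))
      (|c 0| * ‖((g 0).symm : V (q + 3) →L[ℝ] V (q + 3))‖)) := isBounded_closedBall
  obtain ⟨H, -, φ, hφ, hl⟩ := tendsto_subseq_of_bounded hb
    (x := fun l => ((g l).symm : V (q + 3) →L[ℝ] V (q + 3))) fun l => by
      rw [mem_closedBall_zero_iff]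
      refine ContinuousLinearMap.opNorm_le_bound _ (by positivity) fun x => ?_
      refine (h 0 l (Nat.zero_le l) x).2.trans ?_
      rw [mul_assoc]
      exact mul_le_mul (le_abs_self _)
        (((g 0).symm : V (q + 3) →L[ℝ] V (q + 3)).le_opNorm x) (norm_nonneg _) (abs_nonneg _)
  have hx : ∀ x, Tendsto (fun m => ‖(g (φ m)).symm x‖) atTop (𝓝 ‖H x‖) := fun x =>
    (((ContinuousLinearMap.apply ℝ (V (q + 3)) x).continuous.tendsto H).comp hl).norm
  have key : ∀ l x, ‖(g l).symm x‖ ≤ c l * ‖H x‖ ∧ ‖H x‖ ≤ c l * ‖(g l).symm x‖ := fun l x => by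
    have ev : ∀ᶠ m in atTop, l ≤ φ m := hφ.tendsto_atTop.eventually_ge_atTop l
    exact ⟨ge_of_tendsto ((hx x).const_mul _) (ev.mono fun m hm => (h l _ hm x).1),
      le_of_tendsto (hx x) (ev.mono fun m hm => (h l _ hm x).2)⟩
  have inj : Function.Injective (H : V (q + 3) →ₗ[ℝ] V (q + 3)) := by
    rw [injective_iff_map_eq_zero]
    intro x e
    have := (key 0 x).1
    rw [show H x = 0 from e, norm_zero, mul_zero, norm_le_zero_iff] at this
    exact (g 0).symm.injective (by rw [this, map_zero])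
  exact ⟨(LinearEquiv.ofInjectiveEndo _ inj).toContinuousLinearEquiv.symm, key⟩

lemma la_perm (g : Cf q k) (σ : Equiv.Perm (Fin k)) : la (g ∘ σ) = la g := by
  simp only [la, Finset.sum_erase_eq_sub (Finset.mem_univ _), Function.comp_apply]
  rw [← Equiv.sum_comp σ fun i => ∑ j, io (g i) (g j) - io (g i) (g i)]
  exact Finset.sum_congr rfl fun i _ => by
    rw [Equiv.sum_comp σ fun j => io (g (σ i)) (g j)]

end Quada

open Quada

theorem inv_sq_mem (g : G q) : ∃ p ∈ Q q, rh g ^ 2 * p = 1 := by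
  refine ⟨∑ i, lf (dual g (EuclideanSpace.single i 1)) ^ 2,
    Submodule.sum_mem _ fun i _ => sq_mem _, rh_sq_mul fun u => ?_⟩
  rw [ContinuousMap.sum_apply, EuclideanSpace.real_norm_sq_eq]
  refine Finset.sum_congr rfl fun i _ => ?_
  have := inner_dual g (g.symm u) (EuclideanSpace.single i 1)
  rw [ContinuousLinearEquiv.apply_symm_apply, EuclideanSpace.inner_single_right] at this
  rw [ContinuousMap.pow_apply, lf_ap, real_inner_comm, this]
  simp

theorem exists_rh {p : X q} (h : p ∈ Q q) (hp : ∀ u, 0 < p u) : ∃ g : G q, rh g ^ 2 * p = 1 := by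
  obtain ⟨S, hS, e⟩ := symm_of_mem h
  have hn : Module.finrank ℝ (V (q + 3)) = q + 3 := finrank_euclideanSpace_fin
  have hl : ∀ i, 0 < hS.eigenvalues hn i := fun i => by
    have h1 := (hS.eigenvectorBasis hn).orthonormal.1 i
    have := hp (mkS _ h1)
    rw [e] at this
    change 0 < ⟪S (hS.eigenvectorBasis hn i), hS.eigenvectorBasis hn i⟫ at this
    rwa [hS.apply_eigenvectorBasis, real_inner_smul_left, real_inner_self_eq_norm_sq, h1, one_pow,
      mul_one] at this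
  refine ⟨((hS.eigenvectorBasis hn).repr.toContinuousLinearEquiv.trans
    (dgv (fun i => √(hS.eigenvalues hn i)) fun i => (Real.sqrt_pos.2 (hl i)).ne')).symm,
    rh_sq_mul fun u => ?_⟩
  rw [e, ← (hS.eigenvectorBasis hn).repr.inner_map_map, EuclideanSpace.real_norm_sq_eq,
    PiLp.inner_apply]
  refine Finset.sum_congr rfl fun i _ => ?_
  rw [hS.eigenvectorBasis_apply_self_apply]
  change _ = (√(hS.eigenvalues hn i) * (hS.eigenvectorBasis hn).repr u i) ^ 2
  rw [mul_pow, Real.sq_sqrt (hl i).le]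
  simp only [RCLike.ofReal_real_eq_id, id_eq, RCLike.inner_apply, conj_trivial]
  ring

theorem lf_comp (g : G q) (a : V (q + 3)) :
    (lf a).comp (pr g) = rh g.symm * lf ((dual g).symm a) := by
  ext u
  have := inner_dual g u ((dual g).symm a)
  rw [ContinuousLinearEquiv.apply_symm_apply] at this
  show ⟪a, ‖g u‖⁻¹ • g u⟫ = ‖g u‖⁻¹ * ⟪(dual g).symm a, (u : V (q + 3))⟫
  rw [real_inner_smul_right, real_inner_comm, this, real_inner_comm]

theorem Q_act (g : G q) {p : X q} (h : p ∈ Q q) :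
    ∃ p' ∈ Q q, p.comp (pr g) = rh g.symm ^ 2 * p' := by
  induction h using Submodule.span_induction with
  | mem x hx =>
    obtain ⟨a, rfl⟩ := hx
    exact ⟨_, sq_mem ((dual g).symm a), by rw [ContinuousMap.pow_comp, lf_comp, mul_pow]⟩
  | zero => exact ⟨0, zero_mem _, by rw [mul_zero]; rfl⟩
  | add x y _ _ hx hy =>
    obtain ⟨a, h1, e1⟩ := hx
    obtain ⟨c, h2, e2⟩ := hy
    exact ⟨a + c, add_mem h1 h2, by rw [ContinuousMap.add_comp, e1, e2, mul_add]⟩
  | smul c x _ hx =>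
    obtain ⟨a, h1, e1⟩ := hx
    exact ⟨c • a, Submodule.smul_mem _ _ h1, by rw [ContinuousMap.smul_comp, e1, mul_smul_comm]⟩

theorem Q_act' (g : G q) {p' : X q} (h : p' ∈ Q q) :
    ∃ p ∈ Q q, p.comp (pr g) = rh g.symm ^ 2 * p' := by
  induction h using Submodule.span_induction with
  | mem x hx =>
    obtain ⟨a, rfl⟩ := hx
    exact ⟨_, sq_mem (dual g a), by
      rw [ContinuousMap.pow_comp, lf_comp, mul_pow, ContinuousLinearEquiv.symm_apply_apply]⟩
  | zero => exact ⟨0, zero_mem _, by rw [mul_zero]; rfl⟩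
  | add x y _ _ hx hy =>
    obtain ⟨a, h1, e1⟩ := hx
    obtain ⟨c, h2, e2⟩ := hy
    exact ⟨a + c, add_mem h1 h2, by rw [ContinuousMap.add_comp, e1, e2, mul_add]⟩
  | smul c x _ hx =>
    obtain ⟨a, h1, e1⟩ := hx
    exact ⟨c • a, Submodule.smul_mem _ _ h1, by rw [ContinuousMap.smul_comp, e1, mul_smul_comm]⟩

theorem Cm.refl {ω : ℝ} (h : 0 ≤ ω) (g : Cf q k) : Cm ω g g :=
  fun i => Cmp.refl (Real.one_le_exp h) (g i)

theorem Cm.symm {ω : ℝ} {g h : Cf q k} (H : Cm ω g h) : Cm ω h g := fun i => (H i).symm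

theorem Cm.trans {ω ω' : ℝ} {g h w : Cf q k} (H : Cm ω g h) (H' : Cm ω' h w) : Cm (ω + ω') g w :=
  fun i => by
    rw [Real.exp_add]
    exact (H i).trans (Real.exp_pos _).le (Real.exp_pos _).le (H' i)

theorem Cm.mono {ω ω' : ℝ} {g h : Cf q k} (H : Cm ω g h) (e : ω ≤ ω') : Cm ω' g h :=
  fun i => (H i).mono (Real.exp_le_exp.2 e)

theorem Cm.perm {ω : ℝ} {g h : Cf q k} (H : Cm ω g h) (σ : Equiv.Perm (Fin k)) :
    Cm ω (g ∘ σ) (h ∘ σ) := fun i => H (σ i)

theorem cm_zero {g h : Cf q k} : Cm 0 g h ↔ ∀ i, rh (h i) = rh (g i) := by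
  refine forall_congr' fun i => ?_
  rw [Real.exp_zero, cmp_iff, one_smul, one_smul, le_antisymm_iff]

theorem Cm.JJ {ω : ℝ} {g h : Cf q k} (H : Cm ω g h) : Cm ((q + 4) * ω) (JJ g) (JJ h) := fun i => by
  have e : Real.exp ((q + 4) * ω) = Real.exp ω ^ (q + 3) * Real.exp ω := by
    rw [← pow_succ, ← Real.exp_nat_mul]; push_cast; ring_nf
  rw [e]
  exact (cmp_iff _ _).2 ⟨J_half (Real.exp_pos _).le (H i), J_half (Real.exp_pos _).le (H i).symm⟩

theorem Cm.of_JJ {ω : ℝ} {g h : Cf q k} (h0 : 0 ≤ ω) (H : Cm ω (Cu.JJ g) (Cu.JJ h)) :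
    Cm (3 * ω) g h := fun i => by
  have e : Real.exp (3 * ω) = Real.exp ω ^ 2 * Real.exp ω := by
    rw [← pow_succ, ← Real.exp_nat_mul]; push_cast; ring_nf
  have := ((cmp_iff _ _).2 ⟨of_J_half (Real.one_le_exp h0) (H i),
    of_J_half (Real.one_le_exp h0) (H i).symm⟩).dual (by positivity)
  rwa [dual_dual, dual_dual, ← e] at this

theorem cm_lim (g : ℕ → Cf q k) (ω : ℕ → ℝ) (h0 : Tendsto ω atTop (𝓝 0))
    (h : ∀ l l', l ≤ l' → Cm (ω l) (g l) (g l')) : ∃ w : Cf q k, ∀ l, Cm (ω l) (g l) w := by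
  have _ := h0
  choose w hw using fun i => cmp_lim (fun l => g l i) (fun l => Real.exp (ω l))
    fun l l' hl => h l l' hl i
  exact ⟨w, fun l i => hw i l⟩

theorem JJ_perm (g : Cf q k) (σ : Equiv.Perm (Fin k)) : JJ (g ∘ σ) = JJ g ∘ σ := rfl

theorem b_perm (g : Cf q k) (σ : Equiv.Perm (Fin k)) : b (g ∘ σ) = b g :=
  Equiv.sum_comp σ fun i => rh (g i)

theorem t_perm (g : Cf q k) (σ : Equiv.Perm (Fin k)) (d : X q) : t (g ∘ σ) d = t g d :=
  Equiv.sum_comp σ fun i => l2 (act 1 (g i) d)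

theorem Ad.perm {a : ℝ} {g : Cf q k} (H : Ad a g) (σ : Equiv.Perm (Fin k)) : Ad a (g ∘ σ) :=
  ⟨fun i => H.vol (σ i), by rw [la_perm]; exact H.sep⟩

theorem Ad.mono {a a' : ℝ} {g : Cf q k} (H : Ad a g) (h0 : 0 ≤ a) (e : a ≤ a') : Ad a' g :=
  ⟨fun i => (H.vol i).trans e, H.sep.trans (pow_le_pow_left₀ h0 e 2)⟩

theorem mo_perm {g : Cf q k} {d : X q} {x : ℝ} (σ : Equiv.Perm (Fin k)) :
    Mo (g ∘ σ) d x ↔ Mo g d x :=
  (σ.surjective.forall (p := fun i => ∀ p ∈ Q q, |I (act 1 (g i) d * p)| ≤ x * l2 p)).symm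

theorem t_nonneg (g : Cf q k) (d : X q) : 0 ≤ t g d := Finset.sum_nonneg fun _ _ => l2_nonneg _

theorem t_add_le (g : Cf q k) (d e : X q) : t g (d + e) ≤ t g d + t g e := by
  rw [t, t, t, ← Finset.sum_add_distrib]
  exact Finset.sum_le_sum fun i _ => by rw [map_add]; exact l2_add_le _ _

theorem t_neg (g : Cf q k) (d : X q) : t g (-d) = t g d :=
  Finset.sum_congr rfl fun i _ => by rw [map_neg, l2_neg]

theorem Y_t (g : Cf q k) (d : X q) : Y g d (t g d) :=
  ⟨fun _ => 0, fun _ => zero_mem _, by simp only [sub_zero]; exact le_rfl⟩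

theorem Y.nonneg {g : Cf q k} {d : X q} {s : ℝ} (H : Y g d s) : 0 ≤ s := by
  obtain ⟨p, -, h⟩ := H
  exact (Finset.sum_nonneg fun _ _ => l2_nonneg _).trans h

theorem Y.mono {g : Cf q k} {d : X q} {s s' : ℝ} (H : Y g d s) (e : s ≤ s') : Y g d s' := by
  obtain ⟨p, hp, h⟩ := H
  exact ⟨p, hp, h.trans e⟩

theorem Y.neg {g : Cf q k} {d : X q} {s : ℝ} (H : Y g d s) : Y g (-d) s := by
  obtain ⟨p, hp, h⟩ := H
  refine ⟨fun i => -p i, fun i => neg_mem (hp i), le_of_eq_of_le ?_ h⟩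
  exact Finset.sum_congr rfl fun i _ => by rw [map_neg, ← neg_sub', l2_neg]

theorem Y.add {g : Cf q k} {d e : X q} {s s' : ℝ} (H : Y g d s) (H' : Y g e s') :
    Y g (d + e) (s + s') := by
  obtain ⟨p, hp, h⟩ := H
  obtain ⟨p', hp', h'⟩ := H'
  refine ⟨fun i => p i + p' i, fun i => add_mem (hp i) (hp' i), le_trans ?_ (add_le_add h h')⟩
  rw [← Finset.sum_add_distrib]
  exact Finset.sum_le_sum fun i _ => by rw [map_add, add_sub_add_comm]; exact l2_add_le _ _

theorem Mo_t (g : Cf q k) (d : X q) : Mo g d (t g d) := fun i p _ =>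
  (cs _ _).trans (mul_le_mul_of_nonneg_right (Finset.single_le_sum
    (f := fun i => l2 (act 1 (g i) d)) (fun _ _ => l2_nonneg _) (Finset.mem_univ i)) (l2_nonneg p))

theorem Mo.mono {g : Cf q k} {d : X q} {x x' : ℝ} (H : Mo g d x) (e : x ≤ x') : Mo g d x' :=
  fun i p hp => (H i p hp).trans (mul_le_mul_of_nonneg_right e (l2_nonneg p))

theorem Mo.neg {g : Cf q k} {d : X q} {x : ℝ} (H : Mo g d x) : Mo g (-d) x := fun i p hp => by
  rw [map_neg, neg_mul, map_neg, abs_neg]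
  exact H i p hp

theorem Mo.add {g : Cf q k} {d e : X q} {x x' : ℝ} (H : Mo g d x) (H' : Mo g e x') :
    Mo g (d + e) (x + x') := fun i p hp => by
  rw [map_add, add_mul, map_add, add_mul]
  exact (abs_add_le _ _).trans (add_le_add (H i p hp) (H' i p hp))

theorem t_le_of {g : Cf q k} {d : X q} {s x : ℝ} (hx : 0 ≤ x) (H : Y g d s) (H' : Mo g d x) :
    t g d ≤ s + 2 * k * x := by
  obtain ⟨p, hp, h⟩ := H
  have key : ∀ i, l2 (act 1 (g i) d) ≤ l2 (act 1 (g i) d - p i) + x := fun i => by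
    obtain ⟨π, hπ, -, e, -, hm⟩ := exists_proj (act 1 (g i) d)
    have h1 : l2 π ≤ x := by
      have h2 := (le_abs_self _).trans (H' i π hπ)
      rw [← e] at h2
      rcases (l2_nonneg π).eq_or_lt with h0 | h0
      · exact h0 ▸ hx
      · exact le_of_mul_le_mul_right (by rwa [← sq]) h0
    have h3 := l2_add_le (act 1 (g i) d - π) π
    rw [sub_add_cancel] at h3
    linarith [hm (p i) (hp i)]
  have h4 : t g d ≤ ∑ i, (l2 (act 1 (g i) d - p i) + x) := Finset.sum_le_sum fun i _ => key i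
  rw [Finset.sum_add_distrib, Finset.sum_const, Finset.card_univ, Fintype.card_fin,
    nsmul_eq_mul] at h4
  have : 0 ≤ (k : ℝ) * x := by positivity
  linarith

end Pool.Agent.Lib.MP_242fd5_gt.Cu
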