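import Pool.Agent.Lib.MP_242fd5_gt.Cu.M1
import Pool.Agent.Lib.MP_242fd5_gt.Cu.M3
import Pool.Agent.Lib.MP_242fd5_gt.Cu.M5

set_option autoImplicit false

open MeasureTheory Set Metric Filter Topology
open scoped RealInnerProductSpace

namespace Pool.Agent.Lib.MP_242fd5_gt.Cu

open Ty

variable {q k : ℕ}

/-- a positive number below finitely many bounds -/
lemma exists_mul_le {C e : ℝ} (hC : 0 < C) (he : 0 < e) : ∃ x : ℝ, 0 < x ∧ ∀ y, y ≤ x → C * y ≤ e :=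
  ⟨e / C, by positivity, fun y hy => by rwa [mul_comm, ← le_div_iff₀ hC]⟩

lemma Ad.half {a : ℝ} {g : Cf q k} (h : Ad a g) (e : a ≤ 1 / 2) (i : Fin k) :
    |jac (g i) - 1| ≤ 1 / 2 := (h.vol i).trans e

lemma sum_l2_le {g : Cf q k} {d : X q} {s : ℝ} {p : Fin k → X q}
    (h : ∑ i, l2 (act 1 (g i) d - p i) ≤ s) : ∑ i, l2 (p i) ≤ t g d + s := by
  refine le_trans (Finset.sum_le_sum fun i _ => ?_) ((Finset.sum_add_distrib
    (f := fun i => l2 (act 1 (g i) d)) (g := fun i => l2 (act 1 (g i) d - p i))).le.trans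
      (add_le_add le_rfl h))
  have := l2_sub_le (act 1 (g i) d) (act 1 (g i) d - p i)
  rwa [sub_sub_cancel] at this

lemma t_sub_le {g : Cf q k} {d D : X q} {s s' : ℝ} {p : Fin k → X q}
    (h : ∑ i, l2 (act 1 (g i) d - p i) ≤ s) (h' : ∑ i, l2 (act 1 (g i) D - p i) ≤ s') :
    t g (d - D) ≤ s + s' := by
  refine le_trans (Finset.sum_le_sum fun i _ => ?_) ((Finset.sum_add_distrib
    (f := fun i => l2 (act 1 (g i) d - p i)) (g := fun i => l2 (act 1 (g i) D - p i))).le.trans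
      (add_le_add h h'))
  have := l2_sub_le (act 1 (g i) d - p i) (act 1 (g i) D - p i)
  rwa [sub_sub_sub_cancel_right, ← map_sub] at this

theorem step (q k : ℕ) : ∃ A0 C : ℝ, 1 ≤ A0 ∧ 1 ≤ C ∧ ∀ κ : ℝ, 0 < κ → ∃ δ : ℝ, 0 < δ ∧
    ∀ (g : Cf q k) (f : X q) (w a : ℝ), 0 ≤ a → a ≤ δ → Ad a g → 0 ≤ f → t g (f - b g) ≤ w →
      z (f - b g) ≤ A0 * w → w ≤ δ → ∃ h : Cf q k, Cm (C * (w + κ * a)) (JJ g) h ∧
        t h (N f - b h) ≤ 9 / 10 * w + κ * a ∧ z (N f - b h) ≤ A0 * (9 / 10 * w + κ * a) := by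
  obtain ⟨C1, c1, h1⟩ := M1 q k
  obtain ⟨C2, c2, h2⟩ := M2 q k
  obtain ⟨C3, c3, h3⟩ := M3r q k
  obtain ⟨C4, c4, h4⟩ := M4 q k
  obtain ⟨C5, c5, h5⟩ := Ad_JJ q k
  obtain ⟨C6, c6, e6⟩ : ∃ C6 : ℝ, 1 ≤ C6 ∧ C6 = C4 * (C1 + 2) + 1 := ⟨_, by nlinarith, rfl⟩
  obtain ⟨A0, a0, eA⟩ : ∃ A0 : ℝ, 1 ≤ A0 ∧ A0 = 2 * (C1 + 1 + C3 * C6) := ⟨_, by nlinarith, rfl⟩
  refine ⟨A0, C3 * C6, a0, by nlinarith, fun κ κ0 => ?_⟩
  obtain ⟨d1, p1, h1⟩ := h1 (1 / (40 * A0)) (by positivity)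
  obtain ⟨d3, p3, h3⟩ := h3 (1 / (40 * C6)) (by positivity)
  obtain ⟨d5, p5, h5'⟩ := M5 q k (show 0 < min κ 1 / (2 * C4) by positivity)
  obtain ⟨x1, q1, y1⟩ := exists_mul_le (show 0 < A0 by positivity) p1
  obtain ⟨x2, q2, y2⟩ := exists_mul_le (show 0 < C5 by positivity) (lt_min p3 one_half_pos)
  obtain ⟨x3, q3, y3⟩ := exists_mul_le (show 0 < 2 * C6 by positivity) p3
  obtain ⟨x4, q4, y4⟩ := exists_mul_le (show 0 < C2 * (C3 * (2 * C6)) by positivity)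
    (show (0:ℝ) < 1 / 20 by norm_num)
  obtain ⟨δ, δ0, l1, l2', l3, l4, l5, l6, l7⟩ : ∃ δ : ℝ, 0 < δ ∧ δ ≤ x1 ∧ δ ≤ x2 ∧ δ ≤ x3 ∧ δ ≤ x4 ∧
      δ ≤ d1 ∧ δ ≤ d5 ∧ δ ≤ 1 :=
    ⟨min (min (min x1 x2) (min x3 x4)) (min d1 (min d5 1)), by positivity, by simp, by simp, by simp,
      by simp, by simp, by simp, by simp⟩
  refine ⟨δ, δ0, fun g f w a a0' ha hg hf ht hz hw => ?_⟩
  have w0 : 0 ≤ w := (t_nonneg _ _).trans ht
  have zd := z_nonneg (f - b g)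
  obtain ⟨m1, m2⟩ := h1 g f (b g) (hg.mono a0' (ha.trans l5)) hf (b_nonneg g)
    (hz.trans (y1 w (hw.trans l1))) (by rw [sub_self, z_zero]; exact p1.le)
  obtain ⟨m2, -⟩ := m2 _ (Y_t g _)
  have ez : 1 / (40 * A0) * z (f - b g) ≤ w / 40 := by
    rw [one_div, inv_mul_le_iff₀ (by positivity)]; linarith
  obtain ⟨x, ex⟩ : ∃ x, x = min κ 1 / (2 * C4) * a := ⟨_, rfl⟩
  have zx : z (Xc g) ≤ x := ex ▸ h5' g a a0' (hg.sep.trans (by nlinarith)) hg.sep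
  have x0 : 0 ≤ x := (z_nonneg _).trans zx
  have xk : C4 * x ≤ min κ 1 * a / 2 := by rw [ex]; field_simp; exact le_rfl
  have xk1 : C4 * x ≤ κ * a / 2 := xk.trans (by gcongr; exact min_le_left _ _)
  have xk2 : C4 * x ≤ a / 2 := xk.trans (by nlinarith [min_le_right κ 1])
  have xx : x ≤ C4 * x := by nlinarith
  have hJ : Ad (C5 * a) (JJ g) := h5 a g a0' (ha.trans l7) hg
  have hJ2 := y2 a (ha.trans l2')
  obtain ⟨-, h4J⟩ := h4 (JJ g) (hJ.half (hJ2.trans (min_le_right _ _)))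
  have ee : N f - b (JJ g) = N f - N (b g) + Xc g := by rw [Xc]; abel
  have ze : z (N f - b (JJ g)) ≤ (C1 + 1) * w + x := by
    rw [ee]
    refine (z_add_le _ _).trans ?_
    nlinarith
  have ye : Y (JJ g) (N f - b (JJ g)) (31 / 40 * w + C4 * x) := by
    rw [ee]
    exact (m2.add (Y_t _ _)).mono (by nlinarith [h4J (Xc g)])
  obtain ⟨p, hp, hs⟩ := ye
  have hτ : ∑ i, l2 (p i) ≤ C6 * (w + 2 * x) := by
    refine (sum_l2_le hs).trans ?_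
    have := h4J (N f - b (JJ g))
    have : C4 * z (N f - b (JJ g)) ≤ C4 * ((C1 + 1) * w + x) := by gcongr
    have : 0 ≤ C4 * C1 * x := by positivity
    rw [e6]
    nlinarith
  have wx : w + 2 * x ≤ 2 * δ := by linarith
  have wx' : w + 2 * x ≤ w + κ * a := by linarith
  obtain ⟨h, k1, k2, k3⟩ := h3 (JJ g) p _ (hJ.mono (by positivity) (hJ2.trans (min_le_left _ _)))
    hp hτ (le_trans (by nlinarith) (y3 δ l3))
  have ω1 : C2 * (C3 * (C6 * (w + 2 * x))) ≤ 1 / 20 := by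
    refine le_trans ?_ (y4 δ l4)
    have : C2 * (C3 * (C6 * (w + 2 * x))) ≤ C2 * (C3 * (C6 * (2 * δ))) := by gcongr
    linarith
  have ω0 : 0 ≤ C3 * (C6 * (w + 2 * x)) := by positivity
  have e2 : N f - b h = N f - b (JJ g) - (b h - b (JJ g)) := by abel
  refine ⟨h, k1.mono (by rw [mul_assoc]; gcongr), ?_, ?_⟩
  · have t1 := (h2 _ _ _ ω0 ((le_mul_of_one_le_left ω0 c2).trans (ω1.trans (by norm_num))) k1).1
      (N f - b h)
    have t2 := t_sub_le hs k2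
    rw [← e2, show 1 / (40 * C6) * (C6 * (w + 2 * x)) = (w + 2 * x) / 40 by field_simp] at t2
    have t3 := mul_le_mul_of_nonneg_right (add_le_add_right ω1 1) (t_nonneg (JJ g) (N f - b h))
    linarith
  · rw [e2]
    refine (z_sub_le _ _).trans ?_
    have s0 : 0 ≤ C3 * C6 := by positivity
    have s1 : C3 * (C6 * (w + 2 * x)) ≤ C3 * C6 * (w + κ * a) := by rw [mul_assoc]; gcongr
    have s2 : 0 ≤ κ * a := by positivity
    have s3 := mul_nonneg s0 w0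
    have s4 := mul_nonneg s0 s2
    have s5 := mul_nonneg (zero_le_one.trans c1) w0
    have s6 := mul_nonneg (zero_le_one.trans c1) s2
    rw [eA]
    linarith

end Pool.Agent.Lib.MP_242fd5_gt.Cu
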